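import Pool.Agent.SerreW.Defs

/-!
# HRED (2): the weighted sum over the diagonal torus and matrices which are diagonal modulo `m`

Let `g ∈ GL₂(O)`, `m ∣ g₀₁`, `m ∣ g₁₀`, `f ∣ g₀₁ g₁₀`, and let `A = g₀₀`, `D = g₁₁` modulo `f`: `A D = det g` is a unit
of `O/f`, so `A`, `D` are units. `red f g = diag(A, D) κ` with `κ = [[1, g₀₁/A], [g₁₀/D, 1]]`,
`κ ≡ 1` modulo `m`, `det κ = 1`. For `y ∈ GL₂(O/f)`: `(red f g)⁻¹ y = κ⁻¹ z`, `z = diag(A, D)⁻¹ y`, and
`κ⁻¹ z = z (z⁻¹ κ⁻¹ z)`, where `z⁻¹ κ⁻¹ z ≡ 1` modulo `m` has determinant `1`, so it is in `N` with `X = ψ(1) = 1`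
(`D.km`), so `C γ' (κ⁻¹ z) = C γ' z` by `hC.equi`. For `y = dg r * a`: `z = sc A⁻¹ * dg (r q⁻¹) * a`, `q = D/A`;
`C γ' (sc u * y) = C γ' y` (`SerreT.sc_left`, file SerreT/FINO). Reindex `r ↦ q r`
(`psi (q r) = psi q * psi r`; `finsum_comp_equiv`, or sums over Fintype).
-/

open Matrix
open scoped QuadraticAlgebra

namespace SerreW
namespace TW

open SerreT
open SerreE (mk2 sc dg dgl up low red Gam0 GamUp mem_Gam0 mem_GamUp PM Frame heckeC)

variable {O : Type} [CommRing O] {k : Type} [Field k] {f : O}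
  {χ : (Ti (O ⧸ Ideal.span {f}))ˣ →* kˣ} {D : TW f k χ}

theorem hred_eqM_of_sub {R : Type*} [CommRing R] (m : R) (κ y : GL (Fin 2) R) (hκ : EqM m κ 1) :
    EqM m (y⁻¹ * κ * y) 1 := by
  intro i j
  have h : (y⁻¹ * κ * y).val - (1 : GL (Fin 2) R).val =
      (y⁻¹).val * (κ.val - (1 : GL (Fin 2) R).val) * y.val := by
    rw [Matrix.mul_sub, Matrix.sub_mul, ← Units.val_mul, ← Units.val_mul, ← Units.val_mul,
      ← Units.val_mul, mul_one, inv_mul_cancel]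
  have h1 := congrFun (congrFun h i) j
  rw [Matrix.sub_apply] at h1
  rw [h1, Matrix.mul_apply]
  refine Finset.dvd_sum fun l _ => Dvd.dvd.mul_right ?_ _
  rw [Matrix.mul_apply]
  refine Finset.dvd_sum fun l' _ => Dvd.dvd.mul_left ?_ _
  rw [Matrix.sub_apply]
  exact hκ l' l

/-- matrices of determinant one which are congruent to `1` modulo `m` act trivially. -/
theorem left_km {C : GL (Fin 2) O → GL (Fin 2) (O ⧸ Ideal.span {f}) → k} (hC : D.IsC C)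
    (κ y : GL (Fin 2) (O ⧸ Ideal.span {f}))
    (hκ : EqM (Ideal.Quotient.mk (Ideal.span {f}) D.m) κ 1)
    (hdet : Matrix.GeneralLinearGroup.det κ = 1) (γ : GL (Fin 2) O) : C γ (κ * y) = C γ y := by
  obtain ⟨hn, hX⟩ := D.km (y⁻¹ * κ * y) (hred_eqM_of_sub _ κ y hκ)
  have hd : Matrix.GeneralLinearGroup.det (y⁻¹ * κ * y) = 1 := by
    rw [map_mul, map_mul, hdet, mul_one, map_inv, inv_mul_cancel]
  rw [hd, map_one, map_one] at hX
  have h := hC.equi γ y ⟨y⁻¹ * κ * y, hn⟩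
  rw [hX, inv_one, Units.val_one, one_mul] at h
  rw [← h]
  congr 1
  group

theorem hred_c_red {C : GL (Fin 2) O → GL (Fin 2) (O ⧸ Ideal.span {f}) → k} (hC : D.IsC C)
    (hscal : ∀ u, χ (tiC u) = 1) (g : GL (Fin 2) O) (h01 : D.m ∣ g.val 0 1)
    (h10 : D.m ∣ g.val 1 0) (hfd : f ∣ g.val 0 1 * g.val 1 0)
    (q : (O ⧸ Ideal.span {f})ˣ)
    (hq : (q : O ⧸ Ideal.span {f}) * Ideal.Quotient.mk _ (g.val 0 0) =
      Ideal.Quotient.mk _ (g.val 1 1)) (γ' : GL (Fin 2) O)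
    (r : (O ⧸ Ideal.span {f})ˣ) (a : GL (Fin 2) (O ⧸ Ideal.span {f})) :
    C γ' ((red f g)⁻¹ * (dg r * a)) = C γ' (dg (r * q⁻¹) * a) := by
  have hdet : g.val 0 0 * g.val 1 1 - g.val 0 1 * g.val 1 0 =
      (Matrix.GeneralLinearGroup.det g : O) := by
    rw [Matrix.GeneralLinearGroup.val_det_apply, Matrix.det_fin_two]
  have h0 : Ideal.Quotient.mk (Ideal.span {f}) (g.val 0 1 * g.val 1 0) = 0 := by
    rw [Ideal.Quotient.eq_zero_iff_mem, Ideal.mem_span_singleton]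
    exact hfd
  have hAD : Ideal.Quotient.mk (Ideal.span {f}) (g.val 0 0) *
      Ideal.Quotient.mk (Ideal.span {f}) (g.val 1 1) =
      Ideal.Quotient.mk (Ideal.span {f}) (Matrix.GeneralLinearGroup.det g : O) := by
    rw [← hdet, map_sub, h0, sub_zero, map_mul]
  have hU : IsUnit (Ideal.Quotient.mk (Ideal.span {f}) (g.val 0 0)) := by
    refine isUnit_of_mul_isUnit_left (y := Ideal.Quotient.mk (Ideal.span {f}) (g.val 1 1)) ?_
    rw [hAD]
    exact (Units.isUnit _).map _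
  obtain ⟨A, hA⟩ := hU
  set T : GL (Fin 2) (O ⧸ Ideal.span {f}) := sc A * dg q with hT
  have hT00 : T.val 0 0 = Ideal.Quotient.mk (Ideal.span {f}) (g.val 0 0) := by
    rw [hT, (scdg_val A q).1, hA]
  have hT11 : T.val 1 1 = Ideal.Quotient.mk (Ideal.span {f}) (g.val 1 1) := by
    rw [hT, (scdg_val A q).2, ← hq, hA, mul_comm]
  have hT01 : T.val 0 1 = 0 := (scdg_off A q).1
  have hT10 : T.val 1 0 = 0 := (scdg_off A q).2
  have hm01 : Ideal.Quotient.mk (Ideal.span {f}) D.m ∣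
      Ideal.Quotient.mk (Ideal.span {f}) (g.val 0 1) := map_dvd _ h01
  have hm10 : Ideal.Quotient.mk (Ideal.span {f}) D.m ∣
      Ideal.Quotient.mk (Ideal.span {f}) (g.val 1 0) := map_dvd _ h10
  have hr : ∀ i j, (red f g).val i j = Ideal.Quotient.mk (Ideal.span {f}) (g.val i j) :=
    fun i j => rfl
  have hTE : ∀ i j, Ideal.Quotient.mk (Ideal.span {f}) D.m ∣ T.val i j - (red f g).val i j := by
    intro i j
    rw [hr]
    fin_cases i <;> fin_cases j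
    · change _ ∣ T.val 0 0 - Ideal.Quotient.mk (Ideal.span {f}) (g.val 0 0)
      rw [hT00, sub_self]; exact dvd_zero _
    · change _ ∣ T.val 0 1 - Ideal.Quotient.mk (Ideal.span {f}) (g.val 0 1)
      rw [hT01, zero_sub]; exact (dvd_neg).mpr hm01
    · change _ ∣ T.val 1 0 - Ideal.Quotient.mk (Ideal.span {f}) (g.val 1 0)
      rw [hT10, zero_sub]; exact (dvd_neg).mpr hm10
    · change _ ∣ T.val 1 1 - Ideal.Quotient.mk (Ideal.span {f}) (g.val 1 1)
      rw [hT11, sub_self]; exact dvd_zero _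
  have hκ : EqM (Ideal.Quotient.mk (Ideal.span {f}) D.m) ((red f g)⁻¹ * T) 1 := by
    intro i j
    have h : ((red f g)⁻¹ * T).val - (1 : GL (Fin 2) (O ⧸ Ideal.span {f})).val =
        ((red f g)⁻¹).val * (T.val - (red f g).val) := by
      rw [Matrix.mul_sub, ← Units.val_mul, ← Units.val_mul, inv_mul_cancel]
    have h1 := congrFun (congrFun h i) j
    rw [Matrix.sub_apply] at h1
    rw [h1, Matrix.mul_apply]
    refine Finset.dvd_sum fun l _ => Dvd.dvd.mul_left ?_ _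
    rw [Matrix.sub_apply]
    exact hTE l j
  have hd1 : Matrix.GeneralLinearGroup.det ((red f g)⁻¹ * T) = 1 := by
    rw [map_mul, map_inv, inv_mul_eq_one]
    apply Units.ext
    rw [Matrix.GeneralLinearGroup.val_det_apply, Matrix.GeneralLinearGroup.val_det_apply,
      Matrix.det_fin_two, Matrix.det_fin_two, hT00, hT01, hT10, hT11, hr, hr, hr, hr, mul_zero,
      ← map_mul (Ideal.Quotient.mk (Ideal.span {f})) (g.val 0 1), h0]
  have e1 : (red f g)⁻¹ * (dg r * a) = ((red f g)⁻¹ * T) * (T⁻¹ * (dg r * a)) := by group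
  rw [e1, left_km hC _ _ hκ hd1]
  have e2 : T⁻¹ * (dg r * a) = sc A⁻¹ * (dg (r * q⁻¹) * a) := by
    rw [inv_mul_eq_iff_eq_mul, hT]
    have e3 : (sc A : GL (Fin 2) (O ⧸ Ideal.span {f})) * dg q * (sc A⁻¹ * (dg (r * q⁻¹) * a)) =
        (sc A * sc A⁻¹) * ((dg q * dg (r * q⁻¹)) * a) := by
      have := SerreE.compat_sc_comm A⁻¹ (dg q)
      rw [mul_assoc, ← mul_assoc (dg q), ← this]
      simp only [mul_assoc]
    have e4 : (sc A * sc A⁻¹ : GL (Fin 2) (O ⧸ Ideal.span {f})) = 1 := by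
      rw [← map_mul, mul_inv_cancel, map_one]
    rw [e3, e4, one_mul, ← SerreE.compat_dg_mul, mul_comm r q⁻¹, mul_inv_cancel_left]
  rw [e2, sc_left hC.isCoc hscal]

theorem hh_red [Finite (O ⧸ Ideal.span {f})]
    {C : GL (Fin 2) O → GL (Fin 2) (O ⧸ Ideal.span {f}) → k} (hC : D.IsC C)
    (hscal : ∀ u, χ (tiC u) = 1) (g : GL (Fin 2) O) (h01 : D.m ∣ g.val 0 1)
    (h10 : D.m ∣ g.val 1 0) (hfd : f ∣ g.val 0 1 * g.val 1 0)
    (q : (O ⧸ Ideal.span {f})ˣ)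
    (hq : (q : O ⧸ Ideal.span {f}) * Ideal.Quotient.mk _ (g.val 0 0) =
      Ideal.Quotient.mk _ (g.val 1 1)) (γ' : GL (Fin 2) O)
    (a : GL (Fin 2) (O ⧸ Ideal.span {f})) :
    ∑ᶠ r : (O ⧸ Ideal.span {f})ˣ, (D.psi r : k) * C γ' ((red f g)⁻¹ * (dg r * a)) =
      (D.psi q : k) * D.hh C a γ' := by
  have h1 : ∀ r : (O ⧸ Ideal.span {f})ˣ,
      (D.psi r : k) * C γ' ((red f g)⁻¹ * (dg r * a)) =
        (fun r' : (O ⧸ Ideal.span {f})ˣ => (D.psi q : k) * ((D.psi r' : k) * C γ' (dg r' * a)))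
          (Equiv.mulRight q⁻¹ r) := by
    intro r
    rw [hred_c_red hC hscal g h01 h10 hfd q hq]
    change _ = (D.psi q : k) * ((D.psi (r * q⁻¹) : k) * C γ' (dg (r * q⁻¹) * a))
    rw [← mul_assoc, ← Units.val_mul, ← map_mul, mul_comm q, inv_mul_cancel_right]
  rw [finsum_congr h1, finsum_comp_equiv (Equiv.mulRight q⁻¹)
    (f := fun r' : (O ⧸ Ideal.span {f})ˣ => (D.psi q : k) * ((D.psi r' : k) * C γ' (dg r' * a)))]
  unfold hh
  rw [mul_finsum]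

/-- one term of the preceding sum. -/
theorem c_red {C : GL (Fin 2) O → GL (Fin 2) (O ⧸ Ideal.span {f}) → k} (hC : D.IsC C)
    (hscal : ∀ u, χ (tiC u) = 1) (g : GL (Fin 2) O) (h01 : D.m ∣ g.val 0 1)
    (h10 : D.m ∣ g.val 1 0) (hfd : f ∣ g.val 0 1 * g.val 1 0)
    (q : (O ⧸ Ideal.span {f})ˣ)
    (hq : (q : O ⧸ Ideal.span {f}) * Ideal.Quotient.mk _ (g.val 0 0) =
      Ideal.Quotient.mk _ (g.val 1 1)) (γ' : GL (Fin 2) O)
    (r : (O ⧸ Ideal.span {f})ˣ) (a : GL (Fin 2) (O ⧸ Ideal.span {f})) :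
    C γ' ((red f g)⁻¹ * (dg r * a)) = C γ' (dg (r * q⁻¹) * a) :=
  hred_c_red hC hscal g h01 h10 hfd q hq γ' r a

end TW
end SerreW
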