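import Pool.Agent.SerreW.Defs

/-!
# MC (3): the matrices `M_c = [[f, f₁ c], [0, s]]`

Notation: `f = m s = e f₁`, `γ = [[A, B], [C, D]]` with `f² ∣ C`, `C = f² w`, `e ∣ c D - c' A`, `c D - c' A = e x`.
Then `g M_{c'} = M_c γ` for the matrix
`g = [[A + c f₁ f w, m B + m x - c c' f₁² m w], [f s w, D - f₁ f w c']]`, `det g = det γ`
(polynomial identities; use `f₁ e x = f x = m s x`; for the determinant:
`(A + c f₁ f w)(D - c' f₁ f w) - (m B + m x - c c' f₁² m w) f s w = AD - f² w B + f w (f₁ (c D - c' A) - f x)`).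
Uniqueness: `det M_{c'} = f s ≠ 0` (entries: column 0 of `g M_{c'}` is `f * column 0 of g`, column 1 is
`f₁ c' * column 0 + s * column 1`). All statements are matrix identities over the domain `O`.
`rel_shift`: `up (m z) M_c = M_{c + e z}` because `m z s = f z = f₁ e z`.
-/

open Matrix
open scoped QuadraticAlgebra

namespace SerreW
namespace TW

open SerreT
open SerreE (mk2 sc dg dgl up low red Gam0 GamUp mem_Gam0 mem_GamUp PM Frame heckeC)

variable {O : Type} [CommRing O] {k : Type} [Field k] {f : O}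
  {χ : (Ti (O ⧸ Ideal.span {f}))ˣ →* kˣ} (D : TW f k χ)

theorem f_ne_s (hf : f ≠ 0) : D.s ≠ 0 ∧ D.m ≠ 0 ∧ D.e ≠ 0 ∧ D.f1 ≠ 0 := by
  have h1 := D.hms
  have h2 := D.hef
  refine ⟨?_, ?_, ?_, ?_⟩ <;> intro h
  · rw [h, mul_zero] at h1; exact hf h1
  · rw [h, zero_mul] at h1; exact hf h1
  · rw [h, zero_mul] at h2; exact hf h2
  · rw [h, mul_zero] at h2; exact hf h2

variable {D}

theorem mc_rel_iff {c c' : O} {γ g : GL (Fin 2) O} : D.Rel c c' γ g ↔
    g.val 0 0 * f = f * γ.val 0 0 + D.f1 * c * γ.val 1 0 ∧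
    g.val 0 0 * (D.f1 * c') + g.val 0 1 * D.s = f * γ.val 0 1 + D.f1 * c * γ.val 1 1 ∧
    g.val 1 0 * f = D.s * γ.val 1 0 ∧
    g.val 1 0 * (D.f1 * c') + g.val 1 1 * D.s = D.s * γ.val 1 1 := by
  unfold Rel M
  constructor
  · intro h
    have h0 := fun i j => congrFun (congrFun h i) j
    have h00 := h0 0 0
    have h01 := h0 0 1
    have h10 := h0 1 0
    have h11 := h0 1 1
    simp [Matrix.mul_apply, Fin.sum_univ_two] at h00 h01 h10 h11
    exact ⟨h00, h01, h10, h11⟩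
  · rintro ⟨h00, h01, h10, h11⟩
    ext i j
    fin_cases i <;> fin_cases j <;> simp [Matrix.mul_apply, Fin.sum_univ_two]
    · exact h00
    · exact h01
    · exact h10
    · exact h11

theorem mc_ext {g g' : GL (Fin 2) O} (h00 : g.val 0 0 = g'.val 0 0) (h01 : g.val 0 1 = g'.val 0 1)
    (h10 : g.val 1 0 = g'.val 1 0) (h11 : g.val 1 1 = g'.val 1 1) : g = g' := by
  apply Matrix.GeneralLinearGroup.ext
  intro i j
  fin_cases i <;> fin_cases j
  · exact h00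
  · exact h01
  · exact h10
  · exact h11

theorem rel_unique [IsDomain O] (hf : f ≠ 0) {c c' : O} {γ g g' : GL (Fin 2) O}
    (h : D.Rel c c' γ g) (h' : D.Rel c c' γ g') : g = g' := by
  rw [mc_rel_iff] at h h'
  obtain ⟨h1, h2, h3, h4⟩ := h
  obtain ⟨h1', h2', h3', h4'⟩ := h'
  have hs := (f_ne_s D hf).1
  have e1 : g.val 0 0 = g'.val 0 0 := mul_right_cancel₀ hf (h1.trans h1'.symm)
  have e3 : g.val 1 0 = g'.val 1 0 := mul_right_cancel₀ hf (h3.trans h3'.symm)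
  refine mc_ext e1 (mul_right_cancel₀ hs ?_) e3 (mul_right_cancel₀ hs ?_)
  · rw [e1] at h2
    linear_combination h2 - h2'
  · rw [e3] at h4
    linear_combination h4 - h4'

theorem rel_mul {c c' c'' : O} {γ γ' g g' : GL (Fin 2) O}
    (h : D.Rel c c' γ g) (h' : D.Rel c' c'' γ' g') : D.Rel c c'' (γ * γ') (g * g') := by
  unfold Rel at h h' ⊢
  rw [Units.val_mul, Units.val_mul, Matrix.mul_assoc, h', ← Matrix.mul_assoc, h, Matrix.mul_assoc]

theorem rel_one (c : O) : D.Rel c c 1 1 := by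
  unfold Rel
  rw [Units.val_one, Matrix.one_mul, Matrix.mul_one]

theorem rel_inv [IsDomain O] (hf : f ≠ 0) {c c' : O} {γ g : GL (Fin 2) O}
    (h : D.Rel c c' γ g) : D.Rel c' c γ⁻¹ g⁻¹ := by
  unfold Rel at h ⊢
  have h1 : γ.val * (γ⁻¹).val = 1 := by rw [← Units.val_mul, mul_inv_cancel, Units.val_one]
  have h2 : (g⁻¹).val * g.val = 1 := by rw [← Units.val_mul, inv_mul_cancel, Units.val_one]
  calc (g⁻¹).val * D.M c = (g⁻¹).val * (D.M c * (γ.val * (γ⁻¹).val)) := by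
        rw [h1, Matrix.mul_one]
    _ = (g⁻¹).val * (g.val * D.M c' * (γ⁻¹).val) := by rw [h, Matrix.mul_assoc]
    _ = ((g⁻¹).val * g.val) * (D.M c' * (γ⁻¹).val) := by simp only [Matrix.mul_assoc]
    _ = D.M c' * (γ⁻¹).val := by rw [h2, Matrix.one_mul]

theorem rel_sc (c : O) (u : Oˣ) : D.Rel c c (sc u) (sc u) := by
  rw [mc_rel_iff]
  have e00 : (sc u : GL (Fin 2) O).val 0 0 = u := by simp
  have e01 : (sc u : GL (Fin 2) O).val 0 1 = 0 := by simp
  have e10 : (sc u : GL (Fin 2) O).val 1 0 = 0 := by simp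
  have e11 : (sc u : GL (Fin 2) O).val 1 1 = u := by simp
  rw [e00, e01, e10, e11]
  refine ⟨by ring, by ring, by ring, by ring⟩

theorem mc_explicit {c c' : O} {γ : GL (Fin 2) O} (hγ : f ^ 2 ∣ γ.val 1 0)
    (h : D.e ∣ c * γ.val 1 1 - c' * γ.val 0 0) : ∃ g, D.Rel c c' γ g ∧
      f ∣ g.val 0 0 - γ.val 0 0 ∧ f ∣ g.val 1 1 - γ.val 1 1 ∧ f * D.s ∣ g.val 1 0 ∧
      D.m ∣ g.val 0 1 ∧ Matrix.GeneralLinearGroup.det g = Matrix.GeneralLinearGroup.det γ := by
  obtain ⟨w, hw⟩ := hγ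
  obtain ⟨x, hx⟩ := h
  have hms := D.hms
  have hef := D.hef
  have hdet : γ.val 0 0 * γ.val 1 1 - γ.val 0 1 * γ.val 1 0 =
      (Matrix.GeneralLinearGroup.det γ : O) := by
    rw [Matrix.GeneralLinearGroup.val_det_apply, Matrix.det_fin_two]
  set A := γ.val 0 0 with hA
  set B := γ.val 0 1 with hB
  set C := γ.val 1 0 with hC
  set E := γ.val 1 1 with hE
  have h1 : (A + c * D.f1 * f * w) * (E - D.f1 * f * w * c') -
      (D.m * B + D.m * x - c * c' * D.f1 ^ 2 * D.m * w) * (f * D.s * w) =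
      (Matrix.GeneralLinearGroup.det γ : O) := by
    rw [← hdet, hw]
    linear_combination (f * w * (B + x - c * c' * D.f1 ^ 2 * w)) * hms +
      (D.f1 * f * w) * hx - (f * w * x) * hef
  refine ⟨mk2 (A + c * D.f1 * f * w) (D.m * B + D.m * x - c * c' * D.f1 ^ 2 * D.m * w)
    (f * D.s * w) (E - D.f1 * f * w * c') (Matrix.GeneralLinearGroup.det γ) h1, ?_, ?_, ?_, ?_, ?_, ?_⟩
  · rw [mc_rel_iff]
    simp only [SerreE.mk2_00, SerreE.mk2_01, SerreE.mk2_10, SerreE.mk2_11]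
    refine ⟨?_, ?_, ?_, ?_⟩
    · rw [← hA, ← hC, hw]; ring
    · rw [← hB, ← hE]
      linear_combination (-(B + x - c * c' * D.f1 ^ 2 * w)) * hms - D.f1 * hx + x * hef
    · rw [← hC, hw]; ring
    · rw [← hE]; ring
  · exact ⟨c * D.f1 * w, by simp only [SerreE.mk2_00]; ring⟩
  · exact ⟨-(D.f1 * w * c'), by simp only [SerreE.mk2_11]; ring⟩
  · exact ⟨w, by simp only [SerreE.mk2_10]⟩
  · exact ⟨B + x - c * c' * D.f1 ^ 2 * w, by simp only [SerreE.mk2_01]; ring⟩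
  · apply Units.ext
    rw [Matrix.GeneralLinearGroup.val_det_apply, Matrix.det_fin_two]
    simp only [SerreE.mk2_00, SerreE.mk2_01, SerreE.mk2_10, SerreE.mk2_11]
    exact h1

theorem rel_exists [IsDomain O] (hf : f ≠ 0) {c c' : O} {γ : GL (Fin 2) O} (hγ : f ^ 2 ∣ γ.val 1 0)
    (h : D.e ∣ c * γ.val 1 1 - c' * γ.val 0 0) : ∃ g, D.Rel c c' γ g := by
  obtain ⟨g, hg, -⟩ := mc_explicit hγ h
  exact ⟨g, hg⟩

theorem rel_props [IsDomain O] (hf : f ≠ 0) {c c' : O} {γ g : GL (Fin 2) O}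
    (hγ : f ^ 2 ∣ γ.val 1 0) (h0 : D.e ∣ c * γ.val 1 1 - c' * γ.val 0 0) (h : D.Rel c c' γ g) :
    f ∣ g.val 0 0 - γ.val 0 0 ∧ f ∣ g.val 1 1 - γ.val 1 1 ∧ f * D.s ∣ g.val 1 0 ∧
      D.m ∣ g.val 0 1 ∧ Matrix.GeneralLinearGroup.det g = Matrix.GeneralLinearGroup.det γ := by
  obtain ⟨g', hg', hprops⟩ := mc_explicit hγ h0
  rw [rel_unique hf h hg']
  exact hprops

theorem mc_up (c z : O) : D.M (c + D.e * z) = (up (D.m * z) : GL (Fin 2) O).val * D.M c := by
  have hms := D.hms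
  have hef := D.hef
  have e00 : (up (D.m * z) : GL (Fin 2) O).val 0 0 = 1 := rfl
  have e01 : (up (D.m * z) : GL (Fin 2) O).val 0 1 = D.m * z := rfl
  have e10 : (up (D.m * z) : GL (Fin 2) O).val 1 0 = 0 := rfl
  have e11 : (up (D.m * z) : GL (Fin 2) O).val 1 1 = 1 := rfl
  unfold M
  ext i j
  fin_cases i <;> fin_cases j <;> simp [Matrix.mul_apply, Fin.sum_univ_two, e00, e01, e10, e11]
  linear_combination z * hms - z * hef

theorem rel_shift {c c' : O} {γ g : GL (Fin 2) O} (h : D.Rel c c' γ g) (z z' : O) :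
    D.Rel (c + D.e * z) (c' + D.e * z') γ (up (D.m * z) * g * (up (D.m * z'))⁻¹) := by
  unfold Rel at h ⊢
  rw [mc_up, mc_up]
  have h2 : ((up (D.m * z') : GL (Fin 2) O)⁻¹).val * (up (D.m * z') : GL (Fin 2) O).val = 1 := by
    rw [← Units.val_mul, inv_mul_cancel, Units.val_one]
  rw [Units.val_mul, Units.val_mul, Matrix.mul_assoc, ← Matrix.mul_assoc _ _ (D.M c'), h2,
    Matrix.one_mul, Matrix.mul_assoc, h, Matrix.mul_assoc]

end TW
end SerreW
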