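import Pool.Agent.SerreW.Defs
import Pool.Agent.SerreW.MC
import Pool.Agent.SerreW.HRED

/-!
# FHOM (3): `F` is a homomorphism on `Γ₀(f²)`

`rat f (γ γ') = rat f γ * rat f γ'` (modulo `f²` the matrices are upper triangular).
`gm_rel`: with `c' = c D/A` the condition `e ∣ lf c * D - lf c' * A` holds modulo `e`
(`lf_spec`, `rat_spec` reduced by `rd D.e_dvd`, `rd_mk`), so `rel_exists` applies and `Classical.choose_spec`.
`gm_mul`: `(γγ')_c = γ_c γ'_{c·γ}` by `rel_mul` and `rel_unique`.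
Then `F (γγ') = Σ_c ψ(c) Σ_r ψ(r) [C γ_c (dg r a) + C γ'_{c'} ((red γ_c)⁻¹ dg r a)]` and the second part is
`Σ_c ψ(c) psi(rat γ) hh (γ'_{c'})` by `hh_red` (hypotheses from `rel_props`; `f ∣ g₀₁ g₁₀` since `m ∣ g₀₁`,
`f s ∣ g₁₀`, in particular `f ∣ g₁₀`; `q = rat f γ` because `f ∣ g₀₀ - A`, `f ∣ g₁₁ - D`);
`ψe c * psi (rat γ) = ψe (c * rdU _ (rat γ))`, and reindex `c ↦ c * rdU _ (rat γ)`.
-/

open Matrix
open scoped QuadraticAlgebra

namespace SerreW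

open SerreT
open SerreE (mk2 sc dg dgl up low red Gam0 GamUp mem_Gam0 mem_GamUp PM Frame heckeC)

variable {O : Type} [CommRing O]

theorem fhom_mk0 (f : O) (γ : Gam0 (f ^ 2)) :
    Ideal.Quotient.mk (Ideal.span {f}) (γ.val.val 1 0) = 0 := by
  rw [Ideal.Quotient.eq_zero_iff_mem, Ideal.mem_span_singleton]
  exact (dvd_pow_self f two_ne_zero).trans γ.2

theorem fhom_fst (f : O) (γ γ' : Gam0 (f ^ 2)) :
    (diagU f (γ * γ')).1 = (diagU f γ).1 * (diagU f γ').1 := by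
  apply Units.ext
  rw [Units.val_mul, diagU_fst, diagU_fst, diagU_fst]
  have h : (γ * γ').val.val 0 0 =
      γ.val.val 0 0 * γ'.val.val 0 0 + γ.val.val 0 1 * γ'.val.val 1 0 := by
    change (γ.val.val * γ'.val.val) 0 0 = _
    rw [Matrix.mul_apply, Fin.sum_univ_two]
  rw [h, map_add, map_mul, map_mul, fhom_mk0, mul_zero, add_zero]

theorem fhom_snd (f : O) (γ γ' : Gam0 (f ^ 2)) :
    (diagU f (γ * γ')).2 = (diagU f γ).2 * (diagU f γ').2 := by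
  apply Units.ext
  rw [Units.val_mul, diagU_snd, diagU_snd, diagU_snd]
  have h : (γ * γ').val.val 1 1 =
      γ.val.val 1 0 * γ'.val.val 0 1 + γ.val.val 1 1 * γ'.val.val 1 1 := by
    change (γ.val.val * γ'.val.val) 1 1 = _
    rw [Matrix.mul_apply, Fin.sum_univ_two]
  rw [h, map_add, map_mul, map_mul, fhom_mk0, zero_mul, zero_add]

theorem rat_mul (f : O) (γ γ' : Gam0 (f ^ 2)) : rat f (γ * γ') = rat f γ * rat f γ' := by
  unfold rat
  rw [fhom_fst, fhom_snd, mul_inv]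
  exact mul_mul_mul_comm _ _ _ _

theorem rat_one (f : O) : rat f (1 : Gam0 (f ^ 2)) = 1 := by
  have h := rat_mul f 1 1
  rw [mul_one] at h
  exact (left_eq_mul.mp h)

namespace TW

variable {k : Type} [Field k] {f : O}
  {χ : (Ti (O ⧸ Ideal.span {f}))ˣ →* kˣ} (D : TW f k χ)

theorem gm_dvd (γ : Gam0 (f ^ 2)) (c : (O ⧸ Ideal.span {D.e})ˣ) :
    D.e ∣ D.lf c * γ.val.val 1 1 - D.lf (c * rdU D.e_dvd (rat f γ)) * γ.val.val 0 0 := by
  rw [← Ideal.mem_span_singleton, ← Ideal.Quotient.eq_zero_iff_mem, map_sub, map_mul, map_mul,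
    D.lf_spec, D.lf_spec, ← rd_mk D.e_dvd, ← rd_mk D.e_dvd, ← rat_spec, map_mul, Units.val_mul]
  have h : ((rdU D.e_dvd (rat f γ) : (O ⧸ Ideal.span {D.e})ˣ) : O ⧸ Ideal.span {D.e}) =
      rd D.e_dvd (rat f γ : O ⧸ Ideal.span {f}) := rfl
  rw [h]
  ring

theorem gm_rel [IsDomain O] (hf : f ≠ 0) (γ : Gam0 (f ^ 2)) (c : (O ⧸ Ideal.span {D.e})ˣ) :
    D.Rel (D.lf c) (D.lf (c * rdU D.e_dvd (rat f γ))) γ.val (D.gm γ c) := by
  have h : ∃ g, D.Rel (D.lf c) (D.lf (c * rdU D.e_dvd (rat f γ))) γ.val g :=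
    rel_exists hf γ.2 (D.gm_dvd γ c)
  unfold gm
  rw [dif_pos h]
  exact h.choose_spec

theorem gm_mul [IsDomain O] (hf : f ≠ 0) (γ γ' : Gam0 (f ^ 2)) (c : (O ⧸ Ideal.span {D.e})ˣ) :
    D.gm (γ * γ') c = D.gm γ c * D.gm γ' (c * rdU D.e_dvd (rat f γ)) := by
  have h1 := D.gm_rel hf (γ * γ') c
  have h2 := rel_mul (D.gm_rel hf γ c) (D.gm_rel hf γ' (c * rdU D.e_dvd (rat f γ)))
  have h3 : c * rdU D.e_dvd (rat f γ) * rdU D.e_dvd (rat f γ') =
      c * rdU D.e_dvd (rat f (γ * γ')) := by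
    rw [rat_mul, map_mul, mul_assoc]
  rw [h3] at h2
  exact rel_unique hf h1 h2

theorem gm_one [IsDomain O] (hf : f ≠ 0) (c : (O ⧸ Ideal.span {D.e})ˣ) : D.gm 1 c = 1 := by
  have h1 := D.gm_rel hf 1 c
  rw [rat_one, map_one, mul_one] at h1
  exact rel_unique hf h1 (rel_one _)

variable {D}

theorem fhom_hh [IsDomain O] [Finite (O ⧸ Ideal.span {f})]
    (hf : f ≠ 0) {C : GL (Fin 2) O → GL (Fin 2) (O ⧸ Ideal.span {f}) → k} (hC : D.IsC C)
    (hscal : ∀ u, χ (tiC u) = 1) (a : GL (Fin 2) (O ⧸ Ideal.span {f})) (γ : Gam0 (f ^ 2))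
    (c : (O ⧸ Ideal.span {D.e})ˣ) (g' : GL (Fin 2) O) :
    D.hh C a (D.gm γ c * g') = D.hh C a (D.gm γ c) + (D.psi (rat f γ) : k) * D.hh C a g' := by
  obtain ⟨h00, h11, h10, h01, -⟩ := rel_props hf γ.2 (D.gm_dvd γ c) (D.gm_rel hf γ c)
  have hf10 : f ∣ (D.gm γ c).val 1 0 := (Dvd.intro _ rfl).trans h10
  have hq : (rat f γ : O ⧸ Ideal.span {f}) * Ideal.Quotient.mk _ ((D.gm γ c).val 0 0) =
      Ideal.Quotient.mk _ ((D.gm γ c).val 1 1) := by
    have e0 : Ideal.Quotient.mk (Ideal.span {f}) ((D.gm γ c).val 0 0) =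
        Ideal.Quotient.mk (Ideal.span {f}) (γ.val.val 0 0) := by
      rw [Ideal.Quotient.eq, Ideal.mem_span_singleton]; exact h00
    have e1 : Ideal.Quotient.mk (Ideal.span {f}) ((D.gm γ c).val 1 1) =
        Ideal.Quotient.mk (Ideal.span {f}) (γ.val.val 1 1) := by
      rw [Ideal.Quotient.eq, Ideal.mem_span_singleton]; exact h11
    rw [e0, e1, rat_spec]
  have h := hh_red hC hscal (D.gm γ c) h01 (D.m_dvd.trans hf10) (hf10.mul_left _) (rat f γ) hq g' a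
  rw [← h]
  unfold hh
  rw [← finsum_add_distrib (Set.toFinite _) (Set.toFinite _)]
  refine finsum_congr fun r => ?_
  rw [hC.coc, mul_add]

theorem F_mul [IsDomain O] [Finite (O ⧸ Ideal.span {f})] [Finite (O ⧸ Ideal.span {D.e})]
    (hf : f ≠ 0) {C : GL (Fin 2) O → GL (Fin 2) (O ⧸ Ideal.span {f}) → k} (hC : D.IsC C)
    (hscal : ∀ u, χ (tiC u) = 1) (a : GL (Fin 2) (O ⧸ Ideal.span {f})) (γ γ' : Gam0 (f ^ 2)) :
    D.F C a (γ * γ') = D.F C a γ + D.F C a γ' := by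
  have h1 : ∀ c : (O ⧸ Ideal.span {D.e})ˣ,
      (D.ψe c : k) * D.hh C a (D.gm (γ * γ') c) =
        (D.ψe c : k) * D.hh C a (D.gm γ c) +
        (fun c' : (O ⧸ Ideal.span {D.e})ˣ => (D.ψe c' : k) * D.hh C a (D.gm γ' c'))
          (Equiv.mulRight (rdU D.e_dvd (rat f γ)) c) := by
    intro c
    rw [D.gm_mul hf, fhom_hh hf hC hscal, mul_add, ← mul_assoc]
    congr 2
    change (D.ψe c : k) * (D.ψe (rdU D.e_dvd (rat f γ)) : k) =
      (D.ψe (c * rdU D.e_dvd (rat f γ)) : k)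
    rw [map_mul, Units.val_mul]
  unfold F
  rw [finsum_congr h1, finsum_add_distrib (Set.toFinite _) (Set.toFinite _),
    finsum_comp_equiv (Equiv.mulRight (rdU D.e_dvd (rat f γ)))
    (f := fun c' : (O ⧸ Ideal.span {D.e})ˣ => (D.ψe c' : k) * D.hh C a (D.gm γ' c'))]

end TW
end SerreW
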