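import Pool.Agent.SerreW.DEEP
import Pool.Agent.SerreW.MC
import Pool.Agent.SerreW.HRED
import Pool.Agent.SerreW.FHOM

/-!
# CJ (3): conjugation of matrices which are close to `1` by `M_c = [[f, f₁ c], [0, s]]`

* `deep_rel_exists`: `rel_exists` with `c' = c` (`e ∣ c (γ₁₁ - γ₀₀)` since `e ∣ f ∣ f²` divides `γ₀₀ - 1`, `γ₁₁ - 1`).
* `deep_rel`: `γ - 1 = f^(n+2) Z`. `(g - 1) M_c = M_c (γ - 1) = f^(n+2) M_c Z`; multiply on the right by
  `adj M_c = [[s, -f₁ c], [0, f]]`, `M_c adj M_c = f s`: `f s (g - 1) = f^(n+2) M_c Z adj M_c`, and `f s ∣ f²`: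
  `f^(n+2) = f s * (m f^n)`; cancel `f s ≠ 0`.
* `rel_zero_of_deep`: `γ = [[g₀₀, g₀₁/m], [m g₁₀, g₁₁]]`, same determinant; `m ∣ f`, so `f^n ∣ g₀₁/m` if `f^(n+1) ∣ g₀₁`.
* `hh_shift`: for `red f g = 1` and `G = (up (m z))⁻¹`: `C (G⁻¹ (g G)) y = C g (red f G * y)` (`IsCoc.conj`, file SerreT/INJ;
  `hC.isCoc`), and `red f G` has determinant one and is congruent to `1` modulo `m`, so `left_km` (HRED) gives `C g y`.
* `F_deep`: `rat f γ = 1` (`γ₀₀ ≡ γ₁₁ ≡ 1` modulo `f`, `rat_spec`), so `gm_rel` says `Rel (lf c) (lf c) γ (gm γ c)`. `lf c = L c + e z`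
  (both reduce to `c` modulo `e`), so by `rel_shift` and `rel_unique`: `gm γ c = up (m z) * G c * (up (m z))⁻¹`; now `hh_shift`
  (`G c` is congruent to `1` modulo `f` by `deep_rel`). Every term of the sum agrees: `finsum_congr`.
-/

open Matrix
open scoped QuadraticAlgebra

namespace SerreW
namespace TW

open SerreT
open SerreE (mk2 sc dg dgl up low red Gam0 GamUp mem_Gam0 mem_GamUp PM Frame heckeC)

variable {O : Type} [CommRing O] {k : Type} [Field k] {f : O}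
  {χ : (Ti (O ⧸ Ideal.span {f}))ˣ →* kˣ} (D : TW f k χ)

theorem deep_rel_exists [IsDomain O] (hf : f ≠ 0) {γ : GL (Fin 2) O} (hγ : Deep (f ^ 2) γ)
    (c : O) : ∃ g, D.Rel c c γ g := by
  obtain ⟨h00, h01, h10, h11⟩ := hγ.entries
  refine rel_exists hf h10 ?_
  have he : D.e ∣ f ^ 2 := D.e_dvd.trans (dvd_pow_self f two_ne_zero)
  have h2 := ((he.trans h11).sub (he.trans h00)).mul_left c
  have h3 : c * (γ.val 1 1 - 1 - (γ.val 0 0 - 1)) = c * γ.val 1 1 - c * γ.val 0 0 := by ring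
  rwa [h3] at h2

theorem cj_rel_iff (c c' : O) (γ g : GL (Fin 2) O) : D.Rel c c' γ g ↔
    g.val 0 0 * f = f * γ.val 0 0 + D.f1 * c * γ.val 1 0 ∧
    g.val 0 0 * (D.f1 * c') + g.val 0 1 * D.s = f * γ.val 0 1 + D.f1 * c * γ.val 1 1 ∧
    g.val 1 0 * f = D.s * γ.val 1 0 ∧
    g.val 1 0 * (D.f1 * c') + g.val 1 1 * D.s = D.s * γ.val 1 1 := by
  unfold TW.Rel TW.M
  constructor
  · intro h
    have e00 := congrFun (congrFun h 0) 0
    have e01 := congrFun (congrFun h 0) 1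
    have e10 := congrFun (congrFun h 1) 0
    have e11 := congrFun (congrFun h 1) 1
    simp [Matrix.mul_apply, Fin.sum_univ_two] at e00 e01 e10 e11
    exact ⟨e00, e01, e10, e11⟩
  · rintro ⟨e00, e01, e10, e11⟩
    ext i j
    fin_cases i <;> fin_cases j <;> simp [Matrix.mul_apply, Fin.sum_univ_two]
    · exact e00
    · exact e01
    · exact e10
    · exact e11

variable {D}

theorem deep_rel [IsDomain O] (hf : f ≠ 0) {γ g : GL (Fin 2) O} {c : O} (n : ℕ)
    (hγ : Deep (f ^ (n + 2)) γ) (h : D.Rel c c γ g) : Deep (f ^ n) g := by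
  obtain ⟨⟨a', ha⟩, ⟨b', hb⟩, ⟨c', hc⟩, ⟨d', hd⟩⟩ := hγ.entries
  obtain ⟨e00, e01, e10, e11⟩ := (cj_rel_iff D c c γ g).mp h
  have hs : D.s ≠ 0 := (D.f_ne_s hf).1
  have hms := D.hms
  have p1 : g.val 0 0 - 1 = f ^ n * (f ^ 2 * a' + D.f1 * c * f * c') := by
    apply mul_left_cancel₀ hf
    rw [pow_add] at ha hc
    linear_combination e00 + f * ha + D.f1 * c * hc
  have p3 : g.val 1 0 = f ^ n * (D.s * f * c') := by
    apply mul_left_cancel₀ hf
    rw [pow_add] at hc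
    linear_combination e10 + D.s * hc
  have p4 : g.val 1 1 - 1 = f ^ n * (f ^ 2 * d' - f * c' * D.f1 * c) := by
    apply mul_left_cancel₀ hs
    rw [pow_add] at hd
    linear_combination e11 + D.s * hd - D.f1 * c * p3
  have p2 : g.val 0 1 = f ^ n * (D.m * (f ^ 2 * b' + D.f1 * c * (f * d' - f * a' - D.f1 * c * c'))) := by
    apply mul_left_cancel₀ hs
    rw [pow_add] at hb hd
    linear_combination e01 + f * hb + D.f1 * c * hd - D.f1 * c * p1 +
      f ^ n * (f ^ 2 * b' + D.f1 * c * (f * d' - f * a' - D.f1 * c * c')) * hms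
  exact deep_of_entries ⟨_, p1⟩ ⟨_, p2⟩ ⟨_, p3⟩ ⟨_, p4⟩

variable (D) in
theorem rel_zero_of_deep [IsDomain O] (hf : f ≠ 0) {g : GL (Fin 2) O} (n : ℕ)
    (hg : Deep (f ^ (n + 1)) g) : ∃ γ, Deep (f ^ n) γ ∧ D.Rel 0 0 γ g := by
  obtain ⟨h00, ⟨w, hw⟩, ⟨v, hv⟩, h11⟩ := hg.entries
  have hms := D.hms
  have hdet : g.val 0 0 * g.val 1 1 - (D.s * f ^ n * w) * (D.m * g.val 1 0) =
      (Matrix.GeneralLinearGroup.det g : O) := by
    rw [Matrix.GeneralLinearGroup.val_det_apply, Matrix.det_fin_two]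
    rw [pow_succ] at hw
    linear_combination g.val 1 0 * hw + g.val 1 0 * f ^ n * w * hms
  refine ⟨mk2 (g.val 0 0) (D.s * f ^ n * w) (D.m * g.val 1 0) (g.val 1 1) _ hdet, ?_, ?_⟩
  · refine deep_of_entries ?_ ?_ ?_ ?_
    · exact (pow_dvd_pow f (Nat.le_succ n)).trans h00
    · exact ⟨D.s * w, by show D.s * f ^ n * w = f ^ n * (D.s * w); ring⟩
    · exact ⟨D.m * (f * v), by
        show D.m * g.val 1 0 = f ^ n * (D.m * (f * v))
        rw [hv]; ring⟩
    · exact (pow_dvd_pow f (Nat.le_succ n)).trans h11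
  · rw [cj_rel_iff]
    refine ⟨?_, ?_, ?_, ?_⟩
    · show g.val 0 0 * f = f * g.val 0 0 + D.f1 * 0 * (D.m * g.val 1 0)
      ring
    · show g.val 0 0 * (D.f1 * 0) + g.val 0 1 * D.s = f * (D.s * f ^ n * w) + D.f1 * 0 * g.val 1 1
      rw [hw]; ring
    · show g.val 1 0 * f = D.s * (D.m * g.val 1 0)
      linear_combination g.val 1 0 * hms
    · show g.val 1 0 * (D.f1 * 0) + g.val 1 1 * D.s = D.s * g.val 1 1
      ring

theorem hh_shift {C : GL (Fin 2) O → GL (Fin 2) (O ⧸ Ideal.span {f}) → k} (hC : D.IsC C)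
    (a : GL (Fin 2) (O ⧸ Ideal.span {f})) {g : GL (Fin 2) O} (hg : red f g = 1) (z : O) :
    D.hh C a (up (D.m * z) * g * (up (D.m * z))⁻¹) = D.hh C a g := by
  have hk0 : EqM (Ideal.Quotient.mk (Ideal.span {f}) D.m) (red f (up (D.m * z))) 1 := by
    intro i j
    have hv : ∀ i j, (red f (up (D.m * z))).val i j =
        Ideal.Quotient.mk (Ideal.span {f}) ((up (D.m * z) : GL (Fin 2) O).val i j) := fun i j => rfl
    rw [hv]
    fin_cases i <;> fin_cases j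
    · show _ ∣ Ideal.Quotient.mk (Ideal.span {f}) (1 : O) - 1
      simp
    · show _ ∣ Ideal.Quotient.mk (Ideal.span {f}) (D.m * z) - 0
      rw [sub_zero, map_mul]
      exact Dvd.intro _ rfl
    · show _ ∣ Ideal.Quotient.mk (Ideal.span {f}) (0 : O) - 0
      simp
    · show _ ∣ Ideal.Quotient.mk (Ideal.span {f}) (1 : O) - 1
      simp
  have hk : EqM (Ideal.Quotient.mk (Ideal.span {f}) D.m) (red f (up (D.m * z))⁻¹) 1 := by
    have := hk0.inv
    rwa [inv_one, ← map_inv] at this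
  have hd : Matrix.GeneralLinearGroup.det (red f (up (D.m * z))⁻¹) = 1 := by
    rw [map_inv, map_inv]
    have h1 : Matrix.GeneralLinearGroup.det (red f (up (D.m * z))) = 1 := by
      apply Units.ext
      rw [Matrix.GeneralLinearGroup.val_det_apply, Matrix.det_fin_two]
      show Ideal.Quotient.mk (Ideal.span {f}) (1 : O) * Ideal.Quotient.mk (Ideal.span {f}) (1 : O) -
        Ideal.Quotient.mk (Ideal.span {f}) (D.m * z) * Ideal.Quotient.mk (Ideal.span {f}) (0 : O) = 1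
      simp
    rw [h1, inv_one]
  unfold TW.hh
  refine finsum_congr fun r => ?_
  congr 1
  have h2 := IsCoc.conj hC.isCoc g (up (D.m * z))⁻¹ hg (dg r * a)
  rw [inv_inv, ← mul_assoc] at h2
  rw [h2]
  exact left_km hC _ _ hk hd g

theorem F_deep [IsDomain O] (hf : f ≠ 0)
    {C : GL (Fin 2) O → GL (Fin 2) (O ⧸ Ideal.span {f}) → k} (hC : D.IsC C)
    (a : GL (Fin 2) (O ⧸ Ideal.span {f})) (γ : Gam0 (f ^ 2)) (hγ : Deep (f ^ 3) γ.val)
    (L : (O ⧸ Ideal.span {D.e})ˣ → O)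
    (hL : ∀ c, Ideal.Quotient.mk (Ideal.span {D.e}) (L c) = c)
    (G : (O ⧸ Ideal.span {D.e})ˣ → GL (Fin 2) O) (hG : ∀ c, D.Rel (L c) (L c) γ.val (G c)) :
    D.F C a γ = ∑ᶠ c : (O ⧸ Ideal.span {D.e})ˣ, (D.ψe c : k) * D.hh C a (G c) := by
  obtain ⟨h00, h01, h10, h11⟩ := hγ.entries
  have hff : f ∣ f ^ 3 := dvd_pow_self f (by norm_num)
  have hrat : rat f γ = 1 := by
    have e := rat_spec f γ
    have e0 : Ideal.Quotient.mk (Ideal.span {f}) (γ.val.val 0 0) = Ideal.Quotient.mk (Ideal.span {f}) 1 :=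
      Ideal.Quotient.eq.mpr (Ideal.mem_span_singleton.mpr (hff.trans h00))
    have e1 : Ideal.Quotient.mk (Ideal.span {f}) (γ.val.val 1 1) = Ideal.Quotient.mk (Ideal.span {f}) 1 :=
      Ideal.Quotient.eq.mpr (Ideal.mem_span_singleton.mpr (hff.trans h11))
    rw [e0, e1, map_one, mul_one] at e
    exact Units.ext e
  unfold TW.F
  refine finsum_congr fun c => ?_
  congr 1
  have h1 := D.gm_rel hf γ c
  rw [hrat, map_one, mul_one] at h1
  obtain ⟨z, hz⟩ : D.e ∣ D.lf c - L c := by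
    rw [← Ideal.mem_span_singleton, ← Ideal.Quotient.eq, D.lf_spec, hL]
  have hz' : D.lf c = L c + D.e * z := by linear_combination hz
  have h2 := rel_shift (hG c) z z
  rw [← hz'] at h2
  rw [rel_unique hf h1 h2]
  have hGd : Deep (f ^ 1) (G c) := deep_rel hf 1 hγ (hG c)
  exact hh_shift hC a (hGd.red le_rfl) z

end TW
end SerreW
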