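import Pool.Agent.SerreW.DEEP
import Pool.Agent.SerreT.PORT3

/-!
# FRIND (3): the Hecke operator does not depend on the frame, at matrices congruent to `1` modulo `f`

Let `F`, `F'` be frames at `π` with finite index types `X`, `X'`. For `x ∈ X'` there is a unique `σ x ∈ X` with `π ∣ ((F.s (σ x))⁻¹ F'.s x)₀₁` (`F.cover`,
`F.sep`), and `σ` is a bijection (the inverse is given by `F'.cover`). `F'.s x = F.s (σ x) b`, `b PM = PM b'` (`SerreE.PM_step_exists`): so
`F'.s x * PM = F.s (σ x) * PM * β x` with `β x ∈ GL₂(O)`. From the steps `γ F'.s x PM = F'.s y PM γ'_x` (`y = F'.act γ x`) we get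
`γ F.s (σ x) PM = F.s (σ y) PM (β y γ'_x (β x)⁻¹)`, so `F.act γ (σ x) = σ y`, `F.gam γ (σ x) = β y γ'_x (β x)⁻¹` (`Frame.act_eq`).
`γ'_x = (β y)⁻¹ γ_{σ x} β x`. Let `Y x = (red f (F.s (σ x)) * dgl ϖ)⁻¹ * v`; `(red f (F'.s y) * dgl ϖ)⁻¹ * v = (red f (β y))⁻¹ * Y y`
(reduce `F'.s y PM = F.s (σ y) PM β y`; as in `Frame.step_red`). Cocycle identity:
`C γ'_x ((red β_y)⁻¹ Y y) = C (β y)⁻¹ ((red β_y)⁻¹ Y y) + C γ_{σ x} (Y y) + C (β x) ((red γ_{σ x})⁻¹ Y y)`.
The first term is `- C (β y) (Y y)` (from `C (β β⁻¹) = 0`). If `red f γ = 1`, then `red (F.s (σ x)) dgl ϖ = red (F.s (σ y)) dgl ϖ red γ_{σ x}`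
(`Frame.step_red`), so `(red γ_{σ x})⁻¹ Y y = Y x`. So the difference of the two Hecke sums is `Σ_x C (β x) (Y x) - Σ_x C (β y_x) (Y y_x) = 0`
(`Frame.act_bijective`), and `Σ_x C γ_{σ x} (Y (F'.act γ x)) = Σ_{x ∈ X} C (F.gam γ x) ((red f (F.s (F.act γ x)) dgl ϖ)⁻¹ v)` by the bijection `σ`.
-/

open Matrix
open scoped QuadraticAlgebra

namespace SerreW

open SerreT
open SerreE (mk2 sc dg dgl up low red Gam0 GamUp mem_Gam0 mem_GamUp PM Frame heckeC)

section aux

variable {O : Type} [CommRing O] [IsDomain O] {π : O} {X X' : Type}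

theorem frind_unique (hπ : π ≠ 0) (F : Frame π X) {y y' : X} {g g' : GL (Fin 2) O}
    (h : (F.s y).val * PM π * g.val = (F.s y').val * PM π * g'.val) : y = y' ∧ g = g' := by
  have hy : y = y' := by
    apply F.sep
    have h2 : ((F.s y)⁻¹ * F.s y').val * PM π = PM π * (g * g'⁻¹).val := by
      have h3 : PM π * g.val = ((F.s y)⁻¹ * F.s y').val * PM π * g'.val := by
        rw [Units.val_mul, Matrix.mul_assoc, Matrix.mul_assoc, ← Matrix.mul_assoc _ (PM π), ← h,
          Matrix.mul_assoc, ← Matrix.mul_assoc, ← Units.val_mul, inv_mul_cancel, Units.val_one,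
          Matrix.one_mul]
      rw [Units.val_mul g, ← Matrix.mul_assoc, h3, Matrix.mul_assoc _ g'.val, ← Units.val_mul,
        mul_inv_cancel, Units.val_one, Matrix.mul_one]
    exact SerreE.PM_dvd h2
  refine ⟨hy, ?_⟩
  subst hy
  have h4 : PM π * g.val = PM π * g'.val := by
    have := congrArg (fun M => (F.s y)⁻¹.val * M) h
    simpa [← Matrix.mul_assoc, ← Units.val_mul] using this
  exact Units.ext (SerreE.PM_mul_cancel hπ h4)

/-- the comparison of two frames -/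
theorem frind_cmp (F : Frame π X) (g : GL (Fin 2) O) :
    ∃ (y : X) (b : GL (Fin 2) O), g.val * PM π = (F.s y).val * PM π * b.val := by
  obtain ⟨y, hy⟩ := F.cover g
  obtain ⟨b, hb⟩ := SerreE.PM_step_exists _ hy
  refine ⟨y, b, ?_⟩
  rw [Matrix.mul_assoc, ← hb, ← Matrix.mul_assoc, ← Units.val_mul, mul_inv_cancel_left]

omit [IsDomain O] in
theorem frind_red {f : O} (ϖ : (O ⧸ Ideal.span {f})ˣ)
    (hϖ : (ϖ : O ⧸ Ideal.span {f}) = Ideal.Quotient.mk _ π) {g h b : GL (Fin 2) O}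
    (e : g.val * PM π = h.val * PM π * b.val) :
    red f g * dgl ϖ = red f h * dgl ϖ * red f b := by
  have hP : (PM π).map (Ideal.Quotient.mk (Ideal.span {f})) = (dgl ϖ).val := by
    ext i j
    fin_cases i <;> fin_cases j <;> simp [PM, dgl, mk2, hϖ]
  have h1 := congrArg (fun M => M.map (Ideal.Quotient.mk (Ideal.span {f}))) e
  simp only [Matrix.map_mul, hP] at h1
  apply Units.ext
  simp only [Units.val_mul]
  exact h1

end aux

theorem frame_indep {O : Type} [CommRing O] [IsDomain O] {k : Type} [Field k] {f π : O}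
    (hπ : π ≠ 0) {X X' : Type} [Fintype X] [Fintype X'] (F : Frame π X) (F' : Frame π X')
    (ϖ : (O ⧸ Ideal.span {f})ˣ) (hϖ : (ϖ : O ⧸ Ideal.span {f}) = Ideal.Quotient.mk _ π)
    {χ : (Ti (O ⧸ Ideal.span {f}))ˣ →* kˣ}
    {C : GL (Fin 2) O → GL (Fin 2) (O ⧸ Ideal.span {f}) → k} (hC : IsCoc f χ C)
    (γ : GL (Fin 2) O) (hγ : red f γ = 1) (v : GL (Fin 2) (O ⧸ Ideal.span {f})) :
    heckeC F' f ϖ C γ v = heckeC F f ϖ C γ v := by
  choose σ β hβ using fun x => frind_cmp F (F'.s x)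
  have hinj : Function.Injective σ := by
    intro x y hxy
    have e1 : (F'.s x).val * PM π * (β x)⁻¹.val = (F'.s y).val * PM π * (β y)⁻¹.val := by
      rw [hβ x, hβ y, hxy, Matrix.mul_assoc, Matrix.mul_assoc _ (β y).val, ← Units.val_mul,
        ← Units.val_mul, mul_inv_cancel, mul_inv_cancel]
    exact (frind_unique hπ F' e1).1
  have hsurj : Function.Surjective σ := by
    intro y
    obtain ⟨x, b, hb⟩ := frind_cmp F' (F.s y)
    refine ⟨x, ?_⟩
    have e1 : (F.s (σ x)).val * PM π * (β x * b).val = (F.s y).val * PM π * (1 : GL (Fin 2) O).val := by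
      rw [Units.val_one, Matrix.mul_one, hb, hβ x, Units.val_mul, Matrix.mul_assoc _ (β x).val]
    exact (frind_unique hπ F e1).1
  -- the steps
  have hst : ∀ x, F.act γ (σ x) = σ (F'.act γ x) ∧
      F.gam γ (σ x) = β (F'.act γ x) * F'.gam γ x * (β x)⁻¹ := by
    intro x
    apply F.act_eq hπ
    unfold Frame.Step
    have h1 := F'.step_act hπ γ x
    unfold Frame.Step at h1
    rw [Matrix.mul_assoc, hβ x, hβ (F'.act γ x), Matrix.mul_assoc _ (β (F'.act γ x)).val] at h1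
    have h2 : γ.val * (F.s (σ x)).val * PM π * (β x).val =
        (F.s (σ (F'.act γ x))).val * PM π * (β (F'.act γ x) * F'.gam γ x).val := by
      rw [Units.val_mul (β _), ← h1]
      simp only [Matrix.mul_assoc]
    have h3 := congrArg (fun M => M * (β x)⁻¹.val) h2
    simp only [Matrix.mul_assoc] at h3
    rw [← Units.val_mul, ← Units.val_mul, mul_inv_cancel, Units.val_one, Matrix.mul_one] at h3
    simp only [Matrix.mul_assoc]
    exact h3
  have hred : ∀ x, red f (F'.s x) * dgl ϖ = red f (F.s (σ x)) * dgl ϖ * red f (β x) :=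
    fun x => frind_red ϖ hϖ (hβ x)
  have hC1 : ∀ y, C 1 y = 0 := by
    intro y
    have h := hC.scal 1 y
    have h3 : (sc (1 : Oˣ) : GL (Fin 2) O) = 1 := map_one _
    rwa [h3] at h
  have hterm : ∀ x, C (F'.gam γ x) ((red f (F'.s (F'.act γ x)) * dgl ϖ)⁻¹ * v) =
      (C (F.gam γ (σ x)) ((red f (F.s (F.act γ (σ x))) * dgl ϖ)⁻¹ * v) +
        C (β x) ((red f (F.s (σ x)) * dgl ϖ)⁻¹ * v)) -
        C (β (F'.act γ x)) ((red f (F.s (σ (F'.act γ x))) * dgl ϖ)⁻¹ * v) := by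
    intro x
    obtain ⟨h1, h2⟩ := hst x
    have hs := F.step_red ϖ hϖ (F.step_act hπ γ (σ x))
    rw [hγ, one_mul, h1] at hs
    rw [h1, hred (F'.act γ x)]
    set b := β (F'.act γ x) with hb
    set g := F.gam γ (σ x) with hg
    have e1 : F'.gam γ x = b⁻¹ * (g * β x) := by
      rw [h2]
      group
    rw [e1, hC.coc, hC.coc]
    have e2 : (red f b⁻¹)⁻¹ * ((red f (F.s (σ (F'.act γ x))) * dgl ϖ * red f b)⁻¹ * v) =
        (red f (F.s (σ (F'.act γ x))) * dgl ϖ)⁻¹ * v := by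
      rw [map_inv, inv_inv, _root_.mul_inv_rev, ← mul_assoc, ← mul_assoc, mul_inv_cancel, one_mul]
    rw [e2]
    have e3 : (red f g)⁻¹ * ((red f (F.s (σ (F'.act γ x))) * dgl ϖ)⁻¹ * v) =
        (red f (F.s (σ x)) * dgl ϖ)⁻¹ * v := by
      rw [hs, _root_.mul_inv_rev _ (red f g), mul_assoc]
    rw [e3]
    have e4 := hC.coc b b⁻¹ ((red f (F.s (σ (F'.act γ x))) * dgl ϖ)⁻¹ * v)
    rw [mul_inv_cancel, hC1] at e4
    have e5 : (red f (F.s (σ (F'.act γ x))) * dgl ϖ * red f b)⁻¹ * v =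
        (red f b)⁻¹ * ((red f (F.s (σ (F'.act γ x))) * dgl ϖ)⁻¹ * v) := by
      rw [_root_.mul_inv_rev _ (red f b), mul_assoc]
    rw [e5]
    linear_combination (-1 : k) * e4
  unfold heckeC
  simp only [hterm]
  rw [Finset.sum_sub_distrib, Finset.sum_add_distrib,
    (F'.act_bijective hπ γ).sum_comp
      (fun x => C (β x) ((red f (F.s (σ x)) * dgl ϖ)⁻¹ * v)), add_sub_cancel_right]
  exact Function.Bijective.sum_comp (e := σ) ⟨hinj, hsurj⟩
    (fun x => C (F.gam γ x) ((red f (F.s (F.act γ x)) * dgl ϖ)⁻¹ * v))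

end SerreW
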