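import Pool.Agent.SerreW.CW1
import Pool.Agent.SerreW.FRIND

/-!
# COMPW (4): Hecke compatibility of the twisted sum on matrices congruent to `1` modulo `f⁴`

`hecke_isC`: adapt `SerreT.heckeC_isCoc` (PORT2).
`compw`: Let `F` be a frame with `F.s x ≡ 1` modulo `f⁴` (`reps` for `N = f^4`; `hF`), `h.val = D.F C a` on `Γ₀(f²)`. `γ ≡ 1` modulo `f⁴`.
LEFT: `hecke_deep`: `(T h)(γ) = Σ_x h(γ_x)`, `γ_x = F.gam γ x ≡ 1` modulo `f⁴`, and by `F_deep` with `L = lf`: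
`h(γ_x) = Σ_c ψe c Σ_r psi r C (g c x) (dg r * a)` with `Rel (lf c) (lf c) γ_x (g c x)` (`deep_rel_exists`).
RIGHT: `ϖe = rdU e_dvd ϖ ∈ (O/e)ˣ` is the class of `π`. For `c₁ ∈ (O/e)ˣ` put `L c₁ = π * lf (c₁ * ϖe⁻¹)`: a lift of `c₁`. By `F_deep` for `heckeC F₀ f ϖ C`
(which satisfies `IsC`): `F (heckeC C) a γ = Σ_{c₁} ψe c₁ Σ_r psi r (heckeC F₀ f ϖ C) (γ' c₁) (dg r * a)`, `Rel (L c₁) (L c₁) γ (γ' c₁)`. `γ' c₁ ≡ 1` modulo `f²`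
(`deep_rel`), so by `frame_indep` replace `F₀` by the frame `F'_{c₁}` of `frame_conj` (with `c = lf (c₁ ϖe⁻¹)`), whose `s' x` are congruent to `1` modulo `f`
(`deep_rel`). By `step_conj` and `Frame.act_eq`: `F'.gam (γ' c₁) x = g (c₁ ϖe⁻¹) x`, `F'.act = F.act γ`. So
`heckeC F' f ϖ C (γ' c₁) (dg r * a) = Σ_x C (g (c₁ ϖe⁻¹) x) ((dgl ϖ)⁻¹ * (dg r * a))`, and `(dgl ϖ)⁻¹ = sc ϖ⁻¹ * dg ϖ`, `C g (sc u * y) = C g y` (`sc_left`,
SerreT/FINO), so the argument is `dg (ϖ r) * a`. Reindex `r ↦ ϖ⁻¹ r` (factor `psi ϖ⁻¹ = ψe ϖe⁻¹`) and `c₁ = c ϖe` (factor `ψe ϖe`): the factors cancel.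
-/

open Matrix
open scoped QuadraticAlgebra

namespace SerreW
namespace TW

open SerreT
open SerreE (mk2 sc dg dgl up low red Gam0 GamUp mem_Gam0 mem_GamUp PM Frame heckeC)

variable {O : Type} [CommRing O] [IsDomain O] {f : O}

theorem hecke_isC {k : Type} [Field k] {χ : (Ti (O ⧸ Ideal.span {f}))ˣ →* kˣ} {D : TW f k χ}
    {π : O} (hπ : π ≠ 0) {X : Type} [Fintype X] (F : Frame π X) (ϖ : (O ⧸ Ideal.span {f})ˣ)
    (hϖ : (ϖ : O ⧸ Ideal.span {f}) = Ideal.Quotient.mk _ π)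
    {C : GL (Fin 2) O → GL (Fin 2) (O ⧸ Ideal.span {f}) → k} (hC : D.IsC C) :
    D.IsC (heckeC F f ϖ C) := by
  have h1 := heckeC_isCoc F hπ f ϖ hϖ χ C hC.isCoc
  constructor
  · exact h1.coc
  · exact h1.scal
  · intro γ y n
    unfold heckeC
    rw [Finset.mul_sum]
    refine Finset.sum_congr rfl fun x _ => ?_
    rw [← mul_assoc, hC.equi]

theorem compw_dgl {R : Type*} [CommRing R] (u r : Rˣ) :
    (dgl u : GL (Fin 2) R)⁻¹ * dg r = sc u⁻¹ * dg (u * r) := by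
  have h1 : (dgl u : GL (Fin 2) R) * dg (u * r) = sc u * dg r := by
    apply Matrix.GeneralLinearGroup.ext
    intro i j
    fin_cases i <;> fin_cases j <;> simp [Matrix.mul_apply, Fin.sum_univ_two, dg, dgl]
  rw [inv_mul_eq_iff_eq_mul, ← mul_assoc, ← SerreE.compat_sc_comm, mul_assoc, h1, ← mul_assoc,
    ← map_mul, inv_mul_cancel, map_one, one_mul]

theorem compw_hh {k : Type} [Field k] {χ : (Ti (O ⧸ Ideal.span {f}))ˣ →* kˣ} {D : TW f k χ}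
    [Finite (O ⧸ Ideal.span {f})] (hscal : ∀ u, χ (tiC u) = 1)
    {C C' : GL (Fin 2) O → GL (Fin 2) (O ⧸ Ideal.span {f}) → k} (hC : D.IsC C)
    (ϖ : (O ⧸ Ideal.span {f})ˣ) (a : GL (Fin 2) (O ⧸ Ideal.span {f})) {X : Type} [Fintype X]
    (γ' : GL (Fin 2) O) (g : X → GL (Fin 2) O)
    (h : ∀ r, C' γ' (dg r * a) = ∑ x, C (g x) ((dgl ϖ)⁻¹ * (dg r * a))) :
    D.hh C' a γ' = ∑ x, (D.psi ϖ⁻¹ : k) * D.hh C a (g x) := by
  have : Finite (O ⧸ Ideal.span {f})ˣ := inferInstance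
  let _ := Fintype.ofFinite (O ⧸ Ideal.span {f})ˣ
  have h1 : ∀ r : (O ⧸ Ideal.span {f})ˣ, ∀ x,
      C (g x) ((dgl ϖ)⁻¹ * (dg r * a)) = C (g x) (dg (ϖ * r) * a) := by
    intro r x
    rw [← mul_assoc, compw_dgl, mul_assoc, sc_left hC.isCoc hscal]
  unfold hh
  simp only [finsum_eq_sum_of_fintype]
  have h2 : ∀ r : (O ⧸ Ideal.span {f})ˣ, (D.psi r : k) * C' γ' (dg r * a) =
      ∑ x, (D.psi r : k) * C (g x) (dg (ϖ * r) * a) := by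
    intro r
    rw [h, Finset.mul_sum]
    exact Finset.sum_congr rfl fun x _ => by rw [h1]
  rw [Finset.sum_congr rfl (fun r _ => h2 r), Finset.sum_comm]
  refine Finset.sum_congr rfl fun x _ => ?_
  rw [Finset.mul_sum]
  refine Fintype.sum_equiv (Equiv.mulLeft ϖ) _ _ fun r => ?_
  rw [Equiv.coe_mulLeft]
  have h3 : (D.psi r : k) = (D.psi ϖ⁻¹ : k) * (D.psi (ϖ * r) : k) := by
    rw [← Units.val_mul, ← map_mul, inv_mul_cancel_left]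
  rw [h3, mul_assoc]

theorem compw_main [IsPrincipalIdealRing O] [Ring.HasFiniteQuotients O]
    {k : Type} [Field k] {χ : (Ti (O ⧸ Ideal.span {f}))ˣ →* kˣ} {D : TW f k χ} (hf : f ≠ 0)
    (hscal : ∀ u, χ (tiC u) = 1)
    {C : GL (Fin 2) O → GL (Fin 2) (O ⧸ Ideal.span {f}) → k} (hC : D.IsC C)
    (a : GL (Fin 2) (O ⧸ Ideal.span {f})) {π : O} (hπ : Prime π) (hπf : ¬ π ∣ f) {X₀ : Type}
    [Fintype X₀] (F₀ : Frame π X₀) (ϖ : (O ⧸ Ideal.span {f})ˣ)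
    (hϖ : (ϖ : O ⧸ Ideal.span {f}) = Ideal.Quotient.mk _ π) (γ : Gam0 (f ^ 2))
    (hγ : Deep (f ^ 4) γ.val) {X : Type} [Fintype X] (F : Frame π X)
    (hF : ∀ x, Deep (f ^ 4) (F.s x)) (g : X → O → GL (Fin 2) O)
    (hg : ∀ x c, D.Rel c c (F.gam γ.val x) (g x c)) :
    D.F (heckeC F₀ f ϖ C) a γ = ∑ x, ∑ᶠ c : (O ⧸ Ideal.span {D.e})ˣ,
      (D.ψe c : k) * D.hh C a (g x (D.lf c)) := by
  have hfin : Finite (O ⧸ Ideal.span {f}) := fin_quot hf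
  have hfine : Finite (O ⧸ Ideal.span {D.e}) := fin_quot (D.f_ne_s hf).2.2.1
  have hfineu : Finite (O ⧸ Ideal.span {D.e})ˣ := inferInstance
  let _ := Fintype.ofFinite (O ⧸ Ideal.span {D.e})ˣ
  obtain ⟨ϖe, hϖe⟩ : ∃ ϖe, ϖe = rdU D.e_dvd ϖ := ⟨_, rfl⟩
  have hϖe2 : (ϖe : O ⧸ Ideal.span {D.e}) = Ideal.Quotient.mk _ π := by
    rw [hϖe]
    have h1 : ((rdU D.e_dvd ϖ : (O ⧸ Ideal.span {D.e})ˣ) : O ⧸ Ideal.span {D.e}) =
        rd D.e_dvd (ϖ : O ⧸ Ideal.span {f}) := rfl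
    rw [h1, hϖ, rd_mk]
  have hγ2 : Deep (f ^ 2) γ.val := hγ.pow_mono (by norm_num)
  have hγ3 : Deep (f ^ 3) γ.val := hγ.pow_mono (by norm_num)
  choose G hG using fun c : (O ⧸ Ideal.span {D.e})ˣ =>
    deep_rel_exists D hf hγ2 (π * D.lf (c * ϖe⁻¹))
  have hL : ∀ c : (O ⧸ Ideal.span {D.e})ˣ,
      Ideal.Quotient.mk (Ideal.span {D.e}) (π * D.lf (c * ϖe⁻¹)) = c := by
    intro c
    rw [map_mul, D.lf_spec, ← hϖe2, ← Units.val_mul, mul_comm c, mul_inv_cancel_left]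
  rw [F_deep hf (hecke_isC hπ.ne_zero F₀ ϖ hϖ hC) a γ hγ3 _ hL G hG]
  have key : ∀ c : (O ⧸ Ideal.span {D.e})ˣ, D.hh (heckeC F₀ f ϖ C) a (G c) =
      ∑ x, (D.psi ϖ⁻¹ : k) * D.hh C a (g x (D.lf (c * ϖe⁻¹))) := by
    intro c
    obtain ⟨F', hF'⟩ := frame_conj D hf hπ hπf F hF (D.lf (c * ϖe⁻¹))
    have hG2 : Deep (f ^ 2) (G c) := deep_rel hf 2 hγ (hG c)
    have hGred : red f (G c) = 1 := hG2.red (by norm_num)
    have hact : ∀ x, F'.act (G c) x = F.act γ.val x ∧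
        F'.gam (G c) x = g x (D.lf (c * ϖe⁻¹)) := by
      intro x
      exact F'.act_eq hπ.ne_zero (step_conj hf hπ F F' (D.lf (c * ϖe⁻¹)) hF' (hG c) x _ (hg x _))
    have hs : ∀ x, red f (F'.s x) = 1 := by
      intro x
      have h1 : Deep (f ^ 2) (F'.s x) := deep_rel hf 2 (hF x) (hF' x)
      exact h1.red (by norm_num)
    refine compw_hh hscal hC ϖ a (G c) (fun x => g x (D.lf (c * ϖe⁻¹))) ?_
    intro r
    rw [← frame_indep hπ.ne_zero F₀ F' ϖ hϖ hC.isCoc (G c) hGred (dg r * a)]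
    unfold heckeC
    refine Finset.sum_congr rfl fun x _ => ?_
    rw [(hact x).1, (hact x).2, hs, one_mul]
  have key2 : ∀ c : (O ⧸ Ideal.span {D.e})ˣ, (D.ψe c : k) * D.hh (heckeC F₀ f ϖ C) a (G c) =
      ∑ x, (D.ψe c : k) * (D.psi ϖ⁻¹ : k) * D.hh C a (g x (D.lf (c * ϖe⁻¹))) := by
    intro c
    rw [key, Finset.mul_sum]
    exact Finset.sum_congr rfl fun x _ => by ring
  rw [finsum_congr key2, finsum_eq_sum_of_fintype, Finset.sum_comm]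
  refine Finset.sum_congr rfl fun x _ => ?_
  rw [finsum_eq_sum_of_fintype]
  symm
  refine Fintype.sum_equiv (Equiv.mulRight ϖe) _ _ fun c => ?_
  rw [Equiv.coe_mulRight]
  have h3 : (D.psi ϖ⁻¹ : k) = ((D.ψe ϖe)⁻¹ : kˣ) := by
    have h4 : D.psi ϖ⁻¹ = (D.ψe ϖe)⁻¹ := by
      rw [map_inv, hϖe]
      rfl
    rw [h4]
  have h5 : (D.ψe (c * ϖe) : k) * (D.psi ϖ⁻¹ : k) = (D.ψe c : k) := by
    rw [h3, ← Units.val_mul, map_mul, mul_inv_cancel_right]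
  have h6 : c * ϖe * ϖe⁻¹ = c := mul_inv_cancel_right _ _
  rw [h5, h6]

theorem compw [IsPrincipalIdealRing O] [Ring.HasFiniteQuotients O]
    {χ : (Ti (O ⧸ Ideal.span {f}))ˣ →* FFˣ} {D : TW f FF χ} (hf : f ≠ 0)
    (hscal : ∀ u, χ (tiC u) = 1)
    {C : GL (Fin 2) O → GL (Fin 2) (O ⧸ Ideal.span {f}) → FF} (hC : D.IsC C)
    (a : GL (Fin 2) (O ⧸ Ideal.span {f})) {π : O} (hπ : Prime π) (hπf : ¬ π ∣ f) {X₀ : Type}
    [Fintype X₀] (F₀ : Frame π X₀) (ϖ : (O ⧸ Ideal.span {f})ˣ)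
    (hϖ : (ϖ : O ⧸ Ideal.span {f}) = Ideal.Quotient.mk _ π) (h : HY (f ^ 2))
    (hh : ∀ γ : Gam0 (f ^ 2), h.val (toG γ) = D.F C a γ) (γ : Gam0 (f ^ 2))
    (hγ : Deep (f ^ 4) γ.val) :
    (T (f ^ 2) π hπ.ne_zero h).val (toG γ) = D.F (heckeC F₀ f ϖ C) a γ := by
  have hfπ : Finite (O ⧸ Ideal.span {π}) := fin_quot hπ.ne_zero
  have hN4 : ¬ π ∣ f ^ 4 := fun h => hπf (hπ.dvd_of_dvd_pow h)
  obtain ⟨X, hX, F, hF⟩ := reps (f ^ 4) π hπ hN4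
  have hgd : ∀ x, Deep (f ^ 4) (F.gam γ.val x) := fun x => gam_deep hπ hN4 F hF γ.val hγ x
  choose g hg using fun (x : X) (c : O) =>
    deep_rel_exists D hf ((hgd x).pow_mono (show 2 ≤ 4 by norm_num)) c
  rw [compw_main hf hscal hC a hπ hπf F₀ ϖ hϖ γ hγ F hF g hg,
    hecke_deep hπ hπf F hF h γ hγ]
  refine Finset.sum_congr rfl fun x _ => ?_
  rw [hh]
  exact F_deep hf hC a _ ((hgd x).pow_mono (by norm_num)) D.lf D.lf_spec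
    (fun c => g x (D.lf c)) (fun c => hg x (D.lf c))

end TW
end SerreW
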