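import Pool.Agent.SerreW.SHAPN
import Pool.Agent.SerreT.DICHK3

/-!
# DICHN (3): the dichotomy for `Γ_N = {γ ∈ GL₂(O) | red f γ ∈ N}` (adapt `SerreT.dichK3`, file SerreT/DICHK3.lean)

Replace `GT f` by `GN = D.N.comap (red f)` and `χ ∘ tau` by `X ∘ red f` (a homomorphism `GN → kˣ` directly: no `tau`). Scalars: `red f (sc u) = sc ū = iota (tiC ū)`
(`iota_tiC`), `X = χ (tiC ū) = 1` by `hscal`, `D.X_iota`. `th`, `iota η` are in `GN` (`red_iota`, `D.iota_mem`), `X` of them is `1` (`hJ`, `he`, `D.X_iota`).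
In the case `P = th * th` of the last hypothesis of `axis3` use `D.nofix γ`. The result for `X` or `X⁻¹`: in the second case `D.inv`.
-/

open Matrix hiding mul_inv_rev
open scoped QuadraticAlgebra

namespace SerreW
namespace TW

open SerreT
open SerreK (V InC Hit Gen6 act ImQ countable_of_imQ)
open SerreE (mk2 sc dg dgl up low red)

section main

variable {O : Type} [CommRing O] {f : O} {k : Type} [Field k]
  {χ : (Ti (O ⧸ Ideal.span {f}))ˣ →* kˣ} (D : TW f k χ)

/-- `Γ_N` -/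
def dnG : Subgroup (GL (Fin 2) O) := D.N.comap (red f)

theorem dn_mem (γ : GL (Fin 2) O) : γ ∈ dnG D ↔ red f γ ∈ D.N := Iff.rfl

theorem dn_iota_mem (w : (Ti O)ˣ) : iota w ∈ dnG D := by
  rw [dn_mem, red_iota]
  exact D.iota_mem _

theorem dn_sc_mem (u : Oˣ) : (sc u : GL (Fin 2) O) ∈ dnG D := iota_tiC u ▸ dn_iota_mem D _

theorem dn_th_mem : (th : GL (Fin 2) O) ∈ dnG D := iota_tzz O ▸ dn_iota_mem D _

/-- the character of `Γ_N` -/
def dnX : dnG D →* kˣ := D.X.comp ((red f).subgroupComap D.N)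

theorem dnX_apply (γ : GL (Fin 2) O) (h : γ ∈ dnG D) : dnX D ⟨γ, h⟩ = D.X ⟨red f γ, h⟩ := rfl

theorem dnX_iota (γ : GL (Fin 2) O) (h : γ ∈ dnG D) (t) (ht : iota t = red f γ) :
    dnX D ⟨γ, h⟩ = χ t := by
  rw [dnX_apply, ← D.X_iota]
  congr 1
  exact Subtype.ext ht.symm

/-- the scalars in `Γ_N` -/
def dnZ : Subgroup (dnG D) :=
  (Matrix.GeneralLinearGroup.scalar (R := O) (Fin 2)).range.subgroupOf (dnG D)

theorem dn_memZ (γ : dnG D) : γ ∈ dnZ D ↔ ∃ u : Oˣ, sc u = γ.val := Iff.rfl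

instance : (dnZ D).Normal := by
  constructor
  intro n hn g
  obtain ⟨u, hu⟩ := (dn_memZ D n).mp hn
  rw [dn_memZ]
  refine ⟨u, ?_⟩
  rw [Subgroup.coe_mul, Subgroup.coe_mul, ← hu, ← sc_comm, mul_assoc, Subgroup.coe_inv,
    mul_inv_cancel, mul_one]

/-- `Γ = Γ_N ⧸ Z` -/
abbrev dnQ : Type := dnG D ⧸ dnZ D

/-- the class of an element of `Γ_N` -/
def dnq (γ : GL (Fin 2) O) (h : γ ∈ dnG D) : dnQ D := QuotientGroup.mk' (dnZ D) ⟨γ, h⟩

theorem dnq_mul {a b : GL (Fin 2) O} (ha : a ∈ dnG D) (hb : b ∈ dnG D) (hab : a * b ∈ dnG D) :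
    dnq D (a * b) hab = dnq D a ha * dnq D b hb := rfl

theorem dnq_sc (u : Oˣ) (h : (sc u : GL (Fin 2) O) ∈ dnG D) : dnq D (sc u) h = 1 := by
  change QuotientGroup.mk' (dnZ D) _ = 1
  rw [← MonoidHom.mem_ker, QuotientGroup.ker_mk', dn_memZ]
  exact ⟨u, rfl⟩

theorem dnq_surj (g : dnQ D) : ∃ γ h, g = dnq D γ h := by
  obtain ⟨⟨γ, h⟩, rfl⟩ := QuotientGroup.mk'_surjective (dnZ D) g
  exact ⟨γ, h, rfl⟩

theorem dnq_eq {a b : GL (Fin 2) O} (ha : a ∈ dnG D) (hb : b ∈ dnG D)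
    (h : dnq D a ha = dnq D b hb) : ∃ u : Oˣ, b = a * sc u := by
  have h1 : (QuotientGroup.mk (⟨a, ha⟩ : dnG D) : dnQ D) = QuotientGroup.mk (⟨b, hb⟩ : dnG D) := h
  rw [QuotientGroup.eq, dn_memZ] at h1
  obtain ⟨u, hu⟩ := h1
  refine ⟨u, ?_⟩
  rw [hu]
  simp

theorem dnq_congr {a b : GL (Fin 2) O} (h : a = b) (ha : a ∈ dnG D) (hb : b ∈ dnG D) :
    dnq D a ha = dnq D b hb := by
  subst h
  rfl

theorem dn_red_sc (u : Oˣ) :
    iota (tiC (Units.map (Ideal.Quotient.mk (Ideal.span {f})).toMonoidHom u)) =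
      red f (sc u : GL (Fin 2) O) := by
  rw [iota_tiC]
  apply Matrix.GeneralLinearGroup.ext
  intro i j
  fin_cases i <;> fin_cases j <;> simp

/-- the character of the quotient group -/
def dnPsi (hscal : ∀ u, χ (tiC u) = 1) : dnQ D →* kˣ :=
  QuotientGroup.lift (dnZ D) (dnX D) (by
    intro γ hγ
    obtain ⟨u, hu⟩ := (dn_memZ D γ).mp hγ
    rw [MonoidHom.mem_ker]
    have h := dnX_iota D γ.val γ.2 _ ((dn_red_sc (f := f) u).trans (by rw [hu]))
    exact h.trans (hscal _))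

theorem dnPsi_q (hscal : ∀ u, χ (tiC u) = 1) (γ : GL (Fin 2) O) (h : γ ∈ dnG D) :
    dnPsi D hscal (dnq D γ h) = D.X ⟨red f γ, h⟩ := rfl

/-- the representation of the quotient group -/
noncomputable def dnRho {σ : O →+* ℂ} (hσ : ImQ σ) : dnQ D →* (V →ₗ[ℝ] V) :=
  QuotientGroup.lift (dnZ D) ((rho σ).comp (dnG D).subtype) (by
    intro γ hγ
    obtain ⟨u, hu⟩ := (dn_memZ D γ).mp hγ
    rw [MonoidHom.mem_ker]
    change rho σ γ.val = 1
    rw [← hu]
    exact rho_scal hσ u)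

theorem dnRho_q {σ : O →+* ℂ} (hσ : ImQ σ) (γ : GL (Fin 2) O) (h : γ ∈ dnG D) :
    dnRho D hσ (dnq D γ h) = rho σ γ := rfl

end main

theorem dichN {O : Type} [CommRing O] [IsDomain O] (σ : O →+* ℂ) (hσ : ImQ σ)
    (η : (Ti O)ˣ) (hη1 : 1 < ab1 σ η)
    (hη2 : ∀ w : (Ti O)ˣ, ∃ (n : ℤ) (j : ℕ) (u : Oˣ), w = tiC u * tz O ^ j * η ^ n)
    {k : Type} [Field k] [CharP k 3] (f : O) (hf3 : IsCoprime f 3)
    (χ : (Ti (O ⧸ Ideal.span {f}))ˣ →* kˣ) (D : TW f k χ) (hscal : ∀ u, χ (tiC u) = 1)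
    (hJ : ∀ t, iota t = red f th → χ t = 1) (he : ∀ t, iota t = red f (iota η) → χ t = 1) :
    (∃ a : GL (Fin 2) O → k, D.Sol a ∧ (a th ≠ a 1 ∨ a (iota η) ≠ a 1)) ∨
      ∃ a : GL (Fin 2) O → k, D.inv.Sol a ∧ (a th ≠ a 1 ∨ a (iota η) ≠ a 1) := by
  classical
  have hcO : Countable O := countable_of_imQ hσ
  have hcG : Countable (GL (Fin 2) O) := GL_countable hcO
  have hcT : Countable (dnG D) := inferInstance
  have hcQ : Countable (dnQ D) := Quotient.countable
  have hJm : (th : GL (Fin 2) O) ∈ dnG D := dn_th_mem D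
  have hηm : iota η ∈ dnG D := dn_iota_mem D η
  have hJηc : iota η * th = th * iota η := by
    rw [← iota_tzz, ← map_mul, ← map_mul, mul_comm]
  -- the hypotheses of `axis`
  obtain ⟨ψ', hψ', b, hb, hb0⟩ := axis3 (dnRho D hσ)
    (by
      intro g v hv
      obtain ⟨γ, h, rfl⟩ := dnq_surj D g
      rw [dnRho_q]
      exact rho_inC hσ γ v hv)
    (by
      intro g
      obtain ⟨γ, h, rfl⟩ := dnq_surj D g
      rw [dnRho_q, rho_def]
      apply act_det_pos
      intro h0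
      have h1 := mT_det_abs hσ γ
      rw [h0, map_zero] at h1
      exact zero_ne_one h1)
    (by
      intro a b c p q ha hb hc hp hq
      have h1 := rho_proper hσ a b c p q ha hb hc hp hq
      have h2 := Set.Finite.preimage
        (Set.injOn_of_injective (Subtype.val_injective (p := fun γ => γ ∈ dnG D))) h1
      refine (h2.image (QuotientGroup.mk' (dnZ D))).subset ?_
      intro g hg
      obtain ⟨γ, h, rfl⟩ := dnq_surj D g
      exact ⟨⟨γ, h⟩, hg, rfl⟩)
    (dnq D th hJm) (dnq D (iota η) hηm)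
    (by
      intro v
      rw [dnRho_q]
      exact rho_th σ v)
    (by
      rw [← dnq_mul D hJm hJm ((dnG D).mul_mem hJm hJm),
        ← dnq_mul D hJm ((dnG D).mul_mem hJm hJm) ((dnG D).mul_mem hJm ((dnG D).mul_mem hJm hJm)),
        dnq_congr D th_cube _ (dnG D).one_mem]
      rfl)
    (by
      rw [← dnq_mul D hηm hJm ((dnG D).mul_mem hηm hJm), ← dnq_mul D hJm hηm ((dnG D).mul_mem hJm hηm)]
      exact dnq_congr D hJηc _ _)
    (ab1 σ η) hη1
    (by
      intro v
      rw [dnRho_q, ← (ab_unit σ hσ η).2]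
      exact rho_iota σ η v)
    (by
      intro g hg
      obtain ⟨γ, h, rfl⟩ := dnq_surj D g
      have hJ2 := (dnG D).mul_mem hJm hJm
      -- a power of `θ` on the right
      obtain ⟨P, hP, hP3, hPd, u, hu, hcase⟩ : ∃ P : GL (Fin 2) O, P * (P * P) = 1 ∧
          P.val.trace = -1 ∧ P.val.det = 1 ∧ ∃ u : Oˣ, P * γ = γ * th * sc u ∧
          (P = th ∨ P = th * th) := by
        have hdt : (th : GL (Fin 2) O).val.det = 1 := by
          simp [th, mk2, Matrix.det_fin_two]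
        rcases hg with hg | hg
        · rw [← dnq_mul D h hJm ((dnG D).mul_mem h hJm),
            ← dnq_mul D hJm h ((dnG D).mul_mem hJm h)] at hg
          obtain ⟨u, hu⟩ := dnq_eq D _ _ hg
          refine ⟨th, th_cube, ?_, hdt, u, hu, Or.inl rfl⟩
          simp [th, mk2, Matrix.trace, Fin.sum_univ_two]
        · rw [← dnq_mul D h hJm ((dnG D).mul_mem h hJm), ← dnq_mul D hJm hJm hJ2,
            ← dnq_mul D hJ2 h ((dnG D).mul_mem hJ2 h)] at hg
          obtain ⟨u, hu⟩ := dnq_eq D _ _ hg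
          refine ⟨th * th, ?_, ?_, ?_, u, hu, Or.inr rfl⟩
          · have e : (th * th * (th * th * (th * th)) : GL (Fin 2) O) =
              (th * (th * th)) * (th * (th * th)) := by group
            rw [e, th_cube, one_mul]
          · simp [th, mk2, Matrix.trace, Fin.sum_univ_two, Matrix.mul_apply]
          · rw [Units.val_mul, Matrix.det_mul, hdt, one_mul]
      -- the scalar is one
      have hdt : (th : GL (Fin 2) O).val.det = 1 := by
        simp [th, mk2, Matrix.det_fin_two]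
      have htr : (th : GL (Fin 2) O).val.trace = -1 := by
        simp [th, mk2, Matrix.trace, Fin.sum_univ_two]
      have hu1 : (u : O) = 1 := by
        have h1 : P = γ * (th * sc u) * γ⁻¹ := by
          rw [eq_mul_inv_iff_mul_eq, hu, mul_assoc]
        have h2 : P.val.trace = (th * sc u : GL (Fin 2) O).val.trace := by
          rw [h1, Units.val_mul, Units.val_mul γ, Matrix.trace_mul_comm, ← mul_assoc,
            ← Units.val_mul, inv_mul_cancel, Units.val_one, one_mul]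
        have h3 : (th * sc u : GL (Fin 2) O).val.trace = -(u : O) := by
          simp [th, mk2, Matrix.trace, Fin.sum_univ_two, Matrix.mul_apply]
        rw [hP3, h3] at h2
        linear_combination h2
      have hu2 : u = 1 := Units.ext hu1
      have h3 : (sc (1 : Oˣ) : GL (Fin 2) O) = 1 := map_one _
      rw [hu2, h3, mul_one] at hu
      rcases hcase with hcase | hcase
      · rw [hcase] at hu
        obtain ⟨w, hw⟩ := comm_th γ hu.symm
        obtain ⟨n, j, v, hv⟩ := hη2 w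
        refine ⟨n, j, ?_⟩
        have hm := (dnG D).zpow_mem hηm n
        have hmj := (dnG D).pow_mem hJm j
        have e1 : γ = sc v * (iota η ^ n * th ^ j) := by
          rw [hw, hv, map_mul, map_mul, iota_tiC, map_zpow, map_pow, iota_tzz, mul_assoc]
          congr 1
          have hc : Commute (iota η) (th : GL (Fin 2) O) := hJηc
          exact ((hc.zpow_left n).pow_right j).eq.symm
        have hm' := (dnG D).mul_mem hm hmj
        rw [dnq_congr D e1 h ((dnG D).mul_mem (dn_sc_mem D v) hm'), dnq_mul D (dn_sc_mem D v) hm',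
          dnq_sc, one_mul]
        rfl
      · exfalso
        rw [hcase] at hu
        exact D.nofix γ h hu)
    (dnPsi D hscal)
    (by
      have hs : iota (Units.map (redTi f).toMonoidHom (tz O)) = red f th := by
        rw [← iota_tzz O, red_iota]
      exact (dnX_iota D th hJm _ hs).trans (hJ _ hs))
    (by
      have hs := (red_iota f η).symm
      exact (dnX_iota D (iota η) hηm _ hs).trans (he _ hs))
  obtain ⟨r, hr1, hr2, hr3⟩ := exists_rep (dnG D)
  have hb1 : b 1 = 0 := by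
    have h1 := hb 1 1
    rw [mul_one, map_one, Units.val_one, one_mul] at h1
    exact left_eq_add.mp h1
  obtain ⟨a, ha⟩ : ∃ a : GL (Fin 2) O → k, ∀ A, a A = b (dnq D (A * (r A)⁻¹) (hr1 A)) :=
    ⟨_, fun _ => rfl⟩
  have haT : ∀ γ (h : γ ∈ dnG D), a γ = b (dnq D γ h) := by
    intro γ h
    rw [ha]
    congr 1
    apply dnq_congr
    rw [hr3 γ h, inv_one, mul_one]
  have ha1 : a 1 = 0 := by
    rw [haT 1 (dnG D).one_mem]
    exact hb1
  have haγ : ∀ γ (h : γ ∈ dnG D) A, a (γ * A) = b (dnq D γ h) + ψ' (dnq D γ h) * a A := by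
    intro γ h A
    rw [ha, ha A, ← hb, ← dnq_mul D h (hr1 A) ((dnG D).mul_mem h (hr1 A))]
    congr 1
    apply dnq_congr
    rw [hr2 γ h, mul_assoc]
  have hs1 : ∀ A (u : Oˣ), a (A * sc u) = a A := by
    intro A u
    rw [← sc_comm, haγ _ (dn_sc_mem D u), dnq_sc, hb1, map_one, Units.val_one, one_mul, zero_add]
  have hs2 : ∀ (γ : GL (Fin 2) O) (h : γ ∈ dnG D) A,
      a (γ * A) - ψ' (dnq D γ h) * a A = a γ - ψ' (dnq D γ h) * a 1 := by
    intro γ h A
    rw [haγ γ h, haT γ h, ha1]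
    ring
  have hs3 : a th ≠ a 1 ∨ a (iota η) ≠ a 1 := by
    rw [haT th hJm, haT _ hηm, ha1]
    exact hb0
  rcases hψ' with h | h
  · subst h
    exact Or.inl ⟨a, ⟨hs1, fun γ h A => hs2 γ h A⟩, hs3⟩
  · subst h
    exact Or.inr ⟨a, ⟨hs1, fun γ h A => hs2 γ h A⟩, hs3⟩

end TW
end SerreW
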