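import Pool.Agent.SerreT.PORT2

/-!
# EIGW (2): the abstract lemma on eigencharacters modulo an invariant subspace (adapt `SerreT.exists_eigen`, file SerreT/PORT2.lean)

For `x` in the free algebra: `h i (LS x v) - LT x (h i v) ∈ H₀` (induction; `LT x` preserves `H₀`). If `LT x = 0` then `h i (LS x v₀) ∈ H₀` for all `i`, so
`0 = ℓ (LS x v₀) = La x * ℓ v₀`, `La x = 0`. Hence `La` factors through the range of `LT`, which is the algebra generated by the `T a`.
-/

namespace SerreW

theorem exists_eigen_mod {k : Type*} [Field k] {H V : Type*} [AddCommGroup H] [Module k H]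
    [AddCommGroup V] [Module k V] {A ι : Type*} (T : A → Module.End k H) (S : A → Module.End k V)
    (H₀ : Submodule k H) (hH₀ : ∀ a, ∀ x ∈ H₀, T a x ∈ H₀) (h : ι → V →ₗ[k] H)
    (hST : ∀ i a v, h i (S a v) - T a (h i v) ∈ H₀) (ℓ : V →ₗ[k] k) (lam : A → k)
    (hl : ∀ a v, ℓ (S a v) = lam a * ℓ v) (hinj : ∀ v, (∀ i, h i v ∈ H₀) → ℓ v = 0)
    (v₀ : V) (hv₀ : ℓ v₀ ≠ 0) :
    ∃ Φ : Algebra.adjoin k (Set.range T) →ₐ[k] k,
      ∀ a, Φ ⟨T a, Algebra.subset_adjoin ⟨a, rfl⟩⟩ = lam a := by
  let LT : FreeAlgebra k A →ₐ[k] Module.End k H := FreeAlgebra.lift k T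
  let LS : FreeAlgebra k A →ₐ[k] Module.End k V := FreeAlgebra.lift k S
  let La : FreeAlgebra k A →ₐ[k] k := FreeAlgebra.lift k lam
  have h0 : ∀ (x : FreeAlgebra k A), ∀ y ∈ H₀, LT x y ∈ H₀ := by
    intro x
    induction x using FreeAlgebra.induction with
    | grade0 r =>
      intro y hy
      simp only [AlgHom.commutes, Module.algebraMap_end_apply]
      exact H₀.smul_mem r hy
    | grade1 a => intro y hy; simp only [LT, FreeAlgebra.lift_ι_apply]; exact hH₀ a y hy
    | mul x y ihx ihy =>
      intro z hz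
      rw [map_mul, Module.End.mul_apply]
      exact ihx _ (ihy z hz)
    | add x y ihx ihy =>
      intro z hz
      rw [map_add, LinearMap.add_apply]
      exact H₀.add_mem (ihx z hz) (ihy z hz)
  have h1 : ∀ (x : FreeAlgebra k A) (i : ι) (v : V), h i (LS x v) - LT x (h i v) ∈ H₀ := by
    intro x
    induction x using FreeAlgebra.induction with
    | grade0 r =>
      intro i v
      simp only [AlgHom.commutes, Module.algebraMap_end_apply, map_smul, sub_self]
      exact H₀.zero_mem
    | grade1 a => intro i v; simp only [LS, LT, FreeAlgebra.lift_ι_apply]; exact hST i a v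
    | mul x y ihx ihy =>
      intro i v
      rw [map_mul, map_mul, Module.End.mul_apply, Module.End.mul_apply]
      have e1 := H₀.add_mem (ihx i (LS y v)) (h0 x _ (ihy i v))
      rw [map_sub] at e1
      rwa [sub_add_sub_cancel] at e1
    | add x y ihx ihy =>
      intro i v
      rw [map_add, map_add, LinearMap.add_apply, LinearMap.add_apply, map_add,
        add_sub_add_comm]
      exact H₀.add_mem (ihx i v) (ihy i v)
  have h2 : ∀ (x : FreeAlgebra k A) (v : V), ℓ (LS x v) = La x * ℓ v := by
    intro x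
    induction x using FreeAlgebra.induction with
    | grade0 r =>
      intro v
      simp only [AlgHom.commutes, Module.algebraMap_end_apply, map_smul, smul_eq_mul]
      rfl
    | grade1 a => intro v; simp only [LS, La, FreeAlgebra.lift_ι_apply]; exact hl a v
    | mul x y ihx ihy =>
      intro v
      rw [map_mul, map_mul, Module.End.mul_apply, ihx, ihy]; ring
    | add x y ihx ihy =>
      intro v
      rw [map_add, map_add, LinearMap.add_apply, map_add, ihx, ihy]; ring
  have key : ∀ x y, LT x = LT y → La x = La y := by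
    intro x y hxy
    have h3 : ℓ (LS x v₀ - LS y v₀) = 0 := by
      apply hinj
      intro i
      have e1 := H₀.sub_mem (h1 x i v₀) (h1 y i v₀)
      rw [hxy, sub_sub_sub_cancel_right] at e1
      rw [map_sub]
      exact e1
    rw [map_sub, h2, h2, ← sub_mul] at h3
    exact sub_eq_zero.mp ((mul_eq_zero.mp h3).resolve_right hv₀)
  have hmem : ∀ x, LT x ∈ Algebra.adjoin k (Set.range T) := by
    intro x
    rw [Algebra.adjoin_range_eq_range_freeAlgebra_lift]
    exact ⟨x, rfl⟩
  let Lr : FreeAlgebra k A →ₐ[k] Algebra.adjoin k (Set.range T) := LT.codRestrict _ hmem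
  have hsurj : Function.Surjective Lr := by
    rintro ⟨y, hy⟩
    have hy' := hy
    rw [Algebra.adjoin_range_eq_range_freeAlgebra_lift] at hy'
    obtain ⟨x, hx⟩ := hy'
    exact ⟨x, Subtype.ext hx⟩
  obtain ⟨Φ, hΦ⟩ := SerreE.exists_algHom_of_ker Lr La hsurj
    (fun x y hxy => key x y (congrArg Subtype.val hxy))
  refine ⟨Φ, fun a => ?_⟩
  have e : (⟨T a, Algebra.subset_adjoin ⟨a, rfl⟩⟩ : Algebra.adjoin k (Set.range T)) =
      Lr (FreeAlgebra.ι k a) := by
    apply Subtype.ext
    change T a = LT (FreeAlgebra.ι k a)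
    simp [LT]
  rw [e, hΦ]
  simp [La]

end SerreW
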