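import Pool.Agent.SerreW.DEEP
import Pool.Agent.SerreT.INJ
import Pool.Agent.SerreT.PORT3

/-!
# INJW (3): the final step of the injectivity (adapt `SerreT.inj`, file SerreT/INJ.lean)

Assume `C g y = 0` for all `g ≡ 1` modulo `f⁷`. Then `C γ' y = C γ y` if `red (f^7) γ = red (f^7) γ'`
(`γ' = γ (γ⁻¹ γ')`, cocycle identity). By `hne` there is `t₀ ∈ (Ti (O/f))ˣ` with `χ t₀ ^ 2 ≠ 1`; `t₀ = redTi f w`
(`SerreT.redTi_surj` in SerreT/TFINAL, or lift the two coordinates), `w.norm` is coprime to `f`, hence to `f^7`, so `redTi (f^7) w` is a unit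
(`isUnit_redTi`, SerreT/PORT3); `t₁ = redTi w * (tiStar ..)⁻¹ ∈ (Ti (O/f^7))ˣ` has `det (iota t₁) = 1`
(cf. `exists_norm_one`); lift it to `G ∈ GL₂(O)`, `red (f^7) G = iota t₁` (`SerreE.sapp`); then `red f G = iota t₁'` with
`t₁' = t₀ (tiStar t₀)⁻¹`, `χ t₁' = χ t₀ ^ 2 ≠ 1` (`exists_norm_one`). `u = iota w'` by `comm_th` (SerreT, see DICHK3), so `red (f^7) (u G) = red (f^7) (G u)`.
`C (u G) 1 = C u 1 + C G (red f u)⁻¹ = C u 1 + χ(t) C G 1 = C u 1 + C G 1`,
`C (G u) 1 = C G 1 + C u (red f G)⁻¹ = C G 1 + χ(t₁') C u 1`. So `(χ(t₁') - 1) C u 1 = 0`.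
-/

open Matrix
open scoped QuadraticAlgebra

namespace SerreW

open SerreT
open SerreE (mk2 sc dg dgl up low red)

/-- functoriality of `Ti` -/
def injw_map {R S : Type*} [CommRing R] [CommRing S] (φ : R →+* S) : Ti R →+* Ti S where
  toFun z := ⟨φ z.re, φ z.im⟩
  map_one' := by ext <;> simp
  map_mul' z w := by ext <;> simp
  map_zero' := by ext <;> simp
  map_add' z w := by ext <;> simp

theorem injw_iota {R S : Type*} [CommRing R] [CommRing S] (φ : R →+* S) (t : (Ti R)ˣ) :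
    Matrix.GeneralLinearGroup.map (n := Fin 2) φ (iota t) =
      iota (Units.map (injw_map φ).toMonoidHom t) := by
  apply Matrix.GeneralLinearGroup.ext
  intro i j
  fin_cases i <;> fin_cases j <;> simp [injw_map]

theorem injw_star {R S : Type*} [CommRing R] [CommRing S] (φ : R →+* S) (t : (Ti R)ˣ) :
    Units.map (injw_map φ).toMonoidHom (tiStar t) =
      tiStar (Units.map (injw_map φ).toMonoidHom t) := by
  apply Units.ext
  apply QuadraticAlgebra.ext
  · rw [tiStar_re]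
    show φ (tiStar t).val.re = φ t.val.re - φ t.val.im
    rw [tiStar_re, map_sub]
  · rw [tiStar_im]
    show φ (tiStar t).val.im = - φ t.val.im
    rw [tiStar_im, map_neg]

theorem injW {O : Type} [CommRing O] [IsDomain O] [IsPrincipalIdealRing O] {k : Type} [Field k]
    {f : O} {χ : (Ti (O ⧸ Ideal.span {f}))ˣ →* kˣ} (hf : f ≠ 0)
    {C : GL (Fin 2) O → GL (Fin 2) (O ⧸ Ideal.span {f}) → k} (hC : IsCoc f χ C)
    (hscal : ∀ u, χ (tiC u) = 1) (hne : χ ^ 2 ≠ 1)
    (hdeep : ∀ g : GL (Fin 2) O, Deep (f ^ 7) g → ∀ y, C g y = 0)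
    (u : GL (Fin 2) O) (hu : u * th = th * u) (t : (Ti (O ⧸ Ideal.span {f}))ˣ)
    (htu : iota t = red f u) (hχu : χ t = 1) : C u 1 = 0 := by
  have hdep : ∀ γ γ' : GL (Fin 2) O, red (f ^ 7) γ = red (f ^ 7) γ' → ∀ y, C γ' y = C γ y := by
    intro γ γ' h y
    have h1 := hC.coc γ (γ⁻¹ * γ') y
    rw [mul_inv_cancel_left] at h1
    have h2 : Deep (f ^ 7) (γ⁻¹ * γ') := by
      rw [deep_iff, map_mul, map_inv, h, inv_mul_cancel]
    rw [h1, hdeep _ h2, add_zero]
  obtain ⟨t₀, ht₀⟩ : ∃ t₀, χ t₀ ^ 2 ≠ 1 := by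
    by_contra hcon
    push Not at hcon
    exact hne (MonoidHom.ext hcon)
  obtain ⟨w, hw⟩ : ∃ w : Ti O, redTi f w = t₀.val := by
    obtain ⟨a, ha⟩ := Ideal.Quotient.mk_surjective t₀.val.re
    obtain ⟨b, hb⟩ := Ideal.Quotient.mk_surjective t₀.val.im
    exact ⟨⟨a, b⟩, QuadraticAlgebra.ext ha hb⟩
  have hcop : IsCoprime w.norm f := by
    have h1 : IsUnit (redTi f w).norm := by
      rw [← QuadraticAlgebra.isUnit_iff_norm_isUnit, hw]
      exact t₀.isUnit
    have e : (redTi f w).norm = Ideal.Quotient.mk _ w.norm := by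
      simp [redTi, QuadraticAlgebra.norm_def]
    rw [e] at h1
    obtain ⟨y', hy'⟩ := h1.exists_right_inv
    obtain ⟨y, rfl⟩ := Ideal.Quotient.mk_surjective y'
    rw [← map_mul, ← map_one (Ideal.Quotient.mk (Ideal.span {f})), Ideal.Quotient.eq,
      Ideal.mem_span_singleton] at hy'
    obtain ⟨c, hc⟩ := hy'
    exact ⟨y, -c, by linear_combination hc⟩
  have h7u : IsUnit (redTi (f ^ 7) w) := isUnit_redTi (hcop.pow_right)
  obtain ⟨t7, ht7⟩ := h7u
  set φ : O ⧸ Ideal.span {f ^ 7} →+* O ⧸ Ideal.span {f} :=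
    rd (dvd_pow_self f (by norm_num : (7 : ℕ) ≠ 0)) with hφ
  have hφG : ∀ G : GL (Fin 2) O,
      Matrix.GeneralLinearGroup.map (n := Fin 2) φ (red (f ^ 7) G) = red f G := by
    intro G
    apply Matrix.GeneralLinearGroup.ext
    intro i j
    exact rd_mk (dvd_pow_self f (by norm_num : (7 : ℕ) ≠ 0)) _
  have hs : Units.map (injw_map φ).toMonoidHom t7 = t₀ := by
    apply Units.ext
    rw [← hw]
    show injw_map φ t7.val = redTi f w
    rw [ht7]
    apply QuadraticAlgebra.ext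
    · exact rd_mk (dvd_pow_self f (by norm_num : (7 : ℕ) ≠ 0)) _
    · exact rd_mk (dvd_pow_self f (by norm_num : (7 : ℕ) ≠ 0)) _
  have hdet : Matrix.GeneralLinearGroup.det (iota (t7 * (tiStar t7)⁻¹)) = 1 := by
    rw [map_mul, map_inv, map_mul, map_inv, mul_inv_eq_one]
    apply Units.ext
    rw [det_iota, det_iota, tiStar_re, tiStar_im]
    ring
  have hf7 : f ^ 7 ≠ 0 := pow_ne_zero _ hf
  obtain ⟨G, -, hG⟩ := SerreE.sapp (f ^ 7) hf7 (iota (t7 * (tiStar t7)⁻¹)) hdet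
  have hG1 : red f G = iota (t₀ * (tiStar t₀)⁻¹) := by
    rw [← hφG, hG, injw_iota, map_mul, map_inv, injw_star, hs]
  have ht₁ : χ (t₀ * (tiStar t₀)⁻¹) ≠ 1 := by
    have h1 : χ t₀ * χ (tiStar t₀) = 1 := by rw [← map_mul, mul_tiStar, hscal]
    have h2 : χ (tiStar t₀) = (χ t₀)⁻¹ := eq_inv_of_mul_eq_one_right h1
    rw [map_mul, map_inv, h2, inv_inv, ← pow_two]
    exact ht₀
  obtain ⟨w', hw'⟩ := comm_th u hu
  have hcomm : red (f ^ 7) (u * G) = red (f ^ 7) (G * u) := by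
    rw [map_mul, map_mul, hG, hw']
    have e : red (f ^ 7) (iota w') =
        iota (Units.map (injw_map (Ideal.Quotient.mk (Ideal.span {f ^ 7}))).toMonoidHom w') :=
      injw_iota _ _
    rw [e, ← map_mul, ← map_mul, mul_comm]
  have e1 := hC.coc u G 1
  have e2 := hC.coc G u 1
  rw [mul_one, ← htu, hC.equi_inv, hχu, Units.val_one, one_mul] at e1
  rw [mul_one, hG1, hC.equi_inv] at e2
  have e3 := hdep _ _ hcomm 1
  rw [e1, e2] at e3
  have e4 : (((χ (t₀ * (tiStar t₀)⁻¹) : kˣ) : k) - 1) * C u 1 = 0 := by linear_combination e3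
  rcases mul_eq_zero.mp e4 with h | h
  · exfalso
    apply ht₁
    apply Units.ext
    rw [Units.val_one]
    linear_combination h
  · exact h

end SerreW
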