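import Pool.Agent.SerreW.Defs
import Pool.Agent.Serre.VLOC

/-!
# KIR (3): the Kirillov argument (pure statement on a finite ring)

`p : Q → Rˣ` surjective homomorphism of finite groups, kernel of order `n ≠ 0` in `k`; `j : Z → R` any map from a finite type,
`|Z| ≠ 0`, `|R| ≠ 0` in `k`; `ξ` generic.
Hypothesis: `Σ_z ξ(j z) Σ_{q ∈ Q} v(G up(-j z) dg(p q) a) = 0` for all `G` with `det G = 1` and all `a`.
All fibres of `p` have `n` elements, so `Σ_z ξ(j z) Σ_{r ∈ Rˣ} v(G up(-j z) dg(r) a) = 0`. Replace `G` by `G up(y)` and `a` by `up(w) a`;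
`dg r * up w = up (w r⁻¹) * dg r` (with `dg r = diag(1, r)`; see `SerreE.dg_mul_up`, `SerreE.up_mul_up`):
`Σ_z ξ(j z) Σ_r v(G up(y - j z + w r⁻¹) dg(r) a) = 0`. Multiply by `ξ(-y)` and sum over `y ∈ R`; substitute
`x = y - j z + w r⁻¹`, `ξ(-y) = ξ(-x) ξ(-j z) ξ(w r⁻¹)`: `|Z| Σ_r ξ(w r⁻¹) B(r) = 0` for all `w`, `B(r) = Σ_x ξ(-x) v(G up(x) dg(r) a)`.
Multiply by `ξ(-w)` and sum over `w`: `Σ_w ξ(w (r⁻¹ - 1)) = 0` for `r ≠ 1` (the ideal generated by `r⁻¹ - 1` is not zero, `ξ` is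
non-trivial on it, shift) and `|R|` for `r = 1`. So `|Z| |R| B(1) = 0`, `B(1) = 0`, `dg 1 = 1` (`SerreE.dg_one`).
-/

open Matrix
open scoped QuadraticAlgebra

namespace SerreW

open SerreE (mk2 sc dg dgl up low)

theorem kir_gen {R : Type*} [CommRing R] [Fintype R] {k : Type*} [Field k] (ξ : Multiplicative R →* kˣ)
    (hξ : Gen ξ) (y : R) (hy : y ≠ 0) : ∑ u : R, ev ξ (u * y) = 0 := by
  obtain ⟨x, hx, hne⟩ := hξ (Ideal.span {y}) (by rwa [Ne, Ideal.span_singleton_eq_bot])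
  rw [Ideal.mem_span_singleton'] at hx
  obtain ⟨u0, hu0⟩ := hx
  have h1 : ∑ u : R, ev ξ ((u + u0) * y) = ∑ u : R, ev ξ (u * y) :=
    Fintype.sum_equiv (Equiv.addRight u0) _ _ (fun u => rfl)
  have h2 : ∑ u : R, ev ξ ((u + u0) * y) = (∑ u : R, ev ξ (u * y)) * ev ξ x := by
    rw [Finset.sum_mul]
    refine Finset.sum_congr rfl fun u _ => ?_
    rw [add_mul, hu0, ev_add]
  have h3 : ev ξ x - 1 ≠ 0 := by
    intro h0
    apply hne
    apply Units.ext
    rw [Units.val_one]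
    exact sub_eq_zero.mp h0
  have h4 : (∑ u : R, ev ξ (u * y)) * (ev ξ x - 1) = 0 := by
    rw [mul_sub, mul_one, ← h2, h1, sub_self]
  exact (mul_eq_zero.mp h4).resolve_right h3

theorem kir_fib {k : Type*} [Field k] {Q H : Type*} [Group Q] [Group H] [Fintype Q] [Fintype H]
    (p : Q →* H) (hp : Function.Surjective p) (hn : (Nat.card p.ker : k) ≠ 0) (F : H → k)
    (h : ∑ q : Q, F (p q) = 0) : ∑ r : H, F r = 0 := by
  classical
  have h1 : ∑ q : Q, F (p q) = ∑ r : H, ∑ q ∈ Finset.univ.filter (fun q => p q = r), F (p q) :=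
    (Finset.sum_fiberwise Finset.univ p fun q => F (p q)).symm
  have h2 : ∀ r : H, ∑ q ∈ Finset.univ.filter (fun q => p q = r), F (p q) =
      (Nat.card p.ker : k) * F r := by
    intro r
    have e1 : ∑ q ∈ Finset.univ.filter (fun q => p q = r), F (p q) =
        ∑ q ∈ Finset.univ.filter (fun q => p q = r), F r :=
      Finset.sum_congr rfl fun q hq => by rw [(Finset.mem_filter.mp hq).2]
    rw [e1, Finset.sum_const, nsmul_eq_mul]
    congr 2
    have e2 : (Finset.univ.filter (fun q => p q = r)).card =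
        (Finset.univ.filter (fun q => p q = 1)).card :=
      MonoidHom.card_fiber_eq_of_mem_range p (hp r) (hp 1)
    rw [e2, Nat.card_eq_fintype_card, Fintype.card_subtype]
    congr 1
    ext q
    simp [MonoidHom.mem_ker]
  rw [h1, Finset.sum_congr rfl fun r _ => h2 r, ← Finset.mul_sum] at h
  exact (mul_eq_zero.mp h).resolve_left hn

theorem kir {R : Type*} [CommRing R] [Finite R] {k : Type*} [Field k] {Q Z : Type*} [Group Q]
    [Finite Q] [Finite Z] (p : Q →* Rˣ) (hp : Function.Surjective p) (j : Z → R)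
    (hn : (Nat.card p.ker : k) ≠ 0) (hZ : (Nat.card Z : k) ≠ 0) (hR : (Nat.card R : k) ≠ 0)
    (v : GL (Fin 2) R → k) (ξ : Multiplicative R →* kˣ) (hξ : Gen ξ)
    (h : ∀ G a : GL (Fin 2) R, Matrix.GeneralLinearGroup.det G = 1 →
      ∑ᶠ z : Z, ev ξ (j z) * ∑ᶠ q : Q, v (G * (up (-(j z)) * (dg (p q) * a))) = 0)
    (G a : GL (Fin 2) R) (hG : Matrix.GeneralLinearGroup.det G = 1) :
    ∑ᶠ x : R, ev ξ (-x) * v (G * up x * a) = 0 := by
  classical
  have := Fintype.ofFinite R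
  have := Fintype.ofFinite Rˣ
  have := Fintype.ofFinite Q
  have := Fintype.ofFinite Z
  have h1 : ∀ G a : GL (Fin 2) R, Matrix.GeneralLinearGroup.det G = 1 →
      ∑ z : Z, ev ξ (j z) * ∑ r : Rˣ, v (G * (up (-(j z)) * (dg r * a))) = 0 := by
    intro G a hG
    have e := h G a hG
    rw [finsum_eq_sum_of_fintype] at e
    simp only [finsum_eq_sum_of_fintype] at e
    simp only [Finset.mul_sum] at e ⊢
    rw [Finset.sum_comm] at e ⊢
    exact kir_fib p hp hn (fun r => ∑ z : Z, ev ξ (j z) * v (G * (up (-(j z)) * (dg r * a)))) e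
  have h2 : ∀ y w : R, ∑ z : Z, ev ξ (j z) * ∑ r : Rˣ,
      v (G * (up (y + (-(j z) + (r⁻¹ : Rˣ) * w)) * (dg r * a))) = 0 := by
    intro y w
    have e := h1 (G * up y) (up w * a) (by rw [map_mul, hG, SerreE.det_up, one_mul])
    rw [← e]
    refine Finset.sum_congr rfl fun z _ => ?_
    congr 1
    refine Finset.sum_congr rfl fun r _ => ?_
    congr 1
    rw [← SerreE.up_mul_up, ← SerreE.up_mul_up]
    simp only [mul_assoc]
    congr 3
    rw [← mul_assoc (dg r), SerreE.dg_mul_up, mul_assoc]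
  set B : Rˣ → k := fun r => ∑ x : R, ev ξ (-x) * v (G * (up x * (dg r * a))) with hB
  have h3 : ∀ (c : R) (r : Rˣ), ∑ y : R, ev ξ (-y) * v (G * (up (y + c) * (dg r * a))) = ev ξ c * B r := by
    intro c r
    rw [hB, Finset.mul_sum]
    refine Fintype.sum_equiv (Equiv.addRight c) _ _ (fun y => ?_)
    have e : ev ξ (-y) = ev ξ c * ev ξ (-(y + c)) := by
      rw [← ev_add]
      congr 1
      ring
    show ev ξ (-y) * v (G * (up (y + c) * (dg r * a))) =
      ev ξ c * (ev ξ (-(y + c)) * v (G * (up (y + c) * (dg r * a))))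
    rw [e, mul_assoc]
  have h4 : ∀ w : R, ∑ r : Rˣ, ev ξ ((r⁻¹ : Rˣ) * w) * B r = 0 := by
    intro w
    have e : ∑ y : R, ev ξ (-y) * ∑ z : Z, ev ξ (j z) * ∑ r : Rˣ,
      v (G * (up (y + (-(j z) + (r⁻¹ : Rˣ) * w)) * (dg r * a))) = 0 := by
      refine Finset.sum_eq_zero fun y _ => ?_
      rw [h2, mul_zero]
    have e2 : ∑ y : R, ev ξ (-y) * ∑ z : Z, ev ξ (j z) * ∑ r : Rˣ,
      v (G * (up (y + (-(j z) + (r⁻¹ : Rˣ) * w)) * (dg r * a))) =
        ∑ z : Z, ∑ r : Rˣ, ev ξ (j z) * ∑ y : R, ev ξ (-y) *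
          v (G * (up (y + (-(j z) + (r⁻¹ : Rˣ) * w)) * (dg r * a))) := by
      simp only [Finset.mul_sum]
      rw [Finset.sum_comm]
      refine Finset.sum_congr rfl fun z _ => ?_
      rw [Finset.sum_comm]
      refine Finset.sum_congr rfl fun r _ => ?_
      refine Finset.sum_congr rfl fun y _ => ?_
      ring
    rw [e2] at e
    have e3 : ∀ z : Z, ∑ r : Rˣ, ev ξ (j z) * ∑ y : R, ev ξ (-y) *
          v (G * (up (y + (-(j z) + (r⁻¹ : Rˣ) * w)) * (dg r * a))) =
        ∑ r : Rˣ, ev ξ ((r⁻¹ : Rˣ) * w) * B r := by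
      intro z
      refine Finset.sum_congr rfl fun r _ => ?_
      rw [h3, ← mul_assoc, ← ev_add]
      congr 2
      ring
    rw [Finset.sum_congr rfl fun z _ => e3 z, Finset.sum_const, Finset.card_univ, nsmul_eq_mul,
      ← Nat.card_eq_fintype_card] at e
    exact (mul_eq_zero.mp e).resolve_left hZ
  have h5 : (Nat.card R : k) * B 1 = 0 := by
    have e : ∑ w : R, ev ξ (-w) * ∑ r : Rˣ, ev ξ ((r⁻¹ : Rˣ) * w) * B r = 0 := by
      refine Finset.sum_eq_zero fun w _ => ?_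
      rw [h4, mul_zero]
    have e2 : ∑ w : R, ev ξ (-w) * ∑ r : Rˣ, ev ξ ((r⁻¹ : Rˣ) * w) * B r =
        ∑ r : Rˣ, (∑ w : R, ev ξ (w * (((r⁻¹ : Rˣ) : R) - 1))) * B r := by
      simp only [Finset.mul_sum, Finset.sum_mul]
      rw [Finset.sum_comm]
      refine Finset.sum_congr rfl fun r _ => ?_
      refine Finset.sum_congr rfl fun w _ => ?_
      rw [← mul_assoc, ← ev_add]
      congr 2
      ring
    rw [e2, Finset.sum_eq_single (1 : Rˣ)] at e
    · rw [← e]
      congr 1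
      rw [Nat.card_eq_fintype_card, ← Finset.card_univ, Finset.card_eq_sum_ones]
      rw [Nat.cast_sum]
      refine Finset.sum_congr rfl fun w _ => ?_
      rw [inv_one, Units.val_one, sub_self, mul_zero, ev_zero, Nat.cast_one]
    · intro r _ hr
      rw [kir_gen ξ hξ, zero_mul]
      intro h0
      apply hr
      have : (r⁻¹ : Rˣ) = 1 := Units.ext (sub_eq_zero.mp h0)
      exact inv_eq_one.mp this
    · intro h0
      exact absurd (Finset.mem_univ _) h0
  have h6 : B 1 = 0 := (mul_eq_zero.mp h5).resolve_left hR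
  rw [finsum_eq_sum_of_fintype, ← h6, hB]
  refine Finset.sum_congr rfl fun x _ => ?_
  rw [SerreE.dg_one, one_mul, mul_assoc]

end SerreW
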