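import Pool.Agent.SerreW.DEEP
import Pool.Agent.Serre.VCRT
import Pool.Agent.SerreT.VLOC

/-!
# LIFT (3): reduction from `O/f` to `O/m` when `m ∣ f` have the same primes

* `unit_lift`: `x ∈ O` with `mk x` a unit modulo `m` is a unit modulo `f`: `x` is coprime to `m` (`a x + b m = 1`), no prime divides `x` and
  `f` (a prime of `f` divides `m`), so `x`, `f` are coprime (principal ideal domain, `f ≠ 0`; e.g. `isCoprime_of_prime_dvd`).
* `rdU_surj`: lift a unit of `O/m` to `O` and use `unit_lift`.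
* `glmap_surj`: lift the four entries to `O/f`, the determinant maps to a unit, so it is a unit.
* `glmap_ker`: `map (rd h) y = map (rd h) y'` iff `κ = y⁻¹ y'` satisfies `EqM (mk m) κ 1` (`rd h x = 0` iff `mk m ∣ x`: `x = mk x'`, `m ∣ x'`, as `m ∣ f`).
* `card_ker`: the kernel of `(O/f)ˣ → (O/m)ˣ` is in bijection with the ideal `(mk m)` of `O/f` by `x ↦ x - 1` (every `1 + mk m * y` is a
  unit by `unit_lift`); the additive group of this ideal has order prime to `3`, because `3` is a unit in `O/f` (an element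
  of additive order `3`, Cauchy, would be killed by `3`, so zero). So its cardinality is not `0` in `k` (`CharP.cast_eq_zero_iff`).
-/

open Matrix
open scoped QuadraticAlgebra

namespace SerreW

open SerreT
open SerreE (mk2 sc dg dgl up low red)

variable {O : Type} [CommRing O] [IsDomain O] [IsPrincipalIdealRing O] {f m : O}

theorem unit_lift (hf : f ≠ 0) (h : m ∣ f) (hrad : ∀ π : O, Prime π → π ∣ f → π ∣ m) (x : O)
    (hx : IsUnit (Ideal.Quotient.mk (Ideal.span {m}) x)) :
    IsUnit (Ideal.Quotient.mk (Ideal.span {f}) x) := by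
  have _ := h
  obtain ⟨y', hy'⟩ := hx.exists_right_inv
  obtain ⟨y, rfl⟩ := Ideal.Quotient.mk_surjective y'
  rw [← map_mul, ← map_one (Ideal.Quotient.mk (Ideal.span {m})), Ideal.Quotient.eq,
    Ideal.mem_span_singleton] at hy'
  apply SerreE.isUnit_mk_of_coprime
  apply isCoprime_of_prime_dvd
  · intro h1
    exact hf h1.2
  · intro π hπ h1 h2
    have h3 : π ∣ x * y - 1 := (hrad π hπ h2).trans hy'
    have h4 : π ∣ x * y := Dvd.dvd.mul_right h1 _
    have h5 := dvd_sub h4 h3
    rw [sub_sub_cancel] at h5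
    exact hπ.not_isUnit (isUnit_of_dvd_one h5)

theorem rdU_surj (hf : f ≠ 0) (h : m ∣ f) (hrad : ∀ π : O, Prime π → π ∣ f → π ∣ m) :
    Function.Surjective (rdU h) := by
  intro u
  obtain ⟨x, hx⟩ := Ideal.Quotient.mk_surjective (u : O ⧸ Ideal.span {m})
  have h1 : IsUnit (Ideal.Quotient.mk (Ideal.span {f}) x) :=
    unit_lift hf h hrad x (by rw [hx]; exact u.isUnit)
  refine ⟨h1.unit, ?_⟩
  apply Units.ext
  show rd h (Ideal.Quotient.mk (Ideal.span {f}) x) = u
  rw [rd_mk, hx]

omit [IsDomain O] [IsPrincipalIdealRing O] in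
theorem lift_rd_surj (h : m ∣ f) : Function.Surjective (rd h) := by
  intro y
  obtain ⟨x, rfl⟩ := Ideal.Quotient.mk_surjective y
  exact ⟨Ideal.Quotient.mk _ x, rd_mk h x⟩

theorem lift_unit (hf : f ≠ 0) (h : m ∣ f) (hrad : ∀ π : O, Prime π → π ∣ f → π ∣ m)
    (x : O ⧸ Ideal.span {f}) (hx : IsUnit (rd h x)) : IsUnit x := by
  obtain ⟨x', rfl⟩ := Ideal.Quotient.mk_surjective x
  rw [rd_mk] at hx
  exact unit_lift hf h hrad x' hx

theorem glmap_surj (hf : f ≠ 0) (h : m ∣ f) (hrad : ∀ π : O, Prime π → π ∣ f → π ∣ m) :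
    Function.Surjective (Matrix.GeneralLinearGroup.map (n := Fin 2) (rd h)) := by
  intro y
  obtain ⟨a, ha⟩ := lift_rd_surj h (y.val 0 0)
  obtain ⟨b, hb⟩ := lift_rd_surj h (y.val 0 1)
  obtain ⟨c, hc⟩ := lift_rd_surj h (y.val 1 0)
  obtain ⟨d, hd⟩ := lift_rd_surj h (y.val 1 1)
  have h1 : IsUnit (a * d - b * c) := by
    apply lift_unit hf h hrad
    rw [map_sub, map_mul, map_mul, ha, hb, hc, hd]
    have h2 : y.val 0 0 * y.val 1 1 - y.val 0 1 * y.val 1 0 =
        (Matrix.GeneralLinearGroup.det y : O ⧸ Ideal.span {m}) := by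
      rw [Matrix.GeneralLinearGroup.val_det_apply, Matrix.det_fin_two]
    rw [h2]
    exact (Matrix.GeneralLinearGroup.det y).isUnit
  refine ⟨mk2 a b c d h1.unit rfl, ?_⟩
  apply Matrix.GeneralLinearGroup.ext
  intro i j
  fin_cases i <;> fin_cases j
  · exact ha
  · exact hb
  · exact hc
  · exact hd

omit [IsDomain O] [IsPrincipalIdealRing O] in
theorem lift_rd_zero (h : m ∣ f) (x : O ⧸ Ideal.span {f}) :
    rd h x = 0 ↔ Ideal.Quotient.mk (Ideal.span {f}) m ∣ x := by
  obtain ⟨x', rfl⟩ := Ideal.Quotient.mk_surjective x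
  rw [rd_mk, Ideal.Quotient.eq_zero_iff_mem, Ideal.mem_span_singleton]
  constructor
  · exact fun h1 => map_dvd _ h1
  · rintro ⟨y, hy⟩
    obtain ⟨y', rfl⟩ := Ideal.Quotient.mk_surjective y
    rw [← map_mul, Ideal.Quotient.eq, Ideal.mem_span_singleton] at hy
    have h2 := h.trans hy
    have h3 := dvd_add h2 (dvd_mul_right m y')
    rwa [sub_add_cancel] at h3

omit [IsDomain O] [IsPrincipalIdealRing O] in
theorem glmap_ker (h : m ∣ f) (y y' : GL (Fin 2) (O ⧸ Ideal.span {f})) :
    Matrix.GeneralLinearGroup.map (n := Fin 2) (rd h) y =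
      Matrix.GeneralLinearGroup.map (n := Fin 2) (rd h) y' ↔
    EqM (Ideal.Quotient.mk (Ideal.span {f}) m) (y⁻¹ * y') 1 := by
  have h1 : ∀ κ : GL (Fin 2) (O ⧸ Ideal.span {f}),
      Matrix.GeneralLinearGroup.map (n := Fin 2) (rd h) κ = 1 ↔
        EqM (Ideal.Quotient.mk (Ideal.span {f}) m) κ 1 := by
    intro κ
    have h2 : ∀ i j, rd h ((1 : GL (Fin 2) (O ⧸ Ideal.span {f})).val i j) =
        (1 : GL (Fin 2) (O ⧸ Ideal.span {m})).val i j := by
      intro i j
      fin_cases i <;> fin_cases j <;> simp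
    constructor
    · intro h3 i j
      rw [← lift_rd_zero h, map_sub, h2, sub_eq_zero]
      exact congrArg (fun M : GL (Fin 2) (O ⧸ Ideal.span {m}) => M.val i j) h3
    · intro h3
      apply Matrix.GeneralLinearGroup.ext
      intro i j
      have h4 := h3 i j
      rw [← lift_rd_zero h, map_sub, h2, sub_eq_zero] at h4
      exact h4
  rw [← h1, map_mul, map_inv]
  constructor
  · intro h2
    rw [h2, inv_mul_cancel]
  · intro h2
    exact inv_mul_eq_one.mp h2

theorem card_ker (hf : f ≠ 0) (hf3 : IsCoprime f 3) [Finite (O ⧸ Ideal.span {f})] (h : m ∣ f)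
    (hrad : ∀ π : O, Prime π → π ∣ f → π ∣ m) {k : Type} [Field k] [CharP k 3] :
    (Nat.card (rdU h).ker : k) ≠ 0 := by
  have h3u : IsUnit (3 : O ⧸ Ideal.span {f}) := by
    have h2 := SerreE.isUnit_mk_of_coprime hf3.symm
    rwa [map_ofNat] at h2
  have h1 : ¬ 3 ∣ Nat.card (O ⧸ Ideal.span {f}) := odd_card h3u
  let I : AddSubgroup (O ⧸ Ideal.span {f}) := (rd h).toAddMonoidHom.ker
  have hI : ∀ x, x ∈ I ↔ rd h x = 0 := fun x => Iff.rfl
  have e : (rdU h).ker ≃ I :=
    { toFun := fun u => ⟨((u : (O ⧸ Ideal.span {f})ˣ) : O ⧸ Ideal.span {f}) - 1, by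
        rw [hI, map_sub, map_one, sub_eq_zero]
        have h2 := congrArg Units.val (MonoidHom.mem_ker.mp u.2)
        exact h2⟩
      invFun := fun x => ⟨(lift_unit hf h hrad (1 + (x : O ⧸ Ideal.span {f})) (by
          rw [map_add, map_one, (hI _).mp x.2, add_zero]
          exact isUnit_one)).unit, by
        rw [MonoidHom.mem_ker]
        apply Units.ext
        show rd h (1 + (x : O ⧸ Ideal.span {f})) = 1
        rw [map_add, map_one, (hI _).mp x.2, add_zero]⟩
      left_inv := by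
        intro u
        apply Subtype.ext
        apply Units.ext
        show 1 + (((u : (O ⧸ Ideal.span {f})ˣ) : O ⧸ Ideal.span {f}) - 1) = _
        rw [add_sub_cancel]
      right_inv := by
        intro x
        apply Subtype.ext
        show (1 + (x : O ⧸ Ideal.span {f})) - 1 = _
        rw [add_sub_cancel_left] }
  rw [Nat.card_congr e]
  apply card_ne_zero' (R := I)
  intro h3
  exact h1 (h3.trans (AddSubgroup.card_addSubgroup_dvd_card I))

end SerreW
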