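import Pool.Agent.SerreW.SOC
import Pool.Agent.SerreW.KIR
import Pool.Agent.SerreW.LIFT

/-!
# JOIN (4): joint injectivity on deep elements

Let `g ≡ 1` modulo `f⁷`. `v y := psi (det y) * C g y` on `GL₂(O/f)`. For `κ ≡ 1` modulo `m`: `D.km` and `hC.equi`:
`C g (y κ) = (psi (det κ))⁻¹ C g y`, so `v (y κ) = v y`. By `glmap_surj`, `glmap_ker` (LIFT) there is `v'` on `GL₂(O/m)` with
`v' (map (rd m_dvd) y) = v y` (compose `v` with a section). `exists_v`.
`PropW (O/m) k` for `v'`:
* witnesses: an ideal `𝔞 ≠ 0` of `O/m` contains `mk m₂` for some `m = π m₂`, `π` prime (take `mk y ∈ 𝔞` non-zero, `g' = gcd(y, m)`,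
  `m = g' h`, `h` not a unit, `π ∣ h`). `D.wit` gives `κ ∈ N`, `det κ = 1`, `κ ≡ 1` modulo `m₂`, `X κ ≠ 1`; take `map (rd) κ`; for
  `y' = map (rd) y`: `v' (y' κ') = v (y κ) = (X κ)⁻¹ v y`.
* sums: `ξ` generic on `O/m`; `kir` with `Q = (O/f)ˣ`, `p = rdU m_dvd` (`rdU_surj`, `card_ker`), `Z = O/ρ`,
  `j z = mk (m₀ * l z)` (`exists_rho`), for the character `ξ⁻¹` (generic as well; `ev ξ⁻¹ (-x) = ev ξ x`). Its hypothesis: `G' ∈ SL₂(O/m)`
  lifts to `b ∈ GL₂(O/f)` with determinant `1` (lift to `GL₂(O)` with determinant one by `SerreE.sapp` for the modulus `m ≠ 0`,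
  then `red f`), `a'` lifts to `a` (`glmap_surj`): `v' (G' up(-j z) dg(p r) a') = v (b (red f (up (m₀ l z)))⁻¹ dg r a)
  = psi (det a) psi r C g (b ((red f (up (m₀ l z)))⁻¹ (dg r a)))`; this is `soc` times `psi (det a)`.
  `|O/ρ|`, `|O/m|` are not `0` in `k`: `ρ ∣ m ∣ f` are prime to `3` (`SerreT.odd_card`, `card_ne_zero'`).
So `v' = 0`, `v = 0`, and `C g y = 0` for all `y`.
-/

open Matrix
open scoped QuadraticAlgebra

namespace SerreW
namespace TW

open SerreT
open SerreE (mk2 sc dg dgl up low red Gam0 GamUp mem_Gam0 mem_GamUp PM Frame heckeC)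

variable {O : Type} [CommRing O] {k : Type} [Field k] {f : O}
  {χ : (Ti (O ⧸ Ideal.span {f}))ˣ →* kˣ} {D : TW f k χ}

theorem exists_v [IsDomain O] [IsPrincipalIdealRing O] (hf : f ≠ 0)
    {C : GL (Fin 2) O → GL (Fin 2) (O ⧸ Ideal.span {f}) → k} (hC : D.IsC C)
    (g : GL (Fin 2) O) : ∃ v : GL (Fin 2) (O ⧸ Ideal.span {D.m}) → k, ∀ y,
      v (Matrix.GeneralLinearGroup.map (rd D.m_dvd) y) =
        (D.psi (Matrix.GeneralLinearGroup.det y) : k) * C g y := by
  have hfac : Function.FactorsThrough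
      (fun y => (D.psi (Matrix.GeneralLinearGroup.det y) : k) * C g y)
      (Matrix.GeneralLinearGroup.map (n := Fin 2) (rd D.m_dvd)) := by
    intro y y' hy
    have h1 := (glmap_ker D.m_dvd y y').1 hy
    obtain ⟨hN, hX⟩ := D.km _ h1
    have h2 := hC.equi g y ⟨_, hN⟩
    rw [hX] at h2
    have h3 : y * (y⁻¹ * y') = y' := by rw [mul_inv_cancel_left]
    have h4 : D.psi (Matrix.GeneralLinearGroup.det y') = D.psi (Matrix.GeneralLinearGroup.det y) *
        D.psi (Matrix.GeneralLinearGroup.det (y⁻¹ * y')) := by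
      rw [← map_mul, ← map_mul, mul_inv_cancel_left]
    have h5 : C g y' = ((D.psi (Matrix.GeneralLinearGroup.det (y⁻¹ * y')))⁻¹ : kˣ) * C g y := by
      change C g (y * (y⁻¹ * y')) = _ at h2
      rw [h3] at h2
      exact h2
    simp only
    rw [h4, h5, Units.val_mul, mul_assoc, ← mul_assoc (↑(D.psi (Matrix.GeneralLinearGroup.det (y⁻¹ * y'))) : k),
      Units.mul_inv, one_mul]
  exact ⟨Function.extend (Matrix.GeneralLinearGroup.map (n := Fin 2) (rd D.m_dvd))
    (fun y => (D.psi (Matrix.GeneralLinearGroup.det y) : k) * C g y) 0, fun y => hfac.extend_apply _ _⟩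

omit [CommRing O] in
theorem join_ne {O : Type} [CommRing O] [IsDomain O] {f m s : O} (hf : f ≠ 0) (h : f = m * s) : m ≠ 0 := by
  rintro rfl
  rw [zero_mul] at h
  exact hf h

/-- a non-zero ideal of `O/m` contains `m / π` for some prime `π` -/
theorem join_ideal {O : Type} [CommRing O] [IsDomain O] [IsPrincipalIdealRing O] {m : O} (hm : m ≠ 0)
    (𝔞 : Ideal (O ⧸ Ideal.span {m})) (ha : 𝔞 ≠ ⊥) :
    ∃ π m₂ : O, Prime π ∧ m = π * m₂ ∧ Ideal.Quotient.mk (Ideal.span {m}) m₂ ∈ 𝔞 := by
  obtain ⟨z, hz, hz0⟩ := Submodule.exists_mem_ne_zero_of_ne_bot ha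
  obtain ⟨y, rfl⟩ := Ideal.Quotient.mk_surjective z
  have hmy : ¬ m ∣ y := by
    intro h
    apply hz0
    rw [Ideal.Quotient.eq_zero_iff_mem]
    exact Ideal.mem_span_singleton.2 h
  obtain ⟨g, hg⟩ := (IsPrincipalIdealRing.principal (Ideal.span {y, m})).principal
  have hg' : Ideal.span {y, m} = Ideal.span {g} := hg
  have hgy : g ∣ y := by
    rw [← Ideal.mem_span_singleton, ← hg']
    exact Ideal.subset_span (by simp)
  have hgm : g ∣ m := by
    rw [← Ideal.mem_span_singleton, ← hg']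
    exact Ideal.subset_span (by simp)
  have hgmem : g ∈ Ideal.span {y, m} := by
    rw [hg']
    exact Ideal.mem_span_singleton_self g
  obtain ⟨a, b, hab⟩ := Ideal.mem_span_pair.1 hgmem
  have hga : Ideal.Quotient.mk (Ideal.span {m}) g ∈ 𝔞 := by
    rw [← hab, map_add, map_mul, map_mul]
    have h0 : Ideal.Quotient.mk (Ideal.span {m}) m = 0 := by
      rw [Ideal.Quotient.eq_zero_iff_mem]
      exact Ideal.mem_span_singleton_self m
    rw [h0, mul_zero, add_zero]
    exact 𝔞.mul_mem_left _ hz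
  obtain ⟨h, hh⟩ := hgm
  have hh0 : h ≠ 0 := by
    rintro rfl
    rw [mul_zero] at hh
    exact hm hh
  have hhu : ¬ IsUnit h := by
    intro hu
    apply hmy
    rw [hh]
    exact (hu.mul_right_dvd).2 hgy
  obtain ⟨π, hπ, hπh⟩ := WfDvdMonoid.exists_irreducible_factor hhu hh0
  obtain ⟨h', rfl⟩ := hπh
  refine ⟨π, g * h', hπ.prime, by rw [hh]; ring, ?_⟩
  rw [map_mul]
  exact 𝔞.mul_mem_right _ hga

theorem join_three {O : Type} [CommRing O] {f m : O} (h : m ∣ f) (hf3 : IsCoprime f 3) :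
    IsUnit (3 : O ⧸ Ideal.span {m}) := by
  obtain ⟨a, b, hab⟩ := hf3.of_isCoprime_of_dvd_left h
  refine IsUnit.of_mul_eq_one (Ideal.Quotient.mk _ b) ?_
  have h1 := congrArg (Ideal.Quotient.mk (Ideal.span {m})) hab
  rw [map_add, map_mul, map_mul, map_one] at h1
  have h0 : Ideal.Quotient.mk (Ideal.span {m}) m = 0 := by
    rw [Ideal.Quotient.eq_zero_iff_mem]
    exact Ideal.mem_span_singleton_self m
  rw [h0, mul_zero, zero_add, mul_comm] at h1
  exact_mod_cast h1

theorem join_gen {R : Type*} [CommRing R] {ξ : Multiplicative R →* kˣ} (h : Gen ξ) : Gen ξ⁻¹ := by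
  intro 𝔞 ha
  obtain ⟨x, hx, h1⟩ := h 𝔞 ha
  refine ⟨x, hx, ?_⟩
  rw [MonoidHom.inv_apply]
  exact fun h => h1 (inv_eq_one.mp h)

theorem join_ev {R : Type*} [CommRing R] (ξ : Multiplicative R →* kˣ) (x : R) : ev ξ⁻¹ (-x) = ev ξ x := by
  rw [ev_neg]
  unfold ev
  rw [MonoidHom.inv_apply, Units.val_inv_eq_inv_val, inv_inv]

theorem join_map_up {R S : Type*} [CommRing R] [CommRing S] (φ : R →+* S) (x : R) :
    Matrix.GeneralLinearGroup.map φ (up x) = up (φ x) := by
  apply Matrix.GeneralLinearGroup.ext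
  intro i j
  change φ ((up x).val i j) = _
  fin_cases i <;> fin_cases j <;> simp [up]

theorem join_map_dg {R S : Type*} [CommRing R] [CommRing S] (φ : R →+* S) (x : Rˣ) :
    Matrix.GeneralLinearGroup.map φ (dg x) = dg (Units.map φ.toMonoidHom x) := by
  apply Matrix.GeneralLinearGroup.ext
  intro i j
  change φ ((dg x).val i j) = _
  fin_cases i <;> fin_cases j <;> simp [dg]

theorem join_up_inv {R : Type*} [CommRing R] (x : R) : (up x : GL (Fin 2) R)⁻¹ = up (-x) := by
  rw [inv_eq_iff_mul_eq_one]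
  apply Matrix.GeneralLinearGroup.ext
  intro i j
  rw [Units.val_mul, Matrix.mul_apply, Fin.sum_univ_two]
  fin_cases i <;> fin_cases j <;> simp [up]

theorem join_det_up {R : Type*} [CommRing R] (x : R) : Matrix.GeneralLinearGroup.det (up x) = 1 := by
  apply Units.ext
  rw [Matrix.GeneralLinearGroup.val_det_apply, Matrix.det_fin_two]
  simp [up]

theorem join_det_dg {R : Type*} [CommRing R] (x : Rˣ) : Matrix.GeneralLinearGroup.det (dg x) = x := by
  apply Units.ext
  rw [Matrix.GeneralLinearGroup.val_det_apply, Matrix.det_fin_two]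
  simp [dg]

theorem join_map_red {O : Type} [CommRing O] {f m : O} (h : m ∣ f) (G : GL (Fin 2) O) :
    Matrix.GeneralLinearGroup.map (n := Fin 2) (rd h) (red f G) = red m G := by
  apply Matrix.GeneralLinearGroup.ext
  intro i j
  exact rd_mk h _

theorem join_det_red {O : Type} [CommRing O] (f : O) {G : GL (Fin 2) O}
    (h : Matrix.GeneralLinearGroup.det G = 1) : Matrix.GeneralLinearGroup.det (red f G) = 1 := by
  rw [Matrix.GeneralLinearGroup.map_det, h, map_one]

theorem deep_zero [IsDomain O] [IsPrincipalIdealRing O] [IsAlgClosed k] [CharP k 3]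
    (hfin : ∀ g : O, g ≠ 0 → Finite (O ⧸ Ideal.span {g})) (hf : f ≠ 0) (hf3 : IsCoprime f 3)
    (hW : PropW (O ⧸ Ideal.span {D.m}) k)
    {C : GL (Fin 2) O → GL (Fin 2) (O ⧸ Ideal.span {f}) → k} (hC : D.IsC C)
    (h0 : ∀ (a : GL (Fin 2) (O ⧸ Ideal.span {f})) (γ : Gam0 (f ^ 2)), Deep (f ^ 4) γ.val →
      D.F C a γ = 0)
    {g : GL (Fin 2) O} (hg : Deep (f ^ 7) g) (y : GL (Fin 2) (O ⧸ Ideal.span {f})) :
    C g y = 0 := by
  have hmf := D.hms
  have hm0 : D.m ≠ 0 := join_ne hf D.hms
  have he0 : D.e ≠ 0 := join_ne hf D.hef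
  obtain ⟨ρ, e0, m0, he, hm, hρ⟩ := exists_rho D
  have hρ0 : ρ ≠ 0 := join_ne hm0 hm
  have := hfin f hf
  have := hfin _ hm0
  have := hfin _ he0
  have := hfin _ hρ0
  obtain ⟨v, hv⟩ := exists_v hf hC g
  have hv0 : v = 0 := by
    refine hW v (fun 𝔞 ha => ?_) (fun G' a' hG ξ hξ => ?_)
    · obtain ⟨π, m₂, hπ, hm2, hmem⟩ := join_ideal hm0 𝔞 ha
      obtain ⟨κ, hN, hdet, hκ, hX⟩ := D.wit π m₂ hπ hm2
      refine ⟨Matrix.GeneralLinearGroup.map (n := Fin 2) (rd D.m_dvd) κ, ?_, fun i j => ?_,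
        (((D.X ⟨κ, hN⟩)⁻¹ : kˣ) : k), ?_, fun y' => ?_⟩
      · rw [Matrix.GeneralLinearGroup.map_det, hdet, map_one]
      · obtain ⟨w, hw⟩ := hκ i j
        have h1 : (Matrix.GeneralLinearGroup.map (n := Fin 2) (rd D.m_dvd) κ).val i j -
            (1 : GL (Fin 2) (O ⧸ Ideal.span {D.m})).val i j =
            rd D.m_dvd (κ.val i j - (1 : GL (Fin 2) (O ⧸ Ideal.span {f})).val i j) := by
          rw [map_sub]
          congr 1
          have h2 := congrArg (fun M : GL (Fin 2) (O ⧸ Ideal.span {D.m}) => M.val i j)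
            (map_one (Matrix.GeneralLinearGroup.map (n := Fin 2) (rd D.m_dvd)))
          exact h2.symm
        rw [h1, hw, map_mul, rd_mk]
        exact 𝔞.mul_mem_right _ hmem
      · intro h
        apply hX
        rw [Units.val_eq_one] at h
        exact inv_eq_one.mp h
      · obtain ⟨y, rfl⟩ := glmap_surj hf D.m_dvd D.hrad y'
        rw [← map_mul, hv, hv, hC.equi g y ⟨κ, hN⟩, map_mul Matrix.GeneralLinearGroup.det, hdet, mul_one]
        ring
    · have hk := kir (rdU D.m_dvd) (rdU_surj hf D.m_dvd D.hrad)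
        (fun z : O ⧸ Ideal.span {ρ} => Ideal.Quotient.mk (Ideal.span {D.m})
          (m0 * Function.surjInv Ideal.Quotient.mk_surjective z))
        (card_ker hf hf3 D.m_dvd D.hrad)
        (card_ne_zero' (odd_card (join_three ((Dvd.intro _ hm.symm).trans D.m_dvd) hf3)))
        (card_ne_zero' (odd_card (join_three D.m_dvd hf3)))
        v ξ⁻¹ (join_gen hξ) ?_ G' a' hG
      · simp only [join_ev] at hk
        exact hk
      · intro G a hG
        obtain ⟨G0, hG0, rfl⟩ := SerreE.sapp D.m hm0 G hG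
        obtain ⟨a0, rfl⟩ := glmap_surj hf D.m_dvd D.hrad a
        have hs := soc (D := D) hf hf3 hC h0 he hm hρ
          (fun z : O ⧸ Ideal.span {ρ} => Function.surjInv Ideal.Quotient.mk_surjective z)
          (fun z => Function.surjInv_eq _ z) ξ⁻¹ (join_gen hξ) hg (red f G0) a0 (join_det_red f hG0)
        have hterm : ∀ (z : O ⧸ Ideal.span {ρ}) (q : (O ⧸ Ideal.span {f})ˣ),
            v (red D.m G0 * (up (-(Ideal.Quotient.mk (Ideal.span {D.m})
              (m0 * Function.surjInv Ideal.Quotient.mk_surjective z))) *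
              (dg (rdU D.m_dvd q) * Matrix.GeneralLinearGroup.map (n := Fin 2) (rd D.m_dvd) a0))) =
            (D.psi (Matrix.GeneralLinearGroup.det a0) : k) * ((D.psi q : k) *
              C g (red f G0 * ((red f (up (m0 * Function.surjInv Ideal.Quotient.mk_surjective z)))⁻¹ *
                (dg q * a0)))) := by
          intro z q
          have e1 : red D.m G0 * (up (-(Ideal.Quotient.mk (Ideal.span {D.m})
              (m0 * Function.surjInv Ideal.Quotient.mk_surjective z))) *
              (dg (rdU D.m_dvd q) * Matrix.GeneralLinearGroup.map (n := Fin 2) (rd D.m_dvd) a0)) =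
              Matrix.GeneralLinearGroup.map (n := Fin 2) (rd D.m_dvd)
              (red f G0 * ((red f (up (m0 * Function.surjInv Ideal.Quotient.mk_surjective z)))⁻¹ *
                (dg q * a0))) := by
            have hM := map_mul (Matrix.GeneralLinearGroup.map (n := Fin 2) (rd D.m_dvd))
            rw [hM, hM, hM, map_inv, join_map_red, join_map_red, join_map_up, join_up_inv, join_map_dg]
            rfl
          rw [e1, hv]
          have e2 : Matrix.GeneralLinearGroup.det (red f G0 *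
              ((red f (up (m0 * Function.surjInv Ideal.Quotient.mk_surjective z)))⁻¹ * (dg q * a0))) =
              Matrix.GeneralLinearGroup.det a0 * q := by
            have hD := map_mul (Matrix.GeneralLinearGroup.det (n := Fin 2) (R := O ⧸ Ideal.span {f}))
            have hDi := map_inv (Matrix.GeneralLinearGroup.det (n := Fin 2) (R := O ⧸ Ideal.span {f}))
            rw [hD, hD, hD, hDi, join_det_red f hG0, join_det_red f (join_det_up _), join_det_dg, inv_one, one_mul, one_mul,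
              mul_comm]
          rw [e2, map_mul, Units.val_mul, mul_assoc]
        have hsum : ∀ z : O ⧸ Ideal.span {ρ}, ev ξ⁻¹ (Ideal.Quotient.mk (Ideal.span {D.m})
            (m0 * Function.surjInv Ideal.Quotient.mk_surjective z)) *
            ∑ᶠ q : (O ⧸ Ideal.span {f})ˣ, v (red D.m G0 * (up (-(Ideal.Quotient.mk (Ideal.span {D.m})
              (m0 * Function.surjInv Ideal.Quotient.mk_surjective z))) *
              (dg (rdU D.m_dvd q) * Matrix.GeneralLinearGroup.map (n := Fin 2) (rd D.m_dvd) a0))) =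
            (D.psi (Matrix.GeneralLinearGroup.det a0) : k) * (ev ξ⁻¹ (Ideal.Quotient.mk (Ideal.span {D.m})
            (m0 * Function.surjInv Ideal.Quotient.mk_surjective z)) *
            ∑ᶠ q : (O ⧸ Ideal.span {f})ˣ, (D.psi q : k) *
              C g (red f G0 * ((red f (up (m0 * Function.surjInv Ideal.Quotient.mk_surjective z)))⁻¹ *
                (dg q * a0)))) := by
          intro z
          rw [finsum_congr (hterm z), ← mul_finsum]
          ring
        rw [finsum_congr hsum, ← mul_finsum, hs, mul_zero]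
  have h1 := hv y
  rw [hv0, Pi.zero_apply] at h1
  exact (mul_eq_zero.1 h1.symm).resolve_left (Units.ne_zero _)

end TW
end SerreW
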