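import Pool.Agent.SerreW.Defs
import Pool.Agent.SerreT.VPROD

/-!
# Products and transport of the joint injectivity statement for generic additive characters
-/

open Matrix
open scoped QuadraticAlgebra

namespace SerreW

open SerreE (mk2 sc dg dgl up low prM prGL prGL_val prGL_surj det_prGL)

section
variable {k : Type} [Field k]

variable {R S : Type} [CommRing R] [CommRing S]

theorem wprod_up (x : R) (s : S) : up (x, s) = prGL (up x, up s) := by
  apply Units.ext
  rw [prGL_val]
  ext i j <;> fin_cases i <;> fin_cases j <;> rfl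

theorem wprod_sub (A : GL (Fin 2) R) (B : GL (Fin 2) S) (i j : Fin 2) :
    (prGL (A, B)).val i j - (1 : GL (Fin 2) (R × S)).val i j =
      (A.val i j - (1 : GL (Fin 2) R).val i j, B.val i j - (1 : GL (Fin 2) S).val i j) := by
  fin_cases i <;> fin_cases j <;> rfl

/-- the product of two additive characters -/
def wprodChar (ξ : Multiplicative R →* kˣ) (η : Multiplicative S →* kˣ) :
    Multiplicative (R × S) →* kˣ where
  toFun z := ξ (Multiplicative.ofAdd (Multiplicative.toAdd z).1) *
    η (Multiplicative.ofAdd (Multiplicative.toAdd z).2)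
  map_one' := by
    rw [toAdd_one, Prod.fst_zero, Prod.snd_zero, ofAdd_zero, ofAdd_zero, map_one, map_one, mul_one]
  map_mul' z w := by
    rw [toAdd_mul, Prod.fst_add, Prod.snd_add, ofAdd_add, ofAdd_add, map_mul, map_mul]
    exact mul_mul_mul_comm _ _ _ _

theorem ev_wprodChar (ξ : Multiplicative R →* kˣ) (η : Multiplicative S →* kˣ) (x : R) (s : S) :
    ev (wprodChar ξ η) (x, s) = ev ξ x * ev η s := by
  unfold ev
  rw [← Units.val_mul]
  rfl

theorem gen_wprodChar {ξ : Multiplicative R →* kˣ} {η : Multiplicative S →* kˣ} (hξ : Gen ξ)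
    (hη : Gen η) : Gen (wprodChar ξ η) := by
  intro 𝔠 h𝔠
  obtain ⟨⟨a, b⟩, hab, h0⟩ := (Submodule.ne_bot_iff _).1 h𝔠
  have hval : ∀ x : R × S, wprodChar ξ η (Multiplicative.ofAdd x) =
      ξ (Multiplicative.ofAdd x.1) * η (Multiplicative.ofAdd x.2) := fun x => rfl
  by_cases ha : a = 0
  · have hb : b ≠ 0 := fun hb => h0 (Prod.ext ha hb)
    obtain ⟨y, hy, hy1⟩ := hη (Ideal.span {b}) (by rwa [Ne, Ideal.span_singleton_eq_bot])
    obtain ⟨z, hz⟩ := Ideal.mem_span_singleton'.1 hy
    refine ⟨(0, y), ?_, ?_⟩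
    · have h2 := 𝔠.mul_mem_left ((0 : R), z) hab
      rwa [Prod.mk_mul_mk, zero_mul, hz] at h2
    · rw [hval, ofAdd_zero, map_one, one_mul]
      exact hy1
  · obtain ⟨y, hy, hy1⟩ := hξ (Ideal.span {a}) (by rwa [Ne, Ideal.span_singleton_eq_bot])
    obtain ⟨z, hz⟩ := Ideal.mem_span_singleton'.1 hy
    refine ⟨(y, 0), ?_, ?_⟩
    · have h2 := 𝔠.mul_mem_left (z, (0 : S)) hab
      rwa [Prod.mk_mul_mk, zero_mul, hz] at h2
    · rw [hval, ofAdd_zero, map_one, mul_one]
      exact hy1

theorem propW_prod (R S : Type) [CommRing R] [CommRing S] [Finite R] [Finite S]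
    (hR : PropW R k) (hS : PropW S k) : PropW (R × S) k := by
  classical
  intro v hprim hsum
  have := Fintype.ofFinite R
  have := Fintype.ofFinite S
  have hdet1 : ∀ (A : GL (Fin 2) R) (B : GL (Fin 2) S),
      Matrix.GeneralLinearGroup.det (prGL (A, B)) = 1 →
      Matrix.GeneralLinearGroup.det A = 1 ∧ Matrix.GeneralLinearGroup.det B = 1 := by
    intro A B h
    have h1 := congrArg Units.val h
    rw [Matrix.GeneralLinearGroup.val_det_apply, Matrix.det_fin_two, prGL_val, Units.val_one] at h1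
    constructor
    · apply Units.ext
      rw [Matrix.GeneralLinearGroup.val_det_apply, Matrix.det_fin_two, Units.val_one]
      exact congrArg Prod.fst h1
    · apply Units.ext
      rw [Matrix.GeneralLinearGroup.val_det_apply, Matrix.det_fin_two, Units.val_one]
      exact congrArg Prod.snd h1
  have hprimR : ∀ 𝔞 : Ideal R, 𝔞 ≠ ⊥ → ∃ κ : GL (Fin 2) R,
      Matrix.GeneralLinearGroup.det κ = 1 ∧
      (∀ i j, κ.val i j - (1 : GL (Fin 2) R).val i j ∈ 𝔞) ∧
      ∃ c : k, c ≠ 1 ∧ ∀ A B, v (prGL (A * κ, B)) = c * v (prGL (A, B)) := by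
    intro 𝔞 h𝔞
    obtain ⟨κ, hκ1, hκ2, c, hc, hcv⟩ := hprim (Ideal.prod 𝔞 ⊥) (by
      intro h0
      apply h𝔞
      rw [Submodule.eq_bot_iff] at h0 ⊢
      intro x hx
      have := h0 (x, 0) ⟨hx, rfl⟩
      exact congrArg Prod.fst this)
    obtain ⟨A, B, rfl⟩ := prGL_surj κ
    simp only [wprod_sub, Ideal.mem_prod, Ideal.mem_bot] at hκ2
    have hB : B = 1 := by
      apply Units.ext
      ext i j
      exact sub_eq_zero.1 (hκ2 i j).2
    rw [hB] at hκ1 hκ2 hcv
    refine ⟨A, (hdet1 A 1 hκ1).1, fun i j => (hκ2 i j).1, c, hc, fun A' B' => ?_⟩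
    rw [← hcv, ← map_mul, Prod.mk_mul_mk, mul_one]
  have hprimS : ∀ 𝔞 : Ideal S, 𝔞 ≠ ⊥ → ∃ κ : GL (Fin 2) S,
      Matrix.GeneralLinearGroup.det κ = 1 ∧
      (∀ i j, κ.val i j - (1 : GL (Fin 2) S).val i j ∈ 𝔞) ∧
      ∃ c : k, c ≠ 1 ∧ ∀ A B, v (prGL (A, B * κ)) = c * v (prGL (A, B)) := by
    intro 𝔞 h𝔞
    obtain ⟨κ, hκ1, hκ2, c, hc, hcv⟩ := hprim (Ideal.prod ⊥ 𝔞) (by
      intro h0
      apply h𝔞
      rw [Submodule.eq_bot_iff] at h0 ⊢
      intro x hx
      have := h0 (0, x) ⟨rfl, hx⟩
      exact congrArg Prod.snd this)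
    obtain ⟨A, B, rfl⟩ := prGL_surj κ
    simp only [wprod_sub, Ideal.mem_prod, Ideal.mem_bot] at hκ2
    have hA : A = 1 := by
      apply Units.ext
      ext i j
      exact sub_eq_zero.1 (hκ2 i j).1
    rw [hA] at hκ1 hκ2 hcv
    refine ⟨B, (hdet1 1 B hκ1).2, fun i j => (hκ2 i j).2, c, hc, fun A' B' => ?_⟩
    rw [← hcv, ← map_mul, Prod.mk_mul_mk, mul_one]
  have hsum' : ∀ (g a : GL (Fin 2) R) (g' a' : GL (Fin 2) S),
      Matrix.GeneralLinearGroup.det g = 1 → Matrix.GeneralLinearGroup.det g' = 1 →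
      ∀ (ξ : Multiplicative R →* kˣ) (η : Multiplicative S →* kˣ), Gen ξ → Gen η →
      ∑ x : R, ∑ s : S, ev ξ x * (ev η s * v (prGL (g * up x * a, g' * up s * a'))) = 0 := by
    intro g a g' a' hg hg' ξ η hξ hη
    have h1 := hsum (prGL (g, g')) (prGL (a, a')) (det_prGL hg hg') (wprodChar ξ η)
      (gen_wprodChar hξ hη)
    rw [finsum_eq_sum_of_fintype] at h1
    rw [← Fintype.sum_prod_type', ← h1]
    refine Finset.sum_congr rfl (fun p _ => ?_)
    obtain ⟨x, s⟩ := p
    rw [ev_wprodChar, wprod_up, ← map_mul, ← map_mul, Prod.mk_mul_mk, Prod.mk_mul_mk]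
    exact (mul_assoc _ _ _).symm
  have step1 : ∀ (A : GL (Fin 2) R) (g' a' : GL (Fin 2) S),
      Matrix.GeneralLinearGroup.det g' = 1 → ∀ η : Multiplicative S →* kˣ, Gen η →
      ∑ s : S, ev η s * v (prGL (A, g' * up s * a')) = 0 := by
    intro A g' a' hg' η hη
    have h1 := hR (fun A => ∑ s : S, ev η s * v (prGL (A, g' * up s * a')))
      (fun 𝔞 h𝔞 => by
        obtain ⟨κ, hκ1, hκ2, c, hc, hcv⟩ := hprimR 𝔞 h𝔞
        refine ⟨κ, hκ1, hκ2, c, hc, fun y => ?_⟩
        rw [Finset.mul_sum]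
        refine Finset.sum_congr rfl (fun s _ => ?_)
        rw [hcv]
        ring)
      (fun g a hg ξ hξ => by
        rw [finsum_eq_sum_of_fintype, ← hsum' g a g' a' hg hg' ξ η hξ hη]
        refine Finset.sum_congr rfl (fun x _ => ?_)
        rw [Finset.mul_sum])
    exact congrFun h1 A
  funext y
  obtain ⟨A, B, rfl⟩ := prGL_surj y
  have h1 := hS (fun B => v (prGL (A, B)))
    (fun 𝔞 h𝔞 => by
      obtain ⟨κ, hκ1, hκ2, c, hc, hcv⟩ := hprimS 𝔞 h𝔞
      exact ⟨κ, hκ1, hκ2, c, hc, fun y => hcv A y⟩)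
    (fun g a hg ξ hξ => by
      rw [finsum_eq_sum_of_fintype]
      exact step1 A g a hg ξ hξ)
  exact congrFun h1 B

theorem propW_equiv (R S : Type) [CommRing R] [CommRing S] (e : R ≃+* S) (h : PropW R k) :
    PropW S k := by
  intro v hprim hsum
  let G : GL (Fin 2) R →* GL (Fin 2) S := Matrix.GeneralLinearGroup.map (e : R →+* S)
  have hGsurj : Function.Surjective G := by
    intro y
    refine ⟨Matrix.GeneralLinearGroup.map (e.symm : S →+* R) y, ?_⟩
    apply Units.ext
    ext i j
    exact e.apply_symm_apply _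
  have hdet : ∀ g, Matrix.GeneralLinearGroup.det g = 1 →
      Matrix.GeneralLinearGroup.det (G g) = 1 := by
    intro g hg
    apply Units.ext
    have h1 := congrArg Units.val hg
    rw [Matrix.GeneralLinearGroup.val_det_apply, Matrix.det_fin_two, Units.val_one] at h1
    rw [Matrix.GeneralLinearGroup.val_det_apply, Matrix.det_fin_two, Units.val_one]
    change e _ * e _ - e _ * e _ = 1
    rw [← map_mul, ← map_mul, ← map_sub, h1, map_one]
  have hdet' : ∀ g, Matrix.GeneralLinearGroup.det (G g) = 1 →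
      Matrix.GeneralLinearGroup.det g = 1 := by
    intro g hg
    apply Units.ext
    have h1 := congrArg Units.val hg
    rw [Matrix.GeneralLinearGroup.val_det_apply, Matrix.det_fin_two, Units.val_one] at h1
    rw [Matrix.GeneralLinearGroup.val_det_apply, Matrix.det_fin_two, Units.val_one]
    apply e.injective
    rw [map_sub, map_mul, map_mul, map_one]
    exact h1
  have hup : ∀ x : R, G (up x) = up (e x) := by
    intro x
    apply Units.ext
    ext i j
    fin_cases i <;> fin_cases j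
    · exact map_one e
    · rfl
    · exact map_zero e
    · exact map_one e
  have hmem : ∀ (𝔞 : Ideal R) (x : R), e x ∈ 𝔞.comap (e.symm : S →+* R) → x ∈ 𝔞 := by
    intro 𝔞 x h
    rw [Ideal.mem_comap] at h
    have h1 : e.symm (e x) ∈ 𝔞 := h
    rwa [e.symm_apply_apply] at h1
  have key := h (fun y => v (G y))
    (fun 𝔞 h𝔞 => by
      obtain ⟨κ, hκ1, hκ2, c, hc, hcv⟩ := hprim (𝔞.comap (e.symm : S →+* R)) (by
        intro h0
        apply h𝔞
        rw [Submodule.eq_bot_iff] at h0 ⊢
        intro x hx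
        have h1 : e x = 0 := h0 (e x) (by
          rw [Ideal.mem_comap]
          change e.symm (e x) ∈ 𝔞
          rwa [e.symm_apply_apply])
        exact (map_eq_zero_iff e e.injective).1 h1)
      obtain ⟨κ, rfl⟩ := hGsurj κ
      refine ⟨κ, hdet' κ hκ1, fun i j => ?_, c, hc, fun y => ?_⟩
      · apply hmem
        rw [map_sub]
        have h1 := hκ2 i j
        have h2 : (1 : GL (Fin 2) S).val i j = e ((1 : GL (Fin 2) R).val i j) := by
          fin_cases i <;> fin_cases j
          · exact (map_one e).symm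
          · exact (map_zero e).symm
          · exact (map_zero e).symm
          · exact (map_one e).symm
        rw [h2] at h1
        exact h1
      · rw [map_mul, hcv])
    (fun g a hg ξ hξ => by
      let ξ' : Multiplicative S →* kˣ := ξ.comp (AddMonoidHom.toMultiplicative (e.symm : S →+ R))
      have hev : ∀ x : R, ev ξ' (e x) = ev ξ x := by
        intro x
        unfold ev
        congr 1
        change ξ (Multiplicative.ofAdd (e.symm (e x))) = _
        rw [e.symm_apply_apply]
      have hξ' : Gen ξ' := by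
        intro 𝔟 h𝔟
        obtain ⟨x, hx, hx1⟩ := hξ (𝔟.comap (e : R →+* S)) (by
          intro h0
          apply h𝔟
          rw [Submodule.eq_bot_iff] at h0 ⊢
          intro y hy
          have h1 : e.symm y = 0 := h0 (e.symm y) (by
            rw [Ideal.mem_comap]
            change e (e.symm y) ∈ 𝔟
            rwa [e.apply_symm_apply])
          exact (map_eq_zero_iff e.symm e.symm.injective).1 h1)
        refine ⟨e x, hx, fun h => hx1 ?_⟩
        have h2 : ξ (Multiplicative.ofAdd (e.symm (e x))) = 1 := h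
        rwa [e.symm_apply_apply] at h2
      rw [← hsum (G g) (G a) (hdet g hg) ξ' hξ']
      rw [← finsum_comp_equiv e.toEquiv]
      refine finsum_congr (fun x => ?_)
      change ev ξ x * v (G (g * up x * a)) = ev ξ' (e x) * v (G g * up (e x) * G a)
      rw [map_mul, map_mul, hup, hev])
  funext y
  obtain ⟨y, rfl⟩ := hGsurj y
  exact congrFun key y

end

end SerreW
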