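import Pool.Agent.SerreW.FFIN
import Pool.Agent.SerreW.COMPW
import Pool.Agent.SerreW.EIGW
import Pool.Agent.SerreW.JOIN
import Pool.Agent.SerreW.INJW
import Pool.Agent.SerreW.WQUOT
import Pool.Agent.SerreW.DICHN

/-!
# COREW (4): a twisted cocycle with a non-zero value at an element of the torus gives an eigenform (adapt `SerreT.core`, file SerreT/PORT3.lean)

`V = {C | D.IsC C}` (submodule, as `Hsp`), `S π` = `heckeC (hdata f hf π).F f (hdata ..).ϖ` (`hecke_isC`; `heckeC_add`, `heckeC_smul`), `hLin a C = ` the class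
`γ ↦ D.F C a γ` in `HY (f^2)` (`F_mul`, `F_fin`; linear in `C`: finite sums), `H₀ = {h | h = 0 on Deep (f^4)}` (`stab`), `hST` = `compw`,
`ℓ C = C u 1`, `lam = ap χ` (`eig_split`, `eig_inert` of SerreT/EIG need only `IsCoc`: `hC.isCoc`; copy `heckeH_eig`), `hinj`: `hLin a C ∈ H₀` for all `a` means
`F C a γ = 0` for `γ ≡ 1` modulo `f⁴`: `deep_zero` (with `propW_quot_of` for `D.m`: `m ∣ f` is non-zero and prime to 3) and `injW`. Then `exists_eigen_mod`.
-/

open Matrix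
open scoped QuadraticAlgebra

namespace SerreW
namespace TW

open SerreT
open SerreE (mk2 sc dg dgl up low red Gam0 GamUp mem_Gam0 mem_GamUp PM Frame heckeC)

section core

variable {O : Type} [CommRing O] {f : O} {χ : (Ti (O ⧸ Ideal.span {f}))ˣ →* FFˣ}
  (D : TW f FF χ)

/-- the space of cocycles which are equivariant under `N` -/
def coreVW : Submodule FF (GL (Fin 2) O → GL (Fin 2) (O ⧸ Ideal.span {f}) → FF) where
  carrier := {C | D.IsC C}
  add_mem' := by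
    intro a b ha hb
    refine ⟨fun γ γ' y => ?_, fun u y => ?_, fun γ y t => ?_⟩
    · simp only [Pi.add_apply]; rw [ha.coc, hb.coc]; ring
    · simp only [Pi.add_apply]; rw [ha.scal, hb.scal, add_zero]
    · simp only [Pi.add_apply]; rw [ha.equi, hb.equi]; ring
  zero_mem' := ⟨fun _ _ _ => by simp, fun _ _ => rfl, fun _ _ _ => by simp⟩
  smul_mem' := by
    intro c a ha
    refine ⟨fun γ γ' y => ?_, fun u y => ?_, fun γ y t => ?_⟩
    · simp only [Pi.smul_apply, smul_eq_mul]; rw [ha.coc]; ring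
    · simp only [Pi.smul_apply, smul_eq_mul]; rw [ha.scal, mul_zero]
    · simp only [Pi.smul_apply, smul_eq_mul]; rw [ha.equi]; ring

/-- evaluation at `u` -/
def coreEv (u : GL (Fin 2) O) : coreVW D →ₗ[FF] FF where
  toFun C := C.val u 1
  map_add' _ _ := rfl
  map_smul' _ _ := rfl

variable [IsDomain O] [IsPrincipalIdealRing O] [Ring.HasFiniteQuotients O]

/-- the Hecke operator on `coreVW` -/
noncomputable def coreHecke (hf : f ≠ 0) (π : GP (f ^ 2)) : Module.End FF (coreVW D) where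
  toFun C := letI := (hdata f hf π).fin
    ⟨heckeC (hdata f hf π).F f (hdata f hf π).ϖ C.val,
      hecke_isC π.ne (hdata f hf π).F _ (hdata f hf π).hϖ C.2⟩
  map_add' a b := by
    apply Subtype.ext
    exact @SerreE.heckeC_add _ _ _ _ (hdata f hf π).fin _ _ _ _ _ _ _
  map_smul' c a := by
    apply Subtype.ext
    exact @SerreE.heckeC_smul _ _ _ _ (hdata f hf π).fin _ _ _ _ _ _ _

theorem coreHecke_val (hf : f ≠ 0) (π : GP (f ^ 2)) (C : coreVW D) :
    (coreHecke D hf π C).val =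
      @heckeC _ _ _ _ _ _ (hdata f hf π).fin (hdata f hf π).F f (hdata f hf π).ϖ C.val := rfl

omit [IsDomain O] [IsPrincipalIdealRing O] in
theorem core_fin_e (hf : f ≠ 0) : Finite (O ⧸ Ideal.span {D.e}) := fin_quot (D.f_ne_s hf).2.2.1

theorem coreF_isCls (hroot : ∀ z : O, z ^ 2 + z + 1 ≠ 0) (hf : f ≠ 0) (hfu : ¬ IsUnit f)
    (hf3 : IsCoprime f 3) (hscal : ∀ u, χ (tiC u) = 1)
    {C : GL (Fin 2) O → GL (Fin 2) (O ⧸ Ideal.span {f}) → FF} (hC : D.IsC C)
    (a : GL (Fin 2) (O ⧸ Ideal.span {f})) :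
    IsCls (f ^ 2) (fun g : G (f ^ 2) => D.F C a g) := by
  have : Finite (O ⧸ Ideal.span {f}) := fin_quot hf
  have := core_fin_e D hf
  exact ⟨fun x y => F_mul hf hC hscal a x y, fun g hg => F_fin hroot hf hfu hf3 hC hscal a g hg⟩

theorem coreF_add (hf : f ≠ 0)
    (C C' : GL (Fin 2) O → GL (Fin 2) (O ⧸ Ideal.span {f}) → FF)
    (a : GL (Fin 2) (O ⧸ Ideal.span {f})) (γ : Gam0 (f ^ 2)) :
    D.F (C + C') a γ = D.F C a γ + D.F C' a γ := by
  have : Finite (O ⧸ Ideal.span {f}) := fin_quot hf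
  have := core_fin_e D hf
  let _ := Fintype.ofFinite (O ⧸ Ideal.span {f})ˣ
  let _ := Fintype.ofFinite (O ⧸ Ideal.span {D.e})ˣ
  unfold F hh
  simp only [finsum_eq_sum_of_fintype, Pi.add_apply, mul_add, Finset.sum_add_distrib]

theorem coreF_smul (hf : f ≠ 0) (c : FF)
    (C : GL (Fin 2) O → GL (Fin 2) (O ⧸ Ideal.span {f}) → FF)
    (a : GL (Fin 2) (O ⧸ Ideal.span {f})) (γ : Gam0 (f ^ 2)) :
    D.F (c • C) a γ = c * D.F C a γ := by
  have : Finite (O ⧸ Ideal.span {f}) := fin_quot hf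
  have := core_fin_e D hf
  let _ := Fintype.ofFinite (O ⧸ Ideal.span {f})ˣ
  let _ := Fintype.ofFinite (O ⧸ Ideal.span {D.e})ˣ
  unfold F hh
  simp only [finsum_eq_sum_of_fintype, Pi.smul_apply, smul_eq_mul, Finset.mul_sum]
  refine Finset.sum_congr rfl fun x _ => Finset.sum_congr rfl fun y _ => ?_
  ring

/-- `F` as a linear map -/
noncomputable def coreLin (hroot : ∀ z : O, z ^ 2 + z + 1 ≠ 0) (hf : f ≠ 0) (hfu : ¬ IsUnit f)
    (hf3 : IsCoprime f 3) (hscal : ∀ u, χ (tiC u) = 1)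
    (a : GL (Fin 2) (O ⧸ Ideal.span {f})) : coreVW D →ₗ[FF] HY (f ^ 2) where
  toFun C := ⟨fun g : G (f ^ 2) => D.F C.val a g, coreF_isCls D hroot hf hfu hf3 hscal C.2 a⟩
  map_add' C C' := by
    apply Subtype.ext
    funext g
    exact coreF_add D hf C.val C'.val a g
  map_smul' c C := by
    apply Subtype.ext
    funext g
    exact coreF_smul D hf c C.val a g

theorem coreLin_val (hroot : ∀ z : O, z ^ 2 + z + 1 ≠ 0) (hf : f ≠ 0) (hfu : ¬ IsUnit f)
    (hf3 : IsCoprime f 3) (hscal : ∀ u, χ (tiC u) = 1)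
    (a : GL (Fin 2) (O ⧸ Ideal.span {f})) (C : coreVW D) (γ : Gam0 (f ^ 2)) :
    (coreLin D hroot hf hfu hf3 hscal a C).val (toG γ) = D.F C.val a γ := rfl

omit [IsDomain O] [IsPrincipalIdealRing O] [Ring.HasFiniteQuotients O] in
variable (f) in
/-- the classes which vanish on matrices congruent to one -/
def coreH0 : Submodule FF (HY (f ^ 2)) where
  carrier := {h | ∀ γ : Gam0 (f ^ 2), Deep (f ^ 4) γ.val → h.val (toG γ) = 0}
  add_mem' := by
    intro a b ha hb γ hγ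
    change a.val (toG γ) + b.val (toG γ) = 0
    rw [ha γ hγ, hb γ hγ, add_zero]
  zero_mem' := fun _ _ => rfl
  smul_mem' := by
    intro c a ha γ hγ
    change c * a.val (toG γ) = 0
    rw [ha γ hγ, mul_zero]

theorem coreLin_hecke (hroot : ∀ z : O, z ^ 2 + z + 1 ≠ 0) (hf : f ≠ 0) (hfu : ¬ IsUnit f)
    (hf3 : IsCoprime f 3) (hscal : ∀ u, χ (tiC u) = 1)
    (a : GL (Fin 2) (O ⧸ Ideal.span {f})) (π : GP (f ^ 2)) (C : coreVW D) :
    coreLin D hroot hf hfu hf3 hscal a (coreHecke D hf π C) -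
      T (f ^ 2) π.el π.ne (coreLin D hroot hf hfu hf3 hscal a C) ∈ coreH0 f := by
  let _ := (hdata f hf π).fin
  intro γ hγ
  change (coreLin D hroot hf hfu hf3 hscal a (coreHecke D hf π C)).val (toG γ) -
    (T (f ^ 2) π.el π.ne (coreLin D hroot hf hfu hf3 hscal a C)).val (toG γ) = 0
  rw [sub_eq_zero]
  exact (compw hf hscal C.2 a π.prime (not_dvd_f π.not_dvd) (hdata f hf π).F (hdata f hf π).ϖ
    (hdata f hf π).hϖ (coreLin D hroot hf hfu hf3 hscal a C)
    (coreLin_val D hroot hf hfu hf3 hscal a C) γ hγ).symm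

theorem coreHecke_eig (htsq : ∀ π : O, Prime π → ¬ π ∣ 3 → ∀ l, π ∣ l ^ 2 + l + 1 →
      ∃ w : Ti O, Associated w.norm π) (hf : f ≠ 0) (hscal : ∀ u, χ (tiC u) = 1)
    (hJ : ∀ t, iota t = red f th → χ t = 1)
    (u : GL (Fin 2) O) (hu : u * th = th * u) (tu : (Ti (O ⧸ Ideal.span {f}))ˣ)
    (htu : iota tu = red f u) (hχu : χ tu = 1) (π : GP (f ^ 2)) (C : coreVW D) :
    (coreHecke D hf π C).val u 1 = ap χ π * C.val u 1 := by
  have h3 : ¬ π.el ∣ 3 := fun hd => π.not_dvd (Dvd.dvd.mul_right hd _)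
  let _ := (hdata f hf π).fin
  rw [coreHecke_val]
  by_cases h : ∃ (w : Ti O) (t : (Ti (O ⧸ Ideal.span {f}))ˣ), Associated w.norm π.el ∧
    t.val = redTi f w
  · have e : ap χ π = (χ h.choose_spec.choose : FF) + ((χ h.choose_spec.choose)⁻¹ : FFˣ) := by
      unfold ap; rw [dif_pos h]
    rw [e]
    exact eig_split (hdata f hf π).F π.prime h3 f _ (hdata f hf π).hϖ χ hscal hJ C.val
      (IsC.isCoc C.2) u hu tu htu hχu h.choose h.choose_spec.choose_spec.1 _
      h.choose_spec.choose_spec.2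
  · have e : ap χ π = 0 := by unfold ap; rw [dif_neg h]
    rw [e, zero_mul]
    refine eig_inert (hdata f hf π).F π.prime f _ (hdata f hf π).hϖ χ hJ C.val
      (IsC.isCoc C.2) u hu tu htu hχu ?_
    intro l hl
    obtain ⟨w, hw⟩ := htsq π.el π.prime h3 l hl
    exact h ⟨w, (isUnit_redTi (coprime_norm π.prime (not_dvd_f π.not_dvd) hw)).unit, hw, rfl⟩

end core

theorem coreW {O : Type} [CommRing O] [IsDomain O] [IsPrincipalIdealRing O]
    [Ring.HasFiniteQuotients O] {f : O} {χ : (Ti (O ⧸ Ideal.span {f}))ˣ →* FFˣ}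
    (D : TW f FF χ) (hroot : ∀ z : O, z ^ 2 + z + 1 ≠ 0)
    (htsq : ∀ π : O, Prime π → ¬ π ∣ 3 → ∀ l, π ∣ l ^ 2 + l + 1 →
      ∃ w : Ti O, Associated w.norm π) (hf : f ≠ 0) (hfu : ¬ IsUnit f)
    (hf3 : IsCoprime f 3) (hscal : ∀ u, χ (tiC u) = 1)
    (hJ : ∀ t, iota t = red f th → χ t = 1) (hne : χ ^ 2 ≠ 1)
    (u : GL (Fin 2) O) (hu : u * th = th * u) (tu : (Ti (O ⧸ Ideal.span {f}))ˣ)
    (htu : iota tu = red f u) (hχu : χ tu = 1)
    (C : GL (Fin 2) O → GL (Fin 2) (O ⧸ Ideal.span {f}) → FF) (hC : D.IsC C)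
    (hCu : C u 1 ≠ 0) :
    ∃ Φ : Eigenform (f ^ 2), ∀ π : GP (f ^ 2),
      (∀ (w : Ti O) (t : (Ti (O ⧸ Ideal.span {f}))ˣ), Associated w.norm π.el →
        t.val = redTi f w → Φ.ev π = (χ t : FF) + ((χ t)⁻¹ : FFˣ)) ∧
      ((∀ l : O, ¬ π.el ∣ l ^ 2 + l + 1) → Φ.ev π = 0) := by
  have hfin : Finite (O ⧸ Ideal.span {f}) := fin_quot hf
  have hm3 : IsCoprime D.m 3 := IsCoprime.of_isCoprime_of_dvd_left hf3 D.m_dvd
  have hW : PropW (O ⧸ Ideal.span {D.m}) FF :=
    propW_quot_of (fun g hg => fin_quot hg) D.m (D.f_ne_s hf).2.1 hm3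
  obtain ⟨Φ, hΦ⟩ := exists_eigen_mod (k := FF) (H := HY (f ^ 2)) (V := coreVW D)
    (fun π : GP (f ^ 2) => T (f ^ 2) π.el π.ne)
    (fun π => coreHecke D hf π) (coreH0 f)
    (fun π x hx γ hγ => stab π.prime (not_dvd_f π.not_dvd) hf x hx γ hγ)
    (fun a => coreLin D hroot hf hfu hf3 hscal a)
    (fun a π C => coreLin_hecke D hroot hf hfu hf3 hscal a π C) (coreEv D u) (ap χ)
    (fun π C => coreHecke_eig D htsq hf hscal hJ u hu tu htu hχu π C)
    (fun C hC0 => injW hf (IsC.isCoc C.2) hscal hne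
      (fun g hg y => deep_zero (fun g hg => fin_quot hg) hf hf3 hW C.2
        (fun a γ hγ => hC0 a γ hγ) hg y) u hu tu htu hχu) ⟨C, hC⟩ hCu
  refine ⟨Φ, fun π => ?_⟩
  have hev : Eigenform.ev Φ π = ap χ π := hΦ π
  let _ := (hdata f hf π).fin
  have h3 : ¬ π.el ∣ 3 := fun hd => π.not_dvd (Dvd.dvd.mul_right hd _)
  constructor
  · intro w t hw ht
    rw [hev]
    have h1 := coreHecke_eig D htsq hf hscal hJ u hu tu htu hχu π ⟨C, hC⟩
    rw [coreHecke_val, eig_split (hdata f hf π).F π.prime h3 f _ (hdata f hf π).hϖ χ hscal hJ C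
      hC.isCoc u hu tu htu hχu w hw t ht] at h1
    exact (mul_right_cancel₀ hCu h1).symm
  · intro hl
    rw [hev]
    have h1 := coreHecke_eig D htsq hf hscal hJ u hu tu htu hχu π ⟨C, hC⟩
    rw [coreHecke_val, eig_inert (hdata f hf π).F π.prime f _ (hdata f hf π).hϖ χ hJ C
      hC.isCoc u hu tu htu hχu hl] at h1
    exact (mul_eq_zero.mp h1.symm).resolve_right hCu

end TW
end SerreW
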