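import Pool.Agent.SerreW.DEEP
import Pool.Agent.SerreT.PORT3

/-!
# REPS (3): frames whose representatives are congruent to `1` modulo `N`

`reps`: `π` prime, `π ∤ N`. `X = Option (O/π)`. For `z ∈ O/π` with lift `z'`: `t z = up (N z')`. For `∞`: choose `d` with `d ≡ 1` modulo `N`, `π ∣ d`
(`N` is invertible modulo `π`); `d` and `N²` are coprime, `a d - N² b' = 1`; `t ∞ = [[a, N b'], [N, d]]`, determinant `1`; `a ≡ 1` modulo `N`
because `a d ≡ 1`, `d ≡ 1`. For `g ∈ GL₂(O)`: `((t x)⁻¹ g)₀₁` is, up to a unit, `t₁₁ g₀₁ - t₀₁ g₁₁`. `sep`: for `z, z'` it is `N (z' - z)`; for `z`, `∞`: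
`1 * N b' - N z * d ≡ N b'`, prime to `π` (as `-N² b' ≡ 1` modulo `π`). `cover`: if `π ∣ g₁₁` use `∞`: `d g₀₁ - N b' g₁₁`; otherwise solve
`g₀₁ - N z g₁₁ ≡ 0` modulo `π`.
`gam_deep`: `F.gam γ x` satisfies `(s_y⁻¹ γ s_x) PM π = PM π γ_x`, `y = F.act γ x` (`Frame.step_act`, `Frame.Step`): `h = s_y⁻¹ γ s_x` is congruent to `1` modulo `N`,
`γ_x = [[h₀₀, h₀₁/π], [π h₁₀, h₁₁]]` and `N ∣ h₀₁ = π (γ_x)₀₁` implies `N ∣ (γ_x)₀₁` (`π`, `N` coprime).
`hecke_deep`: `SerreT.hecke_formula` (PORT1) with `t x = ⟨F.s x, _⟩`, `σ = F.act γ`, `g' x = ⟨F.gam γ x, _⟩`.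
`stab`: every term of `hecke_deep` vanishes.
-/

open Matrix
open scoped QuadraticAlgebra

namespace SerreW

open SerreT
open SerreE (mk2 sc dg dgl up low red Gam0 GamUp mem_Gam0 mem_GamUp PM Frame heckeC)

section
variable {O : Type} [CommRing O] [IsDomain O] [IsPrincipalIdealRing O]

omit [IsDomain O] [IsPrincipalIdealRing O] in
theorem reps_inv01 (a b c d : O) (h : a * d - b * c = ((1 : Oˣ) : O)) (g : GL (Fin 2) O) :
    ((mk2 a b c d 1 h)⁻¹ * g).val 0 1 = d * g.val 0 1 - b * g.val 1 1 := by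
  have e : ((mk2 a b c d 1 h)⁻¹).val = !![((1 : Oˣ)⁻¹ : Oˣ).val * d, -(((1 : Oˣ)⁻¹ : Oˣ).val * b);
      -(((1 : Oˣ)⁻¹ : Oˣ).val * c), ((1 : Oˣ)⁻¹ : Oˣ).val * a] := rfl
  rw [Units.val_mul, e, Matrix.mul_apply, Fin.sum_univ_two]
  simp
  ring

omit [IsDomain O] [IsPrincipalIdealRing O] in
theorem reps_up01 (x : O) (g : GL (Fin 2) O) :
    ((up x)⁻¹ * g).val 0 1 = g.val 0 1 - x * g.val 1 1 := by
  unfold up
  rw [reps_inv01, one_mul]

theorem reps_coprime {N π : O} (hπ : Prime π) (hN : ¬ π ∣ N) : IsCoprime π N :=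
  (Irreducible.coprime_iff_not_dvd hπ.irreducible).mpr hN

theorem reps (N π : O) (hπ : Prime π) (hN : ¬ π ∣ N) [Finite (O ⧸ Ideal.span {π})] :
    ∃ (X : Type) (_ : Fintype X) (F : Frame π X), ∀ x, Deep N (F.s x) := by
  classical
  obtain ⟨u, v, huv⟩ := reps_coprime hπ hN
  let li : O ⧸ Ideal.span {π} → O := Function.surjInv Ideal.Quotient.mk_surjective
  have hli : ∀ z, Ideal.Quotient.mk (Ideal.span {π}) (li z) = z :=
    Function.surjInv_eq Ideal.Quotient.mk_surjective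
  have hdet : (u * π + 2 * v * N) * (u * π) - (N * -v ^ 2) * N = ((1 : Oˣ) : O) := by
    rw [Units.val_one]
    linear_combination (u * π + v * N + 1) * huv
  have hnot : ¬ π ∣ N * -v ^ 2 := by
    intro h
    apply hπ.not_unit
    rw [isUnit_iff_dvd_one]
    have h1 : π ∣ (u * π + 2 * v * N) * (u * π) - (N * -v ^ 2) * N :=
      dvd_sub (Dvd.intro_left ((u * π + 2 * v * N) * u) (by ring)) (h.mul_right N)
    rwa [hdet, Units.val_one] at h1
  let S : Option (O ⧸ Ideal.span {π}) → GL (Fin 2) O := fun x =>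
    match x with
    | some z => up (N * li z)
    | none => mk2 (u * π + 2 * v * N) (N * -v ^ 2) N (u * π) 1 hdet
  have hmkdvd : ∀ x y : O, Ideal.Quotient.mk (Ideal.span {π}) x =
      Ideal.Quotient.mk (Ideal.span {π}) y ↔ π ∣ x - y := by
    intro x y
    rw [Ideal.Quotient.eq, Ideal.mem_span_singleton]
  refine ⟨Option (O ⧸ Ideal.span {π}), Fintype.ofFinite _, ⟨S, ?_, ?_⟩, ?_⟩
  · intro g
    by_cases hg : π ∣ g.val 1 1
    · refine ⟨none, ?_⟩
      show π ∣ ((mk2 (u * π + 2 * v * N) (N * -v ^ 2) N (u * π) 1 hdet)⁻¹ * g).val 0 1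
      rw [reps_inv01]
      exact dvd_sub ((Dvd.intro_left u rfl).mul_right _) (hg.mul_left _)
    · have hng : ¬ π ∣ N * g.val 1 1 := fun h => (hπ.dvd_or_dvd h).elim hN hg
      obtain ⟨u', v', h'⟩ := reps_coprime hπ hng
      refine ⟨some (Ideal.Quotient.mk _ (v' * g.val 0 1)), ?_⟩
      show π ∣ ((up (N * li (Ideal.Quotient.mk _ (v' * g.val 0 1))))⁻¹ * g).val 0 1
      rw [reps_up01]
      obtain ⟨w, hw⟩ := (hmkdvd _ _).mp (hli (Ideal.Quotient.mk _ (v' * g.val 0 1)))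
      refine ⟨g.val 0 1 * u' - N * w * g.val 1 1, ?_⟩
      linear_combination (-N * g.val 1 1) * hw - g.val 0 1 * h'
  · intro x y hxy
    match x, y, hxy with
    | some z, some z', hxy =>
      change π ∣ ((up (N * li z))⁻¹ * up (N * li z')).val 0 1 at hxy
      rw [reps_up01] at hxy
      have e1 : (up (N * li z') : GL (Fin 2) O).val 0 1 = N * li z' := rfl
      have e2 : (up (N * li z') : GL (Fin 2) O).val 1 1 = 1 := rfl
      rw [e1, e2, mul_one, ← mul_sub] at hxy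
      have h1 := (hπ.dvd_or_dvd hxy).resolve_left hN
      rw [← hmkdvd, hli, hli] at h1
      rw [h1]
    | some z, none, hxy =>
      exfalso
      change π ∣ ((up (N * li z))⁻¹ *
        mk2 (u * π + 2 * v * N) (N * -v ^ 2) N (u * π) 1 hdet).val 0 1 at hxy
      rw [reps_up01] at hxy
      simp only [SerreE.mk2_01, SerreE.mk2_11] at hxy
      apply hnot
      have h1 : π ∣ (N * li z) * (u * π) := Dvd.intro_left (N * li z * u) (by ring)
      exact (dvd_sub_left h1).mp hxy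
    | none, some z, hxy =>
      exfalso
      change π ∣ ((mk2 (u * π + 2 * v * N) (N * -v ^ 2) N (u * π) 1 hdet)⁻¹ *
        up (N * li z)).val 0 1 at hxy
      rw [reps_inv01] at hxy
      have e1 : (up (N * li z) : GL (Fin 2) O).val 0 1 = N * li z := rfl
      have e2 : (up (N * li z) : GL (Fin 2) O).val 1 1 = 1 := rfl
      rw [e1, e2, mul_one] at hxy
      apply hnot
      have h1 : π ∣ (u * π) * (N * li z) := Dvd.intro_left (u * (N * li z)) (by ring)
      exact (dvd_sub_right h1).mp hxy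
    | none, none, _ => rfl
  · intro x
    match x with
    | some z =>
      show Deep N (up (N * li z))
      refine deep_of_entries ?_ ?_ ?_ ?_
      · show N ∣ (1 : O) - 1
        simp
      · exact Dvd.intro _ rfl
      · exact dvd_zero _
      · show N ∣ (1 : O) - 1
        simp
    | none =>
      show Deep N (mk2 (u * π + 2 * v * N) (N * -v ^ 2) N (u * π) 1 hdet)
      refine deep_of_entries ?_ ?_ ?_ ?_
      · rw [SerreE.mk2_00]
        exact ⟨v, by linear_combination huv⟩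
      · rw [SerreE.mk2_01]
        exact Dvd.intro _ rfl
      · rw [SerreE.mk2_10]
      · rw [SerreE.mk2_11]
        exact ⟨-v, by linear_combination huv⟩

theorem gam_deep {N π : O} (hπ : Prime π) (hN : ¬ π ∣ N) {X : Type} (F : Frame π X)
    (hF : ∀ x, Deep N (F.s x)) (γ : GL (Fin 2) O) (hγ : Deep N γ) (x : X) :
    Deep N (F.gam γ x) := by
  have hst := F.step_act hπ.ne_zero γ x
  unfold Frame.Step at hst
  set g := F.gam γ x with hg
  set y := F.act γ x with hy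
  have hh : Deep N ((F.s y)⁻¹ * γ * F.s x) := ((hF y).inv.mul hγ).mul (hF x)
  set h := (F.s y)⁻¹ * γ * F.s x with hdef
  have h1 : h.val * PM π = PM π * g.val := by
    have e : h.val = ((F.s y)⁻¹).val * (γ.val * (F.s x).val) := by
      rw [hdef, Units.val_mul, Units.val_mul, Matrix.mul_assoc]
    rw [e, Matrix.mul_assoc, hst, Matrix.mul_assoc, ← Matrix.mul_assoc ((F.s y)⁻¹).val,
      ← Units.val_mul, inv_mul_cancel, Units.val_one, Matrix.one_mul]
  have h00 := congrFun (congrFun h1 0) 0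
  have h01 := congrFun (congrFun h1 0) 1
  have h10 := congrFun (congrFun h1 1) 0
  have h11 := congrFun (congrFun h1 1) 1
  simp only [PM, Matrix.mul_apply, Fin.sum_univ_two, Matrix.of_apply, Matrix.cons_val',
    Matrix.cons_val_zero, Matrix.cons_val_one, Matrix.cons_val_fin_one, mul_zero, zero_mul,
    mul_one, one_mul, add_zero, zero_add] at h00 h01 h10 h11
  obtain ⟨d00, d01, d10, d11⟩ := hh.entries
  have hc : IsCoprime N π := (reps_coprime hπ hN).symm
  refine deep_of_entries ?_ ?_ ?_ ?_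
  · have : g.val 0 0 = h.val 0 0 := by
      apply mul_left_cancel₀ hπ.ne_zero
      rw [← h00, mul_comm]
    rw [this]; exact d00
  · rw [h01] at d01
    exact hc.dvd_of_dvd_mul_left d01
  · rw [← h10]; exact d10.mul_right _
  · rw [← h11]; exact d11

theorem gam_deep_mem {f π : O} (hπ : Prime π) (hN : ¬ π ∣ f) {X : Type} (F : Frame π X)
    (hF : ∀ x, Deep (f ^ 4) (F.s x)) (γ : GL (Fin 2) O) (hγ : Deep (f ^ 4) γ) (x : X) :
    F.gam γ x ∈ Gam0 (f ^ 2) :=
  ((gam_deep hπ (fun h => hN (hπ.dvd_of_dvd_pow h)) F hF γ hγ x).pow_mono (by norm_num)).mem_gam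

variable [Ring.HasFiniteQuotients O]

theorem hecke_deep {f π : O} (hπ : Prime π) (hN : ¬ π ∣ f) {X : Type} [Fintype X]
    (F : Frame π X) (hF : ∀ x, Deep (f ^ 4) (F.s x)) (h : HY (f ^ 2)) (γ : Gam0 (f ^ 2))
    (hγ : Deep (f ^ 4) γ.val) :
    (T (f ^ 2) π hπ.ne_zero h).val (toG γ) =
      ∑ x, h.val (toG (⟨F.gam γ.val x, gam_deep_mem hπ hN F hF γ.val hγ x⟩ : Gam0 (f ^ 2))) := by
  exact hecke_formula (f ^ 2) π hπ.ne_zero
    (fun x => ⟨F.s x, ((hF x).pow_mono (by norm_num)).mem_gam⟩)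
    (fun g => F.cover g.val) (fun x y hxy => F.sep x y hxy) h γ (F.act γ.val)
    (fun x => ⟨F.gam γ.val x, gam_deep_mem hπ hN F hF γ.val hγ x⟩)
    (fun x => F.step_act hπ.ne_zero γ.val x)

theorem stab {f π : O} (hπ : Prime π) (hN : ¬ π ∣ f) (hf : f ≠ 0) (h : HY (f ^ 2))
    (h0 : ∀ γ : Gam0 (f ^ 2), Deep (f ^ 4) γ.val → h.val (toG γ) = 0) (γ : Gam0 (f ^ 2))
    (hγ : Deep (f ^ 4) γ.val) : (T (f ^ 2) π hπ.ne_zero h).val (toG γ) = 0 := by
  have hN4 : ¬ π ∣ f ^ 4 := fun h => hN (hπ.dvd_of_dvd_pow h)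
  have hfin : Finite (O ⧸ Ideal.span {π}) := by
    apply Ring.HasFiniteQuotients.finiteQuotient
    rw [Ne, Ideal.span_singleton_eq_bot]
    exact hπ.ne_zero
  obtain ⟨X, _, F, hF⟩ := reps (f ^ 4) π hπ hN4
  rw [hecke_deep hπ hN F hF h γ hγ]
  exact Finset.sum_eq_zero fun x _ => h0 _ (gam_deep hπ hN4 F hF γ.val hγ x)

end

end SerreW
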