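import Pool.Agent.SerreW.CJ
import Pool.Agent.SerreW.REPS

/-!
# CW1 (3): the conjugated frame

Let `c₁ = π c`, `M = M_{c₁} = [[f, f₁ c₁], [0, s]]`, which is diagonal modulo `π` and invertible modulo `π` (`π ∤ f`).
`frame_conj`: `s' x` = the matrix with `s' x * M = M * F.s x` (`deep_rel_exists`). `sep`: `(s'_x)⁻¹ s'_y = M s_x⁻¹ s_y M⁻¹`, so
`(s'_x)⁻¹ s'_y M = M (s_x⁻¹ s_y)`; entry `01` modulo `π`: `((s'_x)⁻¹ s'_y)₀₁ s ≡ f (s_x⁻¹ s_y)₀₁`. `cover`: let `g ∈ GL₂(O)`. Over the field `O/π` put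
`h̄ = M̄⁻¹ ḡ b̄`, `b̄ = diag(1, f s / det g)`, determinant `1`; lift it to `h ∈ GL₂(O)` (`SerreE.sapp` for `π`); `F.cover h` gives `x` with `π ∣ (s_x⁻¹ h)₀₁`;
since `M̄` and `b̄` are diagonal and invertible, `π ∣ ((s'_x)⁻¹ g)₀₁`.
`step_conj`: `M_{π c} PM π = PM π M_c` (entries). `γ' s'_x PM M_c = γ' s'_x M_{πc} PM = γ' M_{πc} s_x PM = M_{πc} γ s_x PM = M_{πc} s_y PM γ_x =
s'_y M_{πc} PM γ_x = s'_y PM M_c γ_x = s'_y PM g_x M_c`, cancel `M_c` (`det = f s ≠ 0`).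
-/

open Matrix
open scoped QuadraticAlgebra

namespace SerreW
namespace TW

open SerreT
open SerreE (mk2 sc dg dgl up low red Gam0 GamUp mem_Gam0 mem_GamUp PM Frame heckeC)

variable {O : Type} [CommRing O] [IsDomain O] {k : Type} [Field k] {f : O}
  {χ : (Ti (O ⧸ Ideal.span {f}))ˣ →* kˣ} (D : TW f k χ)

omit [IsDomain O] in
theorem cw1_M_mul (c : O) (A : Matrix (Fin 2) (Fin 2) O) :
    D.M c * A = !![f * A 0 0 + D.f1 * c * A 1 0, f * A 0 1 + D.f1 * c * A 1 1;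
      D.s * A 1 0, D.s * A 1 1] := by
  ext i j
  fin_cases i <;> fin_cases j <;> simp [TW.M, Matrix.mul_apply, Fin.sum_univ_two]

omit [IsDomain O] in
theorem cw1_mul_M (c : O) (A : Matrix (Fin 2) (Fin 2) O) :
    A * D.M c = !![A 0 0 * f, A 0 0 * (D.f1 * c) + A 0 1 * D.s;
      A 1 0 * f, A 1 0 * (D.f1 * c) + A 1 1 * D.s] := by
  ext i j
  fin_cases i <;> fin_cases j <;> simp [TW.M, Matrix.mul_apply, Fin.sum_univ_two]

omit [IsDomain O] in
theorem cw1_entries (c : O) {A B : Matrix (Fin 2) (Fin 2) O} (h : A * D.M c = D.M c * B) :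
    A 0 0 * f = f * B 0 0 + D.f1 * c * B 1 0 ∧
    A 0 0 * (D.f1 * c) + A 0 1 * D.s = f * B 0 1 + D.f1 * c * B 1 1 := by
  rw [cw1_M_mul, cw1_mul_M] at h
  have h00 := congrFun (congrFun h 0) 0
  have h01 := congrFun (congrFun h 0) 1
  simp only [Matrix.of_apply, Matrix.cons_val', Matrix.cons_val_zero, Matrix.cons_val_one,
    Matrix.cons_val_fin_one] at h00 h01
  exact ⟨h00, h01⟩

theorem cw1_cancel (hf : f ≠ 0) (c : O) {A B : Matrix (Fin 2) (Fin 2) O}
    (h : A * D.M c = B * D.M c) : A = B := by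
  have hs : D.s ≠ 0 := by
    intro h0
    apply hf
    rw [D.hms, h0, mul_zero]
  rw [cw1_mul_M, cw1_mul_M] at h
  have h00 := congrFun (congrFun h 0) 0
  have h01 := congrFun (congrFun h 0) 1
  have h10 := congrFun (congrFun h 1) 0
  have h11 := congrFun (congrFun h 1) 1
  simp only [Matrix.of_apply, Matrix.cons_val', Matrix.cons_val_zero, Matrix.cons_val_one,
    Matrix.cons_val_fin_one] at h00 h01 h10 h11
  have e00 := mul_right_cancel₀ hf h00
  have e10 := mul_right_cancel₀ hf h10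
  rw [e00, add_right_inj] at h01
  rw [e10, add_right_inj] at h11
  have e01 := mul_right_cancel₀ hs h01
  have e11 := mul_right_cancel₀ hs h11
  ext i j
  fin_cases i <;> fin_cases j
  · exact e00
  · exact e01
  · exact e10
  · exact e11

omit [IsDomain O] in
theorem cw1_PM (π c : O) : D.M (π * c) * PM π = PM π * D.M c := by
  ext i j
  fin_cases i <;> fin_cases j <;>
    simp [TW.M, PM, Matrix.mul_apply, Fin.sum_univ_two, mul_comm, mul_left_comm]

theorem cw1_lift [IsPrincipalIdealRing O] {π : O} (hπ : Prime π) (a b : O) (ha : ¬ π ∣ a)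
    (hb : ¬ π ∣ b) (g : GL (Fin 2) O) : ∃ (h : GL (Fin 2) O) (d : Oˣ),
      π ∣ h.val 0 1 - b * g.val 0 1 * d ∧ π ∣ h.val 1 1 - a * g.val 1 1 * d := by
  have hinv : ∀ x : O, ¬ π ∣ x → ∃ y z, x * y + π * z = 1 := by
    intro x hx
    have h1 : IsCoprime x π := by
      rw [isCoprime_comm]
      exact (hπ.irreducible.coprime_iff_not_dvd).mpr hx
    obtain ⟨y, z, h⟩ := h1
    exact ⟨y, z, by linear_combination h⟩
  obtain ⟨a', a'', ha'⟩ := hinv a ha
  obtain ⟨b', b'', hb'⟩ := hinv b hb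
  set d : Oˣ := Matrix.GeneralLinearGroup.det g with hd
  have hdet : g.val 0 0 * g.val 1 1 - g.val 0 1 * g.val 1 0 = (d : O) := by
    rw [hd, Matrix.GeneralLinearGroup.val_det_apply, Matrix.det_fin_two]
  have hdd : (d : O) * ((d⁻¹ : Oˣ) : O) = 1 := Units.mul_inv _
  let q := Ideal.Quotient.mk (Ideal.span {π})
  have hq : q (g.val 0 0 * a') * q (a * g.val 1 1 * ((d⁻¹ : Oˣ) : O)) -
      q (b * g.val 0 1 * ((d⁻¹ : Oˣ) : O)) * q (g.val 1 0 * b') =
        ((1 : (O ⧸ Ideal.span {π})ˣ) : O ⧸ Ideal.span {π}) := by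
    rw [Units.val_one, ← map_mul, ← map_mul, ← map_sub, ← map_one q, Ideal.Quotient.eq,
      Ideal.mem_span_singleton]
    refine ⟨-(g.val 0 0 * g.val 1 1 * ((d⁻¹ : Oˣ) : O) * a'') +
      g.val 0 1 * g.val 1 0 * ((d⁻¹ : Oˣ) : O) * b'', ?_⟩
    linear_combination (g.val 0 0 * g.val 1 1 * ((d⁻¹ : Oˣ) : O)) * ha' -
      (g.val 0 1 * g.val 1 0 * ((d⁻¹ : Oˣ) : O)) * hb' + ((d⁻¹ : Oˣ) : O) * hdet + hdd
  obtain ⟨h, -, hh⟩ := SerreE.sapp π hπ.ne_zero (mk2 _ _ _ _ 1 hq) (by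
    apply Units.ext
    rw [Matrix.GeneralLinearGroup.val_det_apply, Matrix.det_fin_two, SerreE.mk2_00, SerreE.mk2_01,
      SerreE.mk2_10, SerreE.mk2_11, hq])
  refine ⟨h, d⁻¹, ?_, ?_⟩
  · have h1 := congrArg (fun M : GL (Fin 2) (O ⧸ Ideal.span {π}) => M.val 0 1) hh
    change q (h.val 0 1) = q (b * g.val 0 1 * ((d⁻¹ : Oˣ) : O)) at h1
    rw [Ideal.Quotient.eq, Ideal.mem_span_singleton] at h1
    exact h1
  · have h1 := congrArg (fun M : GL (Fin 2) (O ⧸ Ideal.span {π}) => M.val 1 1) hh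
    change q (h.val 1 1) = q (a * g.val 1 1 * ((d⁻¹ : Oˣ) : O)) at h1
    rw [Ideal.Quotient.eq, Ideal.mem_span_singleton] at h1
    exact h1

theorem frame_conj [IsPrincipalIdealRing O] (hf : f ≠ 0) {π : O} (hπ : Prime π)
    (hπf : ¬ π ∣ f) {X : Type} (F : Frame π X) (hF : ∀ x, Deep (f ^ 4) (F.s x)) (c : O) :
    ∃ F' : Frame π X, ∀ x, D.Rel (π * c) (π * c) (F.s x) (F'.s x) := by
  have hex : ∀ x, ∃ g, D.Rel (π * c) (π * c) (F.s x) g := fun x =>
    D.deep_rel_exists hf ((hF x).pow_mono (by norm_num)) (π * c)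
  choose s' hs' using hex
  have hπs : ¬ π ∣ D.s := fun h => hπf (by rw [D.hms]; exact Dvd.dvd.mul_left h _)
  refine ⟨⟨s', ?_, ?_⟩, hs'⟩
  · intro g
    obtain ⟨h, d, h01, h11⟩ := cw1_lift hπ f D.s hπf hπs g
    obtain ⟨x, hx⟩ := F.cover h
    refine ⟨x, ?_⟩
    have hr := rel_inv hf (hs' x)
    unfold TW.Rel at hr
    obtain ⟨e00, e01⟩ := cw1_entries D _ hr
    have hx' : π ∣ ((F.s x)⁻¹.val 0 0 * h.val 0 1 + (F.s x)⁻¹.val 0 1 * h.val 1 1) := by
      have := hx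
      rwa [Units.val_mul, Matrix.mul_apply, Fin.sum_univ_two] at this
    have hgoal : π ∣ ((s' x)⁻¹.val 0 0 * g.val 0 1 + (s' x)⁻¹.val 0 1 * g.val 1 1) := by
      obtain ⟨w, hw⟩ := hx'
      obtain ⟨u, hu⟩ := h01
      obtain ⟨v, hv⟩ := h11
      have hd : IsUnit (d : O) := d.isUnit
      have key : π ∣ f * D.s * d *
          ((s' x)⁻¹.val 0 0 * g.val 0 1 + (s' x)⁻¹.val 0 1 * g.val 1 1) := by
        refine ⟨f * w - f * (F.s x)⁻¹.val 0 0 * u - f * (F.s x)⁻¹.val 0 1 * v +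
          D.s * d * g.val 0 1 * (D.f1 * c) * (F.s x)⁻¹.val 1 0 +
          f * d * g.val 1 1 * (D.f1 * c) * ((F.s x)⁻¹.val 1 1 - (s' x)⁻¹.val 0 0), ?_⟩
        linear_combination (D.s * d * g.val 0 1) * e00 + (f * d * g.val 1 1) * e01 +
          f * hw - f * (F.s x)⁻¹.val 0 0 * hu - f * (F.s x)⁻¹.val 0 1 * hv
      rcases hπ.dvd_or_dvd key with h1 | h1
      · rcases hπ.dvd_or_dvd h1 with h2 | h2
        · rcases hπ.dvd_or_dvd h2 with h3 | h3
          · exact absurd h3 hπf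
          · exact absurd h3 hπs
        · exact absurd (isUnit_of_dvd_unit h2 hd) hπ.not_isUnit
      · exact h1
    rw [Units.val_mul, Matrix.mul_apply, Fin.sum_univ_two]
    exact hgoal
  · intro x y hxy
    apply F.sep
    have hr := rel_mul (rel_inv hf (hs' x)) (hs' y)
    unfold TW.Rel at hr
    obtain ⟨e00, e01⟩ := cw1_entries D _ hr
    have hxy' : π ∣ ((s' x)⁻¹ * s' y).val 0 1 := hxy
    obtain ⟨w, hw⟩ := hxy'
    have : π ∣ f * ((F.s x)⁻¹ * F.s y).val 0 1 := by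
      refine ⟨((s' x)⁻¹ * s' y).val 0 0 * (D.f1 * c) + w * D.s -
        D.f1 * c * ((F.s x)⁻¹ * F.s y).val 1 1, ?_⟩
      linear_combination -e01 + D.s * hw
    rcases hπ.dvd_or_dvd this with h1 | h1
    · exact absurd h1 hπf
    · exact h1

variable {D}

theorem step_conj (hf : f ≠ 0) {π : O} (hπ : Prime π) {X : Type} (F F' : Frame π X) (c : O)
    (hFF : ∀ x, D.Rel (π * c) (π * c) (F.s x) (F'.s x)) {γ γ' : GL (Fin 2) O}
    (hγ : D.Rel (π * c) (π * c) γ γ') (x : X) (g : GL (Fin 2) O)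
    (hg : D.Rel c c (F.gam γ x) g) : F'.Step γ' x (F.act γ x) g := by
  have hst := F.step_act hπ.ne_zero γ x
  have hx := hFF x
  have hy := hFF (F.act γ x)
  unfold Frame.Step at hst ⊢
  unfold TW.Rel at hx hy hγ hg
  apply cw1_cancel D hf c
  calc γ'.val * (F'.s x).val * PM π * D.M c
      = γ'.val * ((F'.s x).val * (PM π * D.M c)) := by simp only [Matrix.mul_assoc]
    _ = γ'.val * (((F'.s x).val * D.M (π * c)) * PM π) := by
        rw [← cw1_PM]; simp only [Matrix.mul_assoc]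
    _ = (γ'.val * D.M (π * c)) * (F.s x).val * PM π := by rw [hx]; simp only [Matrix.mul_assoc]
    _ = D.M (π * c) * (γ.val * (F.s x).val * PM π) := by rw [hγ]; simp only [Matrix.mul_assoc]
    _ = (D.M (π * c) * (F.s (F.act γ x)).val) * PM π * (F.gam γ x).val := by
        rw [hst]; simp only [Matrix.mul_assoc]
    _ = (F'.s (F.act γ x)).val * (D.M (π * c) * PM π) * (F.gam γ x).val := by
        rw [← hy]; simp only [Matrix.mul_assoc]
    _ = (F'.s (F.act γ x)).val * PM π * (D.M c * (F.gam γ x).val) := by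
        rw [cw1_PM]; simp only [Matrix.mul_assoc]
    _ = (F'.s (F.act γ x)).val * PM π * g.val * D.M c := by
        rw [← hg]; simp only [Matrix.mul_assoc]

end TW
end SerreW
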