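import Pool.Agent.SerreW.Defs

/-!
# DEEP: matrices congruent to `1`
-/

open Matrix
open scoped QuadraticAlgebra

namespace SerreW

open SerreT
open SerreE (mk2 sc dg dgl up low red Gam0 GamUp mem_Gam0 mem_GamUp PM Frame heckeC)

variable {O : Type} [CommRing O]

theorem deep_iff {N : O} {γ : GL (Fin 2) O} : Deep N γ ↔ red N γ = 1 := by
  constructor
  · intro h
    apply Matrix.GeneralLinearGroup.ext
    intro i j
    have h1 := h i j
    rw [← Ideal.mem_span_singleton, ← Ideal.Quotient.eq] at h1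
    change Ideal.Quotient.mk (Ideal.span {N}) (γ.val i j) = _
    rw [h1]
    fin_cases i <;> fin_cases j <;> simp
  · intro h i j
    have h1 := congrArg (fun M : GL (Fin 2) (O ⧸ Ideal.span {N}) => M.val i j) h
    change Ideal.Quotient.mk (Ideal.span {N}) (γ.val i j) = _ at h1
    rw [← Ideal.mem_span_singleton, ← Ideal.Quotient.eq, h1]
    fin_cases i <;> fin_cases j <;> simp

theorem deep_one (N : O) : Deep N 1 := deep_iff.mpr (map_one _)

theorem Deep.mul {N : O} {g h : GL (Fin 2) O} (hg : Deep N g) (hh : Deep N h) :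
    Deep N (g * h) := by
  rw [deep_iff] at *
  rw [map_mul, hg, hh, one_mul]

theorem Deep.inv {N : O} {g : GL (Fin 2) O} (hg : Deep N g) : Deep N g⁻¹ := by
  rw [deep_iff] at *
  rw [map_inv, hg, inv_one]

theorem Deep.conj {N : O} {g : GL (Fin 2) O} (hg : Deep N g) (h : GL (Fin 2) O) :
    Deep N (h⁻¹ * (g * h)) := by
  rw [deep_iff] at *
  rw [map_mul, map_mul, hg, one_mul, map_inv, inv_mul_cancel]

theorem Deep.conj' {N : O} {g : GL (Fin 2) O} (hg : Deep N g) (h : GL (Fin 2) O) :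
    Deep N (h * g * h⁻¹) := by
  rw [deep_iff] at *
  rw [map_mul, map_mul, hg, mul_one, map_inv, mul_inv_cancel]

theorem Deep.mono {N M : O} (hNM : M ∣ N) {g : GL (Fin 2) O} (hg : Deep N g) : Deep M g :=
  fun i j => hNM.trans (hg i j)

theorem Deep.pow_mono {f : O} {n m : ℕ} (h : m ≤ n) {g : GL (Fin 2) O} (hg : Deep (f ^ n) g) :
    Deep (f ^ m) g := hg.mono (pow_dvd_pow f h)

theorem Deep.red {f : O} {n : ℕ} (h : 1 ≤ n) {g : GL (Fin 2) O} (hg : Deep (f ^ n) g) :
    SerreE.red f g = 1 := deep_iff.mp (by simpa using hg.pow_mono h)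

theorem Deep.mem_gam {N : O} {g : GL (Fin 2) O} (hg : Deep N g) : g ∈ Gam0 N := by
  have := hg 1 0
  simpa [mem_Gam0] using this

theorem Deep.entries {N : O} {g : GL (Fin 2) O} (hg : Deep N g) :
    N ∣ g.val 0 0 - 1 ∧ N ∣ g.val 0 1 ∧ N ∣ g.val 1 0 ∧ N ∣ g.val 1 1 - 1 := by
  refine ⟨?_, ?_, ?_, ?_⟩
  · simpa using hg 0 0
  · simpa using hg 0 1
  · simpa using hg 1 0
  · simpa using hg 1 1

theorem deep_of_entries {N : O} {g : GL (Fin 2) O} (h00 : N ∣ g.val 0 0 - 1)
    (h01 : N ∣ g.val 0 1) (h10 : N ∣ g.val 1 0) (h11 : N ∣ g.val 1 1 - 1) : Deep N g := by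
  intro i j
  fin_cases i <;> fin_cases j
  · simpa using h00
  · simpa using h01
  · simpa using h10
  · simpa using h11

theorem EqM.refl {R : Type*} [CommRing R] (g : R) (a : GL (Fin 2) R) : EqM g a a := by
  intro i j
  simp

theorem EqM.symm {R : Type*} [CommRing R] {g : R} {a b : GL (Fin 2) R} (h : EqM g a b) :
    EqM g b a := by
  intro i j
  have := h i j
  rw [← dvd_neg, neg_sub] at this
  exact this

theorem EqM.trans {R : Type*} [CommRing R] {g : R} {a b c : GL (Fin 2) R} (h : EqM g a b)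
    (h' : EqM g b c) : EqM g a c := by
  intro i j
  have := dvd_add (h i j) (h' i j)
  rwa [sub_add_sub_cancel] at this

/-- `EqM` as an equality of the images in the quotient ring. -/
theorem eqM_iff {R : Type*} [CommRing R] {g : R} {a b : GL (Fin 2) R} :
    EqM g a b ↔ Matrix.GeneralLinearGroup.map (Ideal.Quotient.mk (Ideal.span {g})) a =
      Matrix.GeneralLinearGroup.map (Ideal.Quotient.mk (Ideal.span {g})) b := by
  constructor
  · intro h
    apply Matrix.GeneralLinearGroup.ext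
    intro i j
    have h1 := h i j
    rw [← Ideal.mem_span_singleton, ← Ideal.Quotient.eq] at h1
    exact h1
  · intro h i j
    have h1 := congrArg (fun M : GL (Fin 2) (R ⧸ Ideal.span {g}) => M.val i j) h
    rw [← Ideal.mem_span_singleton, ← Ideal.Quotient.eq]
    exact h1

theorem EqM.mul {R : Type*} [CommRing R] {g : R} {a b c d : GL (Fin 2) R} (h : EqM g a b)
    (h' : EqM g c d) : EqM g (a * c) (b * d) := by
  rw [eqM_iff] at *
  rw [map_mul, map_mul, h, h']

theorem EqM.inv {R : Type*} [CommRing R] {g : R} {a b : GL (Fin 2) R} (h : EqM g a b) :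
    EqM g a⁻¹ b⁻¹ := by
  rw [eqM_iff] at *
  rw [map_inv, map_inv, h]

theorem EqM.conj_one {R : Type*} [CommRing R] {g : R} {κ : GL (Fin 2) R} (h : EqM g κ 1)
    (z : GL (Fin 2) R) : EqM g (z⁻¹ * κ * z) 1 := by
  rw [eqM_iff] at *
  rw [map_mul, map_mul, h, map_one, mul_one, map_inv, inv_mul_cancel]

theorem EqM.mono {R : Type*} [CommRing R] {g g' : R} (h : g' ∣ g) {a b : GL (Fin 2) R}
    (hab : EqM g a b) : EqM g' a b := fun i j => h.trans (hab i j)

end SerreW
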