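import Pool.Agent.SerreT.PORT3
import Pool.Agent.SerreT.DICHK3

/-!
# ST3: all ring class characters at `p = 3`. Definitions

`TW f k χ` (twist data): `f = m s = e f₁`, a primitive character `ψe` of `(O/e)ˣ`, a subgroup `N` of
`GL₂(O/f)` which contains the torus and the matrices congruent to `1` modulo `m`, and a character
`X` of `N` that extends `χ` and is `ψe ∘ det` on the matrices congruent to `1` modulo `m`.
-/

open Matrix
open scoped QuadraticAlgebra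

namespace SerreW

open SerreT
open SerreE (mk2 sc dg dgl up low red Gam0 GamUp mem_Gam0 mem_GamUp PM Frame heckeC)

section
variable {O : Type} [CommRing O]

/-- reduction modulo a divisor `g` of `f`. -/
def rd {g f : O} (h : g ∣ f) : O ⧸ Ideal.span {f} →+* O ⧸ Ideal.span {g} :=
  Ideal.Quotient.factor (Ideal.span_singleton_le_span_singleton.mpr h)

theorem rd_mk {g f : O} (h : g ∣ f) (x : O) :
    rd h (Ideal.Quotient.mk (Ideal.span {f}) x) = Ideal.Quotient.mk (Ideal.span {g}) x :=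
  Ideal.Quotient.factor_mk _ x

/-- reduction of units -/
def rdU {g f : O} (h : g ∣ f) : (O ⧸ Ideal.span {f})ˣ →* (O ⧸ Ideal.span {g})ˣ :=
  Units.map (rd h).toMonoidHom

/-- two matrices over `R` are congruent modulo `g`. -/
def EqM {R : Type*} [CommRing R] (g : R) (a b : GL (Fin 2) R) : Prop :=
  ∀ i j, g ∣ a.val i j - b.val i j

variable {k : Type} [Field k]

/-- Twist data for a character `χ` of the torus modulo `f`. -/
structure TW (f : O) (k : Type) [Field k] (χ : (Ti (O ⧸ Ideal.span {f}))ˣ →* kˣ) where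
  m : O
  s : O
  e : O
  f1 : O
  hms : f = m * s
  hef : f = e * f1
  hrad : ∀ π : O, Prime π → π ∣ f → π ∣ m
  ψe : (O ⧸ Ideal.span {e})ˣ →* kˣ
  prim : ∀ π e₂ : O, Prime π → e = π * e₂ → ∃ c : (O ⧸ Ideal.span {e})ˣ,
    Ideal.Quotient.mk (Ideal.span {e}) e₂ ∣ (c : O ⧸ Ideal.span {e}) - 1 ∧ ψe c ≠ 1
  N : Subgroup (GL (Fin 2) (O ⧸ Ideal.span {f}))
  X : N →* kˣ
  iota_mem : ∀ t, iota t ∈ N
  X_iota : ∀ t, X ⟨iota t, iota_mem t⟩ = χ t
  km : ∀ κ : GL (Fin 2) (O ⧸ Ideal.span {f}), EqM (Ideal.Quotient.mk (Ideal.span {f}) m) κ 1 →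
    ∃ h : κ ∈ N, X ⟨κ, h⟩ =
      ψe (rdU (Dvd.intro _ hef.symm) (Matrix.GeneralLinearGroup.det κ))
  wit : ∀ π m₂ : O, Prime π → m = π * m₂ → ∃ (κ : GL (Fin 2) (O ⧸ Ideal.span {f})) (h : κ ∈ N),
    Matrix.GeneralLinearGroup.det κ = 1 ∧ EqM (Ideal.Quotient.mk (Ideal.span {f}) m₂) κ 1 ∧
      X ⟨κ, h⟩ ≠ 1
  nofix : ∀ γ : GL (Fin 2) O, red f γ ∈ N → th * th * γ = γ * th → False

namespace TW

variable {f : O} {χ : (Ti (O ⧸ Ideal.span {f}))ˣ →* kˣ} (D : TW f k χ)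

theorem e_dvd : D.e ∣ f := Dvd.intro _ D.hef.symm
theorem m_dvd : D.m ∣ f := Dvd.intro _ D.hms.symm

/-- `ψe` as a character of `(O/f)ˣ`. -/
def psi : (O ⧸ Ideal.span {f})ˣ →* kˣ := D.ψe.comp (rdU D.e_dvd)

/-- the data for `χ⁻¹`. -/
def inv : TW f k χ⁻¹ where
  m := D.m
  s := D.s
  e := D.e
  f1 := D.f1
  hms := D.hms
  hef := D.hef
  hrad := D.hrad
  ψe := D.ψe⁻¹
  prim := by
    intro π e₂ hπ he
    obtain ⟨c, h1, h2⟩ := D.prim π e₂ hπ he
    refine ⟨c, h1, ?_⟩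
    rw [MonoidHom.inv_apply]
    exact fun h => h2 (inv_eq_one.mp h)
  N := D.N
  X := D.X⁻¹
  iota_mem := D.iota_mem
  X_iota := by
    intro t
    rw [MonoidHom.inv_apply, MonoidHom.inv_apply, D.X_iota]
  km := by
    intro κ hκ
    obtain ⟨h, h1⟩ := D.km κ hκ
    refine ⟨h, ?_⟩
    rw [MonoidHom.inv_apply, MonoidHom.inv_apply, h1]
  wit := by
    intro π m₂ hπ hm
    obtain ⟨κ, h, h1, h2, h3⟩ := D.wit π m₂ hπ hm
    refine ⟨κ, h, h1, h2, ?_⟩
    rw [MonoidHom.inv_apply]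
    exact fun h => h3 (inv_eq_one.mp h)
  nofix := D.nofix

/-- Twisted cocycles which are equivariant on the right under the group `N`. -/
structure IsC (C : GL (Fin 2) O → GL (Fin 2) (O ⧸ Ideal.span {f}) → k) : Prop where
  coc : ∀ γ γ' y, C (γ * γ') y = C γ y + C γ' ((red f γ)⁻¹ * y)
  scal : ∀ (u : Oˣ) y, C (sc u) y = 0
  equi : ∀ γ y (n : D.N), C γ (y * n.val) = ((D.X n)⁻¹ : kˣ) * C γ y

variable {D} in
theorem IsC.isCoc {C : GL (Fin 2) O → GL (Fin 2) (O ⧸ Ideal.span {f}) → k} (hC : D.IsC C) :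
    IsCoc f χ C where
  coc := hC.coc
  scal := hC.scal
  equi γ y t := by rw [hC.equi γ y ⟨iota t, D.iota_mem t⟩, D.X_iota]

/-- the weighted sum over the diagonal torus. -/
noncomputable def hh (C : GL (Fin 2) O → GL (Fin 2) (O ⧸ Ideal.span {f}) → k)
    (a : GL (Fin 2) (O ⧸ Ideal.span {f})) (γ : GL (Fin 2) O) : k :=
  ∑ᶠ r : (O ⧸ Ideal.span {f})ˣ, (D.psi r : k) * C γ (dg r * a)

/-- the matrix `[[f, f₁ c], [0, s]]`. -/
def M (c : O) : Matrix (Fin 2) (Fin 2) O := !![f, D.f1 * c; 0, D.s]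

/-- `g M_{c'} = M_c γ`. -/
def Rel (c c' : O) (γ g : GL (Fin 2) O) : Prop := g.val * D.M c' = D.M c * γ.val

/-- a lift to `O` of a unit modulo `e`. -/
noncomputable def lf (c : (O ⧸ Ideal.span {D.e})ˣ) : O :=
  Function.surjInv Ideal.Quotient.mk_surjective (c : O ⧸ Ideal.span {D.e})

theorem lf_spec (c : (O ⧸ Ideal.span {D.e})ˣ) :
    Ideal.Quotient.mk (Ideal.span {D.e}) (D.lf c) = c :=
  Function.surjInv_eq _ _

end TW

/-- the element of `(O/f)ˣ` given by the diagonal entry `i` of a matrix in `Γ₀(f²)`. -/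
def diagU (f : O) (γ : Gam0 (f ^ 2)) : (O ⧸ Ideal.span {f})ˣ × (O ⧸ Ideal.span {f})ˣ := by
  have h : ∀ x y z w u v : O, x * w - y * z = u → u * v = 1 → f ^ 2 ∣ z →
      (Ideal.Quotient.mk (Ideal.span {f}) x) * (Ideal.Quotient.mk (Ideal.span {f}) (w * v)) = 1 := by
    intro x y z w u v h1 h2 ⟨c, hc⟩
    rw [← map_mul, ← map_one (Ideal.Quotient.mk (Ideal.span {f})), Ideal.Quotient.eq,
      Ideal.mem_span_singleton]
    refine ⟨y * c * f * v, ?_⟩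
    rw [hc] at h1
    linear_combination v * h1 + h2
  have hdet : γ.val.val 0 0 * γ.val.val 1 1 - γ.val.val 0 1 * γ.val.val 1 0 =
      (Matrix.GeneralLinearGroup.det γ.val : O) := by
    rw [Matrix.GeneralLinearGroup.val_det_apply, Matrix.det_fin_two]
  have h1 := h (γ.val.val 0 0) (γ.val.val 0 1) (γ.val.val 1 0) (γ.val.val 1 1)
    (Matrix.GeneralLinearGroup.det γ.val : O) ((Matrix.GeneralLinearGroup.det γ.val)⁻¹ : Oˣ) hdet
    (Units.mul_inv _) γ.2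
  have h2 := h (γ.val.val 1 1) (γ.val.val 0 1) (γ.val.val 1 0) (γ.val.val 0 0)
    (Matrix.GeneralLinearGroup.det γ.val : O) ((Matrix.GeneralLinearGroup.det γ.val)⁻¹ : Oˣ)
    (by rw [← hdet]; ring) (Units.mul_inv _) γ.2
  exact (⟨_, _, h1, by rw [mul_comm]; exact h1⟩, ⟨_, _, h2, by rw [mul_comm]; exact h2⟩)

theorem diagU_fst (f : O) (γ : Gam0 (f ^ 2)) :
    ((diagU f γ).1 : O ⧸ Ideal.span {f}) = Ideal.Quotient.mk _ (γ.val.val 0 0) := rfl

theorem diagU_snd (f : O) (γ : Gam0 (f ^ 2)) :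
    ((diagU f γ).2 : O ⧸ Ideal.span {f}) = Ideal.Quotient.mk _ (γ.val.val 1 1) := rfl

/-- `D / A` modulo `f` for a matrix `[[A, B], [C, D]]` in `Γ₀(f²)`. -/
def rat (f : O) (γ : Gam0 (f ^ 2)) : (O ⧸ Ideal.span {f})ˣ := (diagU f γ).2 * (diagU f γ).1⁻¹

theorem rat_spec (f : O) (γ : Gam0 (f ^ 2)) :
    (rat f γ : O ⧸ Ideal.span {f}) * Ideal.Quotient.mk _ (γ.val.val 0 0) =
      Ideal.Quotient.mk _ (γ.val.val 1 1) := by
  rw [← diagU_fst, ← diagU_snd, ← Units.val_mul, rat, inv_mul_cancel_right]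

namespace TW

variable {f : O} {χ : (Ti (O ⧸ Ideal.span {f}))ˣ →* kˣ} (D : TW f k χ)

open Classical in
/-- `γ_c`: the matrix with `γ_c M_{c'} = M_c γ`, `c' = c D / A`. -/
noncomputable def gm (γ : Gam0 (f ^ 2)) (c : (O ⧸ Ideal.span {D.e})ˣ) : GL (Fin 2) O :=
  if h : ∃ g, D.Rel (D.lf c) (D.lf (c * rdU D.e_dvd (rat f γ))) γ.val g then h.choose else 1

/-- the twisted sum. -/
noncomputable def F (C : GL (Fin 2) O → GL (Fin 2) (O ⧸ Ideal.span {f}) → k)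
    (a : GL (Fin 2) (O ⧸ Ideal.span {f})) (γ : Gam0 (f ^ 2)) : k :=
  ∑ᶠ c : (O ⧸ Ideal.span {D.e})ˣ, (D.ψe c : k) * D.hh C a (D.gm γ c)

end TW

/-- congruent to `1` modulo `N` -/
def Deep (N : O) (γ : GL (Fin 2) O) : Prop := EqM N γ 1

end

/-! ### additive characters -/

section
variable {R : Type*} [CommRing R] {k : Type*} [Field k]

/-- the value of an additive character -/
def ev (ξ : Multiplicative R →* kˣ) (x : R) : k := ((ξ (Multiplicative.ofAdd x) : kˣ) : k)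

/-- `ξ` is non-trivial on every non-zero ideal. -/
def Gen (ξ : Multiplicative R →* kˣ) : Prop :=
  ∀ 𝔞 : Ideal R, 𝔞 ≠ ⊥ → ∃ x ∈ 𝔞, ξ (Multiplicative.ofAdd x) ≠ 1

theorem ev_add (ξ : Multiplicative R →* kˣ) (x y : R) : ev ξ (x + y) = ev ξ x * ev ξ y := by
  unfold ev
  rw [ofAdd_add, map_mul, Units.val_mul]

theorem ev_zero (ξ : Multiplicative R →* kˣ) : ev ξ 0 = 1 := by
  unfold ev
  rw [ofAdd_zero, map_one, Units.val_one]

theorem ev_ne_zero (ξ : Multiplicative R →* kˣ) (x : R) : ev ξ x ≠ 0 := (ξ _).ne_zero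

theorem ev_neg (ξ : Multiplicative R →* kˣ) (x : R) : ev ξ (-x) = (ev ξ x)⁻¹ := by
  apply eq_inv_of_mul_eq_one_left
  rw [← ev_add, neg_add_cancel, ev_zero]

/-- The property of the finite ring `R = O/m` used in the joint injectivity statement. -/
def PropW (R : Type*) [CommRing R] (k : Type*) [Field k] : Prop :=
  ∀ v : GL (Fin 2) R → k,
    (∀ 𝔞 : Ideal R, 𝔞 ≠ ⊥ → ∃ κ : GL (Fin 2) R, Matrix.GeneralLinearGroup.det κ = 1 ∧
      (∀ i j, κ.val i j - (1 : GL (Fin 2) R).val i j ∈ 𝔞) ∧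
      ∃ c : k, c ≠ 1 ∧ ∀ y, v (y * κ) = c * v y) →
    (∀ g a : GL (Fin 2) R, Matrix.GeneralLinearGroup.det g = 1 →
      ∀ ξ : Multiplicative R →* kˣ, Gen ξ → ∑ᶠ x : R, ev ξ x * v (g * up x * a) = 0) → v = 0

end

end SerreW
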