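import Mathlib

/-!
# E_DEC (2): decomposition of `f` with respect to `g₀`

PURE. `e_dec0`: induction on `f` (`UniqueFactorizationMonoid.induction_on_prime`): `f` a unit: `e = 1`, `f₁ = f`. `f = p a`, `a = e f₁`:
if `p ∣ g₀` take `p e`, `f₁` (`p` is coprime to `f₁` since `f₁` is coprime to `g₀`); otherwise take `e`, `p f₁` (`p` is coprime to
`g₀` and to `e`: in a PID `Prime.coprime_iff_not_dvd` ; if `p ∣ e` then `p ∣ g₀`).
`e_dec`: `f = f' g₀` and apply `e_dec0` to `f`, `g₀`: `f₁ ∣ f = f' g₀` and `f₁` is coprime to `g₀`, so `f₁ ∣ f'`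
(`IsCoprime.dvd_of_dvd_mul_right`); if `π ∣ e` then `π ∣ g₀`, so `π f' ∣ f' g₀ = f`.
-/

namespace SerreW

theorem e_dec0 {O : Type*} [CommRing O] [IsDomain O] [IsPrincipalIdealRing O] (f g₀ : O)
    (hf : f ≠ 0) : ∃ e f1 : O, f = e * f1 ∧ IsCoprime e f1 ∧ IsCoprime f1 g₀ ∧
      ∀ π : O, Prime π → π ∣ e → π ∣ g₀ := by
  induction f using UniqueFactorizationMonoid.induction_on_prime with
  | h₁ => exact absurd rfl hf
  | h₂ x hx =>
    exact ⟨1, x, (one_mul x).symm, isCoprime_one_left,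
      (by obtain ⟨u, rfl⟩ := hx; exact ⟨(u⁻¹ : Oˣ), 0, by simp⟩), fun π hπ h => absurd (isUnit_of_dvd_one h) hπ.not_isUnit⟩
  | h₃ a p ha hp ih =>
    obtain ⟨e, f1, h1, h2, h3, h4⟩ := ih ha
    by_cases hpg : p ∣ g₀
    · refine ⟨p * e, f1, ?_, ?_, h3, ?_⟩
      · rw [h1, mul_assoc]
      · exact IsCoprime.mul_left (IsCoprime.of_isCoprime_of_dvd_left h3.symm hpg) h2
      · intro π hπ h
        rcases hπ.dvd_or_dvd h with h | h
        · exact h.trans hpg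
        · exact h4 π hπ h
    · refine ⟨e, p * f1, ?_, ?_, ?_, h4⟩
      · rw [h1]; ring
      · refine IsCoprime.mul_right ?_ h2
        refine ((Prime.coprime_iff_not_dvd hp).2 ?_).symm
        exact fun h => hpg (h4 p hp h)
      · exact IsCoprime.mul_left ((Prime.coprime_iff_not_dvd hp).2 hpg) h3

theorem e_dec {O : Type*} [CommRing O] [IsDomain O] [IsPrincipalIdealRing O] (f f' : O)
    (hf : f ≠ 0) (hd : f' ∣ f) : ∃ e f1 : O, f = e * f1 ∧ IsCoprime e f1 ∧ f1 ∣ f' ∧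
      ∀ π : O, Prime π → π ∣ e → π * f' ∣ f := by
  obtain ⟨g₀, hg⟩ := hd
  obtain ⟨e, f1, h1, h2, h3, h4⟩ := e_dec0 f g₀ hf
  refine ⟨e, f1, h1, h2, ?_, ?_⟩
  · have : f1 ∣ f' * g₀ := by
      rw [← hg, h1]; exact dvd_mul_left _ _
    exact h3.dvd_of_dvd_mul_right this
  · intro π hπ h
    rw [hg, mul_comm π f']
    exact mul_dvd_mul_left _ (h4 π hπ h)

end SerreW
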