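import Pool.Agent.SerreW.EDefs
import Pool.Agent.SerreW.E_DEC

/-!
# E_TI (3): matrices which commute with `th` modulo `f'` come from the torus

`y = [[a, b], [c, d]]`: `y th = [[b, -a - b], [d, -c - d]]`, `th y = [[-c, -d], [a - c, b - d]]`, so modulo `f'`: `b = -c`, `d = a - c`, i.e.
`y = iotaM ⟨a, c⟩`, and `det y = a (a - c) + c²` modulo `f'`. Lift `a`, `c` to `O`. `e_dec0 f f'`: `f = e f₁`, `f₁` coprime to `f'`,
every prime of `e` divides `f'`. Choose `z ∈ O` with `f' ∣ z`, `f₁ ∣ z - 1`; `a' = a + z (1 - a)`, `c' = c - z c`; so `a' = a`, `c' = c`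
modulo `f'` and `a' = 1`, `c' = 0` modulo `f₁`. The norm `n = a' (a' - c') + c'²` is coprime to `f` in `O` (`isCoprime_of_prime_dvd`, see
Pool/Agent/Serre/SAPP.lean): a prime `π` of `f` divides `f₁` (then `n = 1` modulo `π`) or `e`, then `π ∣ f'` and `n = det y` modulo `π` where `det y` is a
unit of `O/f` (so a lift of it is coprime to `f`, not divisible by `π`). So `n` is a unit modulo `f`, and `t = ⟨mk a', mk c'⟩` is a unit of
`Ti (O/f)`: its product with `⟨mk (a' - c'), - mk c'⟩` is `n` (the conjugate; `ζ² = -1 - ζ`; check by `ext <;> simp <;> ring`).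
-/

open Matrix
open scoped QuadraticAlgebra

namespace SerreW

open SerreT
open SerreE (mk2 sc dg dgl up low red Gam0 GamUp mem_Gam0 mem_GamUp PM Frame heckeC)

theorem e_ti {O : Type} [CommRing O] [IsDomain O] [IsPrincipalIdealRing O] (f f' : O)
    (hf : f ≠ 0) (hd : f' ∣ f) (y : GL (Fin 2) (O ⧸ Ideal.span {f}))
    (hy : EqM (Ideal.Quotient.mk (Ideal.span {f}) f') (y * th) (th * y)) :
    ∃ t : (Ti (O ⧸ Ideal.span {f}))ˣ, EqM (Ideal.Quotient.mk (Ideal.span {f}) f') (iota t) y := by
  obtain ⟨A, hA⟩ := Ideal.Quotient.mk_surjective (y.val 0 0)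
  obtain ⟨B, hB⟩ := Ideal.Quotient.mk_surjective (y.val 0 1)
  obtain ⟨C, hC⟩ := Ideal.Quotient.mk_surjective (y.val 1 0)
  obtain ⟨D, hD⟩ := Ideal.Quotient.mk_surjective (y.val 1 1)
  have key : ∀ x : O, Ideal.Quotient.mk (Ideal.span {f}) f' ∣ Ideal.Quotient.mk (Ideal.span {f}) x →
      f' ∣ x := by
    intro x hx
    obtain ⟨w, hw⟩ := hx
    obtain ⟨W, rfl⟩ := Ideal.Quotient.mk_surjective w
    rw [← map_mul, Ideal.Quotient.eq, Ideal.mem_span_singleton] at hw
    have h1 : f' ∣ x - f' * W := hd.trans hw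
    exact (dvd_sub_left (Dvd.intro _ rfl)).mp h1
  have h00 := hy 0 0
  have h10 := hy 1 0
  rw [Units.val_mul, Units.val_mul] at h00 h10
  simp only [th, mk2, Matrix.mul_apply, Fin.sum_univ_two, Matrix.of_apply, Matrix.cons_val',
    Matrix.cons_val_zero, Matrix.cons_val_one, Matrix.cons_val_fin_one] at h00 h10
  rw [← hA, ← hB, ← hC] at h00
  rw [← hA, ← hC, ← hD] at h10
  have hBC : f' ∣ B + C := by
    apply key
    convert h00 using 1
    rw [map_add]
    ring
  have hDAC : f' ∣ D - (A - C) := by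
    apply key
    convert h10 using 1
    rw [map_sub, map_sub]
    ring
  obtain ⟨e, f₁, hef, -, hcop, he⟩ := e_dec0 f f' hf
  obtain ⟨u₀, v₀, huv⟩ := hcop
  -- z = v₀ f', z - 1 = - u₀ f₁
  set z : O := v₀ * f' with hz
  have hz1 : f₁ ∣ z - 1 := ⟨-u₀, by rw [hz]; linear_combination huv⟩
  set a' : O := A + z * (1 - A) with ha'
  set c' : O := C - z * C with hc'
  set n : O := a' * (a' - c') + c' * c' with hn
  have hdet : ∃ U : O, f ∣ (A * D - B * C) * U - 1 := by
    have h1 : (Matrix.GeneralLinearGroup.det y : O ⧸ Ideal.span {f}) *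
        ((Matrix.GeneralLinearGroup.det y)⁻¹ : (O ⧸ Ideal.span {f})ˣ) = 1 := Units.mul_inv _
    obtain ⟨U, hU⟩ := Ideal.Quotient.mk_surjective
      ((((Matrix.GeneralLinearGroup.det y)⁻¹ : (O ⧸ Ideal.span {f})ˣ)) : O ⧸ Ideal.span {f})
    rw [← hU, Matrix.GeneralLinearGroup.val_det_apply, Matrix.det_fin_two, ← hA, ← hB, ← hC,
      ← hD, ← map_mul, ← map_mul, ← map_sub, ← map_mul, ← map_one (Ideal.Quotient.mk _),
      Ideal.Quotient.eq, Ideal.mem_span_singleton] at h1
    exact ⟨U, h1⟩
  obtain ⟨U, hU⟩ := hdet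
  have hnf : IsCoprime n f := by
    apply isCoprime_of_prime_dvd
    · rintro ⟨-, h2⟩
      exact hf h2
    · intro π hπ hπn hπf
      have hπf0 := hπf
      rw [hef] at hπf
      rcases hπ.dvd_or_dvd hπf with h1 | h1
      · -- π ∣ e, so π ∣ f'
        have h2 : π ∣ f' := he π hπ h1
        have h3 : π ∣ z := Dvd.dvd.mul_left h2 _
        have h4 : π ∣ B + C := h2.trans hBC
        have h5 : π ∣ D - (A - C) := h2.trans hDAC
        have h6 : π ∣ (A * D - B * C) * U - 1 := hπf0.trans hU
        have h7 : π ∣ A * D - B * C := by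
          have e1 : A * D - B * C = n + A * (D - (A - C)) - C * (B + C) -
              z * ((1 - A) * (2 * A + z * (1 - A) - c') + A * C + C * (z * C - 2 * C)) := by
            rw [hn, ha', hc']
            ring
          rw [e1]
          exact dvd_sub (dvd_sub (dvd_add hπn (Dvd.dvd.mul_left h5 _)) (Dvd.dvd.mul_left h4 _))
            (Dvd.dvd.mul_right h3 _)
        have h8 : π ∣ 1 := by
          have := dvd_sub (Dvd.dvd.mul_right h7 U) h6
          simpa using this
        exact hπ.not_isUnit (isUnit_of_dvd_one h8)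
      · have h2 : π ∣ z - 1 := h1.trans hz1
        have h3 : π ∣ n - 1 := by
          have e1 : n - 1 = (z - 1) * ((1 - A) * (2 + (z - 1) * (1 - A) + (z - 1) * C) +
              C + (z - 1) * C * C) := by
            rw [hn, ha', hc']
            ring
          rw [e1]
          exact Dvd.dvd.mul_right h2 _
        have h8 : π ∣ 1 := by
          have := dvd_sub hπn h3
          simpa using this
        exact hπ.not_isUnit (isUnit_of_dvd_one h8)
  obtain ⟨u, v, huv'⟩ := hnf
  have hinv : Ideal.Quotient.mk (Ideal.span {f}) u * Ideal.Quotient.mk (Ideal.span {f}) n = 1 := by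
    rw [← map_mul, ← map_one (Ideal.Quotient.mk _), Ideal.Quotient.eq, Ideal.mem_span_singleton]
    exact ⟨-v, by linear_combination huv'⟩
  rw [hn, map_add, map_mul, map_mul, map_sub] at hinv
  let t : (Ti (O ⧸ Ideal.span {f}))ˣ :=
    { val := ⟨Ideal.Quotient.mk _ a', Ideal.Quotient.mk _ c'⟩
      inv := ⟨Ideal.Quotient.mk _ u * (Ideal.Quotient.mk _ a' - Ideal.Quotient.mk _ c'),
        -(Ideal.Quotient.mk _ u * Ideal.Quotient.mk _ c')⟩
      val_inv := by
        ext
        · simp only [QuadraticAlgebra.re_mul, QuadraticAlgebra.re_one]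
          linear_combination hinv
        · simp only [QuadraticAlgebra.im_mul, QuadraticAlgebra.im_one]
          ring
      inv_val := by
        ext
        · simp only [QuadraticAlgebra.re_mul, QuadraticAlgebra.re_one]
          linear_combination hinv
        · simp only [QuadraticAlgebra.im_mul, QuadraticAlgebra.im_one]
          ring }
  have hf'z : f' ∣ z := Dvd.intro_left _ rfl
  have ha1 : f' ∣ a' - A := by
    rw [ha']
    have : A + z * (1 - A) - A = z * (1 - A) := by ring
    rw [this]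
    exact Dvd.dvd.mul_right hf'z _
  have hc1 : f' ∣ c' - C := by
    rw [hc']
    have : C - z * C - C = z * (- C) := by ring
    rw [this]
    exact Dvd.dvd.mul_right hf'z _
  refine ⟨t, ?_⟩
  intro i j
  rw [iota_val]
  fin_cases i <;> fin_cases j
  · change _ ∣ Ideal.Quotient.mk _ a' - y.val 0 0
    rw [← hA, ← map_sub]
    exact map_dvd _ ha1
  · change _ ∣ - Ideal.Quotient.mk _ c' - y.val 0 1
    rw [← hB, ← map_neg, ← map_sub]
    apply map_dvd
    have : - c' - B = - ((c' - C) + (B + C)) := by ring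
    rw [this]
    exact (dvd_add hc1 hBC).neg_right
  · change _ ∣ Ideal.Quotient.mk _ c' - y.val 1 0
    rw [← hC, ← map_sub]
    exact map_dvd _ hc1
  · change _ ∣ Ideal.Quotient.mk _ a' - Ideal.Quotient.mk _ c' - y.val 1 1
    rw [← hD, ← map_sub, ← map_sub]
    apply map_dvd
    have : a' - c' - D = (a' - A) - (c' - C) - (D - (A - C)) := by ring
    rw [this]
    exact dvd_sub (dvd_sub ha1 hc1) hDAC

end SerreW
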