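import Pool.Agent.SerreW.EDefs
import Pool.Agent.SerreW.E_TI

/-!
# E_CF (2): the character of the matrices which commute with `th` modulo `f'`

For `y ∈ Cm (mk f')` choose `t` with `iota t = y` modulo `f'` (`e_ti`) and put `c y = χ t * (ψe (rdU _ (nmU t)))⁻¹`. The value does not
depend on `t`: if `iota t = iota t'` modulo `f'` then `iota (t t'⁻¹) = 1` modulo `f'` (`EqM.mul`, `EqM.inv`), i.e. `One1 f' (t t'⁻¹)` (the entries
(0,0) and (1,0) of `iota`), so `χ (t t'⁻¹) = ψe (rdU _ (nmU (t t'⁻¹)))` by `D.hχ`. So `c` is multiplicative (`iota (t t') = y y'` modulo `f'`) and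
`c 1 = 1`.
-/

open Matrix
open scoped QuadraticAlgebra

namespace SerreW

open SerreT
open SerreE (mk2 sc dg dgl up low red Gam0 GamUp mem_Gam0 mem_GamUp PM Frame heckeC)

theorem e_cf_one1 {O : Type} [CommRing O] {f g : O} (t : (Ti (O ⧸ Ideal.span {f}))ˣ)
    (h : EqM (Ideal.Quotient.mk (Ideal.span {f}) g) (iota t) 1) : One1 g t := by
  refine ⟨?_, ?_⟩
  · have h1 := h 0 0
    rw [iota_val] at h1
    simpa using h1
  · have h1 := h 1 0
    rw [iota_val] at h1
    simpa using h1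

theorem e_cf {O : Type} [CommRing O] [IsDomain O] [IsPrincipalIdealRing O] {k : Type} [Field k]
    (f : O) (hf : f ≠ 0) (χ : (Ti (O ⧸ Ideal.span {f}))ˣ →* kˣ) (D : ED f k χ) :
    ∃ c : Cm (Ideal.Quotient.mk (Ideal.span {f}) D.f') →* kˣ,
      ∀ (t : (Ti (O ⧸ Ideal.span {f}))ˣ) (y : Cm (Ideal.Quotient.mk (Ideal.span {f}) D.f')),
        EqM (Ideal.Quotient.mk (Ideal.span {f}) D.f') (iota t) y.val →
          c y = χ t * (D.ψe (rdU D.e_dvd (nmU t)))⁻¹ := by
  -- the character `φ t = χ t * (ψe N t)⁻¹`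
  let φ : (Ti (O ⧸ Ideal.span {f}))ˣ →* kˣ :=
    χ * ((D.ψe.comp ((rdU D.e_dvd).comp nmU)))⁻¹
  have hφ : ∀ t, φ t = χ t * (D.ψe (rdU D.e_dvd (nmU t)))⁻¹ := fun t => rfl
  have hφ1 : ∀ t, EqM (Ideal.Quotient.mk (Ideal.span {f}) D.f') (iota t) 1 → φ t = 1 := by
    intro t ht
    rw [hφ, D.hχ t (e_cf_one1 t ht)]
    exact mul_inv_cancel _
  have hφ2 : ∀ t t', EqM (Ideal.Quotient.mk (Ideal.span {f}) D.f') (iota t) (iota t') →
      φ t = φ t' := by
    intro t t' h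
    have h1 : EqM (Ideal.Quotient.mk (Ideal.span {f}) D.f') (iota (t * t'⁻¹)) 1 := by
      rw [map_mul, map_inv]
      have h2 := h.mul (EqM.refl _ (iota t')⁻¹)
      rwa [mul_inv_cancel] at h2
    have h3 := hφ1 _ h1
    rw [map_mul, map_inv] at h3
    exact mul_inv_eq_one.mp h3
  have hex : ∀ y : Cm (Ideal.Quotient.mk (Ideal.span {f}) D.f'),
      ∃ t : (Ti (O ⧸ Ideal.span {f}))ˣ,
        EqM (Ideal.Quotient.mk (Ideal.span {f}) D.f') (iota t) y.val :=
    fun y => e_ti f D.f' hf D.hf' y.val y.2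
  choose T hT using hex
  refine ⟨{ toFun := fun y => φ (T y), map_one' := ?_, map_mul' := ?_ }, ?_⟩
  · exact hφ1 _ (hT 1)
  · intro y y'
    rw [← map_mul]
    apply hφ2
    rw [map_mul]
    exact (hT (y * y')).trans ((hT y).mul (hT y')).symm
  · intro t y h
    change φ (T y) = _
    rw [← hφ]
    exact hφ2 _ _ ((hT y).trans h.symm)

end SerreW
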