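import Pool.Agent.SerreW.EDefs

/-!
# E_SG (2): the sign character

`R` a commutative ring, `g` not a unit. For `y ∈ Np g` exactly one of `y th = th y`, `y th = th² y` modulo `g` holds: both give `th = th²` modulo `g`
(multiply by `y⁻¹` on the right), but the entry (0,0) of `th - th²` is `0 - (-1) = 1`. `s y = 1` in the first case and `-1` in the second case.
Multiplicative: four cases, the computations are in the proof of `mul_mem'` of `Np` in EDefs.lean (`a th = th^i a`, `b th = th^j b` give
`a b th = th^(ij) a b`, `th⁴ = th`: `th3`).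
-/

open Matrix
open scoped QuadraticAlgebra

namespace SerreW

open SerreT
open SerreE (mk2 sc dg dgl up low red Gam0 GamUp mem_Gam0 mem_GamUp PM Frame heckeC)

theorem E_SG_not_both {R : Type*} [CommRing R] {g : R} (hg : ¬ IsUnit g) {y : GL (Fin 2) R}
    (h1 : EqM g (y * th) (th * y)) (h2 : EqM g (y * th) (th * th * y)) : False := by
  have h3 := (h1.symm.trans h2).mul (EqM.refl g y⁻¹)
  have e1 : th * y * y⁻¹ = (th : GL (Fin 2) R) := by group
  have e2 : th * th * y * y⁻¹ = (th * th : GL (Fin 2) R) := by group
  rw [e1, e2] at h3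
  have h4 := h3 0 0
  have h5 : (th : GL (Fin 2) R).val 0 0 - (th * th : GL (Fin 2) R).val 0 0 = 1 := by
    rw [Units.val_mul]
    simp [th, mk2, Matrix.mul_apply, Fin.sum_univ_two]
  rw [h5] at h4
  exact hg (isUnit_of_dvd_one h4)

theorem E_SG_mul {R : Type*} [CommRing R] {g : R} {a b : GL (Fin 2) R} :
    ((EqM g (a * th) (th * a)) → (EqM g (b * th) (th * b)) → EqM g (a * b * th) (th * (a * b))) ∧
    ((EqM g (a * th) (th * th * a)) → (EqM g (b * th) (th * b)) →
      EqM g (a * b * th) (th * th * (a * b))) ∧
    ((EqM g (a * th) (th * a)) → (EqM g (b * th) (th * th * b)) →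
      EqM g (a * b * th) (th * th * (a * b))) ∧
    ((EqM g (a * th) (th * th * a)) → (EqM g (b * th) (th * th * b)) →
      EqM g (a * b * th) (th * (a * b))) := by
  refine ⟨?_, ?_, ?_, ?_⟩
  · intro ha hb
    have h1 := (EqM.refl g a).mul hb
    have h2 := EqM.mul ha (EqM.refl g b)
    have e1 : a * (b * th) = a * b * th := by group
    have e2 : a * (th * b) = a * th * b := by group
    have e3 : th * a * b = th * (a * b) := by group
    rw [e1, e2] at h1
    rw [e3] at h2
    exact h1.trans h2
  · intro ha hb
    have h1 := (EqM.refl g a).mul hb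
    have h2 := EqM.mul ha (EqM.refl g b)
    have e1 : a * (b * th) = a * b * th := by group
    have e2 : a * (th * b) = a * th * b := by group
    have e3 : th * th * a * b = th * th * (a * b) := by group
    rw [e1, e2] at h1
    rw [e3] at h2
    exact h1.trans h2
  · intro ha hb
    have h1 := (EqM.refl g a).mul hb
    have h2 := (EqM.mul ha (EqM.refl g (th * b)))
    have h3 := (EqM.refl g th).mul (EqM.mul ha (EqM.refl g b))
    have e1 : a * (b * th) = a * b * th := by group
    have e2 : a * (th * th * b) = a * th * (th * b) := by group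
    have e3 : th * a * (th * b) = th * (a * th * b) := by group
    have e4 : th * (th * a * b) = th * th * (a * b) := by group
    rw [e1, e2] at h1
    rw [e3] at h2
    rw [e4] at h3
    exact (h1.trans h2).trans h3
  · intro ha hb
    have h1 := (EqM.refl g a).mul hb
    have h2 := (EqM.mul ha (EqM.refl g (th * b)))
    have h3 := (EqM.refl g (th * th)).mul (EqM.mul ha (EqM.refl g b))
    have e1 : a * (b * th) = a * b * th := by group
    have e2 : a * (th * th * b) = a * th * (th * b) := by group
    have e3 : th * th * a * (th * b) = th * th * (a * th * b) := by group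
    have e4 : th * th * (th * th * a * b) = th * (a * b) := by
      have : th * th * (th * th * a * b) = th * th * th * (th * (a * b)) := by group
      rw [this, th3, one_mul]
    rw [e1, e2] at h1
    rw [e3] at h2
    rw [e4] at h3
    exact (h1.trans h2).trans h3

theorem e_sg {R : Type*} [CommRing R] {k : Type*} [Field k] (g : R) (hg : ¬ IsUnit g) :
    ∃ s : Np g →* kˣ, ∀ y : Np g, (EqM g (y.val * th) (th * y.val) → s y = 1) ∧
      (EqM g (y.val * th) (th * th * y.val) → s y = -1) := by
  classical
  refine ⟨MonoidHom.mk' (fun y => if EqM g (y.val * th) (th * y.val) then 1 else -1) ?_, ?_⟩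
  · intro a b
    obtain ⟨m1, m2, m3, m4⟩ := E_SG_mul (g := g) (a := a.val) (b := b.val)
    have ea : (a * b : Np g).val = a.val * b.val := rfl
    simp only [ea]
    rcases mem_Np.1 a.2 with ha | ha
    · rcases mem_Np.1 b.2 with hb | hb
      · rw [if_pos ha, if_pos hb, if_pos (m1 ha hb), one_mul]
      · rw [if_pos ha, if_neg (fun h => E_SG_not_both hg h hb),
          if_neg (fun h => E_SG_not_both hg h (m3 ha hb)), one_mul]
    · rcases mem_Np.1 b.2 with hb | hb
      · rw [if_neg (fun h => E_SG_not_both hg h ha), if_pos hb,
          if_neg (fun h => E_SG_not_both hg h (m2 ha hb)), mul_one]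
      · rw [if_neg (fun h => E_SG_not_both hg h ha), if_neg (fun h => E_SG_not_both hg h hb),
          if_pos (m4 ha hb)]
        simp
  · intro y
    refine ⟨fun h => ?_, fun h => ?_⟩
    · change (if EqM g (y.val * th) (th * y.val) then (1 : kˣ) else -1) = 1
      rw [if_pos h]
    · change (if EqM g (y.val * th) (th * y.val) then (1 : kˣ) else -1) = -1
      rw [if_neg (fun h' => E_SG_not_both hg h' h)]

end SerreW
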