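import Pool.Agent.SerreW.EDefs
import Pool.Agent.SerreW.E_CF
import Pool.Agent.SerreW.E_SG

/-!
# E_N (3): the subgroup `N` and its character

`N = Cm (mk f') ⊓ ⨅ p ∈ P, Np (mk p)` and `X y = c y * ψe (rdU _ (det y)) * ∏ p ∈ P, s_p y` with `c` from `e_cf` and `s_p` from `e_sg`
(`mk p` is not a unit of `O/f`: `p ∣ f` prime). To avoid dependent types write `X y` through `Finset.prod` over `P.attach`, or let `s_p` be the character of `N`
obtained by `MonoidHom.comp` with `Subgroup.inclusion` for `p ∈ P` and `1` for `p ∉ P`. A product of homomorphisms into the commutative group `kˣ` is a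
homomorphism. The two formulas: `c y = χ t * (..)⁻¹` by `e_cf`; `c y = 1` for `y ≡ 1 = iota 1` modulo `f'`.
-/

open Matrix
open scoped QuadraticAlgebra

namespace SerreW

open SerreT
open SerreE (mk2 sc dg dgl up low red Gam0 GamUp mem_Gam0 mem_GamUp PM Frame heckeC)

theorem e_n_nu {O : Type} [CommRing O] {f p : O} (hp : Prime p) (hpf : p ∣ f) :
    ¬ IsUnit (Ideal.Quotient.mk (Ideal.span {f}) p) := by
  intro h
  obtain ⟨r, hr⟩ := h.exists_right_inv
  obtain ⟨r, rfl⟩ := Ideal.Quotient.mk_surjective r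
  rw [← map_mul, ← map_one (Ideal.Quotient.mk (Ideal.span {f})), Ideal.Quotient.eq,
    Ideal.mem_span_singleton] at hr
  have h1 : p ∣ p * r - 1 := hpf.trans hr
  have h2 : p ∣ 1 := by
    have h3 := dvd_sub (Dvd.intro r rfl) h1
    rwa [sub_sub_cancel] at h3
  exact hp.not_isUnit (isUnit_of_dvd_one h2)

theorem e_n {O : Type} [CommRing O] [IsDomain O] [IsPrincipalIdealRing O] {k : Type} [Field k]
    (f : O) (hf : f ≠ 0) (χ : (Ti (O ⧸ Ideal.span {f}))ˣ →* kˣ) (D : ED f k χ) :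
    ∃ (N : Subgroup (GL (Fin 2) (O ⧸ Ideal.span {f}))) (X : N →* kˣ),
      (∀ y, y ∈ N ↔ y ∈ Cm (Ideal.Quotient.mk (Ideal.span {f}) D.f') ∧
        ∀ p ∈ D.P, y ∈ Np (Ideal.Quotient.mk (Ideal.span {f}) p)) ∧
      (∀ (y : N) (t : (Ti (O ⧸ Ideal.span {f}))ˣ),
        EqM (Ideal.Quotient.mk (Ideal.span {f}) D.f') (iota t) y.val →
        (∀ p ∈ D.P, EqM (Ideal.Quotient.mk (Ideal.span {f}) p) (y.val * th) (th * y.val)) →
          X y = χ t * (D.ψe (rdU D.e_dvd (nmU t)))⁻¹ *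
            D.ψe (rdU D.e_dvd (Matrix.GeneralLinearGroup.det y.val))) ∧
      (∀ (y : N), ∀ p₀ ∈ D.P, EqM (Ideal.Quotient.mk (Ideal.span {f}) D.f') y.val 1 →
        Matrix.GeneralLinearGroup.det y.val = 1 →
        (∀ p ∈ D.P, p ≠ p₀ →
          EqM (Ideal.Quotient.mk (Ideal.span {f}) p) (y.val * th) (th * y.val)) →
        EqM (Ideal.Quotient.mk (Ideal.span {f}) p₀) (y.val * th) (th * th * y.val) →
          X y = -1) := by
  classical
  obtain ⟨c, hc⟩ := e_cf f hf χ D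
  have hs : ∀ p ∈ D.P, ∃ s : Np (Ideal.Quotient.mk (Ideal.span {f}) p) →* kˣ,
      ∀ y : Np (Ideal.Quotient.mk (Ideal.span {f}) p),
        (EqM (Ideal.Quotient.mk (Ideal.span {f}) p) (y.val * th) (th * y.val) → s y = 1) ∧
        (EqM (Ideal.Quotient.mk (Ideal.span {f}) p) (y.val * th) (th * th * y.val) → s y = -1) :=
    fun p hp => e_sg _ (e_n_nu (D.P1 p hp).1 (D.P1 p hp).2.1)
  choose! s hs using hs
  have hmem : ∀ y : GL (Fin 2) (O ⧸ Ideal.span {f}),
      y ∈ Cm (Ideal.Quotient.mk (Ideal.span {f}) D.f') ⊓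
        ⨅ p ∈ D.P, Np (Ideal.Quotient.mk (Ideal.span {f}) p) ↔
      y ∈ Cm (Ideal.Quotient.mk (Ideal.span {f}) D.f') ∧
        ∀ p ∈ D.P, y ∈ Np (Ideal.Quotient.mk (Ideal.span {f}) p) := by
    intro y
    rw [Subgroup.mem_inf, Subgroup.mem_iInf]
    simp only [Subgroup.mem_iInf]
  obtain ⟨N, hN⟩ : ∃ N : Subgroup (GL (Fin 2) (O ⧸ Ideal.span {f})),
      N = Cm (Ideal.Quotient.mk (Ideal.span {f}) D.f') ⊓
        ⨅ p ∈ D.P, Np (Ideal.Quotient.mk (Ideal.span {f}) p) := ⟨_, rfl⟩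
  rw [← hN] at hmem
  have hle0 : N ≤ Cm (Ideal.Quotient.mk (Ideal.span {f}) D.f') := fun y hy => ((hmem y).1 hy).1
  have hle : ∀ p ∈ D.P, N ≤ Np (Ideal.Quotient.mk (Ideal.span {f}) p) :=
    fun p hp y hy => ((hmem y).1 hy).2 p hp
  obtain ⟨σ, hσ⟩ : ∃ σ : O → (N →* kˣ), ∀ p (hp : p ∈ D.P), ∀ y : N,
      σ p y = s p (Subgroup.inclusion (hle p hp) y) := by
    refine ⟨fun p => if hp : p ∈ D.P then (s p).comp (Subgroup.inclusion (hle p hp)) else 1, ?_⟩
    intro p hp y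
    simp only [dif_pos hp]
    rfl
  have hσ1 : ∀ p ∈ D.P, ∀ y : N,
      EqM (Ideal.Quotient.mk (Ideal.span {f}) p) (y.val * th) (th * y.val) → σ p y = 1 := by
    intro p hp y h
    rw [hσ p hp]
    exact (hs p hp _).1 h
  have hσ2 : ∀ p ∈ D.P, ∀ y : N,
      EqM (Ideal.Quotient.mk (Ideal.span {f}) p) (y.val * th) (th * th * y.val) →
        σ p y = -1 := by
    intro p hp y h
    rw [hσ p hp]
    exact (hs p hp _).2 h
  obtain ⟨X, hX⟩ : ∃ X : N →* kˣ, ∀ y : N, X y = c (Subgroup.inclusion hle0 y) *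
      D.ψe (rdU D.e_dvd (Matrix.GeneralLinearGroup.det y.val)) * ∏ p ∈ D.P, σ p y := by
    refine ⟨c.comp (Subgroup.inclusion hle0) *
      (D.ψe.comp (rdU D.e_dvd)).comp (Matrix.GeneralLinearGroup.det.comp N.subtype) *
        ∏ p ∈ D.P, σ p, ?_⟩
    intro y
    rw [MonoidHom.mul_apply, MonoidHom.mul_apply, MonoidHom.finsetProd_apply]
    rfl
  refine ⟨N, X, hmem, ?_, ?_⟩
  · intro y t ht hy
    rw [hX, Finset.prod_eq_one fun p hp => hσ1 p hp y (hy p hp), mul_one,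
      hc t (Subgroup.inclusion hle0 y) ht]
  · intro y p₀ hp₀ hy1 hdet hy hy0
    have h1 : c (Subgroup.inclusion hle0 y) = 1 := by
      rw [hc 1 (Subgroup.inclusion hle0 y) (by rw [map_one]; exact hy1.symm), map_one, map_one,
        map_one, map_one, inv_one, mul_one]
    rw [hX, h1, hdet, map_one, map_one, one_mul, one_mul, Finset.prod_eq_single p₀]
    · exact hσ2 p₀ hp₀ y hy0
    · intro p hp hpp
      exact hσ1 p hp y (hy p hp hpp)
    · exact fun h => absurd hp₀ h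

end SerreW
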