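import Pool.Agent.SerreW.EDefs

/-!
# E_NF (2): no matrix of `N` conjugates `th` to `th²`

Put `y = red f γ`. `h2` gives `th² y = y th` (apply `red f`, `red f th = th`), and `y th = th y` modulo `f'`; so `th² y = th y` modulo `f'`, multiply by `y⁻¹` on the right:
`th² = th` modulo `f'`; entry (0,0): `mk f'` divides `1` (up to sign) in `O/f`, so `f' ∣ 1` in `O` (`f' ∣ f`). Then `One1 f' t` holds for all `t`, so
`χ t = ψe (rdU _ (nmU t))` for all `t` (`D.hχ`). For `u ∈ (O/f)ˣ`: `1 = χ (tiC u) = ψe (rdU _ (nmU (tiC u)))` and `nmU (tiC u) = u ^ 2` (`nmU_val`; `tiC u = ⟨u, 0⟩`), so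
`ψe (rdU _ u) ^ 2 = 1` for all `u`; with `u = nmU t`: `χ t ^ 2 = 1` for all `t`, contradiction with `hne`.
-/

open Matrix
open scoped QuadraticAlgebra

namespace SerreW

open SerreT
open SerreE (mk2 sc dg dgl up low red Gam0 GamUp mem_Gam0 mem_GamUp PM Frame heckeC)

theorem e_nf_nm {R : Type*} [CommRing R] (u : Rˣ) : nmU (tiC u) = u ^ 2 := by
  apply Units.ext
  rw [nmU_val]
  have h1 : ((tiC u : (Ti R)ˣ).val).re = (u : R) := by simp [tiC]
  have h2 : ((tiC u : (Ti R)ˣ).val).im = 0 := by simp [tiC]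
  rw [h1, h2]
  push_cast
  ring

theorem e_nf_red {O : Type*} [CommRing O] (f : O) :
    red f (th : GL (Fin 2) O) = (th : GL (Fin 2) (O ⧸ Ideal.span {f})) := by
  apply Matrix.GeneralLinearGroup.ext
  intro i j
  fin_cases i <;> fin_cases j <;> simp [th, mk2, red]

theorem e_nf {O : Type} [CommRing O] [IsDomain O] {k : Type} [Field k]
    (f : O) (χ : (Ti (O ⧸ Ideal.span {f}))ˣ →* kˣ) (D : ED f k χ)
    (hscal : ∀ u, χ (tiC u) = 1) (hne : χ ^ 2 ≠ 1) (γ : GL (Fin 2) O)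
    (h1 : red f γ ∈ Cm (Ideal.Quotient.mk (Ideal.span {f}) D.f'))
    (h2 : th * th * γ = γ * th) : False := by
  have h3 : (th * th * red f γ : GL (Fin 2) (O ⧸ Ideal.span {f})) = red f γ * th := by
    have := congrArg (red f) h2
    rw [map_mul, map_mul, map_mul, e_nf_red] at this
    exact this
  rw [mem_Cm, ← h3] at h1
  have h4 := h1.mul (EqM.refl (Ideal.Quotient.mk (Ideal.span {f}) D.f') (red f γ)⁻¹)
  rw [mul_assoc, mul_inv_cancel, mul_one, mul_assoc, mul_inv_cancel, mul_one] at h4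
  have h5 := h4 0 0
  have h6 : Ideal.Quotient.mk (Ideal.span {f}) D.f' ∣ 1 := by
    have e1 : ((th * th : GL (Fin 2) (O ⧸ Ideal.span {f})).val 0 0 -
        (th : GL (Fin 2) (O ⧸ Ideal.span {f})).val 0 0) = -1 := by
      rw [Units.val_mul]
      simp [th, mk2, Matrix.mul_apply, Fin.sum_univ_two]
    rw [e1, dvd_neg] at h5
    exact h5
  have h7 : ∀ t, χ t = D.ψe (rdU (Dvd.intro _ D.hef.symm) (nmU t)) := by
    intro t
    exact D.hχ t ⟨h6.trans (one_dvd _), h6.trans (one_dvd _)⟩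
  apply hne
  ext t
  have h8 := h7 t
  have h9 := h7 (tiC (nmU t))
  rw [hscal, e_nf_nm, map_pow, map_pow, ← h8] at h9
  have : (χ ^ 2) t = 1 := by
    rw [MonoidHom.pow_apply, ← h9]
  rw [this]
  rfl

end SerreW
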