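import Pool.Agent.SerreW.EDefs

/-!
# E_W1 (4): the matrix `κ` for a prime which divides `f'`

`D.w1` gives `t₀` with `t₀ = 1` modulo `g`, `N t₀ = 1` modulo `f'`, `χ t₀ ≠ ψe (rdU _ (nmU t₀))`. Put `M = ∏ P`; `M` is coprime to `f'` (`P1`:
the elements of `P` are primes which do not divide `f'`, PID), and every prime of `f` divides `f' M` (`P2`). Choose `z ∈ O` with `f' ∣ z - 1`, `M ∣ z`. With
lifts `t₀ = ⟨mk a, mk c⟩`: `t₁ = ⟨mk (1 + z (a - 1)), mk (z c)⟩`; it is `t₀` modulo `f'` and `1` modulo `M`. Its norm `n` is `N t₀ = 1` modulo `f'` and `1`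
modulo `M`, so `n = 1` modulo `f' M` (coprime), so `n` is coprime to `f` (each prime of `f` divides `f' M`), a unit of `O/f`, and
`t₁` is a unit of `Ti (O/f)` (inverse: conjugate `⟨a - c, -c⟩` divided by the norm).
`κ = iota t₁ * (dg (nmU t₁))⁻¹`, `det κ = 1` (`det (dg u) = u`). `dg (nmU t₁) = 1` modulo `f' M`, so `κ = iota t₁ = iota t₀` modulo `f'`;
take `t = t₀`. And `iota t₁ = 1` modulo `g` (`t₁ - 1 = z (t₀ - 1)`) and modulo `M`, `g` and `M` are coprime (`g ∣ f'`), so `iota t₁ = 1`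
modulo `g M`, and `κ = 1` modulo `g M` (`g M ∣ f' M`).
-/

open Matrix
open scoped QuadraticAlgebra

namespace SerreW

open SerreT
open SerreE (mk2 sc dg dgl up low red Gam0 GamUp mem_Gam0 mem_GamUp PM Frame heckeC)

theorem e_w1_dvd {O : Type} [CommRing O] {f g x : O} (hg : g ∣ f)
    (h : Ideal.Quotient.mk (Ideal.span {f}) g ∣ Ideal.Quotient.mk (Ideal.span {f}) x) : g ∣ x := by
  obtain ⟨v, hv⟩ := h
  obtain ⟨w, rfl⟩ := Ideal.Quotient.mk_surjective v
  rw [← map_mul, Ideal.Quotient.eq, Ideal.mem_span_singleton] at hv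
  have h1 := dvd_add (hg.trans hv) (Dvd.intro w rfl : g ∣ g * w)
  rwa [sub_add_cancel] at h1

/-- the unit `⟨X, Y⟩` of `R[ζ]` with norm the unit `n` -/
def e_w1_unit {R : Type} [CommRing R] (X Y : R) (n : Rˣ) (h : X * (X - Y) + Y * Y = n) : (Ti R)ˣ where
  val := ⟨X, Y⟩
  inv := ⟨(↑n⁻¹ : R) * (X - Y), -((↑n⁻¹ : R) * Y)⟩
  val_inv := by
    have e1 : (↑n⁻¹ : R) * (X * (X - Y) + Y * Y) = 1 := by rw [h]; simp
    ext
    · simp
      linear_combination e1
    · simp
      ring
  inv_val := by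
    have e1 : (↑n⁻¹ : R) * (X * (X - Y) + Y * Y) = 1 := by rw [h]; simp
    ext
    · simp
      linear_combination e1
    · simp
      ring

theorem e_w1_det_dg {R : Type} [CommRing R] (u : Rˣ) :
    Matrix.GeneralLinearGroup.det (dg u : GL (Fin 2) R) = u := by
  apply Units.ext
  rw [Matrix.GeneralLinearGroup.val_det_apply, Matrix.det_fin_two]
  simp [dg]

theorem e_w1_dg {R : Type} [CommRing R] {d : R} (u : Rˣ) (h : d ∣ (u : R) - 1) :
    EqM d (dg u : GL (Fin 2) R) 1 := by
  intro i j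
  fin_cases i <;> fin_cases j <;> simp [dg]
  exact h

theorem e_w1_iota {R : Type} [CommRing R] {d : R} (s t : (Ti R)ˣ) (h1 : d ∣ s.val.re - t.val.re)
    (h2 : d ∣ s.val.im - t.val.im) : EqM d (iota s) (iota t) := by
  intro i j
  fin_cases i <;> fin_cases j
  · simpa [iota_val] using h1
  · have e : -s.val.im - -t.val.im = -(s.val.im - t.val.im) := by ring
    have h3 := (dvd_neg (a := d)).mpr h2
    rw [← e] at h3
    exact h3
  · simpa [iota_val] using h2
  · have h3 := dvd_sub h1 h2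
    have e : s.val.re - t.val.re - (s.val.im - t.val.im) =
        s.val.re - s.val.im - (t.val.re - t.val.im) := by ring
    rw [e] at h3
    exact h3

theorem e_w1 {O : Type} [CommRing O] [IsDomain O] [IsPrincipalIdealRing O] {k : Type} [Field k]
    (f : O) (hf : f ≠ 0) (χ : (Ti (O ⧸ Ideal.span {f}))ˣ →* kˣ) (D : ED f k χ)
    (π g : O) (hπ : Prime π) (hg : D.f' = π * g) :
    ∃ (t : (Ti (O ⧸ Ideal.span {f}))ˣ) (κ : GL (Fin 2) (O ⧸ Ideal.span {f})),
      Matrix.GeneralLinearGroup.det κ = 1 ∧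
      EqM (Ideal.Quotient.mk (Ideal.span {f}) D.f') (iota t) κ ∧
      EqM (Ideal.Quotient.mk (Ideal.span {f}) (g * ∏ p ∈ D.P, p)) κ 1 ∧
      χ t ≠ D.ψe (rdU D.e_dvd (nmU t)) := by
  obtain ⟨t₀, ⟨h1a, h1b⟩, h2, h3⟩ := D.w1 π g hπ hg
  have hg' : g ∣ D.f' := by rw [hg]; exact Dvd.intro_left _ rfl
  have hgf : g ∣ f := hg'.trans D.hf'
  set M : O := ∏ p ∈ D.P, p with hM
  have hcop : IsCoprime D.f' M := by
    apply IsCoprime.prod_right
    intro p hp
    obtain ⟨hp1, hp2, hp3⟩ := D.P1 p hp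
    exact (hp1.irreducible.coprime_iff_not_dvd.mpr hp3).symm
  obtain ⟨u, v, huv⟩ := hcop
  obtain ⟨a, ha⟩ := Ideal.Quotient.mk_surjective t₀.val.re
  obtain ⟨c, hc⟩ := Ideal.Quotient.mk_surjective t₀.val.im
  have hga : g ∣ a - 1 := by
    apply e_w1_dvd hgf
    rw [map_sub, map_one, ha]
    exact h1a
  have hgc : g ∣ c := by
    apply e_w1_dvd hgf
    rw [hc]
    exact h1b
  have hn0 : D.f' ∣ a * (a - c) + c * c - 1 := by
    apply e_w1_dvd D.hf'
    rw [map_sub, map_one, map_add, map_mul, map_mul, map_sub, ha, hc, ← nmU_val]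
    exact h2
  set z : O := v * M with hz
  have hz1 : D.f' ∣ z - 1 := ⟨-u, by rw [hz]; linear_combination huv⟩
  have hzM : M ∣ z := Dvd.intro_left _ rfl
  set x : O := 1 + z * (a - 1) with hx
  set y : O := z * c with hy
  set n : O := x * (x - y) + y * y with hn
  have hnf : D.f' ∣ n - 1 := by
    have e : n - 1 = (z - 1) * ((a - 1) * (x - y) + a * ((a - 1) - c) + c * y + c * c) +
        (a * (a - c) + c * c - 1) := by
      rw [hn, hx, hy]; ring
    rw [e]
    exact dvd_add (hz1.mul_right _) hn0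
  have hnM : M ∣ n - 1 := by
    have e : n - 1 = z * ((a - 1) * (x - y) + ((a - 1) - c) + c * y) := by
      rw [hn, hx, hy]; ring
    rw [e]
    exact hzM.mul_right _
  have hnfM : D.f' * M ∣ n - 1 := IsCoprime.mul_dvd ⟨u, v, huv⟩ hnf hnM
  have hunit : IsUnit (Ideal.Quotient.mk (Ideal.span {f}) n) := by
    have hcp : IsCoprime n f := by
      refine isCoprime_of_prime_dvd (fun h => hf h.2) ?_
      intro q hq hqn hqf
      have hq1 : q ∣ n - 1 := by
        by_cases hqf' : q ∣ D.f'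
        · exact hqf'.trans hnf
        · obtain ⟨p, hp, hap⟩ := D.P2 q hq hqf hqf'
          exact (hap.dvd.trans (Finset.dvd_prod_of_mem _ hp)).trans hnM
      have h5 := dvd_sub hqn hq1
      rw [sub_sub_cancel] at h5
      exact hq.not_isUnit (isUnit_of_dvd_one h5)
    obtain ⟨r, s, hrs⟩ := hcp
    refine IsUnit.of_mul_eq_one (Ideal.Quotient.mk (Ideal.span {f}) r) ?_
    rw [← map_mul, ← map_one (Ideal.Quotient.mk (Ideal.span {f})), Ideal.Quotient.eq,
      Ideal.mem_span_singleton]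
    exact ⟨-s, by linear_combination hrs⟩
  obtain ⟨nu, hnu⟩ := hunit
  have hnorm : Ideal.Quotient.mk (Ideal.span {f}) x *
      (Ideal.Quotient.mk (Ideal.span {f}) x - Ideal.Quotient.mk (Ideal.span {f}) y) +
      Ideal.Quotient.mk (Ideal.span {f}) y * Ideal.Quotient.mk (Ideal.span {f}) y = nu := by
    rw [hnu, ← map_sub, ← map_mul, ← map_mul, ← map_add]
  set t₁ : (Ti (O ⧸ Ideal.span {f}))ˣ := e_w1_unit (Ideal.Quotient.mk (Ideal.span {f}) x)
    (Ideal.Quotient.mk (Ideal.span {f}) y) nu hnorm with ht₁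
  have hre : t₁.val.re = Ideal.Quotient.mk (Ideal.span {f}) x := rfl
  have him : t₁.val.im = Ideal.Quotient.mk (Ideal.span {f}) y := rfl
  have hnm : nmU t₁ = nu := by
    apply Units.ext
    rw [nmU_val, hre, him, hnorm]
  have hnu1 : (nu : O ⧸ Ideal.span {f}) - 1 = Ideal.Quotient.mk (Ideal.span {f}) (n - 1) := by
    rw [hnu, map_sub, map_one]
  refine ⟨t₀, iota t₁ * (dg (nmU t₁))⁻¹, ?_, ?_, ?_, h3⟩
  · rw [map_mul, map_inv, e_w1_det_dg, ← nmU_eq, mul_inv_cancel]
  · have h5 : EqM (Ideal.Quotient.mk (Ideal.span {f}) D.f') (iota t₀) (iota t₁) := by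
      apply e_w1_iota
      · rw [hre, ← ha, ← map_sub]
        apply map_dvd
        have e : a - x = (z - 1) * -(a - 1) := by rw [hx]; ring
        rw [e]
        exact hz1.mul_right _
      · rw [him, ← hc, ← map_sub]
        apply map_dvd
        have e : c - y = (z - 1) * -c := by rw [hy]; ring
        rw [e]
        exact hz1.mul_right _
    have h6 : EqM (Ideal.Quotient.mk (Ideal.span {f}) D.f') (dg (nmU t₁)) 1 := by
      apply e_w1_dg
      rw [hnm, hnu1]
      exact map_dvd _ hnf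
    have h7 := h5.mul h6.inv.symm
    rwa [inv_one, mul_one] at h7
  · have h5 : EqM (Ideal.Quotient.mk (Ideal.span {f}) (g * M)) (iota t₁) (iota 1) := by
      apply e_w1_iota
      · have e : (1 : (Ti (O ⧸ Ideal.span {f}))ˣ).val.re = Ideal.Quotient.mk (Ideal.span {f}) 1 := by
          rw [map_one]; simp
        rw [hre, e, ← map_sub]
        apply map_dvd
        have e2 : x - 1 = (a - 1) * z := by rw [hx]; ring
        rw [e2]
        exact mul_dvd_mul hga hzM
      · have e : (1 : (Ti (O ⧸ Ideal.span {f}))ˣ).val.im = Ideal.Quotient.mk (Ideal.span {f}) 0 := by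
          rw [map_zero]; simp
        rw [him, e, ← map_sub]
        apply map_dvd
        have e2 : y - 0 = c * z := by rw [hy]; ring
        rw [e2]
        exact mul_dvd_mul hgc hzM
    have h6 : EqM (Ideal.Quotient.mk (Ideal.span {f}) (g * M)) (dg (nmU t₁)) 1 := by
      apply e_w1_dg
      rw [hnm, hnu1]
      exact map_dvd _ ((mul_dvd_mul_right hg' M).trans hnfM)
    have h7 := h5.mul h6.inv
    rwa [map_one, inv_one, mul_one] at h7

end SerreW
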