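import Mathlib

/-!
# E_NRM (2): `-1` is a norm modulo `π`

PURE. `K = O/π` is a finite field (`π` is prime in a PID, so the ideal is maximal; finite by `Ring.HasFiniteQuotients`), `3 ≠ 0` in `K`. If `2 = 0` in `K`:
`a = 1`, `b = 0`: `1 + 1 = 0`. Otherwise `FiniteField.exists_root_sum_quadratic` (needs `ringChar K ≠ 2`) for `X ^ 2 + 4` and `3 X ^ 2`
gives `x`, `b` with `x² + 4 + 3 b² = 0`; `a = (x + b) / 2`: `4 (a (a - b) + b² + 1) = (2a - b)² + 3 b² + 4 = 0`, and `4 ≠ 0`. Lift `a`, `b` to `O`.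
-/

namespace SerreW

open Polynomial in
theorem e_nrm_field {K : Type*} [Field K] [Finite K] (h3 : (3 : K) ≠ 0) :
    ∃ a b : K, a * (a - b) + b * b + 1 = 0 := by
  have := Fintype.ofFinite K
  by_cases h2 : ringChar K = 2
  · refine ⟨1, 0, ?_⟩
    have : CharP K 2 := by rw [← h2]; exact ringChar.charP K
    have h := CharTwo.two_eq_zero (R := K)
    linear_combination h
  · have h20 : (2 : K) ≠ 0 := Ring.two_ne_zero h2
    obtain ⟨x, b, hxb⟩ := FiniteField.exists_root_sum_quadratic (R := K) (f := X ^ 2 + C 4) (g := C 3 * X ^ 2)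
      (by
        rw [degree_add_C (by rw [degree_X_pow]; norm_num), degree_X_pow]; rfl)
      (by rw [degree_C_mul h3, degree_X_pow]; rfl)
      (FiniteField.odd_card_of_char_ne_two h2)
    simp only [eval_add, eval_pow, eval_X, eval_C, eval_mul] at hxb
    refine ⟨(x + b) / 2, b, ?_⟩
    field_simp
    linear_combination hxb

theorem e_nrm {O : Type*} [CommRing O] [IsDomain O] [IsPrincipalIdealRing O]
    [Ring.HasFiniteQuotients O] (π : O) (hπ : Prime π) (h3 : ¬ π ∣ 3) :
    ∃ a b : O, π ∣ a * (a - b) + b * b + 1 := by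
  have hne : Ideal.span {π} ≠ ⊥ := by
    rw [Ne, Ideal.span_singleton_eq_bot]; exact hπ.ne_zero
  have hprime : (Ideal.span {π}).IsPrime := (Ideal.span_singleton_prime hπ.ne_zero).mpr hπ
  have hmax : (Ideal.span {π}).IsMaximal := IsPrime.to_maximal_ideal hne
  have hfin : Finite (O ⧸ Ideal.span {π}) := Ring.HasFiniteQuotients.finiteQuotient hne
  let F : Field (O ⧸ Ideal.span {π}) := Ideal.Quotient.field _
  have h3' : (3 : O ⧸ Ideal.span {π}) ≠ 0 := by
    intro h
    apply h3
    rw [← Ideal.mem_span_singleton, ← Ideal.Quotient.eq_zero_iff_mem, map_ofNat]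
    exact h
  obtain ⟨a, b, hab⟩ := @e_nrm_field _ F hfin h3'
  obtain ⟨a, rfl⟩ := Ideal.Quotient.mk_surjective a
  obtain ⟨b, rfl⟩ := Ideal.Quotient.mk_surjective b
  refine ⟨a, b, ?_⟩
  rw [← Ideal.mem_span_singleton, ← Ideal.Quotient.eq_zero_iff_mem]
  rw [map_add, map_add, map_mul, map_mul, map_sub, map_one]
  exact hab

end SerreW
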