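import Pool.Agent.SerreW.EDefs
import Pool.Agent.SerreW.E_NRM
import Pool.Agent.Serre.SAPP

/-!
# E_W2 (3): the matrix `κ` for a prime which does not divide `f'`

`¬ π ∣ 3` since `f` is coprime to `3` and `π ∣ f`. `e_nrm`: `a`, `b` with `a (a - b) + b² = -1` modulo `π`.
`κ₀ = J iota(a + b ζ)`, `J = [[1, -1], [0, -1]]`, `J th = th² J`: `κ₀ = [[a - b, -a], [-b, b - a]]`, `det κ₀ = -(a (a - b) + b²) = 1` modulo `π`, and
`κ₀ th = th² κ₀` as matrices (identity of polynomial matrices: both sides are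
`[[-a, b], [b - a, a]]`; check by computation). `π` and `m₂` are coprime (PID, `¬ π ∣ m₂`), choose `z ∈ O` with `π ∣ z - 1`, `m₂ ∣ z`; the matrix
`K = 1 + z (κ₀ - 1)` over `O` has `K = κ₀` modulo `π`, `K = 1` modulo `m₂`, so `det K = 1` modulo `π m₂ = m`. So its reduction modulo `m` is a matrix of determinant
`1` over `O/m` (`mk2 _ _ _ _ 1 _`), and `SerreE.sapp m` (file Pool/Agent/Serre/SAPP.lean, `m ≠ 0`) gives `G ∈ GL₂(O)`, `det G = 1`, `red m G =` this matrix, i.e. `m ∣ G i j - K i j`.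
`κ = red f G`: `κ = K` modulo `m` (`m ∣ f`), so `κ = 1` modulo `m₂` and `κ th = th² κ` modulo `π`.
-/

open Matrix
open scoped QuadraticAlgebra

namespace SerreW

open SerreT
open SerreE (mk2 sc dg dgl up low red Gam0 GamUp mem_Gam0 mem_GamUp PM Frame heckeC)

theorem e_w2 {O : Type} [CommRing O] [IsDomain O] [IsPrincipalIdealRing O]
    [Ring.HasFiniteQuotients O] (f m π m₂ : O) (hf : f ≠ 0) (hf3 : IsCoprime f 3) (hm : m ∣ f)
    (hmp : m = π * m₂) (hπ : Prime π) (hc : ¬ π ∣ m₂) :
    ∃ κ : GL (Fin 2) (O ⧸ Ideal.span {f}), Matrix.GeneralLinearGroup.det κ = 1 ∧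
      EqM (Ideal.Quotient.mk (Ideal.span {f}) m₂) κ 1 ∧
      EqM (Ideal.Quotient.mk (Ideal.span {f}) π) (κ * th) (th * th * κ) := by
  have hπm : π ∣ m := ⟨m₂, hmp⟩
  have hm2m : m₂ ∣ m := ⟨π, by rw [hmp, mul_comm]⟩
  have hπf : π ∣ f := hπm.trans hm
  have hm0 : m ≠ 0 := by
    rintro rfl
    exact hf (zero_dvd_iff.mp hm)
  have hπ3 : ¬ π ∣ 3 := by
    intro h3
    exact hπ.not_unit (hf3.isUnit_of_dvd' hπf h3)
  obtain ⟨a, b, hab⟩ := e_nrm π hπ hπ3
  obtain ⟨u, v, huv⟩ := (hπ.irreducible.coprime_iff_not_dvd).2 hc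
  have hz1 : π ∣ 1 - v * m₂ := ⟨u, by linear_combination -huv⟩
  obtain ⟨z, hz⟩ : ∃ z : O, z = v * m₂ := ⟨_, rfl⟩
  rw [← hz] at hz1
  have hz2 : m₂ ∣ z := ⟨v, by rw [hz, mul_comm]⟩
  obtain ⟨K00, h00⟩ : ∃ K : O, K = 1 + z * (a - b - 1) := ⟨_, rfl⟩
  obtain ⟨K01, h01⟩ : ∃ K : O, K = - (z * a) := ⟨_, rfl⟩
  obtain ⟨K10, h10⟩ : ∃ K : O, K = - (z * b) := ⟨_, rfl⟩
  obtain ⟨K11, h11⟩ : ∃ K : O, K = 1 + z * (b - a - 1) := ⟨_, rfl⟩
  have p00 : π ∣ K00 - (a - b) := by
    rw [h00]
    exact (hz1.mul_right (1 - (a - b))).trans (dvd_of_eq (by ring))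
  have p01 : π ∣ K01 - (-a) := by
    rw [h01]
    exact (hz1.mul_right a).trans (dvd_of_eq (by ring))
  have p10 : π ∣ K10 - (-b) := by
    rw [h10]
    exact (hz1.mul_right b).trans (dvd_of_eq (by ring))
  have p11 : π ∣ K11 - (b - a) := by
    rw [h11]
    exact (hz1.mul_right (1 - (b - a))).trans (dvd_of_eq (by ring))
  have q00 : m₂ ∣ K00 - 1 := by
    rw [h00]
    exact (hz2.mul_right (a - b - 1)).trans (dvd_of_eq (by ring))
  have q01 : m₂ ∣ K01 := by
    rw [h01]
    exact (hz2.mul_right (-a)).trans (dvd_of_eq (by ring))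
  have q10 : m₂ ∣ K10 := by
    rw [h10]
    exact (hz2.mul_right (-b)).trans (dvd_of_eq (by ring))
  have q11 : m₂ ∣ K11 - 1 := by
    rw [h11]
    exact (hz2.mul_right (b - a - 1)).trans (dvd_of_eq (by ring))
  have hdet : m ∣ K00 * K11 - K01 * K10 - 1 := by
    have d1 : π ∣ K00 * K11 - K01 * K10 - 1 := by
      have e := (((p00.mul_right K11).add (p11.mul_right (a - b))).sub
        ((p01.mul_right K10).add (p10.mul_right (-a)))).sub hab
      exact e.trans (dvd_of_eq (by ring))
    have d2 : m₂ ∣ K00 * K11 - K01 * K10 - 1 := by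
      have e := ((q00.mul_right K11).add q11).sub (q01.mul_right K10)
      exact e.trans (dvd_of_eq (by ring))
    rw [hmp]
    exact IsCoprime.mul_dvd ⟨u, v, huv⟩ d1 d2
  have hmk : Ideal.Quotient.mk (Ideal.span {m}) K00 * Ideal.Quotient.mk (Ideal.span {m}) K11 -
      Ideal.Quotient.mk (Ideal.span {m}) K01 * Ideal.Quotient.mk (Ideal.span {m}) K10 =
      ((1 : (O ⧸ Ideal.span {m})ˣ) : O ⧸ Ideal.span {m}) := by
    rw [← map_mul, ← map_mul, ← map_sub, Units.val_one, ← map_one (Ideal.Quotient.mk (Ideal.span {m})),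
      Ideal.Quotient.eq, Ideal.mem_span_singleton]
    exact hdet
  obtain ⟨G, hG1, hG2⟩ := SerreE.sapp m hm0 (mk2 _ _ _ _ 1 hmk) (by
    apply Units.ext
    rw [Matrix.GeneralLinearGroup.val_det_apply, Matrix.det_fin_two]
    simpa using hmk)
  have hval : ∀ i j, Ideal.Quotient.mk (Ideal.span {m}) (G.val i j) = (red m G).val i j := fun i j => rfl
  have g00 : m ∣ G.val 0 0 - K00 := by
    have := hval 0 0
    rw [hG2, SerreE.mk2_00, Ideal.Quotient.eq, Ideal.mem_span_singleton] at this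
    exact this
  have g01 : m ∣ G.val 0 1 - K01 := by
    have := hval 0 1
    rw [hG2, SerreE.mk2_01, Ideal.Quotient.eq, Ideal.mem_span_singleton] at this
    exact this
  have g10 : m ∣ G.val 1 0 - K10 := by
    have := hval 1 0
    rw [hG2, SerreE.mk2_10, Ideal.Quotient.eq, Ideal.mem_span_singleton] at this
    exact this
  have g11 : m ∣ G.val 1 1 - K11 := by
    have := hval 1 1
    rw [hG2, SerreE.mk2_11, Ideal.Quotient.eq, Ideal.mem_span_singleton] at this
    exact this
  have r00 : π ∣ G.val 0 0 - (a - b) := by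
    exact ((hπm.trans g00).add p00).trans (dvd_of_eq (by ring))
  have r01 : π ∣ G.val 0 1 - (-a) := by
    exact ((hπm.trans g01).add p01).trans (dvd_of_eq (by ring))
  have r10 : π ∣ G.val 1 0 - (-b) := by
    exact ((hπm.trans g10).add p10).trans (dvd_of_eq (by ring))
  have r11 : π ∣ G.val 1 1 - (b - a) := by
    exact ((hπm.trans g11).add p11).trans (dvd_of_eq (by ring))
  have hvf : ∀ i j, (red f G).val i j = Ideal.Quotient.mk (Ideal.span {f}) (G.val i j) := fun i j => rfl
  refine ⟨red f G, ?_, ?_, ?_⟩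
  · have e : Matrix.GeneralLinearGroup.det (red f G) =
        Units.map (Ideal.Quotient.mk (Ideal.span {f})).toMonoidHom (Matrix.GeneralLinearGroup.det G) := by
      apply Units.ext
      rw [Matrix.GeneralLinearGroup.val_det_apply, Matrix.det_fin_two, Units.coe_map,
        Matrix.GeneralLinearGroup.val_det_apply, Matrix.det_fin_two]
      simp only [hvf]
      simp
    rw [e, hG1, map_one]
  · intro i j
    rw [hvf]
    have key : ∀ x y : O, m₂ ∣ x - y → Ideal.Quotient.mk (Ideal.span {f}) m₂ ∣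
        Ideal.Quotient.mk (Ideal.span {f}) x - Ideal.Quotient.mk (Ideal.span {f}) y := by
      intro x y h
      rw [← map_sub]
      exact map_dvd _ h
    fin_cases i <;> fin_cases j
    · have h := key (G.val 0 0) 1 (((hm2m.trans g00).add q00).trans (dvd_of_eq (by ring)))
      simpa using h
    · have h := key (G.val 0 1) 0 (((hm2m.trans g01).add q01).trans (dvd_of_eq (by ring)))
      simpa using h
    · have h := key (G.val 1 0) 0 (((hm2m.trans g10).add q10).trans (dvd_of_eq (by ring)))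
      simpa using h
    · have h := key (G.val 1 1) 1 (((hm2m.trans g11).add q11).trans (dvd_of_eq (by ring)))
      simpa using h
  · have key : ∀ x : O, π ∣ x → Ideal.Quotient.mk (Ideal.span {f}) π ∣
        Ideal.Quotient.mk (Ideal.span {f}) x := fun x h => map_dvd _ h
    intro i j
    rw [Units.val_mul, Units.val_mul, Units.val_mul]
    fin_cases i <;> fin_cases j
    · have h := key (G.val 0 1 + G.val 0 0 - G.val 1 0)
        (((r01.add r00).sub r10).trans (dvd_of_eq (by ring)))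
      simp only [map_add, map_sub] at h
      refine h.trans (dvd_of_eq ?_)
      simp [th, mk2, Matrix.mul_apply, Fin.sum_univ_two, hvf]
      ring
    · have h := key (-(G.val 0 0) - G.val 1 1) ((((r00.add r11).neg_right)).trans (dvd_of_eq (by ring)))
      simp only [map_neg, map_sub] at h
      refine h.trans (dvd_of_eq ?_)
      simp [th, mk2, Matrix.mul_apply, Fin.sum_univ_two, hvf]
      ring
    · have h := key (G.val 1 1 + G.val 0 0) (((r11.add r00)).trans (dvd_of_eq (by ring)))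
      simp only [map_add] at h
      refine h.trans (dvd_of_eq ?_)
      simp [th, mk2, Matrix.mul_apply, Fin.sum_univ_two, hvf]
    · have h := key (G.val 0 1 - G.val 1 0 - G.val 1 1) (((r01.sub r10).sub r11).trans (dvd_of_eq (by ring)))
      simp only [map_sub] at h
      refine h.trans (dvd_of_eq ?_)
      simp [th, mk2, Matrix.mul_apply, Fin.sum_univ_two, hvf]
      ring

end SerreW
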