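import Pool.Agent.SerreW.E_ED
import Pool.Agent.SerreW.E_N
import Pool.Agent.SerreW.E_W1
import Pool.Agent.SerreW.E_W2
import Pool.Agent.SerreW.E_NF

/-!
# EASM (3): existence of the twist data

`e_ed` gives `D : ED f k χ`; `e_n` gives `N`, `X`. `m = D.f' * ∏ p ∈ D.P, p = D.m`, `f = m s` from `D.P4`; `e`, `f₁`, `ψe`, `prim` from `D`.
`hrad`: `π ∣ f` prime: `π ∣ f'`, or `P2`: `π` is associated to some `p ∈ P`, `p ∣ ∏ P`.
`iota_mem`: `iota_th`. `X_iota`: second formula of `e_n` with `y = iota t`: `χ t * (ψe N t)⁻¹ * ψe (rdU _ (det (iota t))) = χ t` (`nmU t = det (iota t)` by rfl).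
`km`: `κ = 1` modulo `m`: `κ = 1` modulo `f'` and modulo each `p ∈ P`, so it commutes with `th` modulo `f'` and `p` (`1` does; `EqM.mul`), so `κ ∈ N`, and the second formula
with `t = 1`.
`wit`: `m = π m₂`. `π ∣ f'`: `f' = π g`, `m₂ = g ∏ P` (cancel `π`), `e_w1`: `κ = iota t` modulo `f'` so it commutes with `th` modulo `f'`; `p ∈ P` divides `m₂`, `κ = 1`
modulo `p`; `κ ∈ N`, `X κ = χ t * (ψe ..)⁻¹ * ψe 1 ≠ 1`. Otherwise `π ∣ ∏ P`, so `π ∣ p₀` for some `p₀ ∈ P` (`Prime.dvd_finsetProd_iff`),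
`π` is associated to `p₀`; `¬ π ∣ m₂`: `m₂ ~ f' ∏ (P \ p₀)`, `p₀ ∤ f'` and `p₀` is coprime to the other elements of `P`; so `e_w2` applies; all `q ∈ P`, `q ≠ p₀` divide `m₂`,
and `f' ∣ m₂` (`f' ∣ π m₂`, `π` coprime to `f'`). `κ ∈ N`, third formula: `X κ = -1 ≠ 1` because `k` has characteristic `3` (`CharP.cast_eq_zero`; `-1 = 1` gives `2 = 0`, `3 = 0`, `1 = 0`).
`mk p₀` and `mk π` divide the same elements (associated).
`nofix`: `e_nf`.
-/

open Matrix
open scoped QuadraticAlgebra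

namespace SerreW

open SerreT
open SerreE (mk2 sc dg dgl up low red Gam0 GamUp mem_Gam0 mem_GamUp PM Frame heckeC)

/-- a matrix which is `1` modulo `g` commutes with `th` modulo `g`. -/
theorem easm_one_th {R : Type*} [CommRing R] {g : R} {κ : GL (Fin 2) R} (h : EqM g κ 1) :
    EqM g (κ * th) (th * κ) := by
  have h1 := h.mul (EqM.refl g th)
  have h2 := (EqM.refl g th).mul h
  rw [one_mul] at h1
  rw [mul_one] at h2
  exact h1.trans h2.symm

/-- a matrix which is `iota t` modulo `g` commutes with `th` modulo `g`. -/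
theorem easm_iota_th {R : Type*} [CommRing R] {g : R} {κ : GL (Fin 2) R} (t : (Ti R)ˣ)
    (h : EqM g (iota t) κ) : EqM g (κ * th) (th * κ) := by
  have h1 := h.mul (EqM.refl g th)
  have h2 := (EqM.refl g th).mul h
  rw [iota_th] at h1
  exact h1.symm.trans h2

theorem easm_neg_one {k : Type} [Field k] [CharP k 3] : (-1 : kˣ) ≠ 1 := by
  intro h
  have h1 : (-1 : k) = 1 := by
    have := congrArg (fun u : kˣ => (u : k)) h
    simpa using this
  have h3 : ((3 : ℕ) : k) = 0 := CharP.cast_eq_zero k 3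
  have h2 : (1 : k) = 0 := by
    push_cast at h3
    linear_combination h3 + h1
  exact one_ne_zero h2

theorem exists_TW {O : Type} [CommRing O] [IsDomain O] [IsPrincipalIdealRing O]
    [Ring.HasFiniteQuotients O] {k : Type} [Field k] [IsAlgClosed k] [CharP k 3] (f : O)
    (hf : f ≠ 0) (hf3 : IsCoprime f 3) (χ : (Ti (O ⧸ Ideal.span {f}))ˣ →* kˣ)
    (hscal : ∀ u, χ (tiC u) = 1)
    (hcond : ∀ g : O, g ∣ f → ¬ f ∣ g → ∃ t : (Ti (O ⧸ Ideal.span {f}))ˣ,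
      Ideal.Quotient.mk (Ideal.span {f}) g ∣ t.val.re - 1 ∧
        Ideal.Quotient.mk (Ideal.span {f}) g ∣ t.val.im ∧ χ t ≠ 1)
    (hne : χ ^ 2 ≠ 1) : Nonempty (TW f k χ) := by
  classical
  obtain ⟨D⟩ := e_ed f hf χ hcond
  obtain ⟨N, X, hN, hX1, hX2⟩ := e_n f hf χ D
  obtain ⟨s, hs⟩ := D.P4
  have hmf : (D.f' * ∏ p ∈ D.P, p) ∣ f := D.P4
  have hf'm : D.f' ∣ D.f' * ∏ p ∈ D.P, p := Dvd.intro _ rfl
  have hpm : ∀ p ∈ D.P, p ∣ D.f' * ∏ p ∈ D.P, p := fun p hp =>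
    (Finset.dvd_prod_of_mem (fun p => p) hp).trans (Dvd.intro_left _ rfl)
  have hf'0 : D.f' ≠ 0 := by
    intro h
    exact hf (zero_dvd_iff.mp (h ▸ D.hf'))
  have hP0 : (∏ p ∈ D.P, p) ≠ 0 := Finset.prod_ne_zero_iff.mpr fun p hp => (D.P1 p hp).1.ne_zero
  have hiN : ∀ t, iota t ∈ N := fun t => (hN _).mpr
    ⟨mem_Cm.mpr (by rw [iota_th]; exact EqM.refl _ _),
      fun p _ => mem_Np.mpr (Or.inl (by rw [iota_th]; exact EqM.refl _ _))⟩
  have hmono : ∀ {a b : O}, a ∣ b → ∀ {x y : GL (Fin 2) (O ⧸ Ideal.span {f})},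
      EqM (Ideal.Quotient.mk (Ideal.span {f}) b) x y →
        EqM (Ideal.Quotient.mk (Ideal.span {f}) a) x y :=
    fun h _ _ hxy => EqM.mono (map_dvd _ h) hxy
  refine ⟨{ m := D.f' * ∏ p ∈ D.P, p, s := s, e := D.e, f1 := D.f1, hms := hs, hef := D.hef,
            hrad := ?_, ψe := D.ψe, prim := D.prim, N := N, X := X, iota_mem := hiN,
            X_iota := ?_, km := ?_, wit := ?_, nofix := ?_ }⟩
  · intro π hπ hπf
    by_cases h : π ∣ D.f'
    · exact h.trans hf'm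
    · obtain ⟨p, hp, hpa⟩ := D.P2 π hπ hπf h
      exact hpa.dvd.trans (hpm p hp)
  · intro t
    rw [hX1 ⟨iota t, hiN t⟩ t (EqM.refl _ _) (fun p _ => by
      change EqM _ (iota t * th) (th * iota t)
      rw [iota_th]; exact EqM.refl _ _)]
    change χ t * (D.ψe (rdU D.e_dvd (nmU t)))⁻¹ * D.ψe (rdU D.e_dvd (nmU t)) = χ t
    rw [inv_mul_cancel_right]
  · intro κ hκ
    have h1 := hmono hf'm hκ
    have h2 : ∀ p ∈ D.P, EqM (Ideal.Quotient.mk (Ideal.span {f}) p) κ 1 :=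
      fun p hp => hmono (hpm p hp) hκ
    have hκN : κ ∈ N := (hN _).mpr ⟨mem_Cm.mpr (easm_one_th h1),
      fun p hp => mem_Np.mpr (Or.inl (easm_one_th (h2 p hp)))⟩
    refine ⟨hκN, ?_⟩
    rw [hX1 ⟨κ, hκN⟩ 1 (by rw [map_one]; exact h1.symm) (fun p hp => easm_one_th (h2 p hp))]
    simp
  · intro π m₂ hπ hm
    by_cases hπf : π ∣ D.f'
    · obtain ⟨g, hg⟩ := hπf
      obtain ⟨t, κ, hdet, h1, h2, h3⟩ := e_w1 f hf χ D π g hπ hg
      have hm2 : m₂ = g * ∏ p ∈ D.P, p := by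
        apply mul_left_cancel₀ hπ.ne_zero
        rw [← hm, ← mul_assoc, ← hg]
      have h4 : ∀ p ∈ D.P, EqM (Ideal.Quotient.mk (Ideal.span {f}) p) κ 1 := fun p hp =>
        hmono ((Finset.dvd_prod_of_mem (fun p => p) hp).trans (Dvd.intro_left _ rfl)) h2
      have hκN : κ ∈ N := (hN _).mpr ⟨mem_Cm.mpr (easm_iota_th t h1),
        fun p hp => mem_Np.mpr (Or.inl (easm_one_th (h4 p hp)))⟩
      refine ⟨κ, hκN, hdet, ?_, ?_⟩
      · rw [hm2]; exact h2
      · rw [hX1 ⟨κ, hκN⟩ t h1 (fun p hp => easm_one_th (h4 p hp))]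
        change χ t * (D.ψe (rdU D.e_dvd (nmU t)))⁻¹ *
          D.ψe (rdU D.e_dvd (Matrix.GeneralLinearGroup.det κ)) ≠ 1
        rw [hdet, map_one, map_one, mul_one]
        intro h
        exact h3 (mul_inv_eq_one.mp h)
    · have hπm : π ∣ D.f' * ∏ p ∈ D.P, p := ⟨m₂, hm⟩
      have hπP : π ∣ ∏ p ∈ D.P, p := (hπ.dvd_or_dvd hπm).resolve_left hπf
      obtain ⟨p₀, hp₀, hπp⟩ := (Prime.dvd_finsetProd_iff hπ _).mp hπP
      have hass : Associated π p₀ := hπ.associated_of_dvd (D.P1 p₀ hp₀).1 hπp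
      have hprod : ∏ p ∈ D.P, p = p₀ * ∏ p ∈ D.P.erase p₀, p :=
        (Finset.mul_prod_erase D.P (fun p => p) hp₀).symm
      obtain ⟨u, hu⟩ := hass
      have hm2 : m₂ = (u : O) * (D.f' * ∏ p ∈ D.P.erase p₀, p) := by
        apply mul_left_cancel₀ hπ.ne_zero
        rw [← hm, hprod, ← hu]
        ring
      have hc : ¬ π ∣ m₂ := by
        rw [hm2]
        intro h
        have h5 : π ∣ D.f' * ∏ p ∈ D.P.erase p₀, p := by
          rcases hπ.dvd_or_dvd h with h | h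
          · exact absurd (isUnit_of_dvd_unit h u.isUnit) hπ.not_isUnit
          · exact h
        have h6 := (hπ.dvd_or_dvd h5).resolve_left hπf
        obtain ⟨q, hq, hπq⟩ := (Prime.dvd_finsetProd_iff hπ _).mp h6
        have hq' := Finset.mem_erase.mp hq
        have hcop := D.P3 p₀ hp₀ q hq'.2 (Ne.symm hq'.1)
        exact hπ.not_isUnit (hcop.isUnit_of_dvd' hπp hπq)
      obtain ⟨κ, hdet, h1, h2⟩ := e_w2 f (D.f' * ∏ p ∈ D.P, p) π m₂ hf hf3 hmf hm hπ hc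
      have hf'2 : D.f' ∣ m₂ := by
        rw [hm2]
        exact (Dvd.intro _ rfl : D.f' ∣ D.f' * ∏ p ∈ D.P.erase p₀, p).trans (Dvd.intro_left _ rfl)
      have hκf' : EqM (Ideal.Quotient.mk (Ideal.span {f}) D.f') κ 1 := hmono hf'2 h1
      have hκq : ∀ q ∈ D.P, q ≠ p₀ → EqM (Ideal.Quotient.mk (Ideal.span {f}) q) κ 1 := by
        intro q hq hne'
        apply hmono _ h1
        rw [hm2]
        exact ((Finset.dvd_prod_of_mem (fun p => p) (Finset.mem_erase.mpr ⟨hne', hq⟩)).trans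
          (Dvd.intro_left _ rfl)).trans (Dvd.intro_left _ rfl)
      have hκp : EqM (Ideal.Quotient.mk (Ideal.span {f}) p₀) (κ * th) (th * th * κ) := by
        apply hmono _ h2
        exact ⟨((u⁻¹ : Oˣ) : O), by rw [← hu, mul_assoc, Units.mul_inv, mul_one]⟩
      have hκN : κ ∈ N := by
        refine (hN _).mpr ⟨mem_Cm.mpr (easm_one_th hκf'), fun p hp => mem_Np.mpr ?_⟩
        by_cases hpp : p = p₀
        · right
          rw [hpp]
          exact hκp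
        · left
          exact easm_one_th (hκq p hp hpp)
      refine ⟨κ, hκN, hdet, h1, ?_⟩
      rw [hX2 ⟨κ, hκN⟩ p₀ hp₀ hκf' hdet (fun p hp hpp => easm_one_th (hκq p hp hpp)) hκp]
      exact easm_neg_one
  · intro γ hγ h2
    exact e_nf f χ D hscal hne γ ((hN _).mp hγ).1 h2

end SerreW
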