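import Pool.Agent.SerreW.DEEP

/-!
# Part E: definitions for the construction of the twist data
-/

open Matrix
open scoped QuadraticAlgebra

namespace SerreW

open SerreT
open SerreE (mk2 sc dg dgl up low red Gam0 GamUp mem_Gam0 mem_GamUp PM Frame heckeC)

section
variable {R : Type*} [CommRing R]

/-- the norm of a unit of `R[ζ]`. -/
def nmU : (Ti R)ˣ →* Rˣ := Matrix.GeneralLinearGroup.det.comp iota

theorem nmU_eq (t : (Ti R)ˣ) : nmU t = Matrix.GeneralLinearGroup.det (iota t) := rfl

theorem nmU_val (t : (Ti R)ˣ) :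
    (nmU t : R) = t.val.re * (t.val.re - t.val.im) + t.val.im * t.val.im := by
  rw [nmU_eq, Matrix.GeneralLinearGroup.val_det_apply, iota_val, Matrix.det_fin_two]
  simp
  
/-- matrices which commute with `th` modulo `g`. -/
def Cm (g : R) : Subgroup (GL (Fin 2) R) where
  carrier := {y | EqM g (y * th) (th * y)}
  one_mem' := by
    change EqM g (1 * th) (th * 1)
    rw [one_mul, mul_one]
    exact EqM.refl _ _
  mul_mem' := by
    intro a b ha hb
    change EqM g (a * b * th) (th * (a * b))
    have h1 := (EqM.refl g a).mul hb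
    have h2 := EqM.mul ha (EqM.refl g b)
    rw [← mul_assoc, ← mul_assoc] at h1
    rw [← mul_assoc]
    exact h1.trans h2
  inv_mem' := by
    intro a ha
    change EqM g (a⁻¹ * th) (th * a⁻¹)
    have h1 := ((EqM.refl g a⁻¹).mul ha).mul (EqM.refl g a⁻¹)
    have e1 : a⁻¹ * (a * th) * a⁻¹ = th * a⁻¹ := by group
    have e2 : a⁻¹ * (th * a) * a⁻¹ = a⁻¹ * th := by group
    rw [e1, e2] at h1
    exact h1.symm

theorem mem_Cm {g : R} {y : GL (Fin 2) R} : y ∈ Cm g ↔ EqM g (y * th) (th * y) := Iff.rfl

theorem th3 : (th * th * th : GL (Fin 2) R) = 1 := by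
  apply Matrix.GeneralLinearGroup.ext
  intro i j
  rw [Units.val_mul, Units.val_mul]
  fin_cases i <;> fin_cases j <;> simp [th, mk2, Matrix.mul_apply, Fin.sum_univ_two]

/-- matrices `y` with `y th = th y` or `y th = th² y` modulo `g`. -/
def Np (g : R) : Subgroup (GL (Fin 2) R) where
  carrier := {y | EqM g (y * th) (th * y) ∨ EqM g (y * th) (th * th * y)}
  one_mem' := by
    left
    rw [one_mul, mul_one]
    exact EqM.refl _ _
  mul_mem' := by
    intro a b ha hb
    rcases hb with hb | hb
    · -- b th = th b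
      have h1 := (EqM.refl g a).mul hb
      rcases ha with ha | ha
      · left
        have h2 := EqM.mul ha (EqM.refl g b)
        have e1 : a * (b * th) = a * b * th := by group
        have e2 : a * (th * b) = a * th * b := by group
        have e3 : th * a * b = th * (a * b) := by group
        rw [e1, e2] at h1
        rw [e3] at h2
        exact h1.trans h2
      · right
        have h2 := EqM.mul ha (EqM.refl g b)
        have e1 : a * (b * th) = a * b * th := by group
        have e2 : a * (th * b) = a * th * b := by group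
        have e3 : th * th * a * b = th * th * (a * b) := by group
        rw [e1, e2] at h1
        rw [e3] at h2
        exact h1.trans h2
    · -- b th = th² b
      have h1 := (EqM.refl g a).mul hb
      rcases ha with ha | ha
      · right
        have h2 := (EqM.mul ha (EqM.refl g (th * b)))
        have h3 := (EqM.refl g th).mul (EqM.mul ha (EqM.refl g b))
        have e1 : a * (b * th) = a * b * th := by group
        have e2 : a * (th * th * b) = a * th * (th * b) := by group
        have e3 : th * a * (th * b) = th * (a * th * b) := by group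
        have e4 : th * (th * a * b) = th * th * (a * b) := by group
        rw [e1, e2] at h1
        rw [e3] at h2
        rw [e4] at h3
        exact (h1.trans h2).trans h3
      · left
        have h2 := (EqM.mul ha (EqM.refl g (th * b)))
        have h3 := (EqM.refl g (th * th)).mul (EqM.mul ha (EqM.refl g b))
        have e1 : a * (b * th) = a * b * th := by group
        have e2 : a * (th * th * b) = a * th * (th * b) := by group
        have e3 : th * th * a * (th * b) = th * th * (a * th * b) := by group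
        have e4 : th * th * (th * th * a * b) = th * (a * b) := by
          have : th * th * (th * th * a * b) = th * th * th * (th * (a * b)) := by group
          rw [this, th3, one_mul]
        rw [e1, e2] at h1
        rw [e3] at h2
        rw [e4] at h3
        exact (h1.trans h2).trans h3
  inv_mem' := by
    intro a ha
    rcases ha with ha | ha
    · left
      have h1 := ((EqM.refl g a⁻¹).mul ha).mul (EqM.refl g a⁻¹)
      have e1 : a⁻¹ * (a * th) * a⁻¹ = th * a⁻¹ := by group
      have e2 : a⁻¹ * (th * a) * a⁻¹ = a⁻¹ * th := by group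
      rw [e1, e2] at h1
      exact h1.symm
    · right
      have h1 := ((EqM.refl g a⁻¹).mul ha).mul (EqM.refl g a⁻¹)
      have e1 : a⁻¹ * (a * th) * a⁻¹ = th * a⁻¹ := by group
      have e2 : a⁻¹ * (th * th * a) * a⁻¹ = a⁻¹ * (th * th) := by group
      rw [e1, e2] at h1
      -- th a⁻¹ = a⁻¹ th²
      have h2 := (EqM.refl g th).mul h1
      have h3 := h1.mul (EqM.refl g (th * th))
      have e3 : th * (th * a⁻¹) = th * th * a⁻¹ := by group
      have e4 : th * (a⁻¹ * (th * th)) = th * a⁻¹ * (th * th) := by group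
      have e5 : a⁻¹ * (th * th) * (th * th) = a⁻¹ * th := by
        have : a⁻¹ * (th * th) * (th * th) = a⁻¹ * (th * th * th) * th := by group
        rw [this, th3, mul_one]
      rw [e3, e4] at h2
      rw [e5] at h3
      exact (h2.trans h3).symm

theorem mem_Np {g : R} {y : GL (Fin 2) R} :
    y ∈ Np g ↔ EqM g (y * th) (th * y) ∨ EqM g (y * th) (th * th * y) := Iff.rfl

theorem iota_th (t : (Ti R)ˣ) : iota t * th = th * iota t := by
  apply Matrix.GeneralLinearGroup.ext
  intro i j
  rw [Units.val_mul, Units.val_mul]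
  fin_cases i <;> fin_cases j <;>
    simp [th, mk2, iota_val, Matrix.mul_apply, Fin.sum_univ_two] <;> ring

end

section
variable {O : Type} [CommRing O]

/-- `t ≡ 1` modulo `g`. -/
def One1 {f : O} (g : O) (t : (Ti (O ⧸ Ideal.span {f}))ˣ) : Prop :=
  Ideal.Quotient.mk (Ideal.span {f}) g ∣ t.val.re - 1 ∧
    Ideal.Quotient.mk (Ideal.span {f}) g ∣ t.val.im

variable {k : Type} [Field k]

/-- `χ` is a function of the norm on the elements which are `1` modulo `g`. -/
def PP (f : O) (χ : (Ti (O ⧸ Ideal.span {f}))ˣ →* kˣ) (g : O) : Prop :=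
  ∃ ψ : (O ⧸ Ideal.span {f})ˣ →* kˣ, ∀ t, One1 g t → χ t = ψ (nmU t)

/-- The data of steps E1 - E6. -/
structure ED (f : O) (k : Type) [Field k] (χ : (Ti (O ⧸ Ideal.span {f}))ˣ →* kˣ) where
  f' : O
  hf' : f' ∣ f
  e : O
  f1 : O
  hef : f = e * f1
  hf1 : f1 ∣ f'
  hcop : IsCoprime e f1
  he : ∀ π : O, Prime π → π ∣ e → π * f' ∣ f
  ψe : (O ⧸ Ideal.span {e})ˣ →* kˣ
  prim : ∀ π e₂ : O, Prime π → e = π * e₂ → ∃ c : (O ⧸ Ideal.span {e})ˣ,
    Ideal.Quotient.mk (Ideal.span {e}) e₂ ∣ (c : O ⧸ Ideal.span {e}) - 1 ∧ ψe c ≠ 1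
  hχ : ∀ t, One1 f' t → χ t = ψe (rdU (Dvd.intro _ hef.symm) (nmU t))
  w1 : ∀ π g : O, Prime π → f' = π * g → ∃ t : (Ti (O ⧸ Ideal.span {f}))ˣ, One1 g t ∧
    Ideal.Quotient.mk (Ideal.span {f}) f' ∣ (nmU t : O ⧸ Ideal.span {f}) - 1 ∧
      χ t ≠ ψe (rdU (Dvd.intro _ hef.symm) (nmU t))
  P : Finset O
  P1 : ∀ p ∈ P, Prime p ∧ p ∣ f ∧ ¬ p ∣ f'
  P2 : ∀ π : O, Prime π → π ∣ f → ¬ π ∣ f' → ∃ p ∈ P, Associated π p
  P3 : ∀ p ∈ P, ∀ q ∈ P, p ≠ q → IsCoprime p q
  P4 : f' * ∏ p ∈ P, p ∣ f

namespace ED

variable {f : O} {χ : (Ti (O ⧸ Ideal.span {f}))ˣ →* kˣ} (D : ED f k χ)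

theorem e_dvd : D.e ∣ f := Dvd.intro _ D.hef.symm

/-- `m = f' ∏ P`. -/
def m : O := D.f' * ∏ p ∈ D.P, p

end ED

end

end SerreW
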