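import Mathlib

/-!
# E_PR (3): representatives of the primes which divide `f` and not `f'`

PURE. Let `A` be the finite set of classes `Associates.mk p` of the prime factors `p` of `f` (`UniqueFactorizationMonoid.factors f`, as a
Multiset, `.toFinset` classically) with `¬ p ∣ f'`, and `P` the image of `A` under `Quotient.out` (a representative of each class; it is
associated to `p`, so prime, divides `f` and not `f'`). Two different elements of `P` are not associated (their classes are different), so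
they are coprime (primes in a PID: `Prime.coprime_iff_not_dvd`, `Prime.associated_of_dvd` / `Irreducible`). A prime `π ∣ f` is associated to a factor
(`UniqueFactorizationMonoid.exists_mem_factors_of_dvd`). Last: `∏ p ∈ P, p ∣ f` by `Finset.prod_dvd_of_coprime`, `f'` is coprime to `∏ P`
(`IsCoprime.prod_right`, each `p ∤ f'`), so `f' * ∏ P ∣ f` (`IsCoprime.mul_dvd`).
-/

namespace SerreW

theorem e_pr {O : Type*} [CommRing O] [IsDomain O] [IsPrincipalIdealRing O] (f f' : O)
    (hf : f ≠ 0) (hd : f' ∣ f) : ∃ P : Finset O, (∀ p ∈ P, Prime p ∧ p ∣ f ∧ ¬ p ∣ f') ∧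
      (∀ π : O, Prime π → π ∣ f → ¬ π ∣ f' → ∃ p ∈ P, Associated π p) ∧
      (∀ p ∈ P, ∀ q ∈ P, p ≠ q → IsCoprime p q) ∧ f' * ∏ p ∈ P, p ∣ f := by
  classical
  set B : Finset O := (UniqueFactorizationMonoid.factors f).toFinset.filter (fun p => ¬ p ∣ f')
    with hB
  set P : Finset O := (B.image Associates.mk).image Quotient.out with hP
  have hmk : ∀ a : Associates O, Associates.mk (Quotient.out a) = a := fun a => Quotient.out_eq a
  have hrep : ∀ p ∈ P, ∃ q ∈ B, Associated p q ∧ p = Quotient.out (Associates.mk p) := by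
    intro p hp
    obtain ⟨a, ha, rfl⟩ := Finset.mem_image.mp hp
    obtain ⟨q, hq, rfl⟩ := Finset.mem_image.mp ha
    refine ⟨q, hq, Associates.mk_eq_mk_iff_associated.mp (hmk _), ?_⟩
    rw [hmk]
  have hB1 : ∀ q ∈ B, Prime q ∧ q ∣ f ∧ ¬ q ∣ f' := by
    intro q hq
    obtain ⟨h1, h2⟩ := Finset.mem_filter.mp hq
    have h3 := Multiset.mem_toFinset.mp h1
    exact ⟨UniqueFactorizationMonoid.prime_of_factor q h3,
      UniqueFactorizationMonoid.dvd_of_mem_factors h3, h2⟩
  have h1 : ∀ p ∈ P, Prime p ∧ p ∣ f ∧ ¬ p ∣ f' := by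
    intro p hp
    obtain ⟨q, hq, hpq, _⟩ := hrep p hp
    obtain ⟨q1, q2, q3⟩ := hB1 q hq
    exact ⟨hpq.symm.prime q1, hpq.dvd.trans q2, fun h => q3 (hpq.symm.dvd.trans h)⟩
  have h3 : ∀ p ∈ P, ∀ q ∈ P, p ≠ q → IsCoprime p q := by
    intro p hp q hq hne
    rw [Prime.coprime_iff_not_dvd (h1 p hp).1]
    intro hd
    apply hne
    obtain ⟨_, _, _, ep⟩ := hrep p hp
    obtain ⟨_, _, _, eq⟩ := hrep q hq
    have ha : Associated p q := (h1 p hp).1.associated_of_dvd (h1 q hq).1 hd
    rw [ep, eq, Associates.mk_eq_mk_iff_associated.mpr ha]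
  refine ⟨P, h1, ?_, h3, ?_⟩
  · intro π hπ hπf hπf'
    obtain ⟨q, hq, hπq⟩ := UniqueFactorizationMonoid.exists_mem_factors_of_dvd hf hπ.irreducible hπf
    have hqB : q ∈ B := by
      rw [hB, Finset.mem_filter, Multiset.mem_toFinset]
      exact ⟨hq, fun h => hπf' (hπq.dvd.trans h)⟩
    refine ⟨Quotient.out (Associates.mk q), Finset.mem_image_of_mem _ (Finset.mem_image_of_mem _ hqB),
      ?_⟩
    exact hπq.trans (Associates.mk_eq_mk_iff_associated.mp (hmk _)).symm
  · have hco : IsCoprime f' (∏ p ∈ P, p) := by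
      refine IsCoprime.prod_right fun p hp => ?_
      have h := (Prime.coprime_iff_not_dvd (h1 p hp).1).mpr (h1 p hp).2.2
      exact h.symm
    refine hco.mul_dvd hd ?_
    exact Finset.prod_dvd_of_coprime (fun p hp q hq hne => h3 p hp q hq hne)
      (fun p hp => (h1 p hp).2.1)

end SerreW
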