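import Pool.Agent.SerreW.EDefs

/-!
# E_PSI (3): the component `ψe` of `ψ`

`f = e f₁`, `e`, `f₁` coprime. The subgroup `U₁ = {u ∈ (O/f)ˣ | mk f₁ ∣ u - 1}` maps isomorphically to `(O/e)ˣ` under `rdU`:
injective: if `u ∈ U₁` and `u ≡ 1` modulo `e` then `u ≡ 1` modulo `e f₁ = f`. Surjective: `a e + b f₁ = 1`, `c ∈ (O/e)ˣ` with
inverse `c'`, lifts `x`, `x'` in `O`: `u = mk (x b f₁ + a e)`, `u' = mk (x' b f₁ + a e)`, `u u' = 1` (check modulo `e` and modulo `f₁`,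
or compute: `b f₁ ≡ 1` modulo `e`), `u ≡ c` modulo `e`, `u ≡ 1` modulo `f₁`. `ψe = ψ ∘ (the inverse)` (`MulEquiv.ofBijective`).
Useful: membership `Ideal.Quotient.mk f₁ ∣ mk x ↔ f₁ ∣ x` for `f₁ ∣ f`.
-/

open Matrix
open scoped QuadraticAlgebra

namespace SerreW

open SerreT
open SerreE (mk2 sc dg dgl up low red Gam0 GamUp mem_Gam0 mem_GamUp PM Frame heckeC)

section
variable {O : Type} [CommRing O]

/-- the isomorphism of the Chinese remainder theorem -/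
noncomputable def e_psi_iso (f e f1 : O) (hef : f = e * f1) (hc : IsCoprime e f1) :
    (O ⧸ Ideal.span {f}) ≃+* (O ⧸ Ideal.span {e}) × (O ⧸ Ideal.span {f1}) :=
  (Ideal.quotEquivOfEq (by rw [hef, Ideal.span_singleton_mul_span_singleton])).trans
    (Ideal.quotientMulEquivQuotientProd (Ideal.span {e}) (Ideal.span {f1})
      ((Ideal.isCoprime_span_singleton_iff _ _).mpr hc))

theorem e_psi_iso_mk (f e f1 : O) (hef : f = e * f1) (hc : IsCoprime e f1) (x : O) :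
    e_psi_iso f e f1 hef hc (Ideal.Quotient.mk _ x) =
      (Ideal.Quotient.mk _ x, Ideal.Quotient.mk _ x) := rfl

/-- the section -/
noncomputable def e_psi_s (f e f1 : O) (hef : f = e * f1) (hc : IsCoprime e f1) :
    (O ⧸ Ideal.span {e})ˣ →* (O ⧸ Ideal.span {f})ˣ :=
  (Units.map (e_psi_iso f e f1 hef hc).symm.toMonoidHom).comp
    ((MulEquiv.prodUnits.symm.toMonoidHom).comp
      (MonoidHom.prod (MonoidHom.id _) (1 : (O ⧸ Ideal.span {e})ˣ →* (O ⧸ Ideal.span {f1})ˣ)))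

theorem e_psi_s_val (f e f1 : O) (hef : f = e * f1) (hc : IsCoprime e f1)
    (c : (O ⧸ Ideal.span {e})ˣ) :
    e_psi_iso f e f1 hef hc (e_psi_s f e f1 hef hc c).val = (c.val, 1) :=
  (e_psi_iso f e f1 hef hc).apply_symm_apply _

theorem e_psi_s_rd (f e f1 : O) (hef : f = e * f1) (hc : IsCoprime e f1)
    (u : (O ⧸ Ideal.span {f})ˣ)
    (hu : Ideal.Quotient.mk (Ideal.span {f}) f1 ∣ (u : O ⧸ Ideal.span {f}) - 1) :
    e_psi_s f e f1 hef hc (rdU (Dvd.intro _ hef.symm) u) = u := by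
  apply Units.ext
  apply (e_psi_iso f e f1 hef hc).injective
  rw [e_psi_s_val]
  obtain ⟨x, hx⟩ := Ideal.Quotient.mk_surjective (u : O ⧸ Ideal.span {f})
  have h1 : (rdU (Dvd.intro _ hef.symm : e ∣ f) u).val = Ideal.Quotient.mk (Ideal.span {e}) x := by
    change rd _ (u : O ⧸ Ideal.span {f}) = _
    rw [← hx, rd_mk]
  have h2 : Ideal.Quotient.mk (Ideal.span {f1}) x = 1 := by
    rw [← hx] at hu
    obtain ⟨y', hy⟩ := hu
    obtain ⟨y, rfl⟩ := Ideal.Quotient.mk_surjective y'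
    rw [← map_one (Ideal.Quotient.mk (Ideal.span {f})), ← map_sub, ← map_mul, Ideal.Quotient.eq,
      Ideal.mem_span_singleton] at hy
    rw [← map_one (Ideal.Quotient.mk (Ideal.span {f1})), Ideal.Quotient.eq,
      Ideal.mem_span_singleton]
    obtain ⟨z, hz⟩ := hy
    refine ⟨e * z + y, ?_⟩
    rw [hef] at hz
    linear_combination hz
  rw [h1, ← hx, e_psi_iso_mk, h2]

end

theorem e_psi {O : Type} [CommRing O] [IsDomain O] {k : Type} [Field k] (f e f1 : O)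
    (hef : f = e * f1) (hc : IsCoprime e f1) (ψ : (O ⧸ Ideal.span {f})ˣ →* kˣ) :
    ∃ ψe : (O ⧸ Ideal.span {e})ˣ →* kˣ, ∀ u : (O ⧸ Ideal.span {f})ˣ,
      Ideal.Quotient.mk (Ideal.span {f}) f1 ∣ (u : O ⧸ Ideal.span {f}) - 1 →
        ψ u = ψe (rdU (Dvd.intro _ hef.symm) u) := by
  refine ⟨ψ.comp (e_psi_s f e f1 hef hc), fun u hu => ?_⟩
  rw [MonoidHom.comp_apply, e_psi_s_rd f e f1 hef hc u hu]

end SerreW
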