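import Mathlib

/-!
# E_EXT (3): extension of characters, `k` algebraically closed of any characteristic
-/

namespace SerreW

theorem e_ext_div (k : Type*) [Field k] [IsAlgClosed k] {n : ℤ} (hn : n ≠ 0) :
    Function.Surjective fun a : Additive kˣ => n • a := by
  have key : ∀ m : ℕ, 0 < m → ∀ a : kˣ, ∃ b : kˣ, b ^ m = a := by
    intro m hm a
    obtain ⟨z, hz⟩ := IsAlgClosed.exists_pow_nat_eq (a : k) hm
    have hz0 : z ≠ 0 := by
      rintro rfl
      rw [zero_pow hm.ne'] at hz
      exact a.ne_zero hz.symm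
    exact ⟨Units.mk0 z hz0, Units.ext (by simpa using hz)⟩
  intro a
  rcases Int.natAbs_eq n with h | h
  · obtain ⟨b, hb⟩ := key n.natAbs (Int.natAbs_pos.mpr hn) a.toMul
    refine ⟨Additive.ofMul b, ?_⟩
    apply Additive.toMul.injective
    show (b ^ n : kˣ) = a.toMul
    rw [h, zpow_natCast, hb]
  · obtain ⟨b, hb⟩ := key n.natAbs (Int.natAbs_pos.mpr hn) (a.toMul)⁻¹
    refine ⟨Additive.ofMul b, ?_⟩
    apply Additive.toMul.injective
    show (b ^ n : kˣ) = a.toMul
    rw [h, zpow_neg, zpow_natCast, hb, inv_inv]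

theorem e_ext {G : Type*} [CommGroup G] [Finite G] (H : Subgroup G) {k : Type*} [Field k]
    [IsAlgClosed k] (φ : H →* kˣ) : ∃ ψ : G →* kˣ, ∀ h : H, ψ h.val = φ h := by
  letI : DivisibleBy (Additive kˣ) ℤ :=
    divisibleByOfSMulRightSurj (Additive kˣ) ℤ fun {n} hn => e_ext_div k hn
  have hB : Module.Baer ℤ (Additive kˣ) := Module.Baer.of_divisible _
  obtain ⟨g, hg⟩ := hB.extension_property_addMonoidHom (MonoidHom.toAdditive H.subtype)
    (fun a b h => by
      have : ((Additive.toMul a : H) : G) = ((Additive.toMul b : H) : G) := h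
      exact Additive.toMul.injective (Subtype.ext this)) (MonoidHom.toAdditive φ)
  refine ⟨MonoidHom.toAdditive.symm g, fun h => ?_⟩
  have h1 := DFunLike.congr_fun hg (Additive.ofMul h)
  exact h1

end SerreW
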