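import Pool.Agent.SerreW.EDefs
import Pool.Agent.SerreW.E_EXT

/-!
# E_WIT1 (3): a witness on which `χ` differs from `ψ ∘ N`

By contradiction: assume that `χ t = ψ (nmU t)` for all `t` with `One1 g t` and `mk f' ∣ nmU t - 1`. The set
`T = {t | One1 g t}` is a subgroup of `(Ti (O/f))ˣ` (`g ∣ f`, kernel of the reduction modulo `g`, or check directly: `t t' - 1 =
(t - 1) t' + (t' - 1)`, entries). The map `ν : T → (O/f')ˣ`, `ν t = rdU hd (nmU t)` (`hd : f' ∣ f`) is a homomorphism,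
`ν t = 1 ↔ mk f' ∣ nmU t - 1` in `O/f`. `χ' t = χ t * (ψ (nmU t))⁻¹` is a homomorphism on `T` which is trivial on `ker ν`. So it
factors through the range of `ν`: `φ : ν.range →* kˣ`, `φ (ν t) = χ' t` (e.g. `MonoidHom.liftOfSurjective` for
`ν.rangeRestrict`, or `QuotientGroup.lift` and `QuotientGroup.quotientKerEquivRange`). By `e_ext` (`(O/f')ˣ` is finite:
`f' ≠ 0` and `Ring.HasFiniteQuotients`) `φ` extends to `ψ' : (O/f')ˣ →* kˣ`. Then `χ t = (ψ * ψ'.comp (rdU hd)) (nmU t)` for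
`One1 g t`, i.e. `PP f χ g`.
-/

open Matrix
open scoped QuadraticAlgebra

namespace SerreW

open SerreT
open SerreE (mk2 sc dg dgl up low red Gam0 GamUp mem_Gam0 mem_GamUp PM Frame heckeC)

theorem e_wit1_iff {O : Type} [CommRing O] {f : O} (g : O) (t : (Ti (O ⧸ Ideal.span {f}))ˣ) :
    One1 g t ↔ EqM (Ideal.Quotient.mk (Ideal.span {f}) g) (iota t) 1 := by
  constructor
  · rintro ⟨h1, h2⟩ i j
    fin_cases i <;> fin_cases j
    · simpa [iota_val] using h1
    · simpa [iota_val] using h2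
    · simpa [iota_val] using h2
    · have h3 := dvd_sub h1 h2
      have e : t.val.re - 1 - t.val.im = t.val.re - t.val.im - 1 := by ring
      rw [e] at h3
      simpa [iota_val] using h3
  · intro h
    constructor
    · simpa [iota_val] using h 0 0
    · simpa [iota_val] using h 1 0

/-- the elements of the torus which are `1` modulo `g` -/
def e_wit1_T {R : Type} [CommRing R] (g : R) : Subgroup (Ti R)ˣ where
  carrier := {t | EqM g (iota t) 1}
  one_mem' := by
    change EqM g (iota 1) 1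
    rw [map_one]
    exact EqM.refl _ _
  mul_mem' := by
    intro a b ha hb
    change EqM g (iota (a * b)) 1
    rw [map_mul]
    simpa using EqM.mul ha hb
  inv_mem' := by
    intro a ha
    change EqM g (iota a⁻¹) 1
    rw [map_inv]
    simpa using EqM.inv ha

theorem e_wit1_dvd {O : Type} [CommRing O] {f f' : O} (hd : f' ∣ f) (u : (O ⧸ Ideal.span {f})ˣ)
    (h : rdU hd u = 1) :
    Ideal.Quotient.mk (Ideal.span {f}) f' ∣ (u : O ⧸ Ideal.span {f}) - 1 := by
  have h1 : rd hd (u : O ⧸ Ideal.span {f}) = 1 := congrArg Units.val h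
  obtain ⟨x, hx⟩ := Ideal.Quotient.mk_surjective (u : O ⧸ Ideal.span {f})
  rw [← hx, rd_mk, ← map_one (Ideal.Quotient.mk (Ideal.span {f'})), Ideal.Quotient.eq,
    Ideal.mem_span_singleton] at h1
  rw [← hx, ← map_one (Ideal.Quotient.mk (Ideal.span {f})), ← map_sub]
  exact map_dvd _ h1

theorem e_wit1 {O : Type} [CommRing O] [IsDomain O] [IsPrincipalIdealRing O]
    [Ring.HasFiniteQuotients O] {k : Type} [Field k] [IsAlgClosed k]
    (f f' : O) (hf : f ≠ 0) (hd : f' ∣ f) (χ : (Ti (O ⧸ Ideal.span {f}))ˣ →* kˣ)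
    (ψ : (O ⧸ Ideal.span {f})ˣ →* kˣ) (g : O) (hg : g ∣ f') (hnot : ¬ PP f χ g) :
    ∃ t : (Ti (O ⧸ Ideal.span {f}))ˣ, One1 g t ∧
      Ideal.Quotient.mk (Ideal.span {f}) f' ∣ (nmU t : O ⧸ Ideal.span {f}) - 1 ∧
        χ t ≠ ψ (nmU t) := by
  by_contra hcon
  push Not at hcon
  apply hnot
  set T : Subgroup (Ti (O ⧸ Ideal.span {f}))ˣ := e_wit1_T (Ideal.Quotient.mk (Ideal.span {f}) g) with hT
  have hmemT : ∀ t, t ∈ T ↔ One1 g t := fun t => (e_wit1_iff g t).symm
  set ν : T →* (O ⧸ Ideal.span {f'})ˣ := (rdU hd).comp (nmU.comp T.subtype) with hν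
  set χ' : T →* kˣ := (χ.comp T.subtype) * (ψ.comp (nmU.comp T.subtype))⁻¹ with hχ'
  have hker : ν.ker ≤ χ'.ker := by
    intro t ht
    rw [MonoidHom.mem_ker] at ht ⊢
    have h1 : rdU hd (nmU t.val) = 1 := ht
    have h2 : Ideal.Quotient.mk (Ideal.span {f}) f' ∣ (nmU t.val : O ⧸ Ideal.span {f}) - 1 :=
      e_wit1_dvd hd _ h1
    have h3 := hcon t.val ((hmemT _).mp t.2) h2
    change χ t.val * (ψ (nmU t.val))⁻¹ = 1
    rw [h3, mul_inv_cancel]
  have hsurj : Function.Surjective ν.rangeRestrict := ν.rangeRestrict_surjective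
  have hker' : ν.rangeRestrict.ker ≤ χ'.ker := by
    rw [MonoidHom.ker_rangeRestrict]
    exact hker
  set φ : ν.range →* kˣ := ν.rangeRestrict.liftOfRightInverse (Function.surjInv hsurj)
    (Function.rightInverse_surjInv hsurj) ⟨χ', hker'⟩ with hφ
  have hφν : ∀ t : T, φ (ν.rangeRestrict t) = χ' t := fun t =>
    ν.rangeRestrict.liftOfRightInverse_comp_apply _ _ ⟨χ', hker'⟩ t
  have hf'0 : f' ≠ 0 := by
    rintro rfl
    exact hf (zero_dvd_iff.mp hd)
  have hfin : Finite (O ⧸ Ideal.span {f'}) := by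
    apply Ring.HasFiniteQuotients.finiteQuotient
    rw [Ne, Ideal.span_singleton_eq_bot]
    exact hf'0
  obtain ⟨ψ', hψ'⟩ := e_ext ν.range φ
  refine ⟨ψ * ψ'.comp (rdU hd), fun t ht => ?_⟩
  have h1 := hψ' (ν.rangeRestrict ⟨t, (hmemT t).mpr ht⟩)
  rw [hφν] at h1
  have h2 : ψ' (rdU hd (nmU t)) = χ t * (ψ (nmU t))⁻¹ := h1
  rw [MonoidHom.mul_apply, MonoidHom.comp_apply, h2, mul_comm (χ t), mul_inv_cancel_left]

end SerreW
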