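import Pool.Agent.SerreW.E_LEV
import Pool.Agent.SerreW.E_WIT1
import Pool.Agent.SerreW.E_DEC
import Pool.Agent.SerreW.E_PSI
import Pool.Agent.SerreW.E_PR

/-!
# E_ED (2): the data of steps E1 - E6

`e_lev` gives `f'` and `ψ`; `e_dec` gives `e`, `f₁`; `e_psi` gives `ψe`; `e_pr` gives `P`.
`mk f'` divides `nmU t - 1` when `One1 f' t` (`nmU_val`), and then `mk f₁` divides it, so `ψ (nmU t) = ψe (rdU _ (nmU t))` (`hχ`; the same
for the witness `t` of `e_wit1` (`w1`), where `mk f' ∣ nmU t - 1`; apply it with `g ∣ f' = π g`).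
`prim`: `e = π e₂`; `g = e₂ f₁` divides `f = π g` and `¬ f ∣ g` (`f ≠ 0`, `π` not a unit). `hcond` gives `t` with `One1 g t` and
`χ t ≠ 1`. `π f' ∣ f = π g` (`he`) so `f' ∣ g`, so `One1 f' t`, `χ t = ψe (rdU _ (nmU t))`. `c = rdU _ (nmU t)`: `nmU t - 1` is
divisible by `mk g` in `O/f`, so `c - 1` is divisible by `mk g`, hence by `mk e₂`, in `O/e` (apply the ring hom `rd`).
-/

open Matrix
open scoped QuadraticAlgebra

namespace SerreW

open SerreT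
open SerreE (mk2 sc dg dgl up low red Gam0 GamUp mem_Gam0 mem_GamUp PM Frame heckeC)

theorem e_ed_nm {O : Type} [CommRing O] {f g : O} (t : (Ti (O ⧸ Ideal.span {f}))ˣ)
    (h : One1 g t) :
    Ideal.Quotient.mk (Ideal.span {f}) g ∣ (nmU t : O ⧸ Ideal.span {f}) - 1 := by
  obtain ⟨⟨a, ha⟩, ⟨b, hb⟩⟩ := h
  rw [nmU_val]
  have ha' : t.val.re = 1 + Ideal.Quotient.mk (Ideal.span {f}) g * a := by
    rw [← ha]; ring
  rw [ha', hb]
  refine ⟨2 * a + Ideal.Quotient.mk (Ideal.span {f}) g * a ^ 2 - b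
    - Ideal.Quotient.mk (Ideal.span {f}) g * a * b + Ideal.Quotient.mk (Ideal.span {f}) g * b ^ 2, ?_⟩
  ring

theorem e_ed_one1_mono {O : Type} [CommRing O] {f g g' : O} (t : (Ti (O ⧸ Ideal.span {f}))ˣ)
    (hg : g' ∣ g) (h : One1 g t) : One1 g' t :=
  ⟨(map_dvd _ hg).trans h.1, (map_dvd _ hg).trans h.2⟩

theorem e_ed {O : Type} [CommRing O] [IsDomain O] [IsPrincipalIdealRing O]
    [Ring.HasFiniteQuotients O] {k : Type} [Field k] [IsAlgClosed k] (f : O)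
    (hf : f ≠ 0) (χ : (Ti (O ⧸ Ideal.span {f}))ˣ →* kˣ)
    (hcond : ∀ g : O, g ∣ f → ¬ f ∣ g → ∃ t : (Ti (O ⧸ Ideal.span {f}))ˣ,
      Ideal.Quotient.mk (Ideal.span {f}) g ∣ t.val.re - 1 ∧
        Ideal.Quotient.mk (Ideal.span {f}) g ∣ t.val.im ∧ χ t ≠ 1) : Nonempty (ED f k χ) := by
  obtain ⟨f', hf', ⟨ψ, hψ⟩, hmin⟩ := e_lev f hf χ
  obtain ⟨e, f1, hef, hcop, hf1, he⟩ := e_dec f f' hf hf'
  obtain ⟨ψe, hψe⟩ := e_psi f e f1 hef hcop ψ
  obtain ⟨P, P1, P2, P3, P4⟩ := e_pr f f' hf hf'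
  have hχ : ∀ t, One1 f' t → χ t = ψe (rdU (Dvd.intro _ hef.symm) (nmU t)) := by
    intro t ht
    rw [hψ t ht]
    exact hψe _ ((map_dvd _ hf1).trans (e_ed_nm t ht))
  refine ⟨{ f' := f', hf' := hf', e := e, f1 := f1, hef := hef, hf1 := hf1, hcop := hcop,
            he := he, ψe := ψe, prim := ?_, hχ := hχ, w1 := ?_, P := P, P1 := P1, P2 := P2,
            P3 := P3, P4 := P4 }⟩
  · intro π e₂ hπ hee
    have hfg : f = π * (e₂ * f1) := by rw [hef, hee]; ring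
    have hg0 : e₂ * f1 ≠ 0 := by
      intro h
      apply hf
      rw [hfg, h, mul_zero]
    obtain ⟨t, ht1, ht2, ht3⟩ := hcond (e₂ * f1) ⟨π, by rw [hfg]; ring⟩ (by
      rintro ⟨c, hc⟩
      apply hπ.not_isUnit
      have : e₂ * f1 * (π * c) = e₂ * f1 * 1 := by
        rw [mul_one]
        calc e₂ * f1 * (π * c) = π * (e₂ * f1) * c := by ring
          _ = e₂ * f1 := by rw [← hfg, ← hc]
      exact IsUnit.of_mul_eq_one _ (mul_left_cancel₀ hg0 this))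
    have hOne : One1 (e₂ * f1) t := ⟨ht1, ht2⟩
    have hdvd : f' ∣ e₂ * f1 := by
      have h1 := he π hπ ⟨e₂, hee⟩
      rw [hfg] at h1
      exact (mul_dvd_mul_iff_left hπ.ne_zero).mp h1
    refine ⟨rdU (Dvd.intro _ hef.symm) (nmU t), ?_, ?_⟩
    · obtain ⟨c, hc⟩ := e_ed_nm t hOne
      have h2 := congrArg (rd (Dvd.intro _ hef.symm : e ∣ f)) hc
      rw [map_sub, map_one, map_mul, rd_mk] at h2
      refine Dvd.dvd.trans ?_ ⟨_, h2⟩
      rw [map_mul]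
      exact Dvd.intro _ rfl
    · rw [← hχ t (e_ed_one1_mono t hdvd hOne)]
      exact ht3
  · intro π g hπ hg
    obtain ⟨t, h1, h2, h3⟩ := e_wit1 f f' hf hf' χ ψ g ⟨π, by rw [hg]; ring⟩ (hmin π g hπ hg)
    refine ⟨t, h1, h2, ?_⟩
    rw [← hψe _ ((map_dvd _ hf1).trans h2)]
    exact h3

end SerreW
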