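import Pool.Agent.SerreW.EDefs

/-!
# E_LEV (2): the level `f'`

`PP f χ f` holds with `ψ = 1`: if `One1 f t` then `mk f = 0` divides `t.re - 1` and `t.im`, so `t = 1` and
`χ t = 1`. Take a divisor `f'` of `f` with `PP f χ f'` which is minimal for `DvdNotUnit` (this relation is well founded
in a PID: `WfDvdMonoid.wellFounded_dvdNotUnit`, use `WellFounded.has_min` for the set
`{g | g ∣ f ∧ PP f χ g}`). If `f' = π * g` with `π` prime then `g ∣ f`, and `DvdNotUnit g f'`
(`g ≠ 0` because `f ≠ 0`; `f' = g * π`), so `PP f χ g` is impossible.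
-/

open Matrix
open scoped QuadraticAlgebra

namespace SerreW

open SerreT
open SerreE (mk2 sc dg dgl up low red Gam0 GamUp mem_Gam0 mem_GamUp PM Frame heckeC)

theorem e_lev {O : Type} [CommRing O] [IsDomain O] [IsPrincipalIdealRing O] {k : Type} [Field k]
    (f : O) (hf : f ≠ 0) (χ : (Ti (O ⧸ Ideal.span {f}))ˣ →* kˣ) :
    ∃ f' : O, f' ∣ f ∧ PP f χ f' ∧ ∀ π g : O, Prime π → f' = π * g → ¬ PP f χ g := by
  have hwf : WellFounded (DvdNotUnit : O → O → Prop) :=
    _root_.wellFounded_dvdNotUnit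
  have hff : PP f χ f := by
    refine ⟨1, fun t ht => ?_⟩
    obtain ⟨h1, h2⟩ := ht
    have h0 : Ideal.Quotient.mk (Ideal.span {f}) f = 0 := by
      rw [Ideal.Quotient.eq_zero_iff_mem]
      exact Ideal.mem_span_singleton_self f
    rw [h0, zero_dvd_iff] at h1 h2
    have ht : t = 1 := by
      apply Units.ext
      apply QuadraticAlgebra.ext
      · rw [Units.val_one, QuadraticAlgebra.re_one]
        exact sub_eq_zero.mp h1
      · rw [Units.val_one, QuadraticAlgebra.im_one]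
        exact h2
    rw [ht, map_one, MonoidHom.one_apply]
  obtain ⟨f', ⟨h1, h2⟩, h3⟩ := hwf.has_min {g | g ∣ f ∧ PP f χ g} ⟨f, dvd_rfl, hff⟩
  refine ⟨f', h1, h2, fun π g hπ hg hP => ?_⟩
  have hgf : g ∣ f := (Dvd.intro_left π hg.symm).trans h1
  refine h3 g ⟨hgf, hP⟩ ⟨?_, π, hπ.not_isUnit, ?_⟩
  · rintro rfl
    exact hf (zero_dvd_iff.mp hgf)
  · rw [hg, mul_comm]

end SerreW
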