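import Pool.Agent.SerreW.Defs
import Pool.Agent.SerreW.MC
import Pool.Agent.SerreW.HRED
import Pool.Agent.SerreW.FHOM

/-!
# FFIN (4): `F` vanishes on the elements of finite order (adapt `SerreT.fino`, file SerreT/FINO.lean)

`F` is additive (`F_mul`), so `F (γⁿ) = n F γ`; write `orderOf γ = 3ˢ m`, `3 ∤ m`: enough `F γ₁ = 0`, `γ₁ = γᵐ`,
`γ₁^(3ˢ) = 1`. If `s = 0` then `γ₁ = 1`. Let `s = t+1`. `E = γ₁^(3ᵗ)` has `E³ = 1`, `E ≠ 1`, so `trace E = -1`, `det E = 1`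
(`SerreT.cube_trace`). Let `v = rat f γ₁` (`rat_mul`: `v^(3^(t+1)) = 1`). If `v^(3ᵗ) = rat f E = 1` then `E₀₀ ≡ E₁₁`
modulo `f`, `E₀₀ E₁₁ ≡ 1` (as `f ∣ E₁₀`), `2 E₀₀ ≡ -1`, so `4 ≡ 4 E₀₀² ≡ 1`, `f ∣ 3`, contradiction. So `orderOf v = n := 3^(t+1)`.
Put `T(c, r) = ψe c * psi r * C (gm γ₁ c) (dg r * a)` on the group `G = (O/e)ˣ × (O/f)ˣ` and `z = (rdU v, v⁻¹)`,
`orderOf z = n`. `F γ₁ = Σ_{(c,r)} T` (finsum over a product). By `sum_orbit_zero` (SerreT/FINO) it is enough: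
`Σ_{j<n} T(c v̄ʲ, r v⁻ʲ) = 0`. The weights `ψe (c v̄ʲ) psi (r v⁻ʲ) = ψe c * psi r` are constant. By `gm_mul` and the
cocycle identity (induction on `j`, like `coc_pow`)
`C (gm (γ₁ⁿ) c) y = Σ_{j<n} C (gm γ₁ (c v̄ʲ)) ((red f (gm (γ₁ʲ) c))⁻¹ y)`, and for `y = dg r * a` the `j`-th term is
`C (gm γ₁ (c v̄ʲ)) (dg (r v⁻ʲ) a)` by `c_red` (with `g = gm (γ₁ʲ) c`, `rel_props`, `q = rat (γ₁ʲ) = vʲ`). The left side is
`C 1 y = 0` (`gm_one`; `C 1 y = 0` from `hC.scal 1` / `eig_coc_one`).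
-/

open Matrix
open scoped QuadraticAlgebra

namespace SerreW
namespace TW

open SerreT
open SerreE (mk2 sc dg dgl up low red Gam0 GamUp mem_Gam0 mem_GamUp PM Frame heckeC)

variable {O : Type} [CommRing O] {k : Type} [Field k] {f : O}
  {χ : (Ti (O ⧸ Ideal.span {f}))ˣ →* kˣ} {D : TW f k χ}

theorem ffin_rat_pow (f : O) (γ : Gam0 (f ^ 2)) (n : ℕ) : rat f (γ ^ n) = rat f γ ^ n := by
  induction n with
  | zero => rw [pow_zero, pow_zero, rat_one]
  | succ n ih => rw [pow_succ, rat_mul, ih, pow_succ]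

theorem ffin_pow [IsDomain O] [Finite (O ⧸ Ideal.span {f})] [Finite (O ⧸ Ideal.span {D.e})]
    (hf : f ≠ 0) {C : GL (Fin 2) O → GL (Fin 2) (O ⧸ Ideal.span {f}) → k} (hC : D.IsC C)
    (hscal : ∀ u, χ (tiC u) = 1) (a : GL (Fin 2) (O ⧸ Ideal.span {f})) (γ : Gam0 (f ^ 2))
    (n : ℕ) : D.F C a (γ ^ n) = (n : k) * D.F C a γ := by
  induction n with
  | zero =>
    rw [pow_zero, Nat.cast_zero, zero_mul]
    have h := F_mul hf hC hscal a 1 1
    rw [mul_one] at h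
    linear_combination -h
  | succ n ih =>
    rw [pow_succ, F_mul hf hC hscal, ih]
    push_cast
    ring

theorem ffin_coc [IsDomain O] (hf : f ≠ 0)
    {C : GL (Fin 2) O → GL (Fin 2) (O ⧸ Ideal.span {f}) → k} (hC : D.IsC C)
    (γ : Gam0 (f ^ 2)) (c : (O ⧸ Ideal.span {D.e})ˣ) (y : GL (Fin 2) (O ⧸ Ideal.span {f})) (n : ℕ) :
    C (D.gm (γ ^ n) c) y = ∑ j ∈ Finset.range n,
      C (D.gm γ (c * rdU D.e_dvd (rat f γ) ^ j)) ((red f (D.gm (γ ^ j) c))⁻¹ * y) := by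
  induction n with
  | zero =>
    rw [pow_zero, gm_one D hf, Finset.sum_range_zero]
    exact eig_coc_one hC.isCoc y
  | succ n ih =>
    rw [pow_succ, gm_mul D hf, hC.coc, Finset.sum_range_succ, ih, ffin_rat_pow, map_pow]

theorem ffin_term [IsDomain O] (hf : f ≠ 0)
    {C : GL (Fin 2) O → GL (Fin 2) (O ⧸ Ideal.span {f}) → k} (hC : D.IsC C)
    (hscal : ∀ u, χ (tiC u) = 1) (a : GL (Fin 2) (O ⧸ Ideal.span {f})) (γ : Gam0 (f ^ 2))
    (c : (O ⧸ Ideal.span {D.e})ˣ) (r : (O ⧸ Ideal.span {f})ˣ) (γ' : GL (Fin 2) O) :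
    C γ' ((red f (D.gm γ c))⁻¹ * (dg r * a)) = C γ' (dg (r * (rat f γ)⁻¹) * a) := by
  have hγ : f ^ 2 ∣ γ.val.val 1 0 := γ.2
  obtain ⟨h00, h11, h10, h01, _⟩ := rel_props hf hγ (D.gm_dvd γ c) (D.gm_rel hf γ c)
  refine c_red hC hscal _ h01 ?_ ?_ (rat f γ) ?_ γ' r a
  · exact (D.m_dvd.trans (Dvd.intro _ rfl)).trans h10
  · exact ((Dvd.intro _ rfl : f ∣ f * D.s).trans h10).mul_left _
  · have e0 : Ideal.Quotient.mk (Ideal.span {f}) ((D.gm γ c).val 0 0) =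
        Ideal.Quotient.mk (Ideal.span {f}) (γ.val.val 0 0) :=
      Ideal.Quotient.eq.mpr (Ideal.mem_span_singleton.mpr h00)
    have e1 : Ideal.Quotient.mk (Ideal.span {f}) ((D.gm γ c).val 1 1) =
        Ideal.Quotient.mk (Ideal.span {f}) (γ.val.val 1 1) :=
      Ideal.Quotient.eq.mpr (Ideal.mem_span_singleton.mpr h11)
    rw [e0, e1, rat_spec]

theorem F_fin [IsDomain O] [CharP k 3] [Finite (O ⧸ Ideal.span {f})]
    [Finite (O ⧸ Ideal.span {D.e})] (hroot : ∀ z : O, z ^ 2 + z + 1 ≠ 0)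
    (hf : f ≠ 0) (hfu : ¬ IsUnit f) (hf3 : IsCoprime f 3)
    {C : GL (Fin 2) O → GL (Fin 2) (O ⧸ Ideal.span {f}) → k} (hC : D.IsC C)
    (hscal : ∀ u, χ (tiC u) = 1) (a : GL (Fin 2) (O ⧸ Ideal.span {f})) (γ : Gam0 (f ^ 2))
    (hγ : IsOfFinOrder γ) : D.F C a γ = 0 := by
  classical
  have := Fintype.ofFinite (O ⧸ Ideal.span {f})ˣ
  have := Fintype.ofFinite (O ⧸ Ideal.span {D.e})ˣ
  have hnt : Nontrivial (O ⧸ Ideal.span {f}) := by
    rw [Ideal.Quotient.nontrivial_iff]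
    intro h
    exact hfu (Ideal.span_singleton_eq_top.mp h)
  obtain ⟨s, m, hm, hsm⟩ := Nat.exists_eq_pow_mul_and_not_dvd (orderOf_pos_iff.mpr hγ).ne' 3
    (by norm_num)
  have hmk : ((m : ℕ) : k) ≠ 0 := by
    rw [Ne, CharP.cast_eq_zero_iff k 3]
    exact hm
  have h1 := ffin_pow hf hC hscal a γ m
  suffices h2 : D.F C a (γ ^ m) = 0 by
    rw [h2] at h1
    exact (mul_eq_zero.mp h1.symm).resolve_left hmk
  set D1 := γ ^ m with hD1
  have hD1s : D1 ^ (3 ^ s) = 1 := by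
    rw [hD1, ← pow_mul, mul_comm, ← hsm]
    exact pow_orderOf_eq_one γ
  rcases s with _ | s
  · have h3 : D1 = 1 := by simpa using hD1s
    rw [h3]
    have h4 := ffin_pow hf hC hscal a γ 0
    simpa using h4
  · have hE3 : (D1 ^ (3 ^ s)) ^ 3 = 1 := by
      rw [← pow_mul, ← pow_succ]; exact hD1s
    have hE1 : D1 ^ (3 ^ s) ≠ 1 := by
      intro h
      rw [hD1, ← pow_mul] at h
      have h3 := orderOf_dvd_of_pow_eq_one h
      have hm0 : 0 < m := Nat.pos_of_ne_zero (by rintro rfl; exact hm (dvd_zero _))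
      have h4 := Nat.le_of_dvd (by positivity) h3
      rw [hsm, pow_succ] at h4
      have h5 : 0 < m * 3 ^ s := by positivity
      nlinarith
    clear_value D1
    obtain ⟨htr, hdt⟩ := cube_trace hroot (D1 ^ (3 ^ s)).val
      (by rw [← Subgroup.coe_pow, hE3]; rfl) (fun h => hE1 (Subtype.ext h))
    have hv3 : rat f D1 ^ (3 ^ (s + 1)) = 1 := by
      rw [← ffin_rat_pow, hD1s, rat_one]
    have hv1 : ¬ rat f D1 ^ (3 ^ s) = 1 := by
      intro h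
      rw [← ffin_rat_pow] at h
      have e := rat_spec f (D1 ^ (3 ^ s))
      rw [h, Units.val_one, one_mul] at e
      have t1 := congrArg (Ideal.Quotient.mk (Ideal.span {f})) htr
      have t2 := congrArg (Ideal.Quotient.mk (Ideal.span {f})) hdt
      rw [Matrix.trace_fin_two, map_add, map_neg, map_one] at t1
      have hoff : Ideal.Quotient.mk (Ideal.span {f}) ((D1 ^ (3 ^ s)).val.val 1 0) = 0 := by
        rw [Ideal.Quotient.eq_zero_iff_mem, Ideal.mem_span_singleton]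
        exact (dvd_pow_self f two_ne_zero).trans (D1 ^ (3 ^ s)).2
      rw [Matrix.det_fin_two, map_sub, map_mul, map_mul, map_one, hoff, mul_zero, sub_zero, ← e] at t2
      rw [← e] at t1
      have h30 : (3 : O ⧸ Ideal.span {f}) = 0 := by
        linear_combination (2 * (Ideal.Quotient.mk (Ideal.span {f}) ((D1 ^ (3 ^ s)).val.val 0 0)) - 1) * t1 -
          4 * t2
      have hu3 : IsUnit (3 : O ⧸ Ideal.span {f}) := by
        have := SerreE.isUnit_mk_of_coprime hf3.symm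
        rwa [map_ofNat] at this
      rw [h30] at hu3
      exact not_isUnit_zero hu3
    have hF3 : Fact (Nat.Prime 3) := ⟨Nat.prime_three⟩
    have hord : orderOf ((rdU D.e_dvd (rat f D1), (rat f D1)⁻¹) :
        (O ⧸ Ideal.span {D.e})ˣ × (O ⧸ Ideal.span {f})ˣ) = 3 ^ (s + 1) := by
      apply orderOf_eq_prime_pow
      · intro h
        have h4 := congrArg Prod.snd h
        rw [Prod.pow_snd, Prod.snd_one, inv_pow, inv_eq_one] at h4
        exact hv1 h4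
      · rw [Prod.pow_mk, ← map_pow, inv_pow, hv3, map_one, inv_one]
        rfl
    have hexp : D.F C a D1 = ∑ x : (O ⧸ Ideal.span {D.e})ˣ × (O ⧸ Ideal.span {f})ˣ,
        (D.ψe x.1 : k) * ((D.psi x.2 : k) * C (D.gm D1 x.1) (dg x.2 * a)) := by
      rw [Fintype.sum_prod_type]
      unfold TW.F TW.hh
      rw [finsum_eq_sum_of_fintype]
      refine Finset.sum_congr rfl fun c _ => ?_
      rw [finsum_eq_sum_of_fintype, Finset.mul_sum]
    rw [hexp]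
    apply sum_orbit_zero (rdU D.e_dvd (rat f D1), (rat f D1)⁻¹)
    rintro ⟨c, r⟩
    rw [hord]
    have key := ffin_coc hf hC D1 c (dg r * a) (3 ^ (s + 1))
    rw [hD1s, gm_one D hf, eig_coc_one hC.isCoc] at key
    have hterm : ∀ j : ℕ, (D.ψe (((rdU D.e_dvd (rat f D1), (rat f D1)⁻¹) ^ j * (c, r) :
          (O ⧸ Ideal.span {D.e})ˣ × (O ⧸ Ideal.span {f})ˣ)).1 : k) *
        ((D.psi (((rdU D.e_dvd (rat f D1), (rat f D1)⁻¹) ^ j * (c, r) :
          (O ⧸ Ideal.span {D.e})ˣ × (O ⧸ Ideal.span {f})ˣ)).2 : k) *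
          C (D.gm D1 (((rdU D.e_dvd (rat f D1), (rat f D1)⁻¹) ^ j * (c, r) :
          (O ⧸ Ideal.span {D.e})ˣ × (O ⧸ Ideal.span {f})ˣ)).1)
            (dg (((rdU D.e_dvd (rat f D1), (rat f D1)⁻¹) ^ j * (c, r) :
          (O ⧸ Ideal.span {D.e})ˣ × (O ⧸ Ideal.span {f})ˣ)).2 * a)) =
        (D.ψe c : k) * (D.psi r : k) * C (D.gm D1 (c * rdU D.e_dvd (rat f D1) ^ j))
          ((red f (D.gm (D1 ^ j) c))⁻¹ * (dg r * a)) := by
      intro j
      rw [ffin_term hf hC hscal, ffin_rat_pow, Prod.pow_mk, Prod.mk_mul_mk]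
      have h5 : rdU D.e_dvd (rat f D1) ^ j * c = c * rdU D.e_dvd (rat f D1) ^ j := mul_comm _ _
      have h6 : (rat f D1)⁻¹ ^ j * r = r * (rat f D1 ^ j)⁻¹ := by rw [inv_pow, mul_comm]
      show (D.ψe (rdU D.e_dvd (rat f D1) ^ j * c) : k) * ((D.psi ((rat f D1)⁻¹ ^ j * r) : k) *
        C (D.gm D1 (rdU D.e_dvd (rat f D1) ^ j * c)) (dg ((rat f D1)⁻¹ ^ j * r) * a)) = _
      rw [h5, h6, ← mul_assoc]
      congr 1
      rw [← Units.val_mul, ← Units.val_mul]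
      congr 1
      rw [map_mul, map_mul]
      have h7 : D.psi (rat f D1 ^ j)⁻¹ = (D.ψe (rdU D.e_dvd (rat f D1) ^ j))⁻¹ := by
        rw [map_inv]
        congr 1
      rw [h7]
      rw [mul_assoc, mul_comm (D.psi r), ← mul_assoc (D.ψe (rdU D.e_dvd (rat f D1) ^ j)),
        mul_inv_cancel, one_mul]
    rw [Finset.sum_congr rfl (fun j _ => hterm j), ← Finset.mul_sum, ← key, mul_zero]

end TW
end SerreW
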