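import Pool.Agent.SerreT.QDefs

/-!
# Ring class characters of exact conductor `f`
-/

open Matrix
open scoped QuadraticAlgebra

namespace SerreW

open SerreT

/-- `χ` is a character of `(O[ζ]/f)ˣ` with values in `𝔽̄₃ˣ`, extended by `0` to `O[ζ]`; it is
trivial on `(O/f)ˣ` and on the units of `O[ζ]`, its square is non-trivial, and its conductor is
exactly `f`. -/
structure RingClassChar {O : Type} [CommRing O] (f : O) (χ : Ti O → FF) : Prop where
  mul : ∀ w z : Ti O, χ (w * z) = χ w * χ z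
  congr : ∀ w z : Ti O, Cong f w z → χ w = χ z
  supp : ∀ w : Ti O, χ w ≠ 0 ↔ IsCoprime (nm w) f
  base : ∀ a : O, IsCoprime a f → χ ⟨a, 0⟩ = 1
  unit : ∀ v : Ti O, IsUnit v → χ v = 1
  ne : ∃ w : Ti O, IsCoprime (nm w) f ∧ χ w ^ 2 ≠ 1
  cond : ∀ g : O, g ∣ f → ¬ f ∣ g → ∃ w : Ti O, IsCoprime (nm w) f ∧ Cong g w 1 ∧ χ w ≠ 1

end SerreW
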