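import Pool.Agent.SerreW.COREW
import Pool.Agent.SerreW.EASM
import Pool.Agent.SerreT.TFINAL
import Pool.Agent.SerreW.RCC

/-!
# FINALW (3): the final theorem (adapt SerreT/TFINAL.lean)

`toHomW` etc.: copy of the section for `RingClassChar` (`toHom`, `toHom_apply`, `toHom_scal`, `toHom_iota`, `toHom_th`; the structures differ only in `cond`).
`hcond` of `exists_TW` from `cond`, `hne` from `ne`. `exists_TW` gives `D`; `dichN` gives `a` for `D` or `D.inv`; `shapN` gives `C`; `coreW` for `χ` or `χ⁻¹`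
(the eigenvalues `χ + χ⁻¹` are the same). The rest as in `SerreT.final_aux`, `SerreT.final3`.
-/

open Matrix
open scoped QuadraticAlgebra

namespace SerreW

open SerreT
open SerreE (sc red)


section
variable {O : Type} [CommRing O] {f : O} {χ : Ti O → FF} (h : RingClassChar f χ)

include h in
theorem finalw_chi_one : χ 1 = 1 := h.unit 1 isUnit_one

/-- the character of `(O[ζ]/f)ˣ` given by a ring class character. -/
noncomputable def finalw_toHom : (Ti (O ⧸ Ideal.span {f}))ˣ →* FFˣ :=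
  MonoidHom.toHomUnits
    { toFun := fun t => χ (lft f t.val)
      map_one' := by
        rw [← finalw_chi_one h]
        apply h.congr
        apply redTi_eq
        rw [lft_spec, map_one, Units.val_one]
      map_mul' := fun a b => by
        rw [← h.mul]
        apply h.congr
        apply redTi_eq
        rw [lft_spec, map_mul, lft_spec, lft_spec, Units.val_mul] }

theorem finalw_toHom_apply (t : (Ti (O ⧸ Ideal.span {f}))ˣ) (w : Ti O) (hw : redTi f w = t.val) :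
    ((finalw_toHom h t : FFˣ) : FF) = χ w := by
  change χ (lft f t.val) = χ w
  apply h.congr
  apply redTi_eq
  rw [lft_spec, hw]

theorem finalw_toHom_eq_one (t : (Ti (O ⧸ Ideal.span {f}))ˣ) (w : Ti O)
    (hw : redTi f w = t.val) (h1 : χ w = 1) : finalw_toHom h t = 1 := by
  apply Units.ext
  rw [finalw_toHom_apply h t w hw, h1, Units.val_one]

theorem finalw_toHom_scal (u : (O ⧸ Ideal.span {f})ˣ) : finalw_toHom h (tiC u) = 1 := by
  obtain ⟨a, ha⟩ := Ideal.Quotient.mk_surjective (u : O ⧸ Ideal.span {f})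
  refine finalw_toHom_eq_one h _ ⟨a, 0⟩ ?_ (h.base a ?_)
  · ext
    · simpa [tiC] using ha
    · simp [tiC]
  · obtain ⟨b, hb⟩ := Ideal.Quotient.mk_surjective ((u⁻¹ : (O ⧸ Ideal.span {f})ˣ) :
      O ⧸ Ideal.span {f})
    have h1 : Ideal.Quotient.mk (Ideal.span {f}) (a * b) = Ideal.Quotient.mk _ 1 := by
      rw [map_mul, ha, hb, Units.mul_inv, map_one]
    rw [Ideal.Quotient.eq, Ideal.mem_span_singleton] at h1
    obtain ⟨c, hc⟩ := h1
    exact ⟨b, -c, by linear_combination hc⟩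

/-- the reduction of a unit -/
theorem finalw_toHom_iota (w : (Ti O)ˣ) (t : (Ti (O ⧸ Ideal.span {f}))ˣ)
    (ht : iota t = red f (iota w)) : finalw_toHom h t = 1 := by
  refine finalw_toHom_eq_one h t w.val ?_ (h.unit _ w.isUnit)
  rw [red_iota] at ht
  have := iota_inj _ ht
  rw [this]
  rfl

theorem finalw_toHom_th (t : (Ti (O ⧸ Ideal.span {f}))ˣ) (ht : iota t = red f th) :
    finalw_toHom h t = 1 := by
  rw [← iota_tzz O] at ht
  exact finalw_toHom_iota h _ t ht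

end

section
variable {O : Type} [CommRing O] [IsDomain O] [IsPrincipalIdealRing O]
  {f : O} {χ : Ti O → FF} (h : RingClassChar f χ)

omit [IsDomain O] [IsPrincipalIdealRing O] in
theorem finalw_toHom_ne : (finalw_toHom h) ^ 2 ≠ 1 := by
  intro h1
  obtain ⟨w, hw, hw'⟩ := h.ne
  rw [nm_eq] at hw
  obtain ⟨t, ht⟩ := isUnit_redTi hw
  apply hw'
  have h2 := DFunLike.congr_fun h1 t
  rw [MonoidHom.pow_apply, MonoidHom.one_apply] at h2
  have h3 := congrArg (fun u : FFˣ => (u : FF)) h2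
  simp only [Units.val_pow_eq_pow_val, Units.val_one] at h3
  rwa [finalw_toHom_apply h t w ht.symm] at h3

omit [IsDomain O] [IsPrincipalIdealRing O] in
theorem finalw_cond (g : O) (hgf : g ∣ f) (hfg : ¬ f ∣ g) :
    ∃ t : (Ti (O ⧸ Ideal.span {f}))ˣ,
      Ideal.Quotient.mk (Ideal.span {f}) g ∣ t.val.re - 1 ∧
        Ideal.Quotient.mk (Ideal.span {f}) g ∣ t.val.im ∧ finalw_toHom h t ≠ 1 := by
  obtain ⟨w, hw1, hw2, hw3⟩ := h.cond g hgf hfg
  rw [nm_eq] at hw1
  obtain ⟨t, ht⟩ := isUnit_redTi hw1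
  refine ⟨t, ?_, ?_, ?_⟩
  · rw [ht]
    have : (redTi f w).re - 1 = Ideal.Quotient.mk (Ideal.span {f}) (w.re - (1 : Ti O).re) := by
      rw [redTi_re, map_sub, QuadraticAlgebra.re_one, map_one]
    rw [this]
    exact map_dvd _ hw2.1
  · rw [ht]
    have : (redTi f w).im = Ideal.Quotient.mk (Ideal.span {f}) (w.im - (1 : Ti O).im) := by
      rw [redTi_im, map_sub, QuadraticAlgebra.im_one, map_zero, sub_zero]
    rw [this]
    exact map_dvd _ hw2.2
  · intro h1
    apply hw3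
    have h3 := congrArg (fun u : FFˣ => (u : FF)) h1
    simp only [Units.val_one] at h3
    rwa [finalw_toHom_apply h t w ht.symm] at h3

include h in
theorem finalw_of [Ring.HasFiniteQuotients O]
    (χ' : (Ti (O ⧸ Ideal.span {f}))ˣ →* FFˣ)
    (hχ' : χ' = finalw_toHom h ∨ χ' = (finalw_toHom h)⁻¹) (D : TW f FF χ')
    (η : (Ti O)ˣ) (a : GL (Fin 2) O → FF) (ha : D.Sol a)
    (ha3 : a th ≠ a 1 ∨ a (iota η) ≠ a 1)
    (hroot : ∀ z : O, z ^ 2 + z + 1 ≠ 0)
    (htsq : ∀ π : O, Prime π → ¬ π ∣ 3 → ∀ l, π ∣ l ^ 2 + l + 1 →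
      ∃ w : Ti O, Associated w.norm π) (hf : f ≠ 0) (hfu : ¬ IsUnit f) (hf3 : IsCoprime f 3) :
    ∃ Φ : Eigenform (f ^ 2), Attached Φ χ := by
  obtain ⟨C, hC, hC1⟩ := TW.shapN D a ha
  have hinv : ∀ t, finalw_toHom h t = 1 → χ' t = 1 := by
    intro t ht
    rcases hχ' with e | e
    · rw [e, ht]
    · rw [e, MonoidHom.inv_apply, ht, inv_one]
  have hinv2 : ∀ t, χ' t ^ 2 = 1 → finalw_toHom h t ^ 2 = 1 := by
    intro t ht
    rcases hχ' with e | e
    · rw [← e, ht]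
    · rw [e, MonoidHom.inv_apply, inv_pow, inv_eq_one] at ht
      exact ht
  have hne : χ' ^ 2 ≠ 1 := by
    intro h1
    apply finalw_toHom_ne h
    ext t
    have h2 := DFunLike.congr_fun h1 t
    rw [MonoidHom.pow_apply, MonoidHom.one_apply] at h2
    rw [MonoidHom.pow_apply, hinv2 t h2]
    rfl
  have hsum : ∀ t, (χ' t : FF) + ((χ' t)⁻¹ : FFˣ) =
      (finalw_toHom h t : FF) + ((finalw_toHom h t)⁻¹ : FFˣ) := by
    intro t
    rcases hχ' with e | e
    · rw [e]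
    · rw [e, MonoidHom.inv_apply, inv_inv, add_comm]
  obtain ⟨u, hu, tu, htu, hχu, hCu⟩ : ∃ u : GL (Fin 2) O, u * th = th * u ∧
      ∃ tu : (Ti (O ⧸ Ideal.span {f}))ˣ, iota tu = red f u ∧ χ' tu = 1 ∧ C u 1 ≠ 0 := by
    rcases ha3 with h1 | h1
    · obtain ⟨t, ht⟩ := (mem_GT f th).mp (th_mem_GT f)
      exact ⟨th, rfl, t, ht, hinv t (finalw_toHom_th h t ht), by
        rw [hC1]; exact sub_ne_zero.mpr h1⟩
    · obtain ⟨t, ht⟩ := (mem_GT f (iota η)).mp (iota_mem_GT f η)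
      refine ⟨iota η, ?_, t, ht, hinv t (finalw_toHom_iota h η t ht), by
        rw [hC1]; exact sub_ne_zero.mpr h1⟩
      rw [← iota_tzz, ← map_mul, ← map_mul, mul_comm]
  obtain ⟨Φ, hΦ⟩ := TW.coreW D hroot htsq hf hfu hf3 (fun u => hinv _ (finalw_toHom_scal h u))
    (fun t ht => hinv t (finalw_toHom_th h t ht)) hne u hu tu htu hχu C hC hCu
  refine ⟨Φ, fun π => ⟨fun w hw => ?_, (hΦ π).2⟩⟩
  rw [nm_eq] at hw
  have hcop := coprime_norm π.prime (not_dvd_f π.not_dvd) hw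
  obtain ⟨t, ht⟩ := isUnit_redTi hcop
  rw [(hΦ π).1 w t hw ht, hsum t, finalw_toHom_apply h t w ht.symm]
  congr 1
  have h1 : χ w * χ (star w) = 1 := by
    rw [← h.mul, nm_mul_star]
    apply h.base
    rw [nm_eq]
    exact hcop
  rw [Units.val_inv_eq_inv_val, finalw_toHom_apply h t w ht.symm]
  exact (eq_inv_of_mul_eq_one_right h1).symm

include h in
theorem finalw_aux [Ring.HasFiniteQuotients O] (σ : O →+* ℂ) (hσ : SerreK.ImQ σ)
    (hnt : ∃ w : (Ti O)ˣ, ab1 σ w ≠ 1)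
    (hroot : ∀ z : O, z ^ 2 + z + 1 ≠ 0)
    (htsq : ∀ π : O, Prime π → ¬ π ∣ 3 → ∀ l, π ∣ l ^ 2 + l + 1 →
      ∃ w : Ti O, Associated w.norm π) (h30 : ¬ IsUnit (3 : O)) (hf3 : IsCoprime f 3) :
    ∃ Φ : Eigenform (f ^ 2), Attached Φ χ := by
  have hf : f ≠ 0 := by
    rintro rfl
    exact h30 (isCoprime_zero_left.mp hf3)
  have hfu : ¬ IsUnit f := by
    intro hu
    obtain ⟨w, -, hw'⟩ := h.ne
    apply hw'
    have : χ w = 1 := by
      rw [← finalw_chi_one h]
      exact h.congr _ _ ⟨hu.dvd, hu.dvd⟩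
    rw [this, one_pow]
  obtain ⟨η, hη1, hη2⟩ := unit_structure σ hσ hnt
  obtain ⟨D⟩ := exists_TW f hf hf3 (finalw_toHom h) (finalw_toHom_scal h) (finalw_cond h)
    (finalw_toHom_ne h)
  rcases TW.dichN σ hσ η hη1 hη2 f hf3 (finalw_toHom h) D (finalw_toHom_scal h)
    (finalw_toHom_th h) (fun t ht => finalw_toHom_iota h η t ht) with ⟨a, ha, ha3⟩ | ⟨a, ha, ha3⟩
  · exact finalw_of h _ (Or.inl rfl) D η a ha ha3 hroot htsq hf hfu hf3
  · exact finalw_of h _ (Or.inr rfl) D.inv η a ha ha3 hroot htsq hf hfu hf3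

end

theorem finalW (i : Fin 8) (f : OD (fA i) (fB i)) (hf3 : IsCoprime f 3)
    (χ : Ti (OD (fA i) (fB i)) → FF) (h : RingClassChar f χ) :
    ∃ Φ : Eigenform (f ^ 2), Attached Φ χ := by
  have := pid3 i
  exact finalw_aux h (sig (fA i) (fB i)) (sig_imQ _ _) (exists_unit _ _ (fAB3 i))
    (noroot _ _ (fAB3 i)) (fun π hπ _ l hl => tsq3 i π hπ l hl) (three_not_unit _ _) hf3

end SerreW
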