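import Pool.Agent.SerreW.Defs
import Pool.Agent.SerreT.VLOC

/-!
# FOUR (3): from all generic Fourier coefficients on `O/e` to partial sums (pure statement)

`e = ρ e₀`, `m = ρ m₀`, every prime of `e` divides `ρ`. `H : O/e → k` has `Σ_x ξ(x) H(x) = 0` for all generic `ξ`. `ξ'` generic on
`O/m`. Put `Φ(d) = Σ_{z ∈ O/ρ} ξ'(m₀ z) H(e₀ z + d)` for `d ∈ O/e` (well defined: `m₀ ρ = m`, `e₀ ρ = e`).
For every character `ξ` of `O/e`: `Σ_d ξ(d) Φ(d) = (Σ_z ξ'(m₀ z) ξ(-e₀ z)) (Σ_x ξ(x) H(x))`. If `ξ` is generic this is `0`.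
If not, `ξ` is trivial on an ideal `𝔞 ≠ 0` of `O/e`. Take `mk y ∈ 𝔞`, `mk y ≠ 0`, `g = gcd(y, e)` (generator of
`span {y, e}`), `mk g ∈ 𝔞`, `e = g h`, `h` not a unit, so a prime `π ∣ h`, and `e/π = g (h/π)`: `mk (e/π) ∈ 𝔞`, so `ξ(mk ((e/π) x)) = 1`
for all `x`. `π ∣ e` so `π ∣ ρ`, `ρ = π ρ₁`. Then `m/π = m₀ ρ₁` is not `0` modulo `m` (`m ≠ 0`, `π` not a unit), so there is `x ∈ O` with
`ξ'(mk (m₀ ρ₁ x)) ≠ 1` (the ideal generated by `mk (m₀ ρ₁)` is not `0`, `Gen ξ'`). Shifting `z ↦ z + ρ₁ x` in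
`S = Σ_z ξ'(m₀ z) ξ(-e₀ z)` multiplies the terms by `ξ'(m₀ ρ₁ x) ξ(-e₀ ρ₁ x) = ξ'(m₀ ρ₁ x)` (as `e₀ ρ₁ = e/π`), so `S = 0`.
Hence all Fourier coefficients of `Φ` vanish and `Φ = 0` by `SerreT.char_complete` (`3` is a unit in `O/e`:
`SerreE.isUnit_mk_of_coprime`). The theorem is `Φ(0) = 0`. (For `O/ρ`: use the given lift `l`; `mk (m₀ * l z)` does not depend on it.)
-/

namespace SerreW

open SerreT

theorem four_aux {O : Type} [CommRing O] {m ρ m0 : O} (hm : m = ρ * m0) {x y : O}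
    (h : Ideal.Quotient.mk (Ideal.span {ρ}) x = Ideal.Quotient.mk (Ideal.span {ρ}) y) :
    Ideal.Quotient.mk (Ideal.span {m}) (m0 * x) = Ideal.Quotient.mk (Ideal.span {m}) (m0 * y) := by
  rw [Ideal.Quotient.eq, Ideal.mem_span_singleton] at *
  obtain ⟨c, hc⟩ := h
  refine ⟨c, ?_⟩
  rw [hm, ← mul_sub, hc]
  ring

theorem four_ideal {O : Type} [CommRing O] [IsDomain O] [IsPrincipalIdealRing O] {e : O} (he0 : e ≠ 0)
    (𝔞 : Ideal (O ⧸ Ideal.span {e})) (h𝔞 : 𝔞 ≠ ⊥) :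
    ∃ π e' : O, Prime π ∧ e = π * e' ∧ Ideal.Quotient.mk (Ideal.span {e}) e' ∈ 𝔞 := by
  obtain ⟨y', hy', hy0⟩ := Submodule.exists_mem_ne_zero_of_ne_bot h𝔞
  obtain ⟨y, rfl⟩ := Ideal.Quotient.mk_surjective y'
  obtain ⟨g, hg⟩ := (IsPrincipalIdealRing.principal (Ideal.span {y, e} : Ideal O)).principal
  have hgy : g ∣ y := by
    rw [← Ideal.mem_span_singleton]
    have : y ∈ Ideal.span {y, e} := Ideal.subset_span (by simp)
    rw [hg] at this
    exact this
  have hge : g ∣ e := by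
    rw [← Ideal.mem_span_singleton]
    have : e ∈ Ideal.span {y, e} := Ideal.subset_span (by simp)
    rw [hg] at this
    exact this
  have hgm : g ∈ Ideal.span {y, e} := by
    rw [hg]
    exact Submodule.mem_span_singleton_self g
  obtain ⟨a, b, hab⟩ := Ideal.mem_span_pair.mp hgm
  have hmk : Ideal.Quotient.mk (Ideal.span {e}) e = 0 :=
    Ideal.Quotient.eq_zero_iff_mem.2 (Ideal.mem_span_singleton_self _)
  have hga : Ideal.Quotient.mk (Ideal.span {e}) g ∈ 𝔞 := by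
    rw [← hab, map_add, map_mul, map_mul, hmk, mul_zero, add_zero]
    exact Ideal.mul_mem_left _ _ hy'
  obtain ⟨h, hh⟩ := hge
  have hh0 : h ≠ 0 := by
    rintro rfl
    exact he0 (by rw [hh, mul_zero])
  have hhu : ¬ IsUnit h := by
    intro hu
    apply hy0
    rw [Ideal.Quotient.eq_zero_iff_mem, Ideal.mem_span_singleton, hh]
    exact (hu.mul_right_dvd).2 hgy
  obtain ⟨π, hπ, h', hh'⟩ := WfDvdMonoid.exists_irreducible_factor hhu hh0
  refine ⟨π, g * h', hπ.prime, ?_, ?_⟩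
  · rw [hh, hh']; ring
  · rw [map_mul]
    exact Ideal.mul_mem_right _ _ hga

theorem four {O : Type} [CommRing O] [IsDomain O] [IsPrincipalIdealRing O] {k : Type} [Field k]
    [IsAlgClosed k] [CharP k 3] {e m ρ e0 m0 : O} (he : e = ρ * e0) (hm : m = ρ * m0)
    (he0 : e ≠ 0) (hm0 : m ≠ 0) (he3 : IsCoprime e 3) [Finite (O ⧸ Ideal.span {e})]
    [Finite (O ⧸ Ideal.span {ρ})] (hρ : ∀ π : O, Prime π → π ∣ e → π ∣ ρ)
    (ξ' : Multiplicative (O ⧸ Ideal.span {m}) →* kˣ) (hξ' : Gen ξ')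
    (H : O ⧸ Ideal.span {e} → k)
    (hH : ∀ ξ : Multiplicative (O ⧸ Ideal.span {e}) →* kˣ, Gen ξ → ∑ᶠ x, ev ξ x * H x = 0)
    (l : O ⧸ Ideal.span {ρ} → O) (hl : ∀ z, Ideal.Quotient.mk _ (l z) = z) :
    ∑ᶠ z : O ⧸ Ideal.span {ρ}, ev ξ' (Ideal.Quotient.mk _ (m0 * l z)) *
      H (Ideal.Quotient.mk _ (e0 * l z)) = 0 := by
  classical
  have := Fintype.ofFinite (O ⧸ Ideal.span {e})
  have := Fintype.ofFinite (O ⧸ Ideal.span {ρ})
  set a : O ⧸ Ideal.span {ρ} → O ⧸ Ideal.span {m} := fun z => Ideal.Quotient.mk _ (m0 * l z) with ha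
  set b : O ⧸ Ideal.span {ρ} → O ⧸ Ideal.span {e} := fun z => Ideal.Quotient.mk _ (e0 * l z) with hb
  have ha2 : ∀ z x, a (z + Ideal.Quotient.mk _ x) = a z + Ideal.Quotient.mk _ (m0 * x) := by
    intro z x
    rw [ha]
    show Ideal.Quotient.mk (Ideal.span {m}) (m0 * l (z + Ideal.Quotient.mk _ x)) =
      Ideal.Quotient.mk (Ideal.span {m}) (m0 * l z) + Ideal.Quotient.mk (Ideal.span {m}) (m0 * x)
    rw [← map_add, ← mul_add]
    apply four_aux hm
    rw [hl, map_add, hl]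
  have hb2 : ∀ z x, b (z + Ideal.Quotient.mk _ x) = b z + Ideal.Quotient.mk _ (e0 * x) := by
    intro z x
    rw [hb]
    show Ideal.Quotient.mk (Ideal.span {e}) (e0 * l (z + Ideal.Quotient.mk _ x)) =
      Ideal.Quotient.mk (Ideal.span {e}) (e0 * l z) + Ideal.Quotient.mk (Ideal.span {e}) (e0 * x)
    rw [← map_add, ← mul_add]
    apply four_aux he
    rw [hl, map_add, hl]
  set Φ : O ⧸ Ideal.span {e} → k := fun d => ∑ z : O ⧸ Ideal.span {ρ}, ev ξ' (a z) * H (b z + d) with hΦ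
  have h3u : IsUnit (3 : O ⧸ Ideal.span {e}) := by
    have h2 := SerreE.isUnit_mk_of_coprime he3.symm
    rwa [map_ofNat] at h2
  have hkey : Φ = 0 := by
    apply char_complete h3u
    intro ξ
    have e1 : ∑ᶠ y : O ⧸ Ideal.span {e}, ((ξ (Multiplicative.ofAdd y) : kˣ) : k) * Φ y =
        (∑ z : O ⧸ Ideal.span {ρ}, ev ξ' (a z) * ev ξ (-(b z))) * ∑ᶠ x, ev ξ x * H x := by
      rw [finsum_eq_sum_of_fintype, finsum_eq_sum_of_fintype]
      have e2 : ∀ z : O ⧸ Ideal.span {ρ}, ∑ d : O ⧸ Ideal.span {e}, ev ξ d * H (b z + d) =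
          ev ξ (-(b z)) * ∑ x : O ⧸ Ideal.span {e}, ev ξ x * H x := by
        intro z
        rw [Finset.mul_sum]
        refine Fintype.sum_equiv (Equiv.addLeft (b z)) _ _ (fun d => ?_)
        show ev ξ d * H (b z + d) = ev ξ (-(b z)) * (ev ξ (b z + d) * H (b z + d))
        rw [← mul_assoc, ← ev_add, neg_add_cancel_left]
      calc ∑ y : O ⧸ Ideal.span {e}, ((ξ (Multiplicative.ofAdd y) : kˣ) : k) * Φ y
          = ∑ y : O ⧸ Ideal.span {e}, ∑ z : O ⧸ Ideal.span {ρ},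
              ev ξ y * (ev ξ' (a z) * H (b z + y)) := by
            refine Finset.sum_congr rfl fun y _ => ?_
            rw [hΦ, Finset.mul_sum]
            rfl
        _ = ∑ z : O ⧸ Ideal.span {ρ}, ev ξ' (a z) *
              ∑ y : O ⧸ Ideal.span {e}, ev ξ y * H (b z + y) := by
            rw [Finset.sum_comm]
            refine Finset.sum_congr rfl fun z _ => ?_
            rw [Finset.mul_sum]
            refine Finset.sum_congr rfl fun y _ => ?_
            ring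
        _ = _ := by
            rw [Finset.sum_mul]
            refine Finset.sum_congr rfl fun z _ => ?_
            rw [e2, mul_assoc]
    rw [e1]
    by_cases hξ : Gen ξ
    · rw [hH ξ hξ, mul_zero]
    · have hn : ∃ 𝔞 : Ideal (O ⧸ Ideal.span {e}), 𝔞 ≠ ⊥ ∧
          ∀ x ∈ 𝔞, ξ (Multiplicative.ofAdd x) = 1 := by
        by_contra hcon
        apply hξ
        intro 𝔞 h𝔞
        by_contra h2
        apply hcon
        refine ⟨𝔞, h𝔞, fun x hx => ?_⟩
        by_contra h3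
        exact h2 ⟨x, hx, h3⟩
      obtain ⟨𝔞, h𝔞, htriv⟩ := hn
      obtain ⟨π, e', hπ, hee', he'⟩ := four_ideal he0 𝔞 h𝔞
      obtain ⟨ρ1, hρ1⟩ := hρ π hπ (Dvd.intro _ hee'.symm)
      have h1 : e0 * ρ1 = e' := by
        apply mul_left_cancel₀ hπ.ne_zero
        rw [← hee', he, hρ1]
        ring
      have h2 : Ideal.Quotient.mk (Ideal.span {m}) (m0 * ρ1) ≠ 0 := by
        intro h0
        rw [Ideal.Quotient.eq_zero_iff_mem, Ideal.mem_span_singleton] at h0
        obtain ⟨t, ht⟩ := h0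
        have h4 : m0 * ρ1 ≠ 0 := by
          intro h5
          apply hm0
          rw [hm, hρ1, show π * ρ1 * m0 = π * (m0 * ρ1) by ring, h5, mul_zero]
        have h6 : (m0 * ρ1) * (π * t) = (m0 * ρ1) * 1 := by
          rw [mul_one]
          conv_rhs => rw [ht]
          rw [hm, hρ1]
          ring
        have h7 := mul_left_cancel₀ h4 h6
        exact hπ.not_isUnit (IsUnit.of_mul_eq_one _ h7)
      obtain ⟨x, hx, hxne⟩ := hξ' (Ideal.span {Ideal.Quotient.mk (Ideal.span {m}) (m0 * ρ1)})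
        (by rwa [Ne, Ideal.span_singleton_eq_bot])
      obtain ⟨w0, hw0⟩ := Ideal.mem_span_singleton'.mp hx
      obtain ⟨w, rfl⟩ := Ideal.Quotient.mk_surjective w0
      have hxw : Ideal.Quotient.mk (Ideal.span {m}) (m0 * (ρ1 * w)) = x := by
        rw [← hw0, ← map_mul]
        congr 1
        ring
      have hev : ev ξ' (Ideal.Quotient.mk (Ideal.span {m}) (m0 * (ρ1 * w))) - 1 ≠ 0 := by
        intro h0
        apply hxne
        apply Units.ext
        rw [Units.val_one, ← hxw]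
        exact sub_eq_zero.mp h0
      have hS : (∑ z : O ⧸ Ideal.span {ρ}, ev ξ' (a z) * ev ξ (-(b z))) = 0 := by
        have f1 : ∑ z : O ⧸ Ideal.span {ρ}, ev ξ' (a (z + Ideal.Quotient.mk _ (ρ1 * w))) *
            ev ξ (-(b (z + Ideal.Quotient.mk _ (ρ1 * w)))) =
            ∑ z : O ⧸ Ideal.span {ρ}, ev ξ' (a z) * ev ξ (-(b z)) :=
          Fintype.sum_equiv (Equiv.addRight (Ideal.Quotient.mk _ (ρ1 * w))) _ _ (fun z => rfl)
        have f2 : ev ξ (-(Ideal.Quotient.mk (Ideal.span {e}) (e0 * (ρ1 * w)))) = 1 := by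
          have : Ideal.Quotient.mk (Ideal.span {e}) (e0 * (ρ1 * w)) ∈ 𝔞 := by
            rw [← mul_assoc, h1, map_mul]
            exact Ideal.mul_mem_right _ _ he'
          have h8 := htriv _ (neg_mem this)
          unfold ev
          rw [h8, Units.val_one]
        have f3 : ∑ z : O ⧸ Ideal.span {ρ}, ev ξ' (a (z + Ideal.Quotient.mk _ (ρ1 * w))) *
            ev ξ (-(b (z + Ideal.Quotient.mk _ (ρ1 * w)))) =
            (∑ z : O ⧸ Ideal.span {ρ}, ev ξ' (a z) * ev ξ (-(b z))) *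
              ev ξ' (Ideal.Quotient.mk (Ideal.span {m}) (m0 * (ρ1 * w))) := by
          rw [Finset.sum_mul]
          refine Finset.sum_congr rfl fun z _ => ?_
          rw [ha2, hb2, neg_add, ev_add, ev_add, f2]
          ring
        have f4 : (∑ z : O ⧸ Ideal.span {ρ}, ev ξ' (a z) * ev ξ (-(b z))) *
            (ev ξ' (Ideal.Quotient.mk (Ideal.span {m}) (m0 * (ρ1 * w))) - 1) = 0 := by
          rw [mul_sub, mul_one, ← f3, f1, sub_self]
        exact (mul_eq_zero.mp f4).resolve_right hev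
      rw [hS, zero_mul]
  have h9 := congrFun hkey 0
  rw [finsum_eq_sum_of_fintype]
  rw [hΦ] at h9
  have h10 : ∑ z : O ⧸ Ideal.span {ρ}, ev ξ' (a z) * H (b z + 0) = 0 := h9
  simpa only [add_zero] using h10

end SerreW
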