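import Pool.Agent.SerreW.Defs

/-!
# GAUSS (3): Gauss sums of a primitive character (pure finite ring statement)

`R` finite commutative ring, `|R| ≠ 0` in `k`, `ψ : Rˣ → kˣ` such that for every non-unit `u` there is `c ∈ Rˣ` with
`u (c - 1) = 0` and `ψ c ≠ 1`; `ξ` an additive character, non-trivial on every non-zero ideal (`Gen ξ`).

Put `A(u) = Σ_{c ∈ Rˣ} ψ(c) ξ(u c)`. If `u` is not a unit, take `c₀` with `u (c₀ - 1) = 0`: reindexing `c ↦ c c₀`
gives `A(u) = ψ(c₀) A(u)` (as `u c c₀ = u c`), so `A(u) = 0`. If `u` is a unit, `A(u) = ψ(u)⁻¹ A(1)`. If `A(-1) = 0` then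
`A(1) = 0` and all `A(u) = 0`, so `0 = Σ_u ξ(-u) A(u) = Σ_c ψ(c) Σ_u ξ(u (c - 1)) = |R|`, because for `c ≠ 1` the
ideal `(c - 1) R` is non-zero, `ξ` is non-trivial on it and `Σ_u ξ(u (c - 1)) = 0` (shift `u ↦ u + u₀` with
`ξ(u₀ (c - 1)) ≠ 1`). Contradiction: `A(-1) ≠ 0`.
Now `0 = Σ_d ξ(d) Σ_c ψ(c) H(c + d) = Σ_c ψ(c) ξ(-c) Σ_x ξ(x) H(x) = A(-1) Σ_x ξ(x) H(x)` (substitute `x = c + d`).
(Use `Fintype.ofFinite` and `finsum_eq_sum_of_fintype`.)
-/

namespace SerreW

variable {R : Type*} [CommRing R] [Finite R] {k : Type*} [Field k]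

/-- the sum of a character over a non-zero principal ideal -/
theorem sum_mul_gen (ξ : Multiplicative R →* kˣ) (hξ : Gen ξ) (y : R) (hy : y ≠ 0) :
    ∑ᶠ u : R, ev ξ (u * y) = 0 := by
  classical
  obtain ⟨x, hx, hxne⟩ := hξ (Ideal.span {y}) (by simpa [Ideal.span_singleton_eq_bot] using hy)
  obtain ⟨u₀, rfl⟩ := Ideal.mem_span_singleton'.1 hx
  have := Fintype.ofFinite R
  rw [finsum_eq_sum_of_fintype]
  have h1 : ∑ u : R, ev ξ (u * y) = ev ξ (u₀ * y) * ∑ u : R, ev ξ (u * y) := by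
    rw [Finset.mul_sum, ← Equiv.sum_comp (Equiv.addLeft u₀) (fun u => ev ξ (u * y))]
    refine Finset.sum_congr rfl fun u _ => ?_
    simp only [Equiv.coe_addLeft, add_mul, ev_add]
  have h2 : ev ξ (u₀ * y) ≠ 1 := by
    intro h
    exact hxne (Units.ext (by simpa [ev] using h))
  have h3 : (ev ξ (u₀ * y) - 1) * ∑ u : R, ev ξ (u * y) = 0 := by linear_combination -h1
  rcases mul_eq_zero.1 h3 with h | h
  · exact absurd (sub_eq_zero.1 h) h2
  · exact h

theorem gauss_ne_zero (hcard : (Nat.card R : k) ≠ 0) (ψ : Rˣ →* kˣ)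
    (hψ : ∀ u : R, ¬ IsUnit u → ∃ c : Rˣ, u * ((c : R) - 1) = 0 ∧ ψ c ≠ 1)
    (ξ : Multiplicative R →* kˣ) (hξ : Gen ξ) : ∑ᶠ c : Rˣ, (ψ c : k) * ev ξ (-(c : R)) ≠ 0 := by
  classical
  have := Fintype.ofFinite R
  rw [finsum_eq_sum_of_fintype]
  intro h0
  set A : R → k := fun u => ∑ c : Rˣ, (ψ c : k) * ev ξ (u * (c : R)) with hA
  have hneg : A (-1) = 0 := by
    rw [← h0, hA]
    refine Finset.sum_congr rfl fun c _ => ?_
    rw [neg_one_mul]
  have hunit : ∀ v : Rˣ, (ψ v : k) * A (v : R) = A 1 := by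
    intro v
    simp only [hA]
    rw [Finset.mul_sum, ← Equiv.sum_comp (Equiv.mulLeft v) (fun c : Rˣ => (ψ c : k) * ev ξ (1 * (c : R)))]
    refine Finset.sum_congr rfl fun c _ => ?_
    simp only [Equiv.coe_mulLeft, map_mul, Units.val_mul, one_mul]
    ring
  have hone : A 1 = 0 := by
    have := hunit (-1)
    rw [Units.val_neg, Units.val_one, hneg, mul_zero] at this
    exact this.symm
  have hall : ∀ u : R, A u = 0 := by
    intro u
    by_cases hu : IsUnit u
    · obtain ⟨v, rfl⟩ := hu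
      have h := hunit v
      rw [hone] at h
      rcases mul_eq_zero.1 h with h | h
      · exact absurd h (ψ v).ne_zero
      · exact h
    · obtain ⟨c₀, hc, hne⟩ := hψ u hu
      have huc : u * (c₀ : R) = u := by linear_combination hc
      have h1 : A u = (ψ c₀ : k) * A u := by
        simp only [hA]
        rw [Finset.mul_sum, ← Equiv.sum_comp (Equiv.mulLeft c₀) (fun c : Rˣ => (ψ c : k) * ev ξ (u * (c : R)))]
        refine Finset.sum_congr rfl fun c _ => ?_
        simp only [Equiv.coe_mulLeft, map_mul, Units.val_mul]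
        rw [← mul_assoc u, huc]
        ring
      have h3 : ((ψ c₀ : k) - 1) * A u = 0 := by linear_combination -h1
      rcases mul_eq_zero.1 h3 with h | h
      · exact absurd (Units.ext (by simpa using sub_eq_zero.1 h)) hne
      · exact h
  have hsum : ∑ u : R, ev ξ (-u) * A u = (Nat.card R : k) := by
    have e1 : ∀ u : R, ev ξ (-u) * A u = ∑ c : Rˣ, (ψ c : k) * ev ξ (u * ((c : R) - 1)) := by
      intro u
      simp only [hA]
      rw [Finset.mul_sum]
      refine Finset.sum_congr rfl fun c _ => ?_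
      have : u * ((c : R) - 1) = -u + u * c := by ring
      rw [this, ev_add]
      ring
    simp only [e1]
    rw [Finset.sum_comm, Finset.sum_eq_single (1 : Rˣ)]
    · simp [ev_zero, Nat.card_eq_fintype_card]
    · intro c _ hc
      rw [← Finset.mul_sum]
      have hy : (c : R) - 1 ≠ 0 := by
        intro h
        exact hc (Units.ext (by simpa using sub_eq_zero.1 h))
      have h := sum_mul_gen ξ hξ _ hy
      rw [finsum_eq_sum_of_fintype] at h
      rw [h, mul_zero]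
    · simp
  apply hcard
  rw [← hsum]
  simp [hall]

theorem gauss (hcard : (Nat.card R : k) ≠ 0) (ψ : Rˣ →* kˣ)
    (hψ : ∀ u : R, ¬ IsUnit u → ∃ c : Rˣ, u * ((c : R) - 1) = 0 ∧ ψ c ≠ 1)
    (ξ : Multiplicative R →* kˣ) (hξ : Gen ξ) (H : R → k)
    (h : ∀ d : R, ∑ᶠ c : Rˣ, (ψ c : k) * H (c + d) = 0) : ∑ᶠ x : R, ev ξ x * H x = 0 := by
  classical
  have hne := gauss_ne_zero hcard ψ hψ ξ hξ
  have := Fintype.ofFinite R
  rw [finsum_eq_sum_of_fintype] at hne ⊢
  simp only [finsum_eq_sum_of_fintype] at h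
  have key : (∑ c : Rˣ, (ψ c : k) * ev ξ (-(c : R))) * ∑ x : R, ev ξ x * H x = 0 := by
    have e : ∑ d : R, ev ξ d * ∑ c : Rˣ, (ψ c : k) * H (c + d) = 0 := by simp [h]
    have e2 : ∑ d : R, ev ξ d * ∑ c : Rˣ, (ψ c : k) * H (c + d) =
        ∑ c : Rˣ, ∑ d : R, ev ξ d * ((ψ c : k) * H (c + d)) := by
      rw [Finset.sum_comm]
      exact Finset.sum_congr rfl fun d _ => Finset.mul_sum _ _ _
    rw [← e, e2, Finset.sum_mul]
    refine Finset.sum_congr rfl fun c _ => ?_
    rw [Finset.mul_sum]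
    rw [← Equiv.sum_comp (Equiv.addLeft (c : R)) (fun x => (ψ c : k) * ev ξ (-(c : R)) * (ev ξ x * H x))]
    refine Finset.sum_congr rfl fun d _ => ?_
    simp only [Equiv.coe_addLeft, ev_add, ev_neg]
    have := ev_ne_zero ξ (c : R)
    field_simp
  rcases mul_eq_zero.1 key with h | h
  · exact absurd h hne
  · exact h

end SerreW
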