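import Pool.Agent.SerreW.TR
import Pool.Agent.SerreW.GAUSS

/-!
# GAUSS2 (3): the function `H` on `O/e` and the vanishing of its generic Fourier coefficients

`exists_H`: put `H x = hh C a g`, where `g` is any matrix with `Rel c c γ g` and `c ∈ O` is a lift of `x` (exists by
`deep_rel_exists`; unique by `rel_unique`). Two lifts differ by `e z`; `rel_shift` + `rel_unique` give
`g' = up (m z) * g * (up (m z))⁻¹`, `g ≡ 1` modulo `f` (`deep_rel` with `n = 1`, `deep_iff`), and `hh_shift`. (Define `H` with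
`Classical.choose`.)
`gauss2`: apply `gauss` (GAUSS) with `R = O/e`, `ψ = ψe`: for `d ∈ O/e` choose a lift `d'`, and `G c` with
`Rel (lf c + d') (lf c + d') γ (G c)`; then `H (c + d) = hh C a (G c)` (`lf_spec`), and the sum is `0` by `tr`.
`|O/e| ≠ 0` in `k`: `e ∣ f` is prime to `3` (`SerreT.odd_card`, `SerreT.card_ne_zero'`, `SerreE.isUnit_mk_of_coprime`).
Hypothesis on non-units `u = mk u'`: `u'` is not coprime to `e`, so (principal ideal domain, `e ≠ 0`) a prime `π` divides `u'` and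
`e = π e₂`; `D.prim` gives `c` with `mk e₂ ∣ c - 1`, `ψe c ≠ 1`; `u (c - 1)` is a multiple of `mk (π e₂) = 0`.
-/

open Matrix
open scoped QuadraticAlgebra

namespace SerreW
namespace TW

open SerreT
open SerreE (mk2 sc dg dgl up low red Gam0 GamUp mem_Gam0 mem_GamUp PM Frame heckeC)

variable {O : Type} [CommRing O] {k : Type} [Field k] {f : O}
  {χ : (Ti (O ⧸ Ideal.span {f}))ˣ →* kˣ} {D : TW f k χ}

theorem exists_H [IsDomain O] (hf : f ≠ 0)
    {C : GL (Fin 2) O → GL (Fin 2) (O ⧸ Ideal.span {f}) → k} (hC : D.IsC C)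
    (a : GL (Fin 2) (O ⧸ Ideal.span {f})) {γ : GL (Fin 2) O} (hγ : Deep (f ^ 6) γ) :
    ∃ H : O ⧸ Ideal.span {D.e} → k, ∀ (c : O) (g : GL (Fin 2) O), D.Rel c c γ g →
      H (Ideal.Quotient.mk _ c) = D.hh C a g := by
  have hex : ∀ c : O, ∃ g, D.Rel c c γ g := fun c =>
    deep_rel_exists D hf (hγ.pow_mono (by norm_num)) c
  choose g0 hg0 using hex
  have hsur : ∀ x : O ⧸ Ideal.span {D.e}, ∃ y, Ideal.Quotient.mk (Ideal.span {D.e}) y = x :=
    fun x => Ideal.Quotient.mk_surjective x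
  choose s hs using hsur
  refine ⟨fun x => D.hh C a (g0 (s x)), ?_⟩
  intro c g hg
  have h1 : c - s (Ideal.Quotient.mk _ c) ∈ Ideal.span {D.e} := by
    rw [← Ideal.Quotient.eq, hs]
  obtain ⟨z, hz⟩ := Ideal.mem_span_singleton.mp h1
  have hc : c = s (Ideal.Quotient.mk _ c) + D.e * z := by rw [← hz]; ring
  have h2 := rel_shift (hg0 (s (Ideal.Quotient.mk _ c))) z z
  rw [← hc] at h2
  have h3 := rel_unique hf hg h2
  have h4 : Deep (f ^ 4) (g0 (s (Ideal.Quotient.mk _ c))) := deep_rel hf 4 hγ (hg0 _)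
  show D.hh C a (g0 (s (Ideal.Quotient.mk _ c))) = D.hh C a g
  rw [h3, hh_shift hC a (h4.red (by norm_num)) z]

theorem gauss2 [IsDomain O] [IsPrincipalIdealRing O] [CharP k 3]
    [Finite (O ⧸ Ideal.span {D.e})] (hf : f ≠ 0) (hf3 : IsCoprime f 3)
    {C : GL (Fin 2) O → GL (Fin 2) (O ⧸ Ideal.span {f}) → k} (hC : D.IsC C)
    (a : GL (Fin 2) (O ⧸ Ideal.span {f}))
    (h0 : ∀ γ : Gam0 (f ^ 2), Deep (f ^ 4) γ.val → D.F C a γ = 0)
    {γ : GL (Fin 2) O} (hγ : Deep (f ^ 6) γ) (H : O ⧸ Ideal.span {D.e} → k)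
    (hH : ∀ (c : O) (g : GL (Fin 2) O), D.Rel c c γ g →
      H (Ideal.Quotient.mk _ c) = D.hh C a g)
    (ξ : Multiplicative (O ⧸ Ideal.span {D.e}) →* kˣ) (hξ : Gen ξ) :
    ∑ᶠ x, ev ξ x * H x = 0 := by
  have he0 : D.e ≠ 0 := (f_ne_s D hf).2.2.1
  have h3u : IsUnit (3 : O ⧸ Ideal.span {D.e}) := by
    have h1 : IsCoprime D.e 3 := IsCoprime.of_isCoprime_of_dvd_left hf3 D.e_dvd
    have h2 := SerreE.isUnit_mk_of_coprime h1.symm
    rwa [map_ofNat] at h2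
  have hcard : (Nat.card (O ⧸ Ideal.span {D.e}) : k) ≠ 0 := card_ne_zero' (odd_card h3u)
  have hψ : ∀ u : O ⧸ Ideal.span {D.e}, ¬ IsUnit u →
      ∃ c : (O ⧸ Ideal.span {D.e})ˣ, u * ((c : O ⧸ Ideal.span {D.e}) - 1) = 0 ∧ D.ψe c ≠ 1 := by
    intro u hu
    obtain ⟨u', rfl⟩ := Ideal.Quotient.mk_surjective u
    have h1 : ¬ IsCoprime u' D.e := fun h => hu (SerreE.isUnit_mk_of_coprime h)
    have h2 : ∃ π : O, Prime π ∧ π ∣ u' ∧ π ∣ D.e := by
      by_contra hcon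
      apply h1
      apply isCoprime_of_prime_dvd
      · intro h
        exact he0 h.2
      · intro π hπ h3 h4
        exact hcon ⟨π, hπ, h3, h4⟩
    obtain ⟨π, hπ, ⟨w, hw⟩, ⟨e₂, he₂⟩⟩ := h2
    obtain ⟨c, ⟨t, ht⟩, hc⟩ := D.prim π e₂ hπ he₂
    refine ⟨c, ?_, hc⟩
    have h5 : Ideal.Quotient.mk (Ideal.span {D.e}) D.e = 0 :=
      Ideal.Quotient.eq_zero_iff_mem.2 (Ideal.mem_span_singleton_self _)
    rw [ht, hw, ← mul_assoc, ← map_mul]
    have h6 : π * w * e₂ = D.e * w := by rw [he₂]; ring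
    rw [h6, map_mul, h5, zero_mul, zero_mul]
  apply gauss hcard D.ψe hψ ξ hξ H
  intro d
  obtain ⟨d', rfl⟩ := Ideal.Quotient.mk_surjective d
  have hex : ∀ c : (O ⧸ Ideal.span {D.e})ˣ, ∃ g, D.Rel (D.lf c + d') (D.lf c + d') γ g := fun c =>
    deep_rel_exists D hf (hγ.pow_mono (by norm_num)) _
  choose G hG using hex
  rw [← tr hf hC a h0 hγ d' G hG]
  apply finsum_congr
  intro c
  rw [← hH _ _ (hG c), map_add, D.lf_spec]

end TW
end SerreW
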