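import Pool.Agent.SerreW.DEEP
import Pool.Agent.SerreT.SHAP3

/-!
# SHAPN (2): Shapiro (adapt `SerreT.shap`, file SerreT/SHAP3.lean, from the torus to the group `D.N`)

`C γ y = (X n)⁻¹ (a (s⁻¹ γ) - a s⁻¹)` if `y = red f s * n` with `n ∈ N` (independent of the choice by `ha`), `0` if there is no such decomposition.
-/

open Matrix
open scoped QuadraticAlgebra

namespace SerreW
namespace TW

open SerreT
open SerreE (mk2 sc dg dgl up low red)

/-- `a` solves the functional equation for `D` -/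
structure Sol {O : Type} [CommRing O] {k : Type} [Field k] {f : O}
    {χ : (Ti (O ⧸ Ideal.span {f}))ˣ →* kˣ} (D : TW f k χ) (a : GL (Fin 2) O → k) : Prop where
  scal : ∀ A (u : Oˣ), a (A * sc u) = a A
  eqn : ∀ (γ : GL (Fin 2) O) (h : red f γ ∈ D.N) (A : GL (Fin 2) O),
    a (γ * A) - (D.X ⟨red f γ, h⟩ : k) * a A = a γ - (D.X ⟨red f γ, h⟩ : k) * a 1

open Classical in
/-- the cocycle on the induced module attached to `a`. -/
noncomputable def shapn_C {O : Type} [CommRing O] {k : Type} [Field k] {f : O}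
    {χ : (Ti (O ⧸ Ideal.span {f}))ˣ →* kˣ} (D : TW f k χ) (a : GL (Fin 2) O → k)
    (γ : GL (Fin 2) O) (y : GL (Fin 2) (O ⧸ Ideal.span {f})) : k :=
  if h : ∃ (s : GL (Fin 2) O) (t : D.N), y = red f s * t.val then
    ((D.X h.choose_spec.choose)⁻¹ : kˣ) * (a (h.choose⁻¹ * γ) - a (h.choose⁻¹)) else 0

theorem shapn_eq {O : Type} [CommRing O] {k : Type} [Field k] {f : O}
    {χ : (Ti (O ⧸ Ideal.span {f}))ˣ →* kˣ} (D : TW f k χ) (a : GL (Fin 2) O → k)
    (ha : D.Sol a) (γ s : GL (Fin 2) O) (t : D.N)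
    (y : GL (Fin 2) (O ⧸ Ideal.span {f})) (hy : y = red f s * t.val) :
    shapn_C D a γ y = ((D.X t)⁻¹ : kˣ) * (a (s⁻¹ * γ) - a s⁻¹) := by
  have h : ∃ (s : GL (Fin 2) O) (t : D.N), y = red f s * t.val := ⟨s, t, hy⟩
  unfold shapn_C
  rw [dif_pos h]
  set s' := h.choose with hs'
  set t' := h.choose_spec.choose with ht'
  have hy' : y = red f s' * t'.val := h.choose_spec.choose_spec
  have h0 : (t' * t⁻¹).val = red f (s'⁻¹ * s) := by
    rw [map_mul, map_inv, Subgroup.coe_mul, Subgroup.coe_inv]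
    rw [hy] at hy'
    rw [eq_inv_mul_iff_mul_eq, ← mul_assoc, ← hy', mul_assoc, mul_inv_cancel, mul_one]
  have hm : red f (s'⁻¹ * s) ∈ D.N := by rw [← h0]; exact (t' * t⁻¹).2
  have hX : D.X ⟨red f (s'⁻¹ * s), hm⟩ = D.X (t' * t⁻¹) := by
    congr 1
    exact Subtype.ext h0.symm
  have h1 := ha.eqn (s'⁻¹ * s) hm (s⁻¹ * γ)
  have h2 := ha.eqn (s'⁻¹ * s) hm s⁻¹
  rw [hX] at h1 h2
  have e1 : s'⁻¹ * s * (s⁻¹ * γ) = s'⁻¹ * γ := by group
  have e2 : s'⁻¹ * s * s⁻¹ = s'⁻¹ := by group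
  rw [e1] at h1
  rw [e2] at h2
  have h3 : a (s'⁻¹ * γ) - a s'⁻¹ =
      ((D.X (t' * t⁻¹) : kˣ) : k) * (a (s⁻¹ * γ) - a s⁻¹) := by
    linear_combination h1 - h2
  rw [h3, map_mul, map_inv]
  have h4 : ((D.X t' : kˣ) : k) ≠ 0 := (D.X t').ne_zero
  rw [Units.val_mul, Units.val_inv_eq_inv_val, Units.val_inv_eq_inv_val]
  field_simp

theorem shapN {O : Type} [CommRing O] {k : Type} [Field k] {f : O}
    {χ : (Ti (O ⧸ Ideal.span {f}))ˣ →* kˣ} (D : TW f k χ) (a : GL (Fin 2) O → k)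
    (ha : D.Sol a) :
    ∃ C : GL (Fin 2) O → GL (Fin 2) (O ⧸ Ideal.span {f}) → k,
      D.IsC C ∧ ∀ γ, C γ 1 = a γ - a 1 := by
  refine ⟨shapn_C D a, ⟨?_, ?_, ?_⟩, ?_⟩
  · intro γ γ' y
    by_cases h : ∃ (s : GL (Fin 2) O) (t : D.N), y = red f s * t.val
    · obtain ⟨s, t, hy⟩ := h
      rw [shapn_eq D a ha (γ * γ') s t y hy, shapn_eq D a ha γ s t y hy,
        shapn_eq D a ha γ' (γ⁻¹ * s) t ((red f γ)⁻¹ * y)
          (by rw [hy, map_mul, map_inv, mul_assoc])]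
      have e1 : (γ⁻¹ * s)⁻¹ * γ' = s⁻¹ * (γ * γ') := by group
      have e2 : (γ⁻¹ * s)⁻¹ = s⁻¹ * γ := by group
      rw [e1, e2]
      ring
    · have h' : ¬ ∃ (s : GL (Fin 2) O) (t : D.N), (red f γ)⁻¹ * y = red f s * t.val := by
        rintro ⟨s, t, hy⟩
        exact h ⟨γ * s, t, by rw [map_mul, mul_assoc, ← hy, mul_inv_cancel_left]⟩
      unfold shapn_C
      rw [dif_neg h, dif_neg h, dif_neg h', add_zero]
  · intro u y
    by_cases h : ∃ (s : GL (Fin 2) O) (t : D.N), y = red f s * t.val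
    · obtain ⟨s, t, hy⟩ := h
      rw [shapn_eq D a ha _ s t y hy, ha.scal, sub_self, mul_zero]
    · unfold shapn_C
      rw [dif_neg h]
  · intro γ y t'
    by_cases h : ∃ (s : GL (Fin 2) O) (t : D.N), y = red f s * t.val
    · obtain ⟨s, t, hy⟩ := h
      rw [shapn_eq D a ha _ s t y hy, shapn_eq D a ha _ s (t * t') (y * t'.val)
        (by rw [hy, Subgroup.coe_mul, mul_assoc])]
      rw [map_mul, mul_inv, Units.val_mul]
      ring
    · have h' : ¬ ∃ (s : GL (Fin 2) O) (t : D.N), y * t'.val = red f s * t.val := by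
        rintro ⟨s, t, hy⟩
        exact h ⟨s, t * t'⁻¹, by
          rw [Subgroup.coe_mul, ← mul_assoc, ← hy, Subgroup.coe_inv, mul_inv_cancel_right]⟩
      unfold shapn_C
      rw [dif_neg h, dif_neg h', mul_zero]
  · intro γ
    rw [shapn_eq D a ha γ 1 1 1 (by simp)]
    simp

end TW
end SerreW
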