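import Pool.Agent.SerreW.GAUSS2
import Pool.Agent.SerreW.FOUR

/-!
# SOC (3): the vanishing on deep elements in terms of the frame `up (m₀ z)`

`exists_rho`: `ρ` = generator of the ideal `span {e, m}` (principal ideal domain); `e = ρ e₀`, `m = ρ m₀`; a prime dividing `e` divides
`f`, so `m` (`D.hrad`), so `ρ` (`ρ = a e + b m`).
`soc1`: by `rel_zero_of_deep` (`n = 6`) there is `γ ≡ 1` modulo `f⁶` with `Rel 0 0 γ g`. `f₁ e₀ = m₀ s` (cancel `ρ ≠ 0` in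
`ρ e₀ f₁ = e f₁ = f = m s = ρ m₀ s`), so `up (m₀ z) M_0 = M_{e₀ z}` and `g' = up (m₀ z) g (up (m₀ z))⁻¹` satisfies
`Rel (e₀ z) (e₀ z) γ g'` for `z ∈ O`. Take `H` from `exists_H`: `H (mk (e₀ z)) = hh C a g' = Σ_r psi r * C g' (dg r * a)`, and
`C g' y = C g ((red f (up (m₀ z)))⁻¹ * y)` by `IsCoc.conj` (SerreT/INJ, with `G = (up (m₀ z))⁻¹`, `red f g = 1`). The hypothesis of
`four` is `gauss2`. This gives the case `b = 1`. General `b`: lift `b` to `B ∈ GL₂(O)` (`SerreE.sapp`), apply the case `b = 1` to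
`B⁻¹ * (g * B)` (again congruent to `1` modulo `f⁷`: `Deep.conj`) and use `IsCoc.conj`: `C (B⁻¹ (g B)) y = C g (b * y)`.
-/

open Matrix
open scoped QuadraticAlgebra

namespace SerreW
namespace TW

open SerreT
open SerreE (mk2 sc dg dgl up low red Gam0 GamUp mem_Gam0 mem_GamUp PM Frame heckeC)

variable {O : Type} [CommRing O] {k : Type} [Field k] {f : O}
  {χ : (Ti (O ⧸ Ideal.span {f}))ˣ →* kˣ} {D : TW f k χ}

variable (D) in
theorem exists_rho [IsDomain O] [IsPrincipalIdealRing O] : ∃ ρ e0 m0 : O, D.e = ρ * e0 ∧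
    D.m = ρ * m0 ∧ ∀ π : O, Prime π → π ∣ D.e → π ∣ ρ := by
  obtain ⟨ρ, hρ⟩ := (IsPrincipalIdealRing.principal (Ideal.span {D.e, D.m} : Ideal O)).principal
  have hρe : ρ ∣ D.e := by
    rw [← Ideal.mem_span_singleton]
    have : D.e ∈ Ideal.span {D.e, D.m} := Ideal.subset_span (by simp)
    rw [hρ] at this
    exact this
  have hρm : ρ ∣ D.m := by
    rw [← Ideal.mem_span_singleton]
    have : D.m ∈ Ideal.span {D.e, D.m} := Ideal.subset_span (by simp)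
    rw [hρ] at this
    exact this
  have hmem : ρ ∈ Ideal.span {D.e, D.m} := by
    rw [hρ]
    exact Submodule.mem_span_singleton_self ρ
  obtain ⟨a, b, hab⟩ := Ideal.mem_span_pair.mp hmem
  obtain ⟨e0, he0⟩ := hρe
  obtain ⟨m0, hm0⟩ := hρm
  refine ⟨ρ, e0, m0, he0, hm0, ?_⟩
  intro π hπ hπe
  have hπm : π ∣ D.m := D.hrad π hπ (hπe.trans D.e_dvd)
  rw [← hab]
  exact dvd_add (Dvd.dvd.mul_left hπe _) (Dvd.dvd.mul_left hπm _)

theorem soc_rel [IsDomain O] {ρ e0 m0 : O} (he : D.e = ρ * e0) (hm : D.m = ρ * m0) (hρ0 : ρ ≠ 0)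
    {γ g : GL (Fin 2) O} (h : D.Rel 0 0 γ g) (z : O) :
    D.Rel (e0 * z) (e0 * z) γ (up (m0 * z) * g * (up (m0 * z))⁻¹) := by
  have h1 : D.f1 * e0 = m0 * D.s := by
    apply mul_left_cancel₀ hρ0
    have h2 := D.hef
    have h3 := D.hms
    rw [he] at h2
    rw [hm] at h3
    linear_combination h3 - h2
  have h2 : (up (m0 * z)).val * D.M 0 = D.M (e0 * z) := by
    unfold TW.M
    ext i j
    fin_cases i <;> fin_cases j <;>
      simp [up, mk2, Matrix.mul_apply, Fin.sum_univ_two]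
    linear_combination (-z) * h1
  have h3 : (up (m0 * z))⁻¹.val * (up (m0 * z)).val = 1 := by
    rw [← Units.val_mul, inv_mul_cancel, Units.val_one]
  unfold TW.Rel at h ⊢
  rw [Units.val_mul, Units.val_mul, ← h2]
  calc (up (m0 * z)).val * g.val * (up (m0 * z))⁻¹.val * ((up (m0 * z)).val * D.M 0)
      = (up (m0 * z)).val * g.val * ((up (m0 * z))⁻¹.val * (up (m0 * z)).val) * D.M 0 := by
        simp only [mul_assoc]
    _ = (up (m0 * z)).val * (g.val * D.M 0) := by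
        rw [h3, mul_one, mul_assoc]
    _ = (up (m0 * z)).val * D.M 0 * γ.val := by
        rw [h, mul_assoc]

theorem soc1 [IsDomain O] [IsPrincipalIdealRing O] [IsAlgClosed k] [CharP k 3]
    [Finite (O ⧸ Ideal.span {D.e})] (hf : f ≠ 0) (hf3 : IsCoprime f 3)
    {C : GL (Fin 2) O → GL (Fin 2) (O ⧸ Ideal.span {f}) → k} (hC : D.IsC C)
    (h0 : ∀ (a : GL (Fin 2) (O ⧸ Ideal.span {f})) (γ : Gam0 (f ^ 2)), Deep (f ^ 4) γ.val →
      D.F C a γ = 0)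
    {ρ e0 m0 : O} (he : D.e = ρ * e0) (hm : D.m = ρ * m0)
    (hρ : ∀ π : O, Prime π → π ∣ D.e → π ∣ ρ) [Finite (O ⧸ Ideal.span {ρ})]
    (l : O ⧸ Ideal.span {ρ} → O) (hl : ∀ z, Ideal.Quotient.mk _ (l z) = z)
    (ξ : Multiplicative (O ⧸ Ideal.span {D.m}) →* kˣ) (hξ : Gen ξ)
    {g : GL (Fin 2) O} (hg : Deep (f ^ 7) g)
    (a : GL (Fin 2) (O ⧸ Ideal.span {f})) :
    ∑ᶠ z : O ⧸ Ideal.span {ρ}, ev ξ (Ideal.Quotient.mk _ (m0 * l z)) *
      ∑ᶠ r : (O ⧸ Ideal.span {f})ˣ, (D.psi r : k) *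
        C g ((red f (up (m0 * l z)))⁻¹ * (dg r * a)) = 0 := by
  obtain ⟨hs0, hm0, he0, hf10⟩ := f_ne_s D hf
  have hρ0 : ρ ≠ 0 := by
    rintro rfl
    exact he0 (by rw [he, zero_mul])
  obtain ⟨γ, hγ, hrel⟩ := rel_zero_of_deep D hf 6 hg
  obtain ⟨H, hH⟩ := exists_H hf hC a hγ
  have he3 : IsCoprime D.e 3 := IsCoprime.of_isCoprime_of_dvd_left hf3 D.e_dvd
  have h1 := four he hm he0 hm0 he3 hρ ξ hξ H
    (fun ξ' hξ' => gauss2 hf hf3 hC a (h0 a) hγ H hH ξ' hξ') l hl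
  rw [← h1]
  apply finsum_congr
  intro z
  rw [hH _ _ (soc_rel he hm hρ0 hrel (l z))]
  congr 1
  unfold TW.hh
  apply finsum_congr
  intro r
  congr 1
  have h2 := IsCoc.conj hC.isCoc g (up (m0 * l z))⁻¹ (hg.red (by norm_num)) (dg r * a)
  rw [inv_inv, map_inv, ← mul_assoc] at h2
  exact h2.symm

theorem soc [IsDomain O] [IsPrincipalIdealRing O] [IsAlgClosed k] [CharP k 3]
    [Finite (O ⧸ Ideal.span {D.e})] (hf : f ≠ 0) (hf3 : IsCoprime f 3)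
    {C : GL (Fin 2) O → GL (Fin 2) (O ⧸ Ideal.span {f}) → k} (hC : D.IsC C)
    (h0 : ∀ (a : GL (Fin 2) (O ⧸ Ideal.span {f})) (γ : Gam0 (f ^ 2)), Deep (f ^ 4) γ.val →
      D.F C a γ = 0)
    {ρ e0 m0 : O} (he : D.e = ρ * e0) (hm : D.m = ρ * m0)
    (hρ : ∀ π : O, Prime π → π ∣ D.e → π ∣ ρ) [Finite (O ⧸ Ideal.span {ρ})]
    (l : O ⧸ Ideal.span {ρ} → O) (hl : ∀ z, Ideal.Quotient.mk _ (l z) = z)
    (ξ : Multiplicative (O ⧸ Ideal.span {D.m}) →* kˣ) (hξ : Gen ξ)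
    {g : GL (Fin 2) O} (hg : Deep (f ^ 7) g)
    (b a : GL (Fin 2) (O ⧸ Ideal.span {f})) (hb : Matrix.GeneralLinearGroup.det b = 1) :
    ∑ᶠ z : O ⧸ Ideal.span {ρ}, ev ξ (Ideal.Quotient.mk _ (m0 * l z)) *
      ∑ᶠ r : (O ⧸ Ideal.span {f})ˣ, (D.psi r : k) *
        C g (b * ((red f (up (m0 * l z)))⁻¹ * (dg r * a))) = 0 := by
  obtain ⟨B, -, hB⟩ := SerreE.sapp f hf b hb
  have h1 := soc1 hf hf3 hC h0 he hm hρ l hl ξ hξ (hg.conj B) a
  rw [← h1]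
  apply finsum_congr
  intro z
  congr 1
  apply finsum_congr
  intro r
  rw [IsCoc.conj hC.isCoc g B (hg.red (by norm_num)), hB]

end TW
end SerreW
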