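import Pool.Agent.SerreW.CJ

/-!
# TR (3): translation

Assume `F C a γ = 0` for all `γ ∈ Γ₀(f²)` congruent to `1` modulo `f⁴`. Let `γ ≡ 1` modulo `f⁶`, `d ∈ O`, and let `G c` be
the matrix with `G c * M_{lf c + d} = M_{lf c + d} γ`. Put `U = [[e, d], [0, e]]` and `γ_d = U γ U⁻¹`:
`e² (γ_d - 1) = U (γ - 1) adj U` is divisible by `f⁶`, and `e² ∣ f²`, so `γ_d` exists in `GL₂(O)` (formula:
`γ_d = 1 + (U (γ - 1) adj U) / e²`, determinant `det γ`) and `γ_d ≡ 1` modulo `f⁴`.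
`M_c U = e M_{c + d}` (entries: `f d + f₁ c e = e f₁ (c + d)` since `f = e f₁`), and `U γ = γ_d U`. Hence
`M_c γ_d U = M_c U γ = e M_{c+d} γ = e G M_{c+d} = G M_c U`, cancel `U` (`det U = e² ≠ 0`): `Rel c c γ_d G` with `c = lf c`.
So by `F_deep` (with `L = lf`, `lf_spec`) the sum is `F C a γ_d = 0`.
-/

open Matrix
open scoped QuadraticAlgebra

namespace SerreW
namespace TW

open SerreT
open SerreE (mk2 sc dg dgl up low red Gam0 GamUp mem_Gam0 mem_GamUp PM Frame heckeC)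

variable {O : Type} [CommRing O] {k : Type} [Field k] {f : O}
  {χ : (Ti (O ⧸ Ideal.span {f}))ˣ →* kˣ} {D : TW f k χ}

theorem tr_det {O : Type} [CommRing O] (f e f1 d x y z w : O) (hef : f = e * f1) :
    (1 + f ^ 4 * (f1 ^ 2 * (e ^ 2 * x + e * d * z))) * (1 + f ^ 4 * (f1 ^ 2 * (e ^ 2 * w - e * d * z))) -
        f ^ 4 * (f1 ^ 2 * (e ^ 2 * y + e * d * (w - x) - d ^ 2 * z)) * (f ^ 4 * (f1 ^ 2 * (e ^ 2 * z))) =
      (1 + f ^ 6 * x) * (1 + f ^ 6 * w) - f ^ 6 * y * (f ^ 6 * z) := by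
  subst hef
  ring

theorem tr_mat {O : Type} [CommRing O] (f e f1 d x y z w : O) (hef : f = e * f1) :
    !![1 + f ^ 4 * (f1 ^ 2 * (e ^ 2 * x + e * d * z)),
        f ^ 4 * (f1 ^ 2 * (e ^ 2 * y + e * d * (w - x) - d ^ 2 * z));
        f ^ 4 * (f1 ^ 2 * (e ^ 2 * z)), 1 + f ^ 4 * (f1 ^ 2 * (e ^ 2 * w - e * d * z))] * !![e, d; 0, e] =
      !![e, d; 0, e] * !![1 + f ^ 6 * x, f ^ 6 * y; f ^ 6 * z, 1 + f ^ 6 * w] := by
  subst hef
  rw [Matrix.mul_fin_two, Matrix.mul_fin_two]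
  congr 1
  ring_nf

/-- the conjugate by `U = [[e, d], [0, e]]` -/
theorem exists_conjU [IsDomain O] (hf : f ≠ 0) {γ : GL (Fin 2) O} (hγ : Deep (f ^ 6) γ) (d : O) :
    ∃ γd : GL (Fin 2) O, Deep (f ^ 4) γd ∧
      γd.val * !![D.e, d; 0, D.e] = !![D.e, d; 0, D.e] * γ.val := by
  obtain ⟨h00, h01, h10, h11⟩ := hγ.entries
  obtain ⟨x, hx⟩ := h00
  obtain ⟨y, hy⟩ := h01
  obtain ⟨z, hz⟩ := h10
  obtain ⟨w, hw⟩ := h11
  have hx' : γ.val 0 0 = 1 + f ^ 6 * x := by linear_combination hx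
  have hw' : γ.val 1 1 = 1 + f ^ 6 * w := by linear_combination hw
  have hef := D.hef
  have hdet : γ.val.det = (1 + f ^ 6 * x) * (1 + f ^ 6 * w) - (f ^ 6 * y) * (f ^ 6 * z) := by
    rw [Matrix.det_fin_two, hx', hw', hy, hz]
  obtain ⟨T, hT⟩ : ∃ T : Matrix (Fin 2) (Fin 2) O, T =
      !![1 + f ^ 4 * (D.f1 ^ 2 * (D.e ^ 2 * x + D.e * d * z)),
        f ^ 4 * (D.f1 ^ 2 * (D.e ^ 2 * y + D.e * d * (w - x) - d ^ 2 * z));
        f ^ 4 * (D.f1 ^ 2 * (D.e ^ 2 * z)), 1 + f ^ 4 * (D.f1 ^ 2 * (D.e ^ 2 * w - D.e * d * z))] := ⟨_, rfl⟩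
  have hTd : T.det = γ.val.det := by
    rw [hdet, hT, Matrix.det_fin_two_of]
    exact tr_det f D.e D.f1 d x y z w hef
  have hU : IsUnit T.det := by
    rw [hTd]
    exact (Matrix.isUnit_iff_isUnit_det _).mp γ.isUnit
  refine ⟨Matrix.GeneralLinearGroup.mk'' T hU, deep_of_entries ?_ ?_ ?_ ?_, ?_⟩
  · show f ^ 4 ∣ T 0 0 - 1
    rw [hT]
    exact ⟨D.f1 ^ 2 * (D.e ^ 2 * x + D.e * d * z), by simp⟩
  · show f ^ 4 ∣ T 0 1
    rw [hT]
    exact ⟨D.f1 ^ 2 * (D.e ^ 2 * y + D.e * d * (w - x) - d ^ 2 * z), by simp⟩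
  · show f ^ 4 ∣ T 1 0
    rw [hT]
    exact ⟨D.f1 ^ 2 * (D.e ^ 2 * z), by simp⟩
  · show f ^ 4 ∣ T 1 1 - 1
    rw [hT]
    exact ⟨D.f1 ^ 2 * (D.e ^ 2 * w - D.e * d * z), by simp⟩
  · show T * !![D.e, d; 0, D.e] = !![D.e, d; 0, D.e] * γ.val
    have hγv : γ.val = !![1 + f ^ 6 * x, f ^ 6 * y; f ^ 6 * z, 1 + f ^ 6 * w] := by
      ext i j
      fin_cases i <;> fin_cases j
      · exact hx'
      · exact hy
      · exact hz
      · exact hw'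
    rw [hγv, hT]
    exact tr_mat f D.e D.f1 d x y z w hef

theorem tr [IsDomain O] (hf : f ≠ 0)
    {C : GL (Fin 2) O → GL (Fin 2) (O ⧸ Ideal.span {f}) → k} (hC : D.IsC C)
    (a : GL (Fin 2) (O ⧸ Ideal.span {f}))
    (h0 : ∀ γ : Gam0 (f ^ 2), Deep (f ^ 4) γ.val → D.F C a γ = 0)
    {γ : GL (Fin 2) O} (hγ : Deep (f ^ 6) γ) (d : O)
    (G : (O ⧸ Ideal.span {D.e})ˣ → GL (Fin 2) O)
    (hG : ∀ c, D.Rel (D.lf c + d) (D.lf c + d) γ (G c)) :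
    ∑ᶠ c : (O ⧸ Ideal.span {D.e})ˣ, (D.ψe c : k) * D.hh C a (G c) = 0 := by
  obtain ⟨γd, hdeep, hUγ⟩ := exists_conjU (D := D) hf hγ d
  have hmem : γd ∈ Gam0 (f ^ 2) := (hdeep.pow_mono (by norm_num)).mem_gam
  have h1 := h0 ⟨γd, hmem⟩ hdeep
  have he : D.e ≠ 0 := by
    intro h
    apply hf
    rw [D.hef, h, zero_mul]
  rw [← h1]
  refine (F_deep hf hC a ⟨γd, hmem⟩ (hdeep.pow_mono (by norm_num)) D.lf D.lf_spec G (fun c => ?_)).symm
  have h2 := hG c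
  unfold TW.Rel at h2 ⊢
  have h3 : D.M (D.lf c) * !![D.e, d; 0, D.e] = D.e • D.M (D.lf c + d) := by
    unfold TW.M
    have hef := D.hef
    rw [Matrix.mul_fin_two]
    ext i j
    fin_cases i <;> fin_cases j
    · simp
      ring
    · simp
      linear_combination d * hef
    · simp
    · simp
      ring
  have h4 : (D.M (D.lf c) * γd.val) * !![D.e, d; 0, D.e] = ((G c).val * D.M (D.lf c)) * !![D.e, d; 0, D.e] := by
    rw [Matrix.mul_assoc, hUγ, ← Matrix.mul_assoc, h3, Matrix.mul_assoc (G c).val, h3, Matrix.smul_mul, ← h2,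
      Matrix.mul_smul]
  have h5 : (!![D.e, d; 0, D.e] : Matrix (Fin 2) (Fin 2) O) * !![D.e, -d; 0, D.e] = (D.e * D.e) • 1 := by
    rw [Matrix.mul_fin_two, Matrix.one_fin_two]
    ext i j
    fin_cases i <;> fin_cases j
    · simp
    · simp
      ring
    · simp
    · simp
  have h6 := congrArg (fun Z => Z * (!![D.e, -d; 0, D.e] : Matrix (Fin 2) (Fin 2) O)) h4
  simp only [Matrix.mul_assoc _ (!![D.e, d; 0, D.e] : Matrix (Fin 2) (Fin 2) O), h5, Matrix.mul_smul,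
    Matrix.mul_one] at h6
  ext i j
  have h7 := congrArg (fun Z : Matrix (Fin 2) (Fin 2) O => Z i j) h6
  simp only [Matrix.smul_apply, smul_eq_mul] at h7
  exact (mul_left_cancel₀ (mul_ne_zero he he) h7).symm

end TW
end SerreW
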