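import Pool.Agent.SerreW.Defs
import Pool.Agent.SerreT.VLOC

/-!
# The local case of the joint injectivity statement for generic additive characters
-/

open Matrix
open scoped QuadraticAlgebra

namespace SerreW

open SerreE (mk2 sc dg dgl up low det_up up_mul_up up_zero congruence_le)
open SerreT (char_complete)

variable {k : Type} [Field k]

theorem propW_subsingleton (R : Type) [CommRing R] [Subsingleton R] : PropW R k := by
  intro v _ hsum
  funext y
  have h1 := hsum 1 y (map_one _) 1 (fun 𝔞 h𝔞 => absurd (Subsingleton.elim _ _) h𝔞)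
  let _ : Unique R := ⟨⟨0⟩, fun _ => Subsingleton.elim _ _⟩
  rw [finsum_unique] at h1
  have h2 := (mul_eq_zero.1 h1).resolve_left (ev_ne_zero _ _)
  rw [Pi.zero_apply, ← h2]
  congr 1
  exact Subsingleton.elim _ _

open Multiplicative in
/-- A function all whose generic Fourier coefficients vanish is invariant under the minimal ideal. -/
theorem wloc_translate [CharP k 3] [IsAlgClosed k] {R : Type} [CommRing R] [Finite R] (h3 : IsUnit (3 : R)) {I : Ideal R}
    (hmin : ∀ 𝔞 : Ideal R, 𝔞 ≠ ⊥ → I ≤ 𝔞) (φ : R → k)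
    (h : ∀ ξ : Multiplicative R →* kˣ, Gen ξ → ∑ᶠ x : R, ev ξ x * φ x = 0)
    {c : R} (hc : c ∈ I) (y : R) : φ (y + c) = φ y := by
  classical
  have := Fintype.ofFinite R
  have key : (fun y => φ (y + c) - φ y) = 0 := by
    apply char_complete h3
    intro ψ
    rw [finsum_eq_sum_of_fintype]
    simp_rw [mul_sub]
    rw [Finset.sum_sub_distrib, sub_eq_zero]
    have htr : ((ψ (ofAdd c) : kˣ) : k) * ∑ y, ((ψ (ofAdd y) : kˣ) : k) * φ (y + c) =
        ∑ y, ((ψ (ofAdd y) : kˣ) : k) * φ y := by
      rw [Finset.mul_sum]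
      refine Fintype.sum_equiv (Equiv.addRight c) _ _ (fun y => ?_)
      rw [Equiv.coe_addRight, ofAdd_add, map_mul, Units.val_mul]
      ring
    by_cases hψ : Gen ψ
    · have h1 := h ψ hψ
      rw [finsum_eq_sum_of_fintype] at h1
      have h2 : ∑ y, ((ψ (ofAdd y) : kˣ) : k) * φ y = 0 := h1
      rw [h2] at htr ⊢
      exact (mul_eq_zero.1 htr).resolve_left (Units.ne_zero _)
    · have h1 : ψ (ofAdd c) = 1 := by
        unfold Gen at hψ
        push Not at hψ
        obtain ⟨𝔞, h𝔞, h2⟩ := hψ
        exact h2 c (hmin 𝔞 h𝔞 hc)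
      rw [h1, Units.val_one, one_mul] at htr
      exact htr
  have := congrFun key y
  simp only [Pi.zero_apply] at this
  exact sub_eq_zero.1 this

theorem propW_local [CharP k 3] [IsAlgClosed k] (R : Type) [CommRing R] [Finite R]
    [IsLocalRing R] (h3 : IsUnit (3 : R)) (I : Ideal R) (hI : I ≠ ⊥)
    (hmin : ∀ 𝔞 : Ideal R, 𝔞 ≠ ⊥ → I ≤ 𝔞) : PropW R k := by
  intro v hprim hsum
  -- invariance under the conjugates of the elementary matrices of the minimal ideal
  have hinv : ∀ g : GL (Fin 2) R, Matrix.GeneralLinearGroup.det g = 1 → ∀ c ∈ I, ∀ y,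
      v (g * up c * g⁻¹ * y) = v y := by
    intro g hg c hc y
    have h1 := wloc_translate (k := k) h3 hmin (fun x => v (g * up x * (g⁻¹ * y)))
      (fun ξ hξ => hsum g (g⁻¹ * y) hg ξ hξ) hc 0
    simp only [zero_add] at h1
    rw [up_zero, mul_one, mul_inv_cancel_left] at h1
    rw [← h1]
    simp only [mul_assoc]
  let H : Subgroup (GL (Fin 2) R) :=
    { carrier := {κ | ∀ y, v (κ * y) = v y}
      mul_mem' := fun {a b} ha hb y => by
        rw [mul_assoc, ha, hb]
      one_mem' := fun y => by rw [one_mul]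
      inv_mem' := fun {a} ha y => by
        have := ha (a⁻¹ * y)
        rw [mul_inv_cancel_left] at this
        exact this.symm }
  obtain ⟨t, ht1, ht2, c, hc1, hc2⟩ := hprim I hI
  funext y
  rw [Pi.zero_apply]
  set κ : GL (Fin 2) R := y * t * y⁻¹ with hκ
  have hM : ∀ i j, (t.val - 1) i j ∈ I := fun i j => by
    rw [Matrix.sub_apply]
    exact ht2 i j
  have hκ1 : ∀ i j, (κ.val - 1) i j ∈ I := by
    intro i j
    have h4 : κ.val - 1 = y.val * (t.val - 1) * (y⁻¹).val := by
      rw [mul_sub, sub_mul, mul_one, ← Units.val_mul, ← Units.val_mul, ← Units.val_mul,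
        mul_inv_cancel, Units.val_one]
    rw [h4, Matrix.mul_apply]
    refine Ideal.sum_mem _ (fun l _ => I.mul_mem_right _ ?_)
    rw [Matrix.mul_apply]
    exact Ideal.sum_mem _ (fun m _ => I.mul_mem_left _ (hM _ _))
  have hκH : κ ∈ H := by
    apply congruence_le hmin H
    · intro g hg x hx y
      exact hinv g hg x hx y
    · rw [hκ, map_mul, map_mul, ht1, mul_one, map_inv, mul_inv_cancel]
    · simpa using hκ1 0 0
    · simpa using hκ1 0 1
    · simpa using hκ1 1 0
    · simpa using hκ1 1 1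
  have h4 : v (κ * y) = v y := hκH y
  rw [hκ, inv_mul_cancel_right, hc2] at h4
  by_contra hv
  exact hc1 (mul_right_cancel₀ hv (by rw [h4, one_mul]))

end SerreW
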